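import Mathlib

set_option autoImplicit false

namespace Pool.Agent.H804

open Filter Topology

variable {X : Type*} [NormedAddCommGroup X] [NormedSpace ℝ X]

/-- second derivative of a composition with a curve -/
lemma chain2 {f : X → ℝ} {γ γ' : ℝ → X} {p c : X} (hf : ContDiffAt ℝ 2 f p) (h0 : γ 0 = p)
    (h1 : ∀ᶠ s in 𝓝 (0:ℝ), HasDerivAt γ (γ' s) s) (h2 : HasDerivAt γ' c 0) :
    (∀ᶠ s in 𝓝 (0:ℝ), HasDerivAt (fun s => f (γ s)) (fderiv ℝ f (γ s) (γ' s)) s) ∧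
    HasDerivAt (fun s => fderiv ℝ f (γ s) (γ' s)) (fderiv ℝ (fderiv ℝ f) p (γ' 0) (γ' 0) + fderiv ℝ f p c) 0 := by
  have hd0 : HasDerivAt γ (γ' 0) 0 := h1.self_of_nhds
  have hcont : ContinuousAt γ 0 := hd0.continuousAt
  have hev : ∀ᶠ y in 𝓝 p, ContDiffAt ℝ 2 f y := hf.eventually (by simp)
  have hev2 : ∀ᶠ s in 𝓝 (0:ℝ), ContDiffAt ℝ 2 f (γ s) := by
    have : Tendsto γ (𝓝 0) (𝓝 p) := by rw [← h0]; exact hcont
    exact this.eventually hev
  constructor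
  · filter_upwards [h1, hev2] with s hs1 hs2
    have : HasFDerivAt f (fderiv ℝ f (γ s)) (γ s) := (hs2.differentiableAt (by simp)).hasFDerivAt
    exact this.comp_hasDerivAt s hs1
  · have h3 : ContDiffAt ℝ 1 (fderiv ℝ f) p := hf.fderiv_right (by norm_num)
    have h4 : HasFDerivAt (fderiv ℝ f) (fderiv ℝ (fderiv ℝ f) p) (γ 0) := by
      rw [h0]; exact (h3.differentiableAt (by simp)).hasFDerivAt
    have h5 : HasDerivAt (fun s => fderiv ℝ f (γ s)) (fderiv ℝ (fderiv ℝ f) p (γ' 0)) 0 := h4.comp_hasDerivAt 0 hd0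
    have h6 := h5.clm_apply h2
    rw [h0] at h6
    exact h6

/-- second order necessary condition at a minimum -/
lemma test2 {φ φ' : ℝ → ℝ} {c : ℝ} (h1 : ∀ᶠ s in 𝓝 (0:ℝ), HasDerivAt φ (φ' s) s) (h2 : HasDerivAt φ' c 0)
    (h3 : ∀ᶠ s in 𝓝 (0:ℝ), φ 0 ≤ φ s) : φ' 0 = 0 ∧ 0 ≤ c := by
  have hmin : IsLocalMin φ 0 := h3
  have hd0 := h1.self_of_nhds
  have e0 : φ' 0 = 0 := hmin.hasDerivAt_eq_zero hd0
  refine ⟨e0, ?_⟩
  by_contra hc
  push Not at hc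
  -- `φ' s < 0` for small positive `s`
  have h4 : ∀ᶠ s in 𝓝[>] (0:ℝ), φ' s < 0 := by
    have h5 := h2.tendsto_slope_zero_right
    have h6 := h5.eventually_lt_const hc
    filter_upwards [h6, self_mem_nhdsWithin] with s hs hs0
    simp only [zero_add, e0, sub_zero, smul_eq_mul] at hs
    have hs0' : 0 < s := hs0
    by_contra hcon
    push Not at hcon
    have : 0 ≤ s⁻¹ * φ' s := by positivity
    linarith
  rw [eventually_nhdsWithin_iff] at h4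
  obtain ⟨ε, hε, hball⟩ := Metric.eventually_nhds_iff.mp (h4.and (h1.and h3))
  have hmem : ∀ s, 0 ≤ s → s < ε → dist s 0 < ε := by
    intro s h h'
    rw [Real.dist_eq, sub_zero, abs_of_nonneg h]; exact h'
  obtain ⟨ξ, ⟨hξ0, hξ1⟩, hξ⟩ := exists_hasDerivAt_eq_slope φ φ' (show (0:ℝ) < ε / 2 by linarith)
    (fun s hs => ((hball (hmem s hs.1 (by linarith [hs.2]))).2.1).continuousAt.continuousWithinAt)
    (fun s hs => (hball (hmem s hs.1.le (by linarith [hs.2]))).2.1)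
  have hneg := (hball (hmem ξ hξ0.le (by linarith))).1 hξ0
  have hge := (hball (hmem (ε/2) (by linarith) (by linarith))).2.2
  rw [hξ] at hneg
  have : 0 ≤ (φ (ε / 2) - φ 0) / (ε / 2 - 0) := by
    apply div_nonneg <;> linarith
  linarith

/-- vanishing of both derivatives for a locally constant function -/
lemma test2_const {φ φ' : ℝ → ℝ} {c : ℝ} (h1 : ∀ᶠ s in 𝓝 (0:ℝ), HasDerivAt φ (φ' s) s) (h2 : HasDerivAt φ' c 0)
    (h3 : ∀ᶠ s in 𝓝 (0:ℝ), φ s = 0) : φ' 0 = 0 ∧ c = 0 := by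
  have h4 : ∀ᶠ s in 𝓝 (0:ℝ), φ' s = 0 := by
    filter_upwards [h1, eventually_eventually_nhds.mpr h3] with s hs1 hs2
    have : φ =ᶠ[𝓝 s] fun _ => 0 := hs2
    exact (hs1.congr_of_eventuallyEq this.symm).unique (hasDerivAt_const s 0)
  refine ⟨h4.self_of_nhds, ?_⟩
  have : φ' =ᶠ[𝓝 0] fun _ => 0 := h4
  exact (h2.congr_of_eventuallyEq this.symm).unique (hasDerivAt_const 0 0)

/-- quadratic upper bound for a function with vanishing derivative -/
lemma quad_bound {φ φ' : ℝ → ℝ} {c : ℝ} (h1 : ∀ᶠ s in 𝓝 (0:ℝ), HasDerivAt φ (φ' s) s) (h2 : HasDerivAt φ' c 0)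
    (h3 : φ' 0 = 0) : ∃ K : ℝ, ∀ᶠ s in 𝓝[>] (0:ℝ), φ s - φ 0 ≤ K * s ^ 2 := by
  -- `φ' s ≤ (c+1) s` for small positive `s`
  have h4 : ∀ᶠ s in 𝓝[>] (0:ℝ), φ' s ≤ (|c| + 1) * s := by
    have h5 := h2.tendsto_slope_zero_right
    have h6 := h5.eventually_lt_const (show c < |c| + 1 by linarith [le_abs_self c])
    filter_upwards [h6, self_mem_nhdsWithin] with s hs hs0
    simp only [zero_add, h3, sub_zero, smul_eq_mul] at hs
    have hs0' : 0 < s := hs0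
    rw [inv_mul_lt_iff₀ hs0'] at hs
    linarith
  rw [eventually_nhdsWithin_iff] at h4
  obtain ⟨ε, hε, hball⟩ := Metric.eventually_nhds_iff.mp (h4.and h1)
  refine ⟨|c| + 1, ?_⟩
  filter_upwards [Ioo_mem_nhdsGT hε] with s hs
  have hmem : ∀ r, 0 ≤ r → r ≤ s → dist r 0 < ε := by
    intro r h h'
    rw [Real.dist_eq, sub_zero, abs_of_nonneg h]; linarith [hs.2]
  obtain ⟨ξ, ⟨hξ0, hξ1⟩, hξ⟩ := exists_hasDerivAt_eq_slope φ φ' hs.1
    (fun r hr => ((hball (hmem r hr.1 hr.2)).2).continuousAt.continuousWithinAt)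
    (fun r hr => (hball (hmem r hr.1.le hr.2.le)).2)
  have h5 := (hball (hmem ξ hξ0.le hξ1.le)).1 hξ0
  rw [hξ, sub_zero, div_le_iff₀ hs.1] at h5
  have : 0 ≤ |c| + 1 := by positivity
  calc φ s - φ 0 ≤ (|c| + 1) * ξ * s := h5
    _ ≤ (|c| + 1) * s * s := by
      have := hs.1.le
      gcongr
    _ = (|c| + 1) * s ^ 2 := by ring

end Pool.Agent.H804
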