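import Pool.Agent.H804.Base
import Pool.Agent.H804.Calc

set_option autoImplicit false

namespace Pool.Agent.H804

open Filter Topology

/-- strict sign rule for the vertical direction -/
lemma N4_pos {x N : V} (hx : B x x = -1) (hx4 : x 4 ^ 2 < 1) (hx3 : 0 < x 3) (h1 : B x N = 0) (h2 : B N N < 0)
    (h3 : 0 < om x N) : 0 < N 4 := by
  set e4 : V := ![0, 0, 0, 0, 1] with he4
  set v : V := e4 + (-(x 4)) • x with hv
  have b1 : B x e4 = - x 4 := by simp [B, he4]
  have b2 : B e4 e4 = -1 := by simp [B, he4]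
  have b3 : B N e4 = - N 4 := by simp [B, he4]
  have o1 : om x e4 = x 3 := by simp [om, he4]
  have c1 : B x v = 0 := by rw [hv, B_add_right, B_smul_right, b1, hx]; ring
  have c2 : B v v < 0 := by
    rw [hv]
    simp only [B_add_left, B_add_right, B_smul_left, B_smul_right, hx, b2, b1, B_comm e4 x]
    linarith
  have c3 : om x v = x 3 := by rw [hv, om_add_right, om_smul_right, o1, om_self]; ring
  have c4 : B N v = - N 4 := by rw [hv, B_add_right, B_smul_right, b3, B_comm N x, h1]; ring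
  have hxn : B x x < 0 := by rw [hx]; norm_num
  have d1 : 0 ≤ B (-N) v := by
    apply sign_rule hxn (by rw [B_neg_right, h1]; simp) c1 (by rw [B_neg_left, B_neg_right]; linarith) c2.le
    · have : om x (-N) = - om x N := by simp [om]; ring
      rw [this]; linarith
    · rw [c3]; exact hx3.le
  rw [B_neg_left, c4, neg_neg] at d1
  rcases d1.lt_or_eq with h | h
  · exact h
  exfalso
  have hNv : B N v = 0 := by rw [c4, ← h]; simp
  set w : V := (om x N) • v + (-(om x v)) • N with hw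
  have w1 : B x w = 0 := by rw [hw, B_add_right, B_smul_right, B_smul_right, c1, h1]; ring
  have w2 : om x w = 0 := by rw [hw, om_add_right, om_smul_right, om_smul_right]; ring
  have w3 : B w w < 0 := by
    rw [hw]
    simp only [B_add_left, B_add_right, B_smul_left, B_smul_right, hNv, B_comm v N]
    have : 0 < (om x N) ^ 2 := by positivity
    nlinarith [mul_nonneg (sq_nonneg (om x v)) (neg_nonneg.mpr h2.le)]
  have w0 : w ≠ 0 := by rintro h; rw [h] at w3; simp at w3
  exact om_ne_zero hxn w1 w3.le w0 w2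

/-- bilinear form as a continuous linear map -/
noncomputable def BL (x : V) : V →L[ℝ] ℝ :=
  LinearMap.toContinuousLinearMap
    { toFun := fun v => B x v
      map_add' := fun u v => B_add_right x u v
      map_smul' := fun c v => by rw [B_smul_right]; rfl }

@[simp] lemma BL_apply (x v : V) : BL x v = B x v := rfl

lemma contDiff_Bself : ContDiff ℝ 2 (fun z : V => B z z) := by
  have h : ∀ i : Fin 5, ContDiff ℝ 2 (fun z : V => z i) := fun i => contDiff_apply ℝ ℝ i
  unfold B
  exact (((((h 0).mul (h 0)).add (contDiff_const.mul ((h 1).mul (h 1)))).add (contDiff_const.mul ((h 2).mul (h 2)))).sub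
    ((h 3).mul (h 3))).sub ((h 4).mul (h 4))

lemma hasFDerivAt_Bself (x : V) : HasFDerivAt (fun z : V => B z z) ((2:ℝ) • BL x) x := by
  have h : ∀ i : Fin 5, HasFDerivAt (fun z : V => z i) (ContinuousLinearMap.proj (R := ℝ) (φ := fun _ : Fin 5 => ℝ) i) x :=
    fun i => (ContinuousLinearMap.proj (R := ℝ) (φ := fun _ : Fin 5 => ℝ) i).hasFDerivAt
  have h2 := (((((h 0).mul (h 0)).add (((h 1).mul (h 1)).const_mul 3)).add (((h 2).mul (h 2)).const_mul 3)).sub
    ((h 3).mul (h 3))).sub ((h 4).mul (h 4))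
  refine h2.congr_fderiv ?_
  ext v
  simp [B]
  ring

lemma contDiffAt_nz {x : V} (hx : B x x < 0) : ContDiffAt ℝ 2 nz x := by
  have h1 : ContDiffAt ℝ 2 (fun z : V => -(B z z)) x := contDiff_Bself.contDiffAt.neg
  have h2 : ContDiffAt ℝ 2 (fun z : V => Real.sqrt (-(B z z))) x := h1.sqrt (by linarith)
  have h3 : ContDiffAt ℝ 2 (fun z : V => (Real.sqrt (-(B z z)))⁻¹) x :=
    h2.inv (Real.sqrt_pos.mpr (by linarith)).ne'
  exact h3.smul contDiffAt_id

lemma hasFDerivAt_nz {x : V} (hx : B x x = -1) :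
    HasFDerivAt nz (ContinuousLinearMap.id ℝ V + (BL x).smulRight x) x := by
  have h1 : HasFDerivAt (fun z : V => -(B z z)) (-((2:ℝ) • BL x)) x := (hasFDerivAt_Bself x).neg
  have h2 := h1.sqrt (by rw [hx]; norm_num)
  have h3 : HasFDerivAt (fun z : V => (Real.sqrt (-(B z z)))⁻¹) (BL x) x := by
    have h4 : HasDerivAt (fun y : ℝ => y⁻¹) (-(Real.sqrt (-(B x x)) ^ 2)⁻¹) (Real.sqrt (-(B x x))) :=
      hasDerivAt_inv (by rw [hx]; simp)
    have h5 := h4.comp_hasFDerivAt x h2
    refine h5.congr_fderiv ?_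
    ext v
    simp [hx]
  have h6 := h3.smul (hasFDerivAt_id x)
  refine h6.congr_fderiv ?_
  ext v
  simp [hx]

/-- The Hessian of the degree-zero extension. -/
lemma F_rel {f : V → ℝ} {x : V} (hf : ContDiffAt ℝ 2 f x) (hx : B x x = -1) :
    ContDiffAt ℝ 2 (fun z => f (nz z)) x ∧
    (∀ v, fderiv ℝ (fun z => f (nz z)) x v = fderiv ℝ f x (v + B x v • x)) ∧
    (∀ u, B x u = 0 → fderiv ℝ (fderiv ℝ (fun z => f (nz z))) x u u =
      fderiv ℝ (fderiv ℝ f) x u u + B u u * fderiv ℝ f x x) := by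
  have hnz : nz x = x := nz_of_neg_one hx
  have hxn : B x x < 0 := by rw [hx]; norm_num
  have hF : ContDiffAt ℝ 2 (fun z => f (nz z)) x := by
    apply ContDiffAt.comp x _ (contDiffAt_nz hxn)
    rw [hnz]; exact hf
  refine ⟨hF, ?_, ?_⟩
  · intro v
    have h1 : HasFDerivAt f (fderiv ℝ f x) (nz x) := by
      rw [hnz]; exact (hf.differentiableAt (by simp)).hasFDerivAt
    have h2 := h1.comp x (hasFDerivAt_nz hx)
    have h3 : fderiv ℝ (fun z => f (nz z)) x = _ := h2.fderiv
    rw [h3]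
    simp
  · intro u hu
    set k := B u u with hk
    set lam : ℝ → ℝ := fun s => (Real.sqrt (1 - k * s ^ 2))⁻¹ with hlam
    have hpos : ∀ᶠ s in 𝓝 (0:ℝ), 0 < 1 - k * s ^ 2 := by
      have hc : Continuous fun s : ℝ => 1 - k * s ^ 2 := by fun_prop
      have : Tendsto (fun s : ℝ => 1 - k * s ^ 2) (𝓝 0) (𝓝 (1 - k * 0 ^ 2)) := hc.tendsto 0
      exact this.eventually_const_lt (by norm_num)
    have hlamd : ∀ᶠ s in 𝓝 (0:ℝ), HasDerivAt lam (k * s * (lam s) ^ 3) s := by
      filter_upwards [hpos] with s hs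
      have h1 : HasDerivAt (fun s : ℝ => 1 - k * s ^ 2) (-(2 * k * s)) s := by
        exact (((hasDerivAt_pow 2 s).const_mul k).const_sub 1).congr_deriv (by simp; ring)
      have h2 := h1.sqrt hs.ne'
      have h3 := h2.fun_inv (Real.sqrt_pos.mpr hs).ne'
      refine h3.congr_deriv ?_
      simp only [hlam]
      have := (Real.sqrt_pos.mpr hs).ne'
      field_simp
    have hlam0 : lam 0 = 1 := by simp [hlam]
    have hnzl : ∀ᶠ s in 𝓝 (0:ℝ), nz (x + s • u) = lam s • (x + s • u) := by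
      filter_upwards with s
      unfold nz
      congr 3
      simp only [B_add_left, B_add_right, B_smul_left, B_smul_right, hx, hu, B_comm u x]
      ring
    -- curve for `f`
    have c1 : (∀ᶠ s in 𝓝 (0:ℝ), HasDerivAt (fun s => lam s • (x + s • u))
        (lam s • u + (k * s * (lam s) ^ 3) • (x + s • u)) s) := by
      filter_upwards [hlamd] with s hs
      have h1 : HasDerivAt (fun s : ℝ => x + s • u) u s := by
        have := (hasDerivAt_id s).smul_const u
        simpa using this.const_add x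
      exact hs.fun_smul h1
    have c2 : HasDerivAt (fun s => lam s • u + (k * s * (lam s) ^ 3) • (x + s • u)) (k • x) 0 := by
      have h0 := hlamd.self_of_nhds
      have e0 : k * 0 * (lam 0) ^ 3 = 0 := by ring
      rw [e0] at h0
      have h1 : HasDerivAt (fun s : ℝ => x + s • u) u 0 := by
        have := (hasDerivAt_id (0:ℝ)).smul_const u
        simpa using this.const_add x
      have h2 : HasDerivAt (fun s => k * s * (lam s) ^ 3) k 0 := by
        have h3 : HasDerivAt (fun s : ℝ => k * s) k 0 := by simpa using (hasDerivAt_id (0:ℝ)).const_mul k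
        have h4 := h3.fun_mul (h0.fun_pow 3)
        exact h4.congr_deriv (by simp [hlam0])
      have h5 := (h0.smul_const u).fun_add (h2.fun_smul h1)
      exact h5.congr_deriv (by simp)
    obtain ⟨d1, d2⟩ := chain2 (γ := fun s => lam s • (x + s • u)) hf (by simp [hlam0]) c1 c2
    -- straight line for `F`
    have l1 : ∀ᶠ s in 𝓝 (0:ℝ), HasDerivAt (fun s : ℝ => x + s • u) ((fun _ : ℝ => u) s) s := by
      filter_upwards with s
      have := (hasDerivAt_id s).smul_const u
      simpa using this.const_add x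
    have l2 : HasDerivAt (fun _ : ℝ => u) (0 : V) 0 := hasDerivAt_const 0 u
    obtain ⟨d3, d4⟩ := chain2 (γ := fun s => x + s • u) (γ' := fun _ => u) hF (by simp) l1 l2
    -- the two first derivatives agree
    have hagree : (fun s => fderiv ℝ f (lam s • (x + s • u)) (lam s • u + (k * s * (lam s) ^ 3) • (x + s • u)))
        =ᶠ[𝓝 0] fun s => fderiv ℝ (fun z => f (nz z)) (x + s • u) u := by
      filter_upwards [d1, d3, eventually_eventually_nhds.mpr hnzl] with s h1 h3 h4
      have h5 : (fun s => f (lam s • (x + s • u))) =ᶠ[𝓝 s] fun s => f (nz (x + s • u)) := by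
        filter_upwards [h4] with r hr
        rw [hr]
      exact (h1.congr_of_eventuallyEq h5.symm).unique h3
    have h6 := (d2.congr_of_eventuallyEq hagree.symm).unique d4
    simp only [hlam0, mul_zero, zero_mul, zero_smul, add_zero, one_smul, map_smul, smul_eq_mul, map_zero] at h6
    linarith

/-- `vt` as a continuous linear map -/
noncomputable def vtL : Bs × ℝ →L[ℝ] V :=
  LinearMap.toContinuousLinearMap
    { toFun := fun p => vt p.1 p.2
      map_add' := fun _ _ => vt_add _ _ _ _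
      map_smul' := fun c p => vt_smul c p.1 p.2 }

@[simp] lemma vtL_apply (b : Bs) (s : ℝ) : vtL (b, s) = vt b s := rfl

lemma graph_C2 {F : V → ℝ} {h : Bs → ℝ} {b : Bs} {N : V} (hF : ContDiffAt ℝ 2 F (vt b (h b)))
    (hd : ∀ v, fderiv ℝ F (vt b (h b)) v = B N v) (hN : N 4 ≠ 0) (hc : ContinuousAt h b)
    (h0 : ∀ᶠ b' in 𝓝 b, F (vt b' (h b')) = 0) : ContDiffAt ℝ 2 h b := by
  set Φ : Bs × ℝ → ℝ := fun p => F (vtL p) with hΦ
  have cdf : ContDiffAt ℝ 2 Φ (b, h b) := by
    apply ContDiffAt.comp (g := F) (f := fun p => vtL p) (b, h b)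
    · exact hF
    · exact vtL.contDiff.contDiffAt
  have hfd : fderiv ℝ Φ (b, h b) = (fderiv ℝ F (vt b (h b))).comp vtL := by
    have h1 : HasFDerivAt F (fderiv ℝ F (vt b (h b))) (vtL (b, h b)) := (hF.differentiableAt (by simp)).hasFDerivAt
    exact (h1.comp (b, h b) vtL.hasFDerivAt).fderiv
  have hinv : (fderiv ℝ Φ (b, h b) ∘L .inr ℝ Bs ℝ).IsInvertible := by
    refine ⟨ContinuousLinearEquiv.unitsEquivAut ℝ (Units.mk0 (-(N 4)) (neg_ne_zero.mpr hN)), ?_⟩
    ext
    rw [hfd]
    refine Eq.trans ?_ (hd (vt 0 1)).symm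
    simp [B, vt]
  set ψ := cdf.implicitFunction (by simp) hinv with hψ
  have e1 : ContDiffAt ℝ 2 ψ b := cdf.contDiffAt_implicitFunction (by simp) hinv
  have e2 := cdf.eventually_apply_eq_iff_implicitFunction (by simp) hinv
  have hc2 : Tendsto (fun b' => (b', h b')) (𝓝 b) (𝓝 (b, h b)) := by
    exact (continuousAt_id.prodMk hc).tendsto
  have e3 := hc2.eventually e2
  have hb0 : F (vt b (h b)) = 0 := h0.self_of_nhds
  have e4 : h =ᶠ[𝓝 b] ψ := by
    filter_upwards [e3, h0] with b' h1 h2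
    symm
    apply h1.mp
    show F (vtL (b', h b')) = F (vtL (b, h b))
    rw [vtL_apply, vtL_apply, h2, hb0]
  exact e1.congr_of_eventuallyEq e4

lemma chain_line {h : Bs → ℝ} {b : Bs} (hh : ContDiffAt ℝ 2 h b) (β : Bs) :
    (∀ᶠ s in 𝓝 (0:ℝ), HasDerivAt (fun s => h (b + s • β)) (fderiv ℝ h (b + s • β) β) s) ∧
    HasDerivAt (fun s : ℝ => fderiv ℝ h (b + s • β) β) (fderiv ℝ (fderiv ℝ h) b β β) 0 := by
  have l1 : ∀ᶠ s in 𝓝 (0:ℝ), HasDerivAt (fun s : ℝ => b + s • β) ((fun _ : ℝ => β) s) s :=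
    Eventually.of_forall fun s => line_deriv b β s
  have l2 : HasDerivAt (fun _ : ℝ => β) (0 : Bs) 0 := hasDerivAt_const 0 β
  obtain ⟨d3, d4⟩ := chain2 (γ := fun s => b + s • β) (γ' := fun _ => β) hh (by simp) l1 l2
  refine ⟨d3, ?_⟩
  simpa using d4

lemma hasDerivAt_vt {γ : ℝ → Bs} {k : ℝ → ℝ} {γ' : Bs} {k' s : ℝ} (h1 : HasDerivAt γ γ' s)
    (h2 : HasDerivAt k k' s) : HasDerivAt (fun s => vt (γ s) (k s)) (vt γ' k') s := by
  have h : HasFDerivAt (fun p => vtL p) vtL (γ s, k s) := vtL.hasFDerivAt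
  have h3 := h.comp_hasDerivAt s (h1.prodMk h2)
  exact h3

lemma graph_forms {F : V → ℝ} {h : Bs → ℝ} {b : Bs} {N : V} (hF : ContDiffAt ℝ 2 F (vt b (h b)))
    (hd : ∀ v, fderiv ℝ F (vt b (h b)) v = B N v) (hh2 : ContDiffAt ℝ 2 h b)
    (h0 : ∀ᶠ b' in 𝓝 b, F (vt b' (h b')) = 0) (β : Bs) :
    B N (vt β (fderiv ℝ h b β)) = 0 ∧
    fderiv ℝ (fderiv ℝ F) (vt b (h b)) (vt β (fderiv ℝ h b β)) (vt β (fderiv ℝ h b β)) =
      N 4 * fderiv ℝ (fderiv ℝ h) b β β := by
  obtain ⟨d1, d2⟩ := chain_line hh2 β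
  have c1 : ∀ᶠ s in 𝓝 (0:ℝ), HasDerivAt (fun s : ℝ => vt (b + s • β) (h (b + s • β)))
      (vt β (fderiv ℝ h (b + s • β) β)) s := by
    filter_upwards [d1] with s hs
    exact hasDerivAt_vt (line_deriv b β s) hs
  have c2 : HasDerivAt (fun s : ℝ => vt β (fderiv ℝ h (b + s • β) β)) (vt 0 (fderiv ℝ (fderiv ℝ h) b β β)) 0 :=
    hasDerivAt_vt (hasDerivAt_const 0 β) d2
  obtain ⟨e1, e2⟩ := chain2 (γ := fun s : ℝ => vt (b + s • β) (h (b + s • β))) hF (by simp) c1 c2
  have h00 : ∀ᶠ s in 𝓝 (0:ℝ), F (vt (b + s • β) (h (b + s • β))) = 0 := by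
    have hc : Tendsto (fun s : ℝ => b + s • β) (𝓝 0) (𝓝 b) := by
      have : Continuous fun s : ℝ => b + s • β := by fun_prop
      have h := this.tendsto 0
      simpa using h
    exact hc.eventually h0
  obtain ⟨f1, f2⟩ := test2_const e1 e2 h00
  simp only [zero_smul, add_zero] at f1 f2
  rw [hd] at f1 f2
  refine ⟨f1, ?_⟩
  have : B N (vt 0 (fderiv ℝ (fderiv ℝ h) b β β)) = - (N 4 * fderiv ℝ (fderiv ℝ h) b β β) := by
    simp [B, vt]
  rw [this] at f2
  linarith

end Pool.Agent.H804
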