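import Mathlib

set_option autoImplicit false

namespace Pool.Agent.H804

lemma sum3_zero {x y z : ℝ} (h : x^2 + y^2 + z^2 = 0) : x = 0 ∧ y = 0 ∧ z = 0 := by
  refine ⟨?_, ?_, ?_⟩ <;> (apply pow_eq_zero_iff (two_ne_zero) |>.mp; linarith [sq_nonneg x, sq_nonneg y, sq_nonneg z])

lemma posdef_aux {a b c d e : ℝ} (hq : a^2 + b^2 + 2*c^2 + 2*d^2 + 2*e^2 - a*b - 2*a*c - 2*b*c - 2*c*d - 2*c*e - 8*d*e = 0)
    (hA : a = 0 ∨ b = 0 ∨ c = 0) (hB : d = 0 ∨ e = 0) : a = 0 ∧ b = 0 ∧ c = 0 ∧ d = 0 ∧ e = 0 := by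
  rcases hA with h | h | h <;> rcases hB with h' | h'
  · have : (b-c)^2 + (c-e)^2 + e^2 = 0 := by rw [h, h'] at hq; linarith
    obtain ⟨h1, h2, h3⟩ := sum3_zero this
    refine ⟨h, ?_, ?_, h', h3⟩ <;> linarith
  · have : (b-c)^2 + (c-d)^2 + d^2 = 0 := by rw [h, h'] at hq; linarith
    obtain ⟨h1, h2, h3⟩ := sum3_zero this
    refine ⟨h, ?_, ?_, h3, h'⟩ <;> linarith
  · have : (a-c)^2 + (c-e)^2 + e^2 = 0 := by rw [h, h'] at hq; linarith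
    obtain ⟨h1, h2, h3⟩ := sum3_zero this
    refine ⟨?_, h, ?_, h', h3⟩ <;> linarith
  · have : (a-c)^2 + (c-d)^2 + d^2 = 0 := by rw [h, h'] at hq; linarith
    obtain ⟨h1, h2, h3⟩ := sum3_zero this
    refine ⟨?_, h, ?_, h3, h'⟩ <;> linarith
  · have : (a-b/2)^2 + ((4/5)*b)^2 + ((11/100)*b^2 + 2 * e^2) = 0 := by rw [h, h'] at hq; linarith
    have h1 : b^2 = 0 := by linarith [sq_nonneg (a-b/2), sq_nonneg b, sq_nonneg e]
    have h2 : e^2 = 0 := by linarith [sq_nonneg (a-b/2), sq_nonneg b, sq_nonneg e]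
    have h1' : b = 0 := by simpa using h1
    have h2' : e = 0 := by simpa using h2
    have h3 : a^2 = 0 := by rw [h1', h2'] at this; linarith
    exact ⟨by simpa using h3, h1', h, h', h2'⟩
  · have : (a-b/2)^2 + ((4/5)*b)^2 + ((11/100)*b^2 + 2 * d^2) = 0 := by rw [h, h'] at hq; linarith
    have h1 : b^2 = 0 := by linarith [sq_nonneg (a-b/2), sq_nonneg b, sq_nonneg d]
    have h2 : d^2 = 0 := by linarith [sq_nonneg (a-b/2), sq_nonneg b, sq_nonneg d]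
    have h1' : b = 0 := by simpa using h1
    have h2' : d = 0 := by simpa using h2
    have h3 : a^2 = 0 := by rw [h1', h2'] at this; linarith
    exact ⟨by simpa using h3, h1', h, h2', h'⟩

/-- numerical core of the lower bound -/
lemma kappa_num {P T W k E1 g κ d : ℝ} (hP : 0 < P) (hT : 0 < T) (h729 : 729 * P ≤ T) (hW : 0 ≤ W)
    (hW2 : 36 * W ^ 2 ≤ P) (hW6 : W ^ 6 * (64 * T) = P ^ 4) (hn : P - T - k * k = -1)
    (hE : E1 = P - 16 / 9 * W ^ 2 + (P - 4 / 3 * W * k) ^ 2)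
    (hg2 : T * g ^ 2 ≤ T + (k - 4 / 3 * W) ^ 2)
    (hd : 16 / 81 * W ^ 3 ≤ d * (E1 * P * T)) (hκ : κ * g ^ 3 = -d) : 1 / 10 ^ 6 ≤ κ ^ 2 := by
  have hk : k ^ 2 = 1 + P - T := by linarith
  have hT1 : T ≤ 1 + P := by linarith [sq_nonneg k]
  have hP1 : 728 * P ≤ 1 := by linarith
  have hk2 : k ^ 2 ≤ 1 + P := by linarith
  have hE0 : 0 < E1 := by
    rw [hE]
    have := sq_nonneg (P - 4 / 3 * W * k)
    linarith
  have hWk : W ^ 2 * k ^ 2 ≤ P / 36 * (1 + P) := by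
    apply mul_le_mul _ hk2 (sq_nonneg _) (by positivity)
    linarith
  have hE2 : E1 ≤ 2 * P := by
    have h1 : (P - 4 / 3 * W * k) ^ 2 ≤ 2 * P ^ 2 + 32 / 9 * (W ^ 2 * k ^ 2) := by
      linarith [sq_nonneg (P + 4 / 3 * W * k)]
    have h2 : P ^ 2 ≤ P / 728 := by nlinarith
    have h3 := sq_nonneg W
    rw [hE]
    have h4 : P / 36 * (1 + P) ≤ P / 36 * (1 + 1 / 728) := by
      apply mul_le_mul_of_nonneg_left _ (by positivity)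
      linarith
    linarith
  have hR : T * g ^ 2 ≤ 3 := by
    have h1 : (k - 4 / 3 * W) ^ 2 ≤ 2 * k ^ 2 + 32 / 9 * W ^ 2 := by
      linarith [sq_nonneg (k + 4 / 3 * W)]
    linarith
  -- squares
  have h1 : (16 / 81 * W ^ 3) ^ 2 ≤ (d * (E1 * P * T)) ^ 2 := by
    apply pow_le_pow_left₀ (by positivity) hd
  have h2 : d ^ 2 = κ ^ 2 * g ^ 6 := by
    have : d = -(κ * g ^ 3) := by linarith
    rw [this]; ring
  have h3 : (T * g ^ 2) ^ 3 ≤ 27 := by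
    have : 0 ≤ T * g ^ 2 := by positivity
    calc (T * g ^ 2) ^ 3 ≤ 3 ^ 3 := pow_le_pow_left₀ this hR 3
      _ = 27 := by norm_num
  have h4 : E1 ^ 2 ≤ 4 * P ^ 2 := by
    calc E1 ^ 2 ≤ (2 * P) ^ 2 := pow_le_pow_left₀ hE0.le hE2 2
      _ = 4 * P ^ 2 := by ring
  have h5 : 4 / 6561 * P ^ 4 ≤ κ ^ 2 * ((T * g ^ 2) ^ 3 * E1 ^ 2 * P ^ 2) := by
    have e1 : (16 / 81 * W ^ 3) ^ 2 * T = 4 / 6561 * P ^ 4 := by
      rw [← hW6]; ring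
    have e2 : (d * (E1 * P * T)) ^ 2 * T = κ ^ 2 * ((T * g ^ 2) ^ 3 * E1 ^ 2 * P ^ 2) := by
      have : (d * (E1 * P * T)) ^ 2 * T = d ^ 2 * (E1 ^ 2 * P ^ 2 * T ^ 3) := by ring
      rw [this, h2]; ring
    rw [← e1, ← e2]
    exact mul_le_mul_of_nonneg_right h1 hT.le
  have h6 : (T * g ^ 2) ^ 3 * E1 ^ 2 * P ^ 2 ≤ 108 * P ^ 4 := by
    calc (T * g ^ 2) ^ 3 * E1 ^ 2 * P ^ 2 ≤ 27 * (4 * P ^ 2) * P ^ 2 := by gcongr
      _ = 108 * P ^ 4 := by ring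
  have h7 : 4 / 6561 * P ^ 4 ≤ κ ^ 2 * 108 * P ^ 4 := by
    calc 4 / 6561 * P ^ 4 ≤ κ ^ 2 * ((T * g ^ 2) ^ 3 * E1 ^ 2 * P ^ 2) := h5
      _ ≤ κ ^ 2 * (108 * P ^ 4) := mul_le_mul_of_nonneg_left h6 (sq_nonneg κ)
      _ = _ := by ring
  have h8 : 4 / 6561 ≤ κ ^ 2 * 108 := le_of_mul_le_mul_right h7 (by positivity)
  have h9 : (1:ℝ) / 10 ^ 6 ≤ 4 / 6561 / 108 := by norm_num
  linarith

end Pool.Agent.H804
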