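import Pool.Agent.H804.Frame
import Pool.Agent.H804.GraphC
import Pool.Agent.H804.Num

set_option autoImplicit false

namespace Pool.Agent.H804

open Filter Topology Matrix

/-- linear functional with given coefficients -/
noncomputable def lin (c0 c1 c2 c3 : ℝ) : Bs →L[ℝ] ℝ :=
  c0 • ContinuousLinearMap.proj (R := ℝ) (φ := fun _ : Fin 4 => ℝ) 0 +
  c1 • ContinuousLinearMap.proj (R := ℝ) (φ := fun _ : Fin 4 => ℝ) 1 +
  c2 • ContinuousLinearMap.proj (R := ℝ) (φ := fun _ : Fin 4 => ℝ) 2 +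
  c3 • ContinuousLinearMap.proj (R := ℝ) (φ := fun _ : Fin 4 => ℝ) 3

lemma lin_apply (c0 c1 c2 c3 : ℝ) (β : Bs) : lin c0 c1 c2 c3 β = c0 * β 0 + c1 * β 1 + c2 * β 2 + c3 * β 3 := by
  simp [lin]

noncomputable def pL (b : Bs) : Bs →L[ℝ] ℝ := lin (b 0 / Pf b) (3 * b 1 / Pf b) 0 0

noncomputable def qL (b : Bs) : Bs →L[ℝ] ℝ := lin 0 0 (-(3 * b 2) / Tf b) (b 3 / Tf b)

noncomputable def aL (b : Bs) : Bs →L[ℝ] ℝ := lin (-(√3 * b 1) / Pf b) (√3 * b 0 / Pf b) 0 0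

noncomputable def bL (b : Bs) : Bs →L[ℝ] ℝ := lin 0 0 (√3 * b 3 / Tf b) (-(√3 * b 2) / Tf b)

/-- the power barrier function -/
noncomputable def Wf (b : Bs) : ℝ := (1 / 2) * (Pf b) ^ (2 / 3 : ℝ) * (Tf b) ^ (-(1 / 6) : ℝ)

lemma Pf_nonneg (b : Bs) : 0 ≤ Pf b := by unfold Pf; positivity

lemma Pf_smul (r : ℝ) (b : Bs) : Pf (r • b) = r ^ 2 * Pf b := by simp [Pf]; ring

lemma Tf_smul (r : ℝ) (b : Bs) : Tf (r • b) = r ^ 2 * Tf b := by simp [Tf]; ring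

lemma Wf_smul {b : Bs} {r : ℝ} (hr : 0 < r) (hT : 0 < Tf b) : Wf (r • b) = r * Wf b := by
  unfold Wf
  rw [Pf_smul, Tf_smul, Real.mul_rpow (by positivity) (Pf_nonneg b), Real.mul_rpow (by positivity) hT.le,
    ← Real.rpow_natCast, ← Real.rpow_mul hr.le, ← Real.rpow_mul hr.le]
  have : r ^ (((2:ℕ):ℝ) * (2 / 3 : ℝ)) * r ^ (((2:ℕ):ℝ) * (-(1 / 6) : ℝ)) = r := by
    rw [← Real.rpow_add hr]
    norm_num
  calc 1 / 2 * (r ^ (((2:ℕ):ℝ) * (2 / 3 : ℝ)) * Pf b ^ (2 / 3 : ℝ)) * (r ^ (((2:ℕ):ℝ) * (-(1 / 6) : ℝ)) * Tf b ^ (-(1 / 6) : ℝ))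
      = (r ^ (((2:ℕ):ℝ) * (2 / 3 : ℝ)) * r ^ (((2:ℕ):ℝ) * (-(1 / 6) : ℝ))) * (1 / 2 * Pf b ^ (2 / 3 : ℝ) * Tf b ^ (-(1 / 6) : ℝ)) := by ring
    _ = _ := by rw [this]

lemma Wf_pow6 {b : Bs} (hT : 0 < Tf b) : Wf b ^ 6 * (64 * Tf b) = Pf b ^ 4 := by
  unfold Wf
  rw [mul_pow, mul_pow, ← Real.rpow_natCast (Pf b ^ (2 / 3 : ℝ)) 6, ← Real.rpow_mul (Pf_nonneg b),
    ← Real.rpow_natCast (Tf b ^ (-(1 / 6) : ℝ)) 6, ← Real.rpow_mul hT.le]
  have e1 : (2 / 3 : ℝ) * ((6:ℕ):ℝ) = ((4:ℕ):ℝ) := by norm_num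
  have e2 : (-(1 / 6) : ℝ) * ((6:ℕ):ℝ) = -1 := by norm_num
  rw [e1, e2, Real.rpow_natCast, Real.rpow_neg_one]
  field_simp
  norm_num
  ring

lemma Wf_nonneg {b : Bs} (hT : 0 < Tf b) : 0 ≤ Wf b := by
  unfold Wf
  have := Pf_nonneg b
  positivity

lemma Wf_pos {b : Bs} (hP : 0 < Pf b) (hT : 0 < Tf b) : 0 < Wf b := by
  unfold Wf
  positivity

lemma Wf_zero {b : Bs} (hP : Pf b = 0) : Wf b = 0 := by
  unfold Wf
  rw [hP, Real.zero_rpow (by norm_num)]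
  ring

/-- sharp size of the barrier in the tube -/
lemma Wf_sq_le {b : Bs} (hT : 0 < Tf b) (h : 729 * Pf b ≤ Tf b) : 36 * Wf b ^ 2 ≤ Pf b := by
  have h6 := Wf_pow6 hT
  have hP := Pf_nonneg b
  have h1 : (36 * Wf b ^ 2) ^ 3 ≤ (Pf b) ^ 3 := by
    have e : (36 * Wf b ^ 2) ^ 3 * Tf b = 729 * (Wf b ^ 6 * (64 * Tf b)) := by ring
    rw [h6] at e
    have h2 : (36 * Wf b ^ 2) ^ 3 * Tf b ≤ Pf b ^ 3 * Tf b := by
      rw [e]
      calc 729 * Pf b ^ 4 = (729 * Pf b) * Pf b ^ 3 := by ring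
        _ ≤ Tf b * Pf b ^ 3 := by gcongr
        _ = _ := by ring
    exact le_of_mul_le_mul_right h2 hT
  exact le_of_pow_le_pow_left₀ (by norm_num) hP h1

/-- bilinear versions -/
def Pb (b c : Bs) : ℝ := b 0 * c 0 + 3 * (b 1 * c 1)

def Tb (b c : Bs) : ℝ := b 3 * c 3 - 3 * (b 2 * c 2)

lemma Pf_line (b β : Bs) (s : ℝ) : HasDerivAt (fun s : ℝ => Pf (b + s • β)) (2 * Pb (b + s • β) β) s := by
  have h0 : ∀ i : Fin 4, HasDerivAt (fun s : ℝ => (b + s • β) i) (β i) s := fun i => (hasDerivAt_pi.mp (line_deriv b β s)) i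
  have h1 := ((h0 0).fun_pow 2).fun_add (((h0 1).fun_pow 2).const_mul 3)
  refine h1.congr_deriv ?_
  simp [Pb]; ring

lemma Tf_line (b β : Bs) (s : ℝ) : HasDerivAt (fun s : ℝ => Tf (b + s • β)) (2 * Tb (b + s • β) β) s := by
  have h0 : ∀ i : Fin 4, HasDerivAt (fun s : ℝ => (b + s • β) i) (β i) s := fun i => (hasDerivAt_pi.mp (line_deriv b β s)) i
  have h1 := ((h0 3).fun_pow 2).fun_sub (((h0 2).fun_pow 2).const_mul 3)
  refine h1.congr_deriv ?_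
  simp [Tb]; ring

lemma Pb_line (b β : Bs) (s : ℝ) : HasDerivAt (fun s : ℝ => 2 * Pb (b + s • β) β) (2 * Pb β β) s := by
  have h0 : ∀ i : Fin 4, HasDerivAt (fun s : ℝ => (b + s • β) i) (β i) s := fun i => (hasDerivAt_pi.mp (line_deriv b β s)) i
  have h1 := (((h0 0).mul_const (β 0)).fun_add (((h0 1).mul_const (β 1)).const_mul 3)).const_mul 2
  exact h1

lemma Tb_line (b β : Bs) (s : ℝ) : HasDerivAt (fun s : ℝ => 2 * Tb (b + s • β) β) (2 * Tb β β) s := by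
  have h0 : ∀ i : Fin 4, HasDerivAt (fun s : ℝ => (b + s • β) i) (β i) s := fun i => (hasDerivAt_pi.mp (line_deriv b β s)) i
  have h1 := (((h0 3).mul_const (β 3)).fun_sub (((h0 2).mul_const (β 2)).const_mul 3)).const_mul 2
  exact h1

/-- derivatives of `P^a T^c` along a line -/
lemma exp_line {b β : Bs} (hP : 0 < Pf b) (hT : 0 < Tf b) (a c : ℝ) :
    (∀ᶠ s in 𝓝 (0:ℝ), HasDerivAt (fun s : ℝ => Real.exp (a * Real.log (Pf (b + s • β)) + c * Real.log (Tf (b + s • β))))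
      (Real.exp (a * Real.log (Pf (b + s • β)) + c * Real.log (Tf (b + s • β))) *
        (a * (2 * Pb (b + s • β) β / Pf (b + s • β)) + c * (2 * Tb (b + s • β) β / Tf (b + s • β)))) s) ∧
    HasDerivAt (fun s : ℝ => Real.exp (a * Real.log (Pf (b + s • β)) + c * Real.log (Tf (b + s • β))) *
        (a * (2 * Pb (b + s • β) β / Pf (b + s • β)) + c * (2 * Tb (b + s • β) β / Tf (b + s • β))))
      (Real.exp (a * Real.log (Pf b) + c * Real.log (Tf b)) *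
        ((2 * a * pL b β + 2 * c * qL b β) ^ 2 + 2 * a * (aL b β ^ 2 - pL b β ^ 2) - 2 * c * (qL b β ^ 2 + bL b β ^ 2))) 0 := by
  have hcP : Tendsto (fun s : ℝ => Pf (b + s • β)) (𝓝 0) (𝓝 (Pf b)) := by
    have := (Pf_line b β 0).continuousAt.tendsto
    simpa using this
  have hcT : Tendsto (fun s : ℝ => Tf (b + s • β)) (𝓝 0) (𝓝 (Tf b)) := by
    have := (Tf_line b β 0).continuousAt.tendsto
    simpa using this
  have e1 := hcP.eventually_const_lt hP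
  have e2 := hcT.eventually_const_lt hT
  have step : ∀ s : ℝ, 0 < Pf (b + s • β) → 0 < Tf (b + s • β) →
      HasDerivAt (fun s : ℝ => Real.exp (a * Real.log (Pf (b + s • β)) + c * Real.log (Tf (b + s • β))))
      (Real.exp (a * Real.log (Pf (b + s • β)) + c * Real.log (Tf (b + s • β))) *
        (a * (2 * Pb (b + s • β) β / Pf (b + s • β)) + c * (2 * Tb (b + s • β) β / Tf (b + s • β)))) s := by
    intro s h1 h2
    have k1 := ((Pf_line b β s).log h1.ne').const_mul a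
    have k2 := ((Tf_line b β s).log h2.ne').const_mul c
    exact (k1.fun_add k2).exp
  refine ⟨?_, ?_⟩
  · filter_upwards [e1, e2] with s h1 h2
    exact step s h1 h2
  · have hP0 : 0 < Pf (b + (0:ℝ) • β) := by simpa using hP
    have hT0 : 0 < Tf (b + (0:ℝ) • β) := by simpa using hT
    have k1 := step 0 hP0 hT0
    have k2 := ((Pb_line b β 0).fun_div (Pf_line b β 0) hP0.ne').const_mul a
    have k3 := ((Tb_line b β 0).fun_div (Tf_line b β 0) hT0.ne').const_mul c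
    refine (k1.fun_mul (k2.fun_add k3)).congr_deriv ?_
    simp only [zero_smul, add_zero]
    have hs : √3 ^ 2 = 3 := Real.sq_sqrt (by norm_num)
    have f1 : 2 * Pb b β / Pf b = 2 * pL b β := by
      rw [pL, lin_apply, Pb]; field_simp; ring
    have f2 : 2 * Tb b β / Tf b = 2 * qL b β := by
      rw [qL, lin_apply, Tb]; field_simp; ring
    have f3 : (2 * Pb β β * Pf b - 2 * Pb b β * (2 * Pb b β)) / Pf b ^ 2 = 2 * (aL b β ^ 2 - pL b β ^ 2) := by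
      rw [pL, aL, lin_apply, lin_apply]
      have := hP.ne'
      field_simp
      unfold Pb Pf
      ring_nf
      rw [hs]
      ring
    have f4 : (2 * Tb β β * Tf b - 2 * Tb b β * (2 * Tb b β)) / Tf b ^ 2 = - 2 * (qL b β ^ 2 + bL b β ^ 2) := by
      rw [qL, bL, lin_apply, lin_apply]
      have := hT.ne'
      field_simp
      unfold Tb Tf
      ring_nf
      rw [hs]
      ring
    rw [f1, f2, f3, f4]
    ring

lemma Wf_exp {b : Bs} (hP : 0 < Pf b) (hT : 0 < Tf b) :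
    Wf b = 1 / 2 * Real.exp (2 / 3 * Real.log (Pf b) + (-(1 / 6)) * Real.log (Tf b)) := by
  unfold Wf
  rw [Real.rpow_def_of_pos hP, Real.rpow_def_of_pos hT, Real.exp_add]
  ring_nf

lemma sqrt_exp {b : Bs} (hT : 0 < Tf b) :
    Real.sqrt (Tf b) = Real.exp (0 * Real.log (Pf b) + (1 / 2) * Real.log (Tf b)) := by
  rw [Real.sqrt_eq_rpow, Real.rpow_def_of_pos hT]
  ring_nf

lemma comb2 {f g k f' g' k' : ℝ → ℝ} {cf cg ck : ℝ} (x y : ℝ)
    (hf1 : ∀ᶠ s in 𝓝 (0:ℝ), HasDerivAt f (f' s) s) (hf2 : HasDerivAt f' cf 0)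
    (hg1 : ∀ᶠ s in 𝓝 (0:ℝ), HasDerivAt g (g' s) s) (hg2 : HasDerivAt g' cg 0)
    (hk1 : ∀ᶠ s in 𝓝 (0:ℝ), HasDerivAt k (k' s) s) (hk2 : HasDerivAt k' ck 0) :
    (∀ᶠ s in 𝓝 (0:ℝ), HasDerivAt (fun s => f s - (x * g s + y * k s)) ((fun s => f' s - (x * g' s + y * k' s)) s) s) ∧
    HasDerivAt (fun s => f' s - (x * g' s + y * k' s)) (cf - (x * cg + y * ck)) 0 := by
  constructor
  · filter_upwards [hf1, hg1, hk1] with s h1 h2 h3
    exact h1.fun_sub ((h2.const_mul x).fun_add (h3.const_mul y))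
  · exact hf2.fun_sub ((hg2.const_mul x).fun_add (hk2.const_mul y))

/-- consequences of touching the barrier from above -/
theorem barrier_P {h : Bs → ℝ} {b : Bs} {μ : ℝ} (hC : ContDiffAt ℝ 2 h b) (hP : 0 < Pf b) (hT : 0 < Tf b)
    (hμ : μ ≤ 0) (hle : ∀ᶠ b' in 𝓝 b, Wf b' + μ * Real.sqrt (Tf b') ≤ h b')
    (heq : h b = Wf b + μ * Real.sqrt (Tf b)) (β : Bs) :
    fderiv ℝ h b β = 4 / 3 * Wf b * (pL b β - qL b β) + h b * qL b β ∧
    4 / 9 * Wf b * (pL b β - qL b β) ^ 2 + 4 / 3 * Wf b * aL b β ^ 2 + 1 / 3 * Wf b * bL b β ^ 2 ≤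
      fderiv ℝ (fderiv ℝ h) b β β := by
  obtain ⟨a1, a2⟩ := chain_line hC β
  obtain ⟨b1, b2⟩ := exp_line (β := β) hP hT (2 / 3) (-(1 / 6))
  obtain ⟨c1, c2⟩ := exp_line (β := β) hP hT 0 (1 / 2)
  have hcP : Tendsto (fun s : ℝ => Pf (b + s • β)) (𝓝 0) (𝓝 (Pf b)) := by
    have := (Pf_line b β 0).continuousAt.tendsto
    simpa using this
  have hcT : Tendsto (fun s : ℝ => Tf (b + s • β)) (𝓝 0) (𝓝 (Tf b)) := by
    have := (Tf_line b β 0).continuousAt.tendsto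
    simpa using this
  have e1 := hcP.eventually_const_lt hP
  have e2 := hcT.eventually_const_lt hT
  obtain ⟨d1, d2⟩ := comb2 (1 / 2) μ a1 a2 b1 b2 c1 c2
  have key := test2 d1 d2 (by
    filter_upwards [(tendsto_line b β).eventually hle, e1, e2] with s h1 h2 h3
    rw [Wf_exp h2 h3, sqrt_exp h3] at h1
    rw [Wf_exp hP hT, sqrt_exp hT] at heq
    simp only [zero_smul, add_zero]
    rw [← heq]
    linarith)
  obtain ⟨k1, k2⟩ := key
  simp only [zero_smul, add_zero] at k1 k2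
  rw [← sqrt_exp hT] at k1 k2
  set G := Real.exp (2 / 3 * Real.log (Pf b) + (-(1 / 6)) * Real.log (Tf b)) with hG
  have hW : Wf b = 1 / 2 * G := Wf_exp hP hT
  have f1 : 2 * Pb b β / Pf b = 2 * pL b β := by
    rw [pL, lin_apply, Pb]; field_simp; ring
  have f2 : 2 * Tb b β / Tf b = 2 * qL b β := by
    rw [qL, lin_apply, Tb]; field_simp; ring
  rw [f1, f2] at k1
  constructor
  · rw [heq, hW]
    linarith
  · have hs := Real.sqrt_nonneg (Tf b)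
    have h1 : 0 ≤ -μ * (Real.sqrt (Tf b) * bL b β ^ 2) := by
      apply mul_nonneg (by linarith)
      positivity
    rw [hW]
    linarith

/-- the barrier cannot be touched on the axis -/
theorem barrier_zero {h : Bs → ℝ} {b : Bs} {μ : ℝ} (hC : ContDiffAt ℝ 2 h b) (hP : Pf b = 0) (hT : 0 < Tf b)
    (hle : ∀ᶠ b' in 𝓝 b, Wf b' + μ * Real.sqrt (Tf b') ≤ h b')
    (heq : h b = μ * Real.sqrt (Tf b)) : False := by
  set β : Bs := ![1, 0, 0, 0] with hβ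
  have hb0 : b 0 = 0 := by unfold Pf at hP; nlinarith [sq_nonneg (b 0), sq_nonneg (b 1)]
  have hb1 : b 1 = 0 := by unfold Pf at hP; nlinarith [sq_nonneg (b 0), sq_nonneg (b 1)]
  have eP : ∀ s : ℝ, Pf (b + s • β) = s ^ 2 := by
    intro s; simp [Pf, hβ, hb0, hb1]
  have eT : ∀ s : ℝ, Tf (b + s • β) = Tf b := by
    intro s; simp [Tf, hβ]
  obtain ⟨a1, a2⟩ := chain_line hC β
  have hev := (tendsto_line b β).eventually hle
  have hmin : ∀ᶠ s in 𝓝 (0:ℝ), h (b + (0:ℝ) • β) ≤ h (b + s • β) := by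
    filter_upwards [hev] with s hs
    have h1 : 0 ≤ Wf (b + s • β) := Wf_nonneg (by rw [eT]; exact hT)
    rw [eT] at hs
    simp only [zero_smul, add_zero]
    linarith
  obtain ⟨k1, _⟩ := test2 (φ := fun s => h (b + s • β)) (φ' := fun s => fderiv ℝ h (b + s • β) β) a1 a2 hmin
  obtain ⟨K, hK⟩ := quad_bound (φ := fun s => h (b + s • β)) (φ' := fun s => fderiv ℝ h (b + s • β) β) a1 a2 k1
  set c : ℝ := 1 / 2 * (Tf b) ^ (-(1 / 6) : ℝ) with hc
  have hcpos : 0 < c := by positivity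
  -- `c ≤ K * s^(2/3)` for small positive `s`
  have h1 : ∀ᶠ s in 𝓝[>] (0:ℝ), c ≤ K * s ^ (2 / 3 : ℝ) := by
    filter_upwards [hK, nhdsWithin_le_nhds hev, self_mem_nhdsWithin] with s h1 h2 h3
    have hs : 0 < s := h3
    simp only [zero_smul, add_zero] at h1
    rw [eT] at h2
    have e1 : Wf (b + s • β) = c * s ^ (4 / 3 : ℝ) := by
      unfold Wf
      rw [eT, eP, hc, ← Real.rpow_natCast s 2, ← Real.rpow_mul hs.le]
      have : ((2:ℕ):ℝ) * (2 / 3 : ℝ) = 4 / 3 := by norm_num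
      rw [this]
      ring
    have e2 : c * s ^ (4 / 3 : ℝ) ≤ K * s ^ 2 := by
      rw [← e1]; linarith
    have e3 : s ^ 2 = s ^ (2 / 3 : ℝ) * s ^ (4 / 3 : ℝ) := by
      rw [← Real.rpow_add hs, ← Real.rpow_natCast]; norm_num
    rw [e3, ← mul_assoc] at e2
    exact le_of_mul_le_mul_right e2 (by positivity)
  have h2 : Tendsto (fun s : ℝ => K * s ^ (2 / 3 : ℝ)) (𝓝[>] 0) (𝓝 0) := by
    have h3 : ContinuousAt (fun s : ℝ => K * s ^ (2 / 3 : ℝ)) 0 := by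
      apply ContinuousAt.mul continuousAt_const
      exact Real.continuousAt_rpow_const _ _ (Or.inr (by norm_num))
    have h4 := h3.tendsto
    simp only [Real.zero_rpow (by norm_num : (2 / 3 : ℝ) ≠ 0), mul_zero] at h4
    exact h4.mono_left nhdsWithin_le_nhds
  have h3 := ge_of_tendsto h2 h1
  linarith

/-- first fundamental form at a touching point -/
lemma Gf_touch {b : Bs} {k W : ℝ} {L : Bs →L[ℝ] ℝ} (hP : 0 < Pf b) (hT : 0 < Tf b) (hn : Bb b b - k * k = -1)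
    (hL : ∀ β, L β = 4 / 3 * W * (pL b β - qL b β) + k * qL b β) {γ : Bs} (hγ : Bb b γ = k * L γ) :
    Gf L γ γ = (Pf b - 16 / 9 * W ^ 2 + (Pf b - 4 / 3 * W * k) ^ 2) * (pL b γ - qL b γ) ^ 2 +
      Pf b * aL b γ ^ 2 + Tf b * bL b γ ^ 2 := by
  have hs : √3 ^ 2 = 3 := Real.sq_sqrt (by norm_num)
  have hP' := hP.ne'
  have hT' := hT.ne'
  have e1 : Bb b γ = Pf b * pL b γ - Tf b * qL b γ := by
    rw [pL, qL, lin_apply, lin_apply, Bb]; field_simp; ring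
  have e2 : Bb γ γ = Pf b * (pL b γ ^ 2 + aL b γ ^ 2) - Tf b * (qL b γ ^ 2 - bL b γ ^ 2) := by
    have f1 : Pf b * (pL b γ ^ 2 + aL b γ ^ 2) = γ 0 ^ 2 + 3 * γ 1 ^ 2 := by
      rw [pL, aL, lin_apply, lin_apply]
      field_simp
      unfold Pf
      ring_nf
      rw [hs]
      ring
    have f2 : Tf b * (qL b γ ^ 2 - bL b γ ^ 2) = γ 3 ^ 2 - 3 * γ 2 ^ 2 := by
      rw [qL, bL, lin_apply, lin_apply]
      field_simp
      unfold Tf
      ring_nf
      rw [hs]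
      ring
    rw [f1, f2, Bb]; ring
  rw [Bb_self] at hn
  rw [Gf, e2]
  rw [e1] at hγ
  rw [hL γ] at hγ ⊢
  set p := pL b γ
  set q := qL b γ
  set α := aL b γ
  set β' := bL b γ
  set P := Pf b
  set T := Tf b
  have hq : q = (P - 4 / 3 * W * k) * (p - q) := by
    have : T = P - k * k + 1 := by linarith
    rw [this] at hγ
    linear_combination (-1) * hγ
  have hTT : T = P - k * k + 1 := by linarith
  have e3 : (P - 4 / 3 * W * k) ^ 2 * (p - q) ^ 2 = q ^ 2 := by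
    rw [← mul_pow, ← hq]
  have e4 : 2 * (P - 4 / 3 * W * k) * (p - q) * q = 2 * q ^ 2 := by
    have : 2 * (P - 4 / 3 * W * k) * (p - q) * q = 2 * ((P - 4 / 3 * W * k) * (p - q)) * q := by ring
    rw [this, ← hq]; ring
  have e5 : (P - 16 / 9 * W ^ 2 + (P - 4 / 3 * W * k) ^ 2) * (p - q) ^ 2 = (P - 16 / 9 * W ^ 2) * (p - q) ^ 2 + q ^ 2 := by
    rw [← e3]; ring
  rw [e5]
  rw [hTT]
  linear_combination e4

lemma g2_touch {b : Bs} {k W : ℝ} {L : Bs →L[ℝ] ℝ} (hP : 0 < Pf b) (hT : 0 < Tf b)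
    (hL : ∀ β, L β = 4 / 3 * W * (pL b β - qL b β) + k * qL b β) :
    Tf b * g2 L ≤ Tf b + (k - 4 / 3 * W) ^ 2 := by
  have hP' := hP.ne'
  have hT' := hT.ne'
  have e : Tf b * g2 L = Tf b + (k - 4 / 3 * W) ^ 2 - 16 / 9 * W ^ 2 * (Tf b / Pf b) := by
    unfold g2
    rw [hL, hL, hL, hL]
    simp only [pL, qL, lin_apply]
    simp
    field_simp
    unfold Pf Tf
    ring
  rw [e]
  have : 0 ≤ 16 / 9 * W ^ 2 * (Tf b / Pf b) := by positivity
  linarith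

theorem kappa_lower {h : Bs → ℝ} {b : Bs} {μ κ g : ℝ} {β : Fin 3 → Bs} (hC : ContDiffAt ℝ 2 h b) (hP : 0 < Pf b)
    (hT : 0 < Tf b) (h729 : 729 * Pf b ≤ Tf b)
    (hμ : μ ≤ 0) (hle : ∀ᶠ b' in 𝓝 b, Wf b' + μ * Real.sqrt (Tf b') ≤ h b')
    (heq : h b = Wf b + μ * Real.sqrt (Tf b))
    (F : Frame b (h b) (fderiv ℝ h b) β) (hg2 : g ^ 2 = g2 (fderiv ℝ h b))
    (hκ : κ * g ^ 3 = - det (Hm (fderiv ℝ (fderiv ℝ h) b) β)) :
    1 / 10 ^ 6 ≤ κ ^ 2 ∧ ∀ γ, 0 ≤ fderiv ℝ (fderiv ℝ h) b γ γ := by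
  have hbar := barrier_P hC hP hT hμ hle heq
  have hWp := Wf_pos hP hT
  have hs : ∀ v w, fderiv ℝ (fderiv ℝ h) b v w = fderiv ℝ (fderiv ℝ h) b w v :=
    fun v w => (hC.isSymmSndFDerivAt (by simp)).eq v w
  have hpsd : ∀ γ, 0 ≤ fderiv ℝ (fderiv ℝ h) b γ γ := by
    intro γ
    refine le_trans ?_ (hbar γ).2
    positivity
  refine ⟨?_, hpsd⟩
  have hlow := F.lower hs (A := ![4 / 9 * Wf b, 4 / 3 * Wf b, 1 / 3 * Wf b])
    (D := ![Pf b - 16 / 9 * Wf b ^ 2 + (Pf b - 4 / 3 * Wf b * h b) ^ 2, Pf b, Tf b])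
    (ψ := ![pL b - qL b, aL b, bL b])
    (by
      intro i
      fin_cases i
      · show 0 < 4 / 9 * Wf b
        positivity
      · show 0 < 4 / 3 * Wf b
        positivity
      · show 0 < 1 / 3 * Wf b
        positivity)
    (by
      intro γ hγ
      have := Gf_touch hP hT F.norm (fun β => (hbar β).1) hγ
      simpa using this)
    (by
      intro γ
      have := (hbar γ).2
      simpa using this)
  simp only [Matrix.cons_val_zero, Matrix.cons_val_one, Matrix.cons_val] at hlow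
  have hn := F.norm
  rw [Bb_self] at hn
  refine kappa_num (d := det (Hm (fderiv ℝ (fderiv ℝ h) b) β)) hP hT h729 hWp.le (Wf_sq_le hT h729) (Wf_pow6 hT) hn rfl ?_ ?_ hκ
  · rw [hg2]
    exact g2_touch hP hT (fun β => (hbar β).1)
  · linarith

end Pool.Agent.H804
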