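import Pool.Agent.H804.Vec

set_option autoImplicit false

namespace Pool.Agent.H804

open Filter Topology

@[fun_prop]
lemma continuous_B {X : Type*} [TopologicalSpace X] {f g : X → V} (hf : Continuous f) (hg : Continuous g) :
    Continuous fun p => B (f p) (g p) := by
  unfold B
  have h1 : ∀ i, Continuous fun p => f p i := fun i => (continuous_apply i).comp hf
  have h2 : ∀ i, Continuous fun p => g p i := fun i => (continuous_apply i).comp hg
  fun_prop

lemma s33 : √3 * √3 = (3:ℝ) := Real.mul_self_sqrt (by norm_num)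

/-- time orientation form -/
def om (x y : V) : ℝ := x 3 * y 4 - x 4 * y 3

lemma om_self (x : V) : om x x = 0 := by unfold om; ring

lemma om_comm (x y : V) : om x y = - om y x := by unfold om; ring

lemma om_add_right (x y z : V) : om x (y + z) = om x y + om x z := by simp [om]; ring

lemma om_add_left (x y z : V) : om (x + y) z = om x z + om y z := by simp [om]; ring

lemma om_smul_right (c : ℝ) (x y : V) : om x (c • y) = c * om x y := by simp [om]; ring

lemma om_smul_left (c : ℝ) (x y : V) : om (c • x) y = c * om x y := by simp [om]; ring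

@[fun_prop]
lemma continuous_om {X : Type*} [TopologicalSpace X] {f g : X → V} (hf : Continuous f) (hg : Continuous g) :
    Continuous fun p => om (f p) (g p) := by
  unfold om
  have h1 : ∀ i, Continuous fun p => f p i := fun i => (continuous_apply i).comp hf
  have h2 : ∀ i, Continuous fun p => g p i := fun i => (continuous_apply i).comp hg
  fun_prop

lemma nonneg_of_zero {z : V} (h3 : z 3 = 0) (h4 : z 4 = 0) : 0 ≤ B z z := by
  unfold B; rw [h3, h4]; linarith [sq_nonneg (z 0), sq_nonneg (z 1), sq_nonneg (z 2)]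

lemma zero_of_zero {z : V} (h3 : z 3 = 0) (h4 : z 4 = 0) (h : B z z ≤ 0) : z = 0 := by
  unfold B at h; rw [h3, h4] at h
  have h0 : z 0 = 0 := by nlinarith [sq_nonneg (z 0), sq_nonneg (z 1), sq_nonneg (z 2)]
  have h1 : z 1 = 0 := by nlinarith [sq_nonneg (z 0), sq_nonneg (z 1), sq_nonneg (z 2)]
  have h2 : z 2 = 0 := by nlinarith [sq_nonneg (z 0), sq_nonneg (z 1), sq_nonneg (z 2)]
  ext k; fin_cases k <;> simp [h0, h1, h2, h3, h4]

/-- in a negative semidefinite plane the orientation form does not vanish -/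
lemma om_ne_zero {y w : V} (hy : B y y < 0) (hyw : B y w = 0) (hw : B w w ≤ 0) (hw0 : w ≠ 0) :
    om y w ≠ 0 := by
  intro h
  have hz : ∀ i, i = 3 ∨ i = 4 → w i = 0 := by
    intro i hi
    have hz3 : (w i • y - y i • w) 3 = 0 := by
      simp only [Pi.sub_apply, Pi.smul_apply, smul_eq_mul]
      rcases hi with rfl | rfl
      · ring
      · unfold om at h; linarith
    have hz4 : (w i • y - y i • w) 4 = 0 := by
      simp only [Pi.sub_apply, Pi.smul_apply, smul_eq_mul]
      rcases hi with rfl | rfl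
      · unfold om at h; linarith
      · ring
    have h1 := nonneg_of_zero hz3 hz4
    rw [B_sub_left, B_sub_right, B_sub_right, B_smul_left, B_smul_left, B_smul_right, B_smul_right,
      B_smul_left, B_smul_left, B_smul_right, B_smul_right, B_comm w y, hyw] at h1
    by_contra hne
    have : 0 < (w i)^2 := by positivity
    nlinarith [sq_nonneg (y i)]
  exact hw0 (zero_of_zero (hz 3 (Or.inl rfl)) (hz 4 (Or.inr rfl)) hw)

/-- reversed sign rule: past and future causal vectors -/
lemma sign_rule {y u v : V} (hy : B y y < 0) (hu : B y u = 0) (hv : B y v = 0) (huu : B u u ≤ 0)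
    (hvv : B v v ≤ 0) (hou : om y u ≤ 0) (hov : 0 ≤ om y v) : 0 ≤ B u v := by
  by_contra hcon
  push Not at hcon
  have hu0 : u ≠ 0 := by rintro rfl; simp at hcon
  have hv0 : v ≠ 0 := by rintro rfl; simp at hcon
  have h1 := om_ne_zero hy hu huu hu0
  have h2 := om_ne_zero hy hv hvv hv0
  have h1' : om y u < 0 := lt_of_le_of_ne hou h1
  have h2' : 0 < om y v := lt_of_le_of_ne hov (Ne.symm h2)
  set w : V := (om y v) • u + (-(om y u)) • v with hw
  have hyw : B y w = 0 := by rw [hw, B_add_right, B_smul_right, B_smul_right, hu, hv]; ring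
  have how : om y w = 0 := by rw [hw, om_add_right, om_smul_right, om_smul_right]; ring
  have hww : B w w < 0 := by
    rw [hw]
    simp only [B_add_left, B_add_right, B_smul_left, B_smul_right]
    rw [B_comm v u]
    have a : 0 < -(om y u) := by linarith
    have : 0 < om y v * -(om y u) := mul_pos h2' a
    nlinarith [mul_nonneg (sq_nonneg (om y v)) (neg_nonneg.mpr huu), mul_nonneg (sq_nonneg (om y u)) (neg_nonneg.mpr hvv)]
  have hw0 : w ≠ 0 := by rintro h; rw [h] at hww; simp at hww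
  exact om_ne_zero hy hyw hww.le hw0 how

/-- normalisation -/
noncomputable def nz (z : V) : V := (Real.sqrt (-(B z z)))⁻¹ • z

lemma nz_q {z : V} (h : B z z < 0) : B (nz z) (nz z) = -1 := by
  unfold nz
  have hs : 0 < Real.sqrt (-(B z z)) := Real.sqrt_pos.mpr (by linarith)
  rw [B_smul_left, B_smul_right]
  have h2 : Real.sqrt (-(B z z)) * Real.sqrt (-(B z z)) = -(B z z) := Real.mul_self_sqrt (by linarith)
  have h3 : (Real.sqrt (-(B z z)))⁻¹ * ((Real.sqrt (-(B z z)))⁻¹ * B z z) = B z z / (Real.sqrt (-(B z z)) * Real.sqrt (-(B z z))) := by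
    field_simp
  rw [h3, h2]
  rw [div_neg, div_self (by linarith)]

lemma nz_of_neg_one {z : V} (h : B z z = -1) : nz z = z := by
  unfold nz; rw [h]; simp

lemma nz_smul {z : V} {r : ℝ} (hr : 0 < r) : nz (r • z) = nz z := by
  unfold nz
  rw [B_smul_left, B_smul_right, smul_smul]
  have h1 : -(r * (r * B z z)) = r ^ 2 * (-(B z z)) := by ring
  rw [h1, Real.sqrt_mul (by positivity), Real.sqrt_sq hr.le]
  congr 1
  rw [mul_inv]
  field_simp

lemma nz_pos_smul {z : V} (h : B z z < 0) : ∃ r : ℝ, 0 < r ∧ nz z = r • z := by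
  refine ⟨(Real.sqrt (-(B z z)))⁻¹, ?_, rfl⟩
  have hs : 0 < Real.sqrt (-(B z z)) := Real.sqrt_pos.mpr (by linarith)
  positivity

lemma continuousAt_nz {z : V} (h : B z z < 0) : ContinuousAt nz z := by
  unfold nz
  have h1 : ContinuousAt (fun z : V => B z z) z := by
    have : Continuous (fun z : V => B z z) := by fun_prop
    exact this.continuousAt
  have hs : Real.sqrt (-(B z z)) ≠ 0 := (Real.sqrt_pos.mpr (by linarith)).ne'
  exact ((h1.neg.sqrt).inv₀ hs).smul continuousAt_id

/-- base space -/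
abbrev Bs := Fin 4 → ℝ

/-- point over `b` at height `s` -/
def vt (b : Bs) (s : ℝ) : V := ![b 0, b 1, b 2, b 3, s]

/-- base form -/
def Bb (b b' : Bs) : ℝ := b 0 * b' 0 + 3 * (b 1 * b' 1) + 3 * (b 2 * b' 2) - b 3 * b' 3

lemma B_vt (b b' : Bs) (s s' : ℝ) : B (vt b s) (vt b' s') = Bb b b' - s * s' := by
  simp [B, vt, Bb]

lemma om_vt (b b' : Bs) (s s' : ℝ) : om (vt b s) (vt b' s') = b 3 * s' - s * b' 3 := by
  simp [om, vt]

lemma vt_add (b b' : Bs) (s s' : ℝ) : vt (b + b') (s + s') = vt b s + vt b' s' := by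
  ext i; fin_cases i <;> simp [vt]

lemma vt_smul (c : ℝ) (b : Bs) (s : ℝ) : vt (c • b) (c * s) = c • vt b s := by
  ext i; fin_cases i <;> simp [vt]

/-- base projection -/
def bs (y : V) : Bs := ![y 0, y 1, y 2, y 3]

lemma vt_bs (y : V) : vt (bs y) (y 4) = y := by
  ext i; fin_cases i <;> simp [vt, bs]

lemma bs_vt (b : Bs) (s : ℝ) : bs (vt b s) = b := by
  ext i; fin_cases i <;> simp [vt, bs]

lemma vt_4 (b : Bs) (s : ℝ) : vt b s 4 = s := by simp [vt]

@[fun_prop]
lemma continuous_vt {X : Type*} [TopologicalSpace X] {f : X → Bs} {g : X → ℝ} (hf : Continuous f)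
    (hg : Continuous g) : Continuous fun x => vt (f x) (g x) := by
  have h1 : ∀ i, Continuous fun p => f p i := fun i => (continuous_apply i).comp hf
  apply continuous_pi
  intro i
  fin_cases i
  · exact h1 0
  · exact h1 1
  · exact h1 2
  · exact h1 3
  · exact hg

@[fun_prop]
lemma continuous_bs {X : Type*} [TopologicalSpace X] {f : X → V} (hf : Continuous f) :
    Continuous fun x => bs (f x) := by
  have h1 : ∀ i, Continuous fun p => f p i := fun i => (continuous_apply i).comp hf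
  apply continuous_pi
  intro i
  fin_cases i
  · exact h1 0
  · exact h1 1
  · exact h1 2
  · exact h1 3

@[fun_prop]
lemma continuous_Bb {X : Type*} [TopologicalSpace X] {f g : X → Bs} (hf : Continuous f)
    (hg : Continuous g) : Continuous fun x => Bb (f x) (g x) := by
  unfold Bb
  have h1 : ∀ i, Continuous fun p => f p i := fun i => (continuous_apply i).comp hf
  have h2 : ∀ i, Continuous fun p => g p i := fun i => (continuous_apply i).comp hg
  fun_prop

lemma vt_neg {b : Bs} (hb : Bb b b < 0) (s : ℝ) : B (vt b s) (vt b s) < 0 := by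
  rw [B_vt]; linarith [mul_self_nonneg s]

/-- squared distance to the axis plane -/
def Pf (b : Bs) : ℝ := b 0 ^ 2 + 3 * b 1 ^ 2

/-- squared length of the axis component -/
def Tf (b : Bs) : ℝ := b 3 ^ 2 - 3 * b 2 ^ 2

lemma Bb_self (b : Bs) : Bb b b = Pf b - Tf b := by unfold Bb Pf Tf; ring

/-- open tube around the axis -/
def Tube : Set Bs := {b | 0 < b 3 ∧ 0 < Tf b ∧ 700 * Pf b < Tf b}

lemma continuous_Pf : Continuous Pf := by
  have h : ∀ i : Fin 4, Continuous fun b : Bs => b i := fun i => continuous_apply i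
  unfold Pf; fun_prop

lemma continuous_Tf : Continuous Tf := by
  have h : ∀ i : Fin 4, Continuous fun b : Bs => b i := fun i => continuous_apply i
  unfold Tf; fun_prop

lemma isOpen_Tube : IsOpen Tube := by
  apply IsOpen.inter
  · exact isOpen_lt continuous_const (continuous_apply 3)
  apply IsOpen.inter
  · exact isOpen_lt continuous_const continuous_Tf
  · exact isOpen_lt (continuous_Pf.const_mul 700) continuous_Tf

/-- coordinates adapted to the axis -/
noncomputable def p4 (b0 b1 x y : ℝ) : Bs := ![b0, b1, (x - y) / (2 * √3), (x + y) / 2]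

lemma s3pos : (0:ℝ) < √3 := by positivity

lemma p4_T (b0 b1 x y : ℝ) : Tf (p4 b0 b1 x y) = x * y := by
  simp [Tf, p4]
  have h := s33
  have h3 := s3pos
  field_simp
  rw [Real.sq_sqrt (by norm_num : (0:ℝ) ≤ 3)]
  ring

lemma p4_P (b0 b1 x y : ℝ) : Pf (p4 b0 b1 x y) = b0 ^ 2 + 3 * b1 ^ 2 := by
  simp [Pf, p4]

lemma eq_p4 (b : Bs) : b = p4 (b 0) (b 1) (b 3 + √3 * b 2) (b 3 - √3 * b 2) := by
  have h3 := s3pos
  ext i; fin_cases i <;> simp [p4]
  field_simp
  ring

/-- the height `m` -/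
noncomputable def mf (b : Bs) : ℝ := |(b 0 + b 1) / 2| + |(b 0 - b 1) / 2|

lemma mf_nonneg (b : Bs) : 0 ≤ mf b := by unfold mf; positivity

lemma mf_sq_le (b : Bs) : mf b ^ 2 ≤ Pf b := by
  unfold mf Pf
  rcases abs_cases ((b 0 + b 1) / 2) with ⟨e, _⟩ | ⟨e, _⟩ <;> rcases abs_cases ((b 0 - b 1) / 2) with ⟨e', _⟩ | ⟨e', _⟩ <;>
    rw [e, e'] <;> linarith [sq_nonneg (b 0), sq_nonneg (b 1)]

lemma le_mf_sq (b : Bs) : Pf b ≤ 4 * mf b ^ 2 := by
  unfold mf Pf
  rcases abs_cases ((b 0 + b 1) / 2) with ⟨e, h⟩ | ⟨e, h⟩ <;> rcases abs_cases ((b 0 - b 1) / 2) with ⟨e', h'⟩ | ⟨e', h'⟩ <;>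
    rw [e, e'] <;> nlinarith

lemma sqrt3_lt : √3 < 1.7321 := by
  rw [Real.sqrt_lt' (by norm_num)]; norm_num

lemma mf_small {b : Bs} (h3 : 0 < b 3) (h : 700 * Pf b < Tf b) : 26 * mf b < b 3 := by
  have h1 := mf_sq_le b
  have h2 : Tf b ≤ b 3 ^ 2 := by unfold Tf; linarith [sq_nonneg (b 2)]
  have h4 : (26 * mf b) ^ 2 < (b 3) ^ 2 := by linarith [sq_nonneg (mf b)]
  exact lt_of_pow_lt_pow_left₀ 2 h3.le h4

lemma Tube_neg {b : Bs} (hb : b ∈ Tube) : Bb b b < 0 := by
  rw [Bb_self]
  have h1 := hb.2.2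
  have : 0 ≤ Pf b := by unfold Pf; positivity
  linarith

/-- the flat region -/
def Flat : Set Bs := {b | b 1 < -|b 0| ∧ 0 < b 3 + 2 * b 1 ∧ √3 * |b 2| < b 3 + b 1 ∧ Bb b b < 0}

lemma isOpen_Flat : IsOpen Flat := by
  have h : ∀ i : Fin 4, Continuous fun b : Bs => b i := fun i => continuous_apply i
  apply IsOpen.inter
  · exact isOpen_lt (h 1) (h 0).abs.neg
  apply IsOpen.inter
  · exact isOpen_lt continuous_const ((h 3).add ((h 1).const_mul 2))
  apply IsOpen.inter
  · exact isOpen_lt ((h 2).abs.const_mul _) ((h 3).add (h 1))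
  · exact isOpen_lt (continuous_Bb continuous_id continuous_id) continuous_const

lemma Flat_b3 {b : Bs} (hb : b ∈ Flat) : 0 < b 3 := by
  have h1 := hb.1
  have h2 := hb.2.1
  have := abs_nonneg (b 0)
  linarith

/-- centre of the flat region -/
def yc : Bs := ![0, -2, 0, 5]

lemma yc_Flat : yc ∈ Flat := by
  refine ⟨?_, ?_, ?_, ?_⟩ <;> simp [yc, Bb] <;> norm_num

lemma line_deriv (b β : Bs) (s : ℝ) : HasDerivAt (fun s : ℝ => b + s • β) β s := by
  have := (hasDerivAt_id s).smul_const β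
  simpa using this.const_add b

lemma B_vt_right (N : V) (β : Bs) (s : ℝ) : B N (vt β s) = Bb (bs N) β - N 4 * s := by
  conv_lhs => rw [← vt_bs N]
  exact B_vt _ _ _ _

lemma Bb_add_right (b c d : Bs) : Bb b (c + d) = Bb b c + Bb b d := by simp [Bb]; ring

lemma Bb_add_left (b c d : Bs) : Bb (b + c) d = Bb b d + Bb c d := by simp [Bb]; ring

lemma Bb_smul_right (r : ℝ) (b c : Bs) : Bb b (r • c) = r * Bb b c := by simp [Bb]; ring

lemma Bb_smul_left (r : ℝ) (b c : Bs) : Bb (r • b) c = r * Bb b c := by simp [Bb]; ring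

lemma Bb_comm (b c : Bs) : Bb b c = Bb c b := by unfold Bb; ring

/-- squared length of the gradient -/
noncomputable def g2 (L : Bs →L[ℝ] ℝ) : ℝ :=
  1 + (L (Pi.single 3 1)) ^ 2 - (L (Pi.single 0 1)) ^ 2 - (L (Pi.single 1 1)) ^ 2 / 3 - (L (Pi.single 2 1)) ^ 2 / 3

lemma tendsto_line (b β : Bs) : Tendsto (fun s : ℝ => b + s • β) (𝓝 0) (𝓝 b) := by
  have : Continuous fun s : ℝ => b + s • β := by fun_prop
  have h := this.tendsto 0
  simpa using h

end Pool.Agent.H804
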