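import Pool.Agent.H804.Domain

set_option autoImplicit false

namespace Pool.Agent.H804

open Filter Topology

lemma convex_OmC : Convex ℝ OmC := by
  intro x hx y hy a b ha hb hab
  rcases ha.eq_or_lt with h | h
  · have : b = 1 := by linarith
    rw [← h, this]; simpa using hy
  · rcases hb.eq_or_lt with h' | h'
    · have : a = 1 := by linarith
      rw [← h', this]; simpa using hx
    · exact OmC_add (OmC_smul hx h) (OmC_smul hy h')

open Classical in
/-- an element moving `z` into the chamber -/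
noncomputable def dlw (z : V) : W := if h : z ∈ OmC then (exists_Good h).choose else 1

/-- the representative of `z` in the chamber -/
noncomputable def dl (z : V) : V := rho (dlw z) z

lemma dl_good {z : V} (hz : z ∈ OmC) : Good (dl z) := by
  unfold dl dlw
  rw [dif_pos hz]
  exact (exists_Good hz).choose_spec

lemma rho_dl (z : V) : rho (dlw z)⁻¹ (dl z) = z := by unfold dl; rw [rho_inv_apply]

lemma B_dl_self {z : V} : B (dl z) (dl z) = B z z := by unfold dl; rw [B_rho]

def e1 : V := ![0, 0, 0, 3, -2]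

def e2 : V := ![0, 0, 0, 2, 0]

lemma Dom.wineq {x : V} (hx : Dom x) : 3 * (x 0 ^ 2 + 3 * x 1 ^ 2) ≤ (x 3 + x 4) ^ 2 := by
  obtain ⟨h0, h1, h2, h3, h4⟩ := hx.eqs
  have a1 : 0 ≤ -(x 0) - 3 * x 1 := by linarith
  have a2 : -(x 0) - 3 * x 1 ≤ x 3 + x 4 := by linarith
  have a3 : (-(x 0) - 3 * x 1)^2 ≤ (x 3 + x 4)^2 := by
    apply pow_le_pow_left₀ a1 a2
  linarith [mul_nonneg (neg_nonneg.mpr h0) (show 0 ≤ x 0 - 3 * x 1 by linarith)]

lemma Dom.x2ineq {x : V} (hx : Dom x) : 9 * x 2 ^ 2 ≤ x 3 ^ 2 := by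
  obtain ⟨h0, h1, h2, h3, h4⟩ := hx.eqs
  nlinarith

lemma isClosed_Dom : IsClosed {x : V | Dom x} := by
  have : {x : V | Dom x} = ⋂ i, {x | B x (root i) ≤ 0} := by ext x; simp [Dom]
  rw [this]
  exact isClosed_iInter fun i => isClosed_le (by fun_prop) continuous_const

/-- the chamber in the quadric is compact -/
lemma isCompact_DeltaC : IsCompact {x : V | Dom x ∧ B x x = -1} := by
  apply Metric.isCompact_of_isClosed_isBounded
  · exact isClosed_Dom.inter (isClosed_eq (by fun_prop) continuous_const)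
  · apply (Metric.isBounded_closedBall (x := (0:V)) (r := 4)).subset
    rintro x ⟨hd, hq⟩
    rw [mem_closedBall_zero_iff, pi_norm_le_iff_of_nonneg (by norm_num)]
    have h1 := hd.wineq
    have h2 := hd.x2ineq
    unfold B at hq
    have h3 : (x 3 - x 4)^2 + x 4 ^ 2 ≤ 3 := by linarith
    have h4 : x 4 ^ 2 ≤ 3 := by linarith [sq_nonneg (x 3 - x 4)]
    have h5 : x 3 ^ 2 ≤ 12 := by linarith [sq_nonneg (x 3 - 2 * x 4), sq_nonneg (x 4)]
    have h6 : (x 3 + x 4)^2 ≤ 27 := by linarith [sq_nonneg (x 3 - 2 * x 4)]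
    have key : ∀ i, x i ^ 2 ≤ 16 := by
      intro i
      fin_cases i
      · show x 0 ^ 2 ≤ 16
        linarith [sq_nonneg (x 1)]
      · show x 1 ^ 2 ≤ 16
        linarith [sq_nonneg (x 0)]
      · show x 2 ^ 2 ≤ 16
        linarith
      · show x 3 ^ 2 ≤ 16
        linarith
      · show x 4 ^ 2 ≤ 16
        linarith
    intro i
    rw [Real.norm_eq_abs]
    have := key i
    exact abs_le_of_sq_le_sq (by linarith) (by norm_num)

/-- compact set carrying the part of causal curves between a point and the Cauchy surface -/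
lemma isCompact_orbit {F : Set W} (hF : F.Finite) {K : Set V} (hK : IsCompact K) :
    IsCompact (⋃ w ∈ F, (rho w) '' K) :=
  hF.isCompact_biUnion fun w _ => hK.image (continuous_rho w)

end Pool.Agent.H804
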