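import Pool.Agent.H804.Causal
import Pool.Agent.H804.CauchyA

set_option autoImplicit false

namespace Pool.Agent.H804

open Filter Topology

lemma dl_rho {z : V} (hz : z ∈ OmC) (w : W) : dl (rho w z) = dl z := by
  have h1 : dl (rho w z) = rho (dlw (rho w z) * w * (dlw z)⁻¹) (dl z) := by
    rw [rho_mul_apply, rho_dl, rho_mul_apply]; rfl
  rw [h1]
  apply Dom_unique (dl_good hz).dom
  rw [← h1]
  exact (dl_good (OmC_rho hz w)).dom

lemma dl_of_Dom {z : V} (hz : z ∈ OmC) (hd : Dom z) : dl z = z :=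
  Dom_unique hd (dl_good hz).dom

lemma le_hE {z : V} (hz : z ∈ OmC) {e : V} (he : Dom e) (w : W) : B z (rho w e) ≤ B (dl z) e := by
  have h1 : B z (rho w e) = B (dl z) (rho (dlw z * w) e) := by
    unfold dl; rw [rho_mul_apply, B_rho]
  rw [h1]
  have h2 := B_Dom_Pos (dl_good hz).dom (dominance he (dlw z * w))
  rw [B_sub_right] at h2
  linarith

lemma exists_hE (z e : V) : ∃ w : W, B z (rho w e) = B (dl z) e := by
  refine ⟨(dlw z)⁻¹, ?_⟩
  conv_lhs => rw [← B_rho (dlw z)]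
  rw [rho_apply_inv]; rfl

lemma continuousOn_hE {e : V} (he : Dom e) : ContinuousOn (fun z => B (dl z) e) OmC := by
  apply ConvexOn.continuousOn isOpen_OmC
  refine ⟨convex_OmC, ?_⟩
  intro x hx y hy a b ha hb hab
  obtain ⟨w, hw⟩ := exists_hE (a • x + b • y) e
  simp only [smul_eq_mul]
  rw [← hw, B_add_left, B_smul_left, B_smul_left]
  have h1 := mul_le_mul_of_nonneg_left (le_hE hx he w) ha
  have h2 := mul_le_mul_of_nonneg_left (le_hE hy he w) hb
  linarith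

/-- signed distance to the Cauchy surface -/
noncomputable def gS (z : V) : ℝ := B (dl z) e1 - B (dl z) e2

lemma gS_eq (z : V) : gS z = 2 * dl z 4 - dl z 3 := by simp [gS, B, e1, e2]; ring

lemma continuousOn_gS : ContinuousOn gS OmC := by
  apply ContinuousOn.sub
  · apply continuousOn_hE; intro i; fin_cases i <;> simp [B, root, e1] <;> norm_num
  · apply continuousOn_hE; intro i; fin_cases i <;> simp [B, root, e2]

lemma gS_rho {z : V} (hz : z ∈ OmC) (w : W) : gS (rho w z) = gS z := by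
  unfold gS; rw [dl_rho hz]

/-- fundamental piece of the Cauchy surface -/
def S0 : Set V := {x | Dom x ∧ x 3 = 2 * x 4 ∧ B x x = -1}

lemma isCompact_S0 : IsCompact S0 := by
  have : S0 = {x : V | Dom x ∧ B x x = -1} ∩ {x | x 3 = 2 * x 4} := by
    ext x; simp [S0]; tauto
  rw [this]
  apply isCompact_DeltaC.inter_right
  exact isClosed_eq (by fun_prop) (by fun_prop)

lemma S0_Good {x : V} (hx : x ∈ S0) : Good x := by
  obtain ⟨hd, h34, hq⟩ := hx
  obtain ⟨h0, h1, h2, h3, h4⟩ := hd.eqs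
  have hx3 : 0 ≤ x 3 := by linarith
  have : x 3 ≠ 0 := by
    intro h
    have e4 : x 4 = 0 := by linarith
    have e2 : x 2 = 0 := by linarith
    have e0 : x 0 = 0 := by linarith
    have e1 : x 1 = 0 := by linarith
    unfold B at hq
    rw [h, e4, e2, e0, e1] at hq
    norm_num at hq
  have hpos : 0 < x 3 := lt_of_le_of_ne hx3 (Ne.symm this)
  exact ⟨hd, hpos, by linarith⟩

lemma S0_Tst {x : V} (hx : x ∈ S0) : Tst x := by
  have hg := S0_Good hx
  obtain ⟨hd, h34, hq⟩ := hx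
  obtain ⟨h0, h1, h2, h3, h4⟩ := hd.eqs
  have := hg.h3
  apply Tst_of_Dom hd
  intro m
  fin_cases m <;> simp [B, fw] <;> linarith

lemma S0_OmC : S0 ⊆ OmC := fun _ hx => OmC_of_Good (S0_Good hx)

/-- the foot of the join line -/
lemma exists_foot {x : V} (hx : Good x) (hq : B x x = -1) :
    ∃ f ∈ S0, -1 ≤ B f x ∧ (0 < 2 * x 4 - x 3 → 0 < om f x) ∧ (2 * x 4 - x 3 < 0 → om f x < 0) := by
  obtain ⟨hd, h3, h34⟩ := hx
  have hw := hd.wineq
  have hx2 := hd.x2ineq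
  obtain ⟨g0, g1, g2, g3, g4⟩ := hd.eqs
  obtain ⟨m, hm⟩ : ∃ m, m = x 3 + x 4 := ⟨_, rfl⟩
  rw [← hm] at h34 hw
  obtain ⟨r, r0, r1, r2, r3, r4⟩ : ∃ r : V, r 0 = (3/2) * x 3 * x 0 ∧ r 1 = (3/2) * x 3 * x 1 ∧
      r 2 = m * x 2 ∧ r 3 = m * x 3 ∧ r 4 = m * x 3 / 2 :=
    ⟨![(3/2) * x 3 * x 0, (3/2) * x 3 * x 1, m * x 2, m * x 3, m * x 3 / 2], rfl, rfl, rfl, rfl, rfl⟩
  have hrD : Dom r := by
    rw [Dom_iff, r0, r1, r2, r3, r4]
    refine ⟨?_, ?_, ?_, ?_, ?_⟩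
    · nlinarith
    · nlinarith
    · nlinarith [mul_nonneg h3.le g2]
    · nlinarith
    · nlinarith
  have hr0 : r ≠ 0 := by
    intro h
    have h' : r 3 = 0 := by rw [h]; rfl
    rw [r3] at h'
    have : 0 < m * x 3 := by positivity
    linarith
  have hrq := hrD.neg hr0
  obtain ⟨ν, hνpos, hν2⟩ : ∃ ν : ℝ, 0 < ν ∧ ν ^ 2 * (-(B r r)) = 1 := by
    have hs : 0 < Real.sqrt (-(B r r)) := Real.sqrt_pos.mpr (by linarith)
    refine ⟨(Real.sqrt (-(B r r)))⁻¹, by positivity, ?_⟩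
    rw [inv_pow, Real.sq_sqrt (by linarith), inv_mul_cancel₀ (by linarith)]
  have hG : 0 ≤ (3 * x 2 ^ 2 - 2 * x 3 ^ 2) * (x 0 ^ 2 + 3 * x 1 ^ 2 - m ^ 2) - (x 3 * m) ^ 2 := by
    have a1 : x 0 ^ 2 + 3 * x 1 ^ 2 ≤ m ^ 2 / 3 := by linarith
    have a2 : 3 * x 2 ^ 2 ≤ x 3 ^ 2 / 3 := by linarith
    have a3 : 0 ≤ (2 * x 3 ^ 2 - 3 * x 2 ^ 2 - (5/3) * x 3 ^ 2) * (m ^ 2 - (x 0 ^ 2 + 3 * x 1 ^ 2)) := by
      apply mul_nonneg
      · linarith
      · linarith [sq_nonneg m]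
    have a4 : 0 ≤ (5/3) * x 3 ^ 2 * ((m ^ 2 - (x 0 ^ 2 + 3 * x 1 ^ 2)) - (2/3) * m ^ 2) := by
      apply mul_nonneg (by positivity)
      linarith
    linarith [mul_nonneg (sq_nonneg (x 3)) (sq_nonneg m)]
  have hgram : B r r * B x x - (B r x) ^ 2 =
      (m - (3/2) * x 3) ^ 2 * ((3 * x 2 ^ 2 - 2 * x 3 ^ 2) * (x 0 ^ 2 + 3 * x 1 ^ 2 - m ^ 2) - (x 3 * m) ^ 2) := by
    unfold B
    rw [r0, r1, r2, r3, r4]
    have e4 : x 4 = m - x 3 := by rw [hm]; ring
    rw [e4]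
    ring
  have hgram' : (B r x) ^ 2 ≤ -(B r r) := by
    have : 0 ≤ B r r * B x x - (B r x) ^ 2 := by
      rw [hgram]; positivity
    rw [hq] at this
    linarith
  refine ⟨ν • r, ⟨?_, ?_, ?_⟩, ?_, ?_, ?_⟩
  · exact hrD.smul hνpos.le
  · simp only [Pi.smul_apply, smul_eq_mul, r3, r4]; ring
  · rw [B_smul_left, B_smul_right]
    linarith [hν2]
  · rw [B_smul_left]
    have h1 : (ν * B r x) ^ 2 ≤ 1 := by
      calc (ν * B r x) ^ 2 = ν ^ 2 * (B r x) ^ 2 := by ring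
        _ ≤ ν ^ 2 * (-(B r r)) := by gcongr
        _ = 1 := hν2
    have h2 := abs_le_of_sq_le_sq (a := ν * B r x) (b := 1) (by linarith) (by norm_num)
    exact (abs_le.mp h2).1
  · intro h
    rw [om_smul_left]
    have : om r x = m * x 3 * (2 * x 4 - x 3) / 2 := by unfold om; rw [r3, r4]; ring
    rw [this]; positivity
  · intro h
    rw [om_smul_left]
    have : om r x = m * x 3 * (2 * x 4 - x 3) / 2 := by unfold om; rw [r3, r4]; ring
    rw [this]
    have h5 : 0 < ν * (m * x 3 / 2) := by positivity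
    have h6 : ν * (m * x 3 * (2 * x 4 - x 3) / 2) = ν * (m * x 3 / 2) * (2 * x 4 - x 3) := by ring
    rw [h6]
    exact mul_neg_of_pos_of_neg h5 h

/-- only finitely many chambers carry points of the Cauchy surface causally related to `x` -/
lemma finite_causal {x : V} (hx : x ∈ OmC) : {w : W | ∃ f ∈ S0, -1 ≤ B x (rho w f)}.Finite := by
  obtain ⟨c, hc, R, hR, h⟩ := uniform (Z := {x}) isCompact_singleton (by simpa using hx)
  apply (local_finite isCompact_S0 S0_OmC (max R (1 / c))).subset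
  rintro w ⟨f, hf, hw⟩
  refine ⟨f, hf, ?_⟩
  by_contra hcon
  rw [not_le, max_lt_iff] at hcon
  have h1 := h x rfl (rho w f) ((S0_Tst hf).rho w) (by rw [B_rho, hf.2.2]; norm_num) hcon.1.le
  have h2 : 1 < c * ‖rho w f‖ := by
    have := hcon.2
    rwa [div_lt_iff₀ hc, mul_comm] at this
  linarith

end Pool.Agent.H804
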