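import Pool.Agent.H804.Cauchy

set_option autoImplicit false

namespace Pool.Agent.H804

open Filter Topology

lemma tendsto_B {α : Type*} {l : Filter α} {f g : α → V} {a b : V} (hf : Tendsto f l (𝓝 a))
    (hg : Tendsto g l (𝓝 b)) : Tendsto (fun t => B (f t) (g t)) l (𝓝 (B a b)) := by
  have h1 := tendsto_pi_nhds.mp hf
  have h2 := tendsto_pi_nhds.mp hg
  unfold B
  exact (((((h1 0).mul (h2 0)).add (((h1 1).mul (h2 1)).const_mul 3)).add (((h1 2).mul (h2 2)).const_mul 3)).sub
    ((h1 3).mul (h2 3))).sub ((h1 4).mul (h2 4))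

lemma tendsto_om {α : Type*} {l : Filter α} {f g : α → V} {a b : V} (hf : Tendsto f l (𝓝 a))
    (hg : Tendsto g l (𝓝 b)) : Tendsto (fun t => om (f t) (g t)) l (𝓝 (om a b)) := by
  have h1 := tendsto_pi_nhds.mp hf
  have h2 := tendsto_pi_nhds.mp hg
  unfold om
  exact ((h1 3).mul (h2 4)).sub ((h1 4).mul (h2 3))

lemma sign_rule2 {y u v : V} (hy : B y y < 0) (hu : B y u = 0) (hv : B y v = 0) (huu : B u u ≤ 0)
    (hvv : B v v ≤ 0) (h : om y u * om y v ≤ 0) : 0 ≤ B u v := by
  rcases mul_nonpos_iff.mp h with ⟨h1, h2⟩ | ⟨h1, h2⟩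
  · rw [B_comm]; exact sign_rule hy hv hu hvv huu h2 h1
  · exact sign_rule hy hu hv huu hvv h1 h2

lemma eq_or_neg {y z : V} (hy : B y y = -1) (hz : B z z = -1) (h1 : -1 ≤ B y z) (h2 : B y z ≤ 1)
    (ho : om y z = 0) : z = y ∨ z = -y := by
  have hw : z + (B y z) • y = 0 := by
    by_contra hne
    apply om_ne_zero (y := y) (w := z + (B y z) • y) (by rw [hy]; norm_num) _ _ hne
    · rw [om_add_right, om_smul_right, om_self, ho]; ring
    · rw [B_add_right, B_smul_right, hy]; ring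
    · simp only [B_add_left, B_add_right, B_smul_left, B_smul_right, hy, hz, B_comm z y]
      nlinarith
  have hz2 : z = (-(B y z)) • y := by
    rw [neg_smul]; exact eq_neg_of_add_eq_zero_left hw
  have h3 : (B y z) ^ 2 = 1 := by
    have := hz
    rw [hz2] at this
    simp only [B_smul_left, B_smul_right, hy] at this
    rw [hz2] 
    simp only [B_smul_right, hy]
    linarith
  have h4 : (B y z - 1) * (B y z + 1) = 0 := by linarith
  rcases mul_eq_zero.mp h4 with h5 | h5
  · right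
    have : B y z = 1 := by linarith
    rw [hz2, this]; simp
  · left
    have : B y z = -1 := by linarith
    rw [hz2, this]; simp

lemma end_limit {ε : ℝ} (hε : ε = 1 ∨ ε = -1) {c : ℝ → V} (hO : ∀ t, c t ∈ Om)
    (hmono : ∀ s t, s < t → -1 ≤ B (c s) (c t) ∧ 0 < ε * om (c s) (c t)) {K S : Set V}
    (hK : IsCompact K) (hcK : ∀ t > 0, c t ∈ K) (hS : IsCompact S) (hSO : S ⊆ Om)
    (hs : ∀ t > 0, ∃ σ ∈ S, -1 ≤ B (c t) σ ∧ 0 ≤ ε * om (c t) σ) :
    ∃ y ∈ Om, Tendsto c atTop (𝓝 y) := by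
  -- relation of curve points with cluster points
  have rel : ∀ y, MapClusterPt y atTop c → ∀ s, -1 ≤ B (c s) y ∧ B (c s) y ≤ 1 ∧ 0 ≤ ε * om (c s) y := by
    intro y hy s
    obtain ⟨U, hU, hUy⟩ := mapClusterPt_iff_ultrafilter.mp hy
    have h1 : Tendsto (fun t => B (c s) (c t)) U (𝓝 (B (c s) y)) :=
      tendsto_B tendsto_const_nhds hUy
    have h2 : Tendsto (fun t => ε * om (c s) (c t)) U (𝓝 (ε * om (c s) y)) :=
      (tendsto_om tendsto_const_nhds hUy).const_mul ε
    have hev : ∀ᶠ t in (U : Filter ℝ), s < t := hU (eventually_gt_atTop s)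
    refine ⟨ge_of_tendsto h1 (hev.mono fun t ht => (hmono s t ht).1), ?_, 
      ge_of_tendsto h2 (hev.mono fun t ht => (hmono s t ht).2.le)⟩
    apply le_of_tendsto h1 (Eventually.of_forall fun t => ?_)
    exact (B_lt_one (hO s).1 (hO t).1 (hO s).2 (hO t).2).le
  have hnorm : ∀ y, MapClusterPt y atTop c → B y y = -1 := by
    intro y hy
    obtain ⟨U, hU, hUy⟩ := mapClusterPt_iff_ultrafilter.mp hy
    have h1 : Tendsto (fun t => B (c t) (c t)) U (𝓝 (B y y)) := tendsto_B hUy hUy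
    have h2 : Tendsto (fun t => B (c t) (c t)) U (𝓝 (-1)) := by
      simp only [(hO _).2]; exact tendsto_const_nhds
    exact tendsto_nhds_unique h1 h2
  have rel2 : ∀ y y', MapClusterPt y atTop c → MapClusterPt y' atTop c →
      -1 ≤ B y' y ∧ B y' y ≤ 1 ∧ 0 ≤ ε * om y' y := by
    intro y y' hy hy'
    obtain ⟨U, hU, hUy⟩ := mapClusterPt_iff_ultrafilter.mp hy'
    have h1 : Tendsto (fun t => B (c t) y) U (𝓝 (B y' y)) := tendsto_B hUy tendsto_const_nhds
    have h2 : Tendsto (fun t => ε * om (c t) y) U (𝓝 (ε * om y' y)) :=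
      (tendsto_om hUy tendsto_const_nhds).const_mul ε
    exact ⟨ge_of_tendsto h1 (Eventually.of_forall fun t => (rel y hy t).1),
      le_of_tendsto h1 (Eventually.of_forall fun t => (rel y hy t).2.1),
      ge_of_tendsto h2 (Eventually.of_forall fun t => (rel y hy t).2.2)⟩
  have hε0 : ε ≠ 0 := by rcases hε with h | h <;> rw [h] <;> norm_num
  have huniq : ∀ y y', MapClusterPt y atTop c → MapClusterPt y' atTop c → y' = y := by
    intro y y' hy hy'
    have r1 := rel2 y y' hy hy'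
    have r2 := rel2 y' y hy' hy
    have ho : om y y' = 0 := by
      have h1 : 0 ≤ ε * om y y' := r2.2.2
      have h2 : 0 ≤ ε * om y' y := r1.2.2
      rw [om_comm y' y] at h2
      have : ε * om y y' = 0 := by linarith
      exact (mul_eq_zero.mp this).resolve_left hε0
    rcases eq_or_neg (hnorm y hy) (hnorm y' hy') r2.1 r2.2.1 ho with h | h
    · exact h
    · exfalso
      have hpm : ∀ s, y = c s ∨ y = -c s := by
        intro s
        have a := rel y hy s
        have b := rel y' hy' s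
        rw [h] at b
        have ho2 : om (c s) y = 0 := by
          have e : om (c s) (-y) = - om (c s) y := by simp [om]; ring
          rw [e] at b
          have : ε * om (c s) y = 0 := by linarith [a.2.2, b.2.2]
          exact (mul_eq_zero.mp this).resolve_left hε0
        exact eq_or_neg (hO s).2 (hnorm y hy) a.1 a.2.1 ho2
      have h12 := (hmono 1 2 (by norm_num)).2
      have h0 : om (c 1) (c 2) = 0 := by
        have e1 : c 1 = y ∨ c 1 = -y := by
          rcases hpm 1 with h | h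
          · left; exact h.symm
          · right; rw [h]; simp
        have e2 : c 2 = y ∨ c 2 = -y := by
          rcases hpm 2 with h | h
          · left; exact h.symm
          · right; rw [h]; simp
        rcases e1 with e1 | e1 <;> rcases e2 with e2 | e2 <;> rw [e1, e2] <;> simp [om] <;> ring
      rw [h0] at h12
      simp at h12
  obtain ⟨y, hyK, hy⟩ := hK.exists_mapClusterPt_of_frequently (l := atTop) (f := c)
    (Eventually.frequently ((eventually_gt_atTop 0).mono hcK))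
  have hlim : Tendsto c atTop (𝓝 y) :=
    hK.tendsto_nhds_of_unique_mapClusterPt ((eventually_gt_atTop 0).mono hcK)
      (fun x _ hx => huniq y x hy hx)
  refine ⟨y, ⟨?_, hnorm y hy⟩, hlim⟩
  -- a limit of points of `S`
  choose! σ hσS hσ1 hσ2 using hs
  obtain ⟨p, hpS, hp⟩ := hS.ultrafilter_le_nhds ((Ultrafilter.of atTop).map σ) (by
    rw [le_principal_iff]
    exact (Ultrafilter.of_le atTop) ((eventually_gt_atTop (0:ℝ)).mono hσS))
  have hσp : Tendsto σ ((Ultrafilter.of atTop : Ultrafilter ℝ) : Filter ℝ) (𝓝 p) := hp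
  have hcy : Tendsto c ((Ultrafilter.of atTop : Ultrafilter ℝ) : Filter ℝ) (𝓝 y) := hlim.mono_left (Ultrafilter.of_le _)
  have hev : ∀ᶠ t in ((Ultrafilter.of atTop : Ultrafilter ℝ) : Filter ℝ), (0:ℝ) < t := (Ultrafilter.of_le atTop) (eventually_gt_atTop 0)
  have q1 : -1 ≤ B y p := by
    have h1 : Tendsto (fun t => B (c t) (σ t)) ((Ultrafilter.of atTop : Ultrafilter ℝ) : Filter ℝ) (𝓝 (B y p)) :=
      tendsto_B hcy hσp
    exact ge_of_tendsto h1 (hev.mono fun t ht => hσ1 t ht)
  have q2 : 0 ≤ ε * om y p := by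
    have h1 : Tendsto (fun t => ε * om (c t) (σ t)) ((Ultrafilter.of atTop : Ultrafilter ℝ) : Filter ℝ) (𝓝 (ε * om y p)) :=
      (tendsto_om hcy hσp).const_mul ε
    exact ge_of_tendsto h1 (hev.mono fun t ht => hσ2 t ht)
  have q3 : B y p ≤ 1 := by
    have h1 : Tendsto (fun t => B (c t) p) ((Ultrafilter.of atTop : Ultrafilter ℝ) : Filter ℝ) (𝓝 (B y p)) :=
      tendsto_B hcy tendsto_const_nhds
    exact le_of_tendsto h1 (Eventually.of_forall fun t => (B_lt_one (hO t).1 (hSO hpS).1 (hO t).2 (hSO hpS).2).le)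
  intro k hk
  have hle : B y k ≤ 0 := by
    have h1 : Tendsto (fun t => B (c t) k) atTop (𝓝 (B y k)) :=
      tendsto_B hlim tendsto_const_nhds
    exact le_of_tendsto h1 (Eventually.of_forall fun t => ((hO t).1 k hk).le)
  rcases hle.lt_or_eq with h | h
  · exact h
  exfalso
  have hyy := hnorm y hy
  obtain ⟨a1, a2, a3⟩ := rel y hy 0
  set x := c 0 with hx
  have hxO := hO 0
  rw [← hx] at hxO
  have hyneg : B y y < 0 := by rw [hyy]; norm_num
  have e1 : B y (x + (B x y) • y) = 0 := by rw [B_add_right, B_smul_right, hyy, B_comm y x]; ring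
  have e2 : B y (p + (B y p) • y) = 0 := by rw [B_add_right, B_smul_right, hyy]; ring
  have n1 : B (x + (B x y) • y) (x + (B x y) • y) ≤ 0 := by
    simp only [B_add_left, B_add_right, B_smul_left, B_smul_right, hyy, hxO.2, B_comm y x]
    nlinarith
  have n2 : B (p + (B y p) • y) (p + (B y p) • y) ≤ 0 := by
    simp only [B_add_left, B_add_right, B_smul_left, B_smul_right, hyy, (hSO hpS).2, B_comm p y]
    nlinarith
  have o1 : om y (x + (B x y) • y) = - om x y := by
    rw [om_add_right, om_smul_right, om_self, om_comm]; ring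
  have o2 : om y (p + (B y p) • y) = om y p := by
    rw [om_add_right, om_smul_right, om_self]; ring
  have hk0 : B k k ≤ 0 := hk.2.2.le
  have f1 : B (x + (B x y) • y) k = B x k := by rw [B_add_left, B_smul_left, h]; ring
  have f2 : B (p + (B y p) • y) k = B p k := by rw [B_add_left, B_smul_left, h]; ring
  have g1 := hxO.1 k hk
  have g2 := (hSO hpS).1 k hk
  rcases le_total 0 (ε * om y k) with hk1 | hk1
  · have := sign_rule2 hyneg e1 h n1 hk0 (by
      rw [o1]
      have : ε * ε = 1 := by rcases hε with h | h <;> rw [h] <;> norm_num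
      have h2 : (ε * om x y) * (ε * om y k) = om x y * om y k := by
        calc (ε * om x y) * (ε * om y k) = (ε * ε) * (om x y * om y k) := by ring
          _ = _ := by rw [this]; ring
      linarith [mul_nonneg a3 hk1])
    rw [f1] at this
    linarith
  · have := sign_rule2 hyneg e2 h n2 hk0 (by
      rw [o2]
      have : ε * ε = 1 := by rcases hε with h | h <;> rw [h] <;> norm_num
      have h2 : (ε * om y p) * (ε * om y k) = om y p * om y k := by
        calc (ε * om y p) * (ε * om y k) = (ε * ε) * (om y p * om y k) := by ring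
          _ = _ := by rw [this]; ring
      linarith [mul_nonneg q2 (neg_nonneg.mpr hk1)])
    rw [f2] at this
    linarith

/-- The Cauchy surface. -/
def SC : Set V := {x | x ∈ Om ∧ gS x = 0}

lemma SC_iff {x : V} : x ∈ SC ↔ x ∈ Om ∧ ∃ w : W, rho w x ∈ S0 := by
  constructor
  · rintro ⟨h1, h2⟩
    refine ⟨h1, dlw x, (dl_good h1.1).dom, ?_, ?_⟩
    · rw [gS_eq] at h2
      show dl x 3 = 2 * dl x 4
      linarith
    · rw [B_rho]; exact h1.2
  · rintro ⟨h1, w, hw⟩
    refine ⟨h1, ?_⟩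
    rw [← gS_rho h1.1 w, gS_eq, dl_of_Dom (OmC_rho h1.1 w) hw.1]
    linarith [hw.2.1]

lemma S0_le {s t : V} (hs : s ∈ S0) (ht : t ∈ S0) : B s t ≤ -1 ∧ (B s t = -1 → s = t) := by
  have ps := (S0_Good hs).h3
  have pt := (S0_Good ht).h3
  obtain ⟨_, hs3, hsq⟩ := hs
  obtain ⟨_, ht3, htq⟩ := ht
  unfold B at hsq htq ⊢
  rw [hs3] at hsq ps ⊢
  rw [ht3] at htq pt ⊢
  set X := s 0 * t 0 + 3 * (s 1 * t 1) + 3 * (s 2 * t 2) with hX
  have cs1 : X ^ 2 ≤ (s 0 * s 0 + 3 * (s 1 * s 1) + 3 * (s 2 * s 2)) * (t 0 * t 0 + 3 * (t 1 * t 1) + 3 * (t 2 * t 2)) := by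
    rw [hX]
    linarith [sq_nonneg (s 0 * t 1 - s 1 * t 0), sq_nonneg (s 0 * t 2 - s 2 * t 0), sq_nonneg (s 1 * t 2 - s 2 * t 1)]
  have es : s 0 * s 0 + 3 * (s 1 * s 1) + 3 * (s 2 * s 2) = 5 * s 4 ^ 2 - 1 := by linarith
  have et : t 0 * t 0 + 3 * (t 1 * t 1) + 3 * (t 2 * t 2) = 5 * t 4 ^ 2 - 1 := by linarith
  rw [es, et] at cs1
  have hid : (5 * s 4 ^ 2 - 1) * (5 * t 4 ^ 2 - 1) = (5 * (s 4 * t 4) - 1) ^ 2 - 5 * (s 4 - t 4) ^ 2 := by ring
  rw [hid] at cs1
  have hst : 0 < s 4 * t 4 := by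
    apply mul_pos <;> linarith
  have h5s : 1 ≤ 5 * s 4 ^ 2 := by linarith [mul_self_nonneg (s 0), mul_self_nonneg (s 1), mul_self_nonneg (s 2)]
  have h5t : 1 ≤ 5 * t 4 ^ 2 := by linarith [mul_self_nonneg (t 0), mul_self_nonneg (t 1), mul_self_nonneg (t 2)]
  have hge : 0 ≤ 5 * (s 4 * t 4) - 1 := by
    have h1 : 1 * 1 ≤ (5 * s 4 ^ 2) * (5 * t 4 ^ 2) := mul_le_mul h5s h5t (by norm_num) (by linarith)
    by_contra hcon
    push Not at hcon
    have h2 : (5 * (s 4 * t 4)) * (5 * (s 4 * t 4)) < 1 * 1 :=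
      mul_lt_mul'' (by linarith) (by linarith) (by linarith) (by linarith)
    linarith
  have hXle : X ≤ 5 * (s 4 * t 4) - 1 := by
    have h1 := abs_le_of_sq_le_sq (a := X) (b := 5 * (s 4 * t 4) - 1) (by linarith [sq_nonneg (s 4 - t 4)]) hge
    exact (abs_le.mp h1).2
  constructor
  · linarith
  · intro h
    have hXe : X = 5 * (s 4 * t 4) - 1 := by linarith
    rw [hXe] at cs1
    have h4' : (s 4 - t 4) ^ 2 = 0 := le_antisymm (by linarith) (sq_nonneg _)
    have h4 : s 4 = t 4 := sub_eq_zero.mp (by simpa using h4')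
    have hd : (s 0 - t 0) ^ 2 + 3 * (s 1 - t 1) ^ 2 + 3 * (s 2 - t 2) ^ 2 = 0 := by
      rw [h4] at es hXe
      linarith [hX]
    have d0' : (s 0 - t 0) ^ 2 = 0 :=
      le_antisymm (by linarith [sq_nonneg (s 0 - t 0), sq_nonneg (s 1 - t 1), sq_nonneg (s 2 - t 2)]) (sq_nonneg _)
    have d0 : s 0 = t 0 := sub_eq_zero.mp (by simpa using d0')
    have d1' : (s 1 - t 1) ^ 2 = 0 :=
      le_antisymm (by linarith [sq_nonneg (s 0 - t 0), sq_nonneg (s 1 - t 1), sq_nonneg (s 2 - t 2)]) (sq_nonneg _)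
    have d1 : s 1 = t 1 := sub_eq_zero.mp (by simpa using d1')
    have d2' : (s 2 - t 2) ^ 2 = 0 :=
      le_antisymm (by linarith [sq_nonneg (s 0 - t 0), sq_nonneg (s 1 - t 1), sq_nonneg (s 2 - t 2)]) (sq_nonneg _)
    have d2 : s 2 = t 2 := sub_eq_zero.mp (by simpa using d2')
    ext k; fin_cases k
    · exact d0
    · exact d1
    · exact d2
    · show s 3 = t 3; rw [hs3, ht3, h4]
    · exact h4

/-- achronality -/
lemma SC_achronal {x y : V} (hx : x ∈ SC) (hy : y ∈ SC) (h : -1 ≤ B x y) : x = y := by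
  obtain ⟨hxO, a, ha⟩ := SC_iff.mp hx
  obtain ⟨hyO, b, hb⟩ := SC_iff.mp hy
  set s := rho a x with hs
  set t := rho b y with ht
  have e1 : B x y = B s (rho (a * b⁻¹) t) := by
    rw [hs, ht, rho_mul_apply, rho_inv_apply, B_rho]
  have h1 := B_Dom_Pos ha.1 (dominance hb.1 (a * b⁻¹))
  have h1' := h1
  rw [B_sub_right, ← e1] at h1
  obtain ⟨h2, h3⟩ := S0_le ha hb
  have h4 : B s t = -1 := by linarith
  have hst := h3 h4
  have hgood := S0_Good ha
  set u := rho (a * b⁻¹) t - t with hu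
  have hBu : B s u = 0 := by
    rw [hu, B_sub_right, ← e1]; linarith
  have hpos : Pos u := dominance hb.1 (a * b⁻¹)
  have hspn : Spn s u := by
    intro i hi
    by_contra hne
    rw [B_eq_sum, Fin.sum_univ_five] at hBu
    have c := fun i => mul_nonneg (mul_nonneg (cd_nonneg ha.1 i) (co_nonneg hpos i)) (mu_pos i).le
    have c0 := c 0
    have c1 := c 1
    have c2 := c 2
    have c3 := c 3
    have c4 := c 4
    have hpi : 0 < cd i s * co i u * (![3, 3/2, 1, 6, 6] : Fin 5 → ℝ) i := by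
      apply mul_pos (mul_pos _ _) (mu_pos i)
      · unfold cd
        have := mu_pos i
        have h6 : B s (root i) < 0 := lt_of_le_of_ne (ha.1 i) hi
        apply div_pos <;> linarith
      · exact lt_of_le_of_ne (co_nonneg hpos i) (Ne.symm hne)
    fin_cases i <;> simp only [Fin.zero_eta, Fin.mk_one, Fin.reduceFinMk] at hpi <;> linarith
  have hBuu : B u u = 0 := by
    rw [hu]
    simp only [B_sub_left, B_sub_right, B_rho]
    have : B t (rho (a * b⁻¹) t) = -1 := by rw [← hst, hst, ← hst]; rw [hst] at e1 ⊢; linarith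
    rw [B_comm (rho (a * b⁻¹) t) t, this, hb.2.2]; ring
  have hu0 := Spn.eq_zero hgood hspn hBuu
  have h7 : rho (a * b⁻¹) t = t := sub_eq_zero.mp hu0
  have h8 : rho (a * b⁻¹) t = rho a y := by rw [ht, rho_mul_apply, rho_inv_apply]
  have h9 : rho a x = rho a y := by rw [← h8, h7, ← hs, hst]
  exact (rho a).injective h9

end Pool.Agent.H804
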