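import Pool.Agent.H804.Vec

set_option autoImplicit false

namespace Pool.Agent.H804

open CoxeterSystem

/-- simple roots -/
noncomputable def root : Fin 5 → V := ![![1,0,0,0,0], ![-(1/2),1/2,0,0,0], ![-1,-1,0,1,1], ![0,0,1,1,0], ![0,0,-1,1,0]]

/-- norms of the simple roots -/
def nrm : Fin 5 → ℝ := ![1,1,2,2,2]

/-- fundamental (dual) vectors, spanning the chamber -/
def fw : Fin 5 → V := ![![-3,-1,0,0,6], ![0,-1,0,0,3], ![0,0,0,0,1], ![0,0,-1,3,-3], ![0,0,1,3,-3]]

lemma nrm_pos (i : Fin 5) : 0 < nrm i := by fin_cases i <;> norm_num [nrm]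

lemma B_root_self (i : Fin 5) : B (root i) (root i) = nrm i := by
  fin_cases i <;> simp [nrm, root, B] <;> norm_num

/-- reflection as a linear map -/
noncomputable def sgL (i : Fin 5) : V →ₗ[ℝ] V where
  toFun x := x - (2 * B x (root i) / nrm i) • root i
  map_add' x y := by rw [B_add_left]; module
  map_smul' c x := by rw [B_smul_left, RingHom.id_apply]; module

lemma sgL_apply (i : Fin 5) (x : V) : sgL i x = x - (2 * B x (root i) / nrm i) • root i := rfl

lemma sgL_sgL (i : Fin 5) (x : V) : sgL i (sgL i x) = x := by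
  rw [sgL_apply, sgL_apply, B_sub_left, B_smul_left, B_root_self]
  have := (nrm_pos i).ne'
  have h : 2 * (B x (root i) - 2 * B x (root i) / nrm i * nrm i) / nrm i = - (2 * B x (root i) / nrm i) := by
    field_simp; ring
  rw [h]; module

lemma B_sgL (i : Fin 5) (x y : V) : B (sgL i x) (sgL i y) = B x y := by
  simp only [sgL_apply, B_sub_left, B_sub_right, B_smul_left, B_smul_right, B_root_self]
  rw [B_comm (root i) y]
  have := (nrm_pos i).ne'
  field_simp
  ring

/-- reflection -/
noncomputable def sg (i : Fin 5) : V ≃ₗ[ℝ] V :=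
  LinearEquiv.ofInvolutive (sgL i) (sgL_sgL i)

lemma sg_apply (i : Fin 5) (x : V) : sg i x = x - (2 * B x (root i) / nrm i) • root i := rfl

lemma sg0 (x : V) : sg 0 x = ![-x 0, x 1, x 2, x 3, x 4] := by
  rw [sg_apply]; ext k; fin_cases k <;> simp [B, root, nrm] <;> ring

lemma sg1 (x : V) : sg 1 x = ![x 0/2+3*x 1/2, x 0/2 - x 1/2, x 2, x 3, x 4] := by
  rw [sg_apply]; ext k; fin_cases k <;> simp [B, root, nrm] <;> ring

lemma sg2 (x : V) : sg 2 x = ![-3*x 1-x 3-x 4, -x 0-2*x 1-x 3-x 4, x 2, x 0+3*x 1+2*x 3+x 4, x 0+3*x 1+x 3+2*x 4] := by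
  rw [sg_apply]; ext k; fin_cases k <;> simp [B, root, nrm] <;> ring

lemma sg3 (x : V) : sg 3 x = ![x 0, x 1, -2*x 2 + x 3, 2*x 3-3*x 2, x 4] := by
  rw [sg_apply]; ext k; fin_cases k <;> simp [B, root, nrm] <;> ring

lemma sg4 (x : V) : sg 4 x = ![x 0, x 1, -2*x 2 - x 3, 2*x 3+3*x 2, x 4] := by
  rw [sg_apply]; ext k; fin_cases k <;> simp [B, root, nrm] <;> ring

lemma sg_sg (i : Fin 5) (x : V) : sg i (sg i x) = x := sgL_sgL i x

lemma sg_sq (i : Fin 5) : sg i * sg i = 1 := by
  apply LinearEquiv.ext; intro x; exact sg_sg i x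

/-- Coxeter matrix (`0` means `∞`) -/
def cox : CoxeterMatrix (Fin 5) where
  M := !![1,3,4,2,2; 3,1,4,2,2; 4,4,1,3,3; 2,2,3,1,0; 2,2,3,0,1]
  isSymm := by decide
  diagonal := by decide
  off_diagonal := by
    intro i j h
    fin_cases i <;> fin_cases j <;> first | (exact absurd rfl h) | (simp)

/-- Cartan numbers -/
noncomputable def car (i j : Fin 5) : ℝ := 2 * B (root j) (root i) / nrm i

lemma sg_left (i j : Fin 5) (x : V) (a b : ℝ) :
    sg i (x + a • root i + b • root j) =
      x + (-a - 2 * B x (root i) / nrm i - car i j * b) • root i + b • root j := by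
  rw [sg_apply, B_add_left, B_add_left, B_smul_left, B_smul_left, B_root_self, car]
  have := (nrm_pos i).ne'
  have h : 2 * (B x (root i) + a * nrm i + b * B (root j) (root i)) / nrm i =
      2 * a + 2 * B x (root i) / nrm i + 2 * B (root j) (root i) / nrm i * b := by field_simp; ring
  rw [h]; module

lemma sg_right (i j : Fin 5) (x : V) (a b : ℝ) :
    sg j (x + a • root i + b • root j) =
      x + a • root i + (-b - 2 * B x (root j) / nrm j - car j i * a) • root j := by
  have h := sg_left j i x b a
  rw [add_right_comm, h, add_right_comm]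

lemma sg_step (i j : Fin 5) (x : V) (a b : ℝ) :
    (sg i * sg j) (x + a • root i + b • root j) =
      x + (-a - 2 * B x (root i) / nrm i - car i j * (-b - 2 * B x (root j) / nrm j - car j i * a)) • root i +
        (-b - 2 * B x (root j) / nrm j - car j i * a) • root j := by
  rw [LinearEquiv.mul_apply, sg_right, sg_left]

lemma sg_pow2 {i j : Fin 5} (h : car i j = 0) (h' : car j i = 0) : (sg i * sg j) ^ 2 = 1 := by
  apply LinearEquiv.ext; intro x
  have e : x = x + (0:ℝ) • root i + (0:ℝ) • root j := by module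
  rw [pow_succ, pow_one, LinearEquiv.mul_apply, LinearEquiv.coe_one, id]
  conv_lhs => rw [e]
  rw [sg_step, sg_step, h, h']
  module

lemma sg_pow3 {i j : Fin 5} (h : car i j = -1) (h' : car j i = -1) : (sg i * sg j) ^ 3 = 1 := by
  apply LinearEquiv.ext; intro x
  have e : x = x + (0:ℝ) • root i + (0:ℝ) • root j := by module
  rw [pow_succ, pow_succ, pow_one, LinearEquiv.mul_apply, LinearEquiv.mul_apply, LinearEquiv.coe_one, id]
  conv_lhs => rw [e]
  rw [sg_step, sg_step, sg_step, h, h']
  module

lemma sg_pow4 {i j : Fin 5} (h : car i j * car j i = 2) : (sg i * sg j) ^ 4 = 1 := by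
  apply LinearEquiv.ext; intro x
  have e : x = x + (0:ℝ) • root i + (0:ℝ) • root j := by module
  rw [pow_succ, pow_succ, pow_succ, pow_one, LinearEquiv.mul_apply, LinearEquiv.mul_apply, LinearEquiv.mul_apply,
    LinearEquiv.coe_one, id]
  conv_lhs => rw [e]
  generalize hu : 2 * B x (root i) / nrm i = u
  generalize hv : 2 * B x (root j) / nrm j = v
  have st : ∀ {a b a' b' : ℝ}, a' = a - u + car i j * b + car i j * v → b' = -b - v - car j i * a →
      (sg i * sg j) (x + a • root i + b • root j) = x + a' • root i + b' • root j := by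
    rintro a b a' b' rfl rfl
    rw [sg_step, hu, hv]
    congr 2
    congr 1
    linear_combination a * h
  rw [st (a' := -u + car i j * v) (b' := -v) (by ring) (by ring),
    st (a' := -2 * u + car i j * v) (b' := car j i * u - 2 * v) (by ring) (by linear_combination v * h),
    st (a' := -u) (b' := car j i * u - v) (by linear_combination (-u) * h) (by linear_combination v * h),
    st (a' := 0) (b' := 0) (by linear_combination (-u) * h) (by ring)]
  module

lemma liftable : cox.IsLiftable sg := by
  intro i j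
  fin_cases i <;> fin_cases j
  · exact (pow_one _).trans (sg_sq 0)
  · exact sg_pow3 (by simp [car, B, root, nrm]) (by simp [car, B, root, nrm])
  · exact sg_pow4 (by simp [car, B, root, nrm])
  · exact sg_pow2 (by simp [car, B, root, nrm]) (by simp [car, B, root, nrm])
  · exact sg_pow2 (by simp [car, B, root, nrm]) (by simp [car, B, root, nrm])
  · exact sg_pow3 (by simp [car, B, root, nrm]) (by simp [car, B, root, nrm])
  · exact (pow_one _).trans (sg_sq 1)
  · exact sg_pow4 (by simp [car, B, root, nrm]; norm_num)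
  · exact sg_pow2 (by simp [car, B, root, nrm]) (by simp [car, B, root, nrm])
  · exact sg_pow2 (by simp [car, B, root, nrm]) (by simp [car, B, root, nrm])
  · exact sg_pow4 (by simp [car, B, root, nrm])
  · exact sg_pow4 (by simp [car, B, root, nrm]; norm_num)
  · exact (pow_one _).trans (sg_sq 2)
  · exact sg_pow3 (by simp [car, B, root, nrm]) (by simp [car, B, root, nrm])
  · exact sg_pow3 (by simp [car, B, root, nrm]) (by simp [car, B, root, nrm])
  · exact sg_pow2 (by simp [car, B, root, nrm]) (by simp [car, B, root, nrm])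
  · exact sg_pow2 (by simp [car, B, root, nrm]) (by simp [car, B, root, nrm])
  · exact sg_pow3 (by simp [car, B, root, nrm]) (by simp [car, B, root, nrm])
  · exact (pow_one _).trans (sg_sq 3)
  · exact pow_zero _
  · exact sg_pow2 (by simp [car, B, root, nrm]) (by simp [car, B, root, nrm])
  · exact sg_pow2 (by simp [car, B, root, nrm]) (by simp [car, B, root, nrm])
  · exact sg_pow3 (by simp [car, B, root, nrm]) (by simp [car, B, root, nrm])
  · exact pow_zero _
  · exact (pow_one _).trans (sg_sq 4)

end Pool.Agent.H804
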