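import Pool.Agent.H804.Base
import Pool.Agent.H804.Cox

set_option autoImplicit false

namespace Pool.Agent.H804

open Filter Topology

/-- reflections preserve the time orientation -/
lemma om_sg {x y : V} (hx : B x x < 0) (hxy : B x y = 0) (hy : B y y ≤ 0) (h : 0 < om x y) (i : Fin 5) :
    0 < om (sg i x) (sg i y) := by
  by_contra hcon
  push Not at hcon
  set c := B x (root i) / nrm i with hc
  set d := B y (root i) / nrm i with hd
  have hn := nrm_pos i
  set f : ℝ → ℝ := fun s => om (x - (s * c) • root i) (y - (s * d) • root i) with hf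
  have hfc : Continuous f := by
    apply continuous_om <;> fun_prop
  have h0 : f 0 = om x y := by simp [hf]
  have h2 : f 2 = om (sg i x) (sg i y) := by
    simp only [hf, sg_apply, hc, hd]
    rw [show 2 * (B x (root i) / nrm i) = 2 * B x (root i) / nrm i by ring, show 2 * (B y (root i) / nrm i) = 2 * B y (root i) / nrm i by ring]
  obtain ⟨s, ⟨hs0, hs2⟩, hs⟩ : (0:ℝ) ∈ f '' (Set.Icc 0 2) := by
    have := intermediate_value_Icc' (show (0:ℝ) ≤ 2 by norm_num) hfc.continuousOn
    apply this
    rw [h0, h2]
    exact ⟨hcon, h.le⟩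
  set xs := x - (s * c) • root i with hxs
  set ys := y - (s * d) • root i with hys
  have hom : om xs ys = 0 := hs
  -- norm of combinations
  have hq : ∀ a b : ℝ, B (a • xs + b • ys) (a • xs + b • ys) =
      a^2 * B x x + b^2 * B y y - (2 * s - s^2) * (a * c + b * d)^2 * nrm i := by
    intro a b
    have e1 : B x (root i) = c * nrm i := by rw [hc]; field_simp
    have e2 : B y (root i) = d * nrm i := by rw [hd]; field_simp
    rw [hxs, hys]
    simp only [B_add_left, B_add_right, B_sub_left, B_sub_right, B_smul_left, B_smul_right, B_root_self,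
      B_comm (root i) x, B_comm (root i) y, B_comm y x, e1, e2, hxy]
    ring
  have hss : 0 ≤ 2 * s - s^2 := by nlinarith
  have hle : ∀ a b : ℝ, B (a • xs + b • ys) (a • xs + b • ys) ≤ a^2 * B x x := by
    intro a b
    rw [hq]
    have := mul_nonneg (mul_nonneg hss (sq_nonneg (a * c + b * d))) hn.le
    have := mul_nonneg (sq_nonneg b) (neg_nonneg.mpr hy)
    linarith
  have hz : ∀ j, j = 3 ∨ j = 4 → ys j = 0 := by
    intro j hj
    have hz3 : (ys j • xs + (-(xs j)) • ys) 3 = 0 := by
      simp only [Pi.add_apply, Pi.smul_apply, smul_eq_mul]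
      rcases hj with rfl | rfl
      · ring
      · unfold om at hom; linarith
    have hz4 : (ys j • xs + (-(xs j)) • ys) 4 = 0 := by
      simp only [Pi.add_apply, Pi.smul_apply, smul_eq_mul]
      rcases hj with rfl | rfl
      · unfold om at hom; linarith
      · ring
    have h1 := nonneg_of_zero hz3 hz4
    have h2 := hle (ys j) (-(xs j))
    by_contra hne
    have : 0 < (ys j)^2 := by positivity
    nlinarith
  have hys0 : ys = 0 := by
    apply zero_of_zero (hz 3 (Or.inl rfl)) (hz 4 (Or.inr rfl))
    have := hle 0 1
    simpa using this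
  have hy2 : y = (s * d) • root i := by rw [hys] at hys0; exact sub_eq_zero.mp hys0
  have hy0 : y = 0 := by
    have h5 : B y y = (s * d)^2 * nrm i := by rw [hy2, B_smul_left, B_smul_right, B_root_self]; ring
    have h6 : (s * d)^2 * nrm i ≤ 0 := by linarith
    have h7 : s * d = 0 := by
      by_contra hne
      have : 0 < (s * d)^2 := by positivity
      nlinarith
    rw [hy2, h7, zero_smul]
  rw [hy0] at h
  simp [om] at h

end Pool.Agent.H804
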