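import Pool.Agent.H804.Domain
import Pool.Agent.H804.Omsg

set_option autoImplicit false

namespace Pool.Agent.H804

open Filter Topology

lemma om_rho {x y : V} (hx : B x x < 0) (hxy : B x y = 0) (hy : B y y ≤ 0) (h : 0 < om x y) (w : W) :
    0 < om (rho w x) (rho w y) := by
  induction w using cs.simple_induction_left with
  | one => simpa using h
  | mul_simple_left w i ih =>
    rw [rho_mul_apply, rho_mul_apply, rho_simple]
    apply om_sg
    · rwa [B_rho]
    · rwa [B_rho]
    · rwa [B_rho]
    · exact ih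

/-- causal precedence -/
def prec (x y : V) : Prop := -1 ≤ B x y ∧ 0 < om x y

lemma prec_rho {x y : V} (hx : x ∈ Om) (hy : y ∈ Om) (h : prec x y) (w : W) : prec (rho w x) (rho w y) := by
  refine ⟨by rw [B_rho]; exact h.1, ?_⟩
  have h1 : 0 < om x (y + (B x y) • x) := by
    rw [om_add_right, om_smul_right, om_self, mul_zero, add_zero]; exact h.2
  have h2 : B x (y + (B x y) • x) = 0 := by
    rw [B_add_right, B_smul_right, hx.2]; ring
  have hlt := B_lt_one hx.1 hy.1 hx.2 hy.2
  have h3 : B (y + (B x y) • x) (y + (B x y) • x) ≤ 0 := by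
    simp only [B_add_left, B_add_right, B_smul_left, B_smul_right, hx.2, hy.2, B_comm y x]
    nlinarith [h.1]
  have h4 := om_rho (by rw [hx.2]; norm_num) h2 h3 h1 w
  rw [map_add, map_smul, om_add_right, om_smul_right, om_self, mul_zero, add_zero] at h4
  exact h4

lemma prec_rho_iff {x y : V} (hx : x ∈ Om) (hy : y ∈ Om) (w : W) : prec (rho w x) (rho w y) ↔ prec x y := by
  constructor
  · intro h
    have := prec_rho (Om_rho hx w) (Om_rho hy w) h w⁻¹
    rwa [rho_inv_apply, rho_inv_apply] at this
  · intro h; exact prec_rho hx hy h w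

lemma prec_trans {x y z : V} (hx : x ∈ Om) (hy : y ∈ Om) (hz : z ∈ Om) (h1 : prec x y) (h2 : prec y z) :
    prec x z := by
  have px := OmC_x3_pos hx.1
  have py := OmC_x3_pos hy.1
  have pz := OmC_x3_pos hz.1
  have l1 := B_lt_one hx.1 hy.1 hx.2 hy.2
  have l2 := B_lt_one hy.1 hz.1 hy.2 hz.2
  obtain ⟨b1, o1⟩ := h1
  obtain ⟨b2, o2⟩ := h2
  constructor
  · have hs := sign_rule (y := y) (u := x + (B x y) • y) (v := z + (B y z) • y)
      (by rw [hy.2]; norm_num)
      (by rw [B_add_right, B_smul_right, hy.2, B_comm y x]; ring)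
      (by rw [B_add_right, B_smul_right, hy.2]; ring)
      (by simp only [B_add_left, B_add_right, B_smul_left, B_smul_right, hx.2, hy.2, B_comm y x]
          nlinarith)
      (by simp only [B_add_left, B_add_right, B_smul_left, B_smul_right, hz.2, hy.2, B_comm z y]
          nlinarith)
      (by rw [om_add_right, om_smul_right, om_self, om_comm]; linarith)
      (by rw [om_add_right, om_smul_right, om_self]; linarith)
    simp only [B_add_left, B_add_right, B_smul_left, B_smul_right, hy.2] at hs
    nlinarith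
  · unfold om at *
    have e1 : x 4 * y 3 < x 3 * y 4 := by linarith
    have e2 : y 4 * z 3 < y 3 * z 4 := by linarith
    have e3 : x 4 * y 3 * z 3 < x 3 * y 3 * z 4 := by
      calc x 4 * y 3 * z 3 < x 3 * y 4 * z 3 := by gcongr
        _ = x 3 * (y 4 * z 3) := by ring
        _ < x 3 * (y 3 * z 4) := by gcongr
        _ = x 3 * y 3 * z 4 := by ring
    have e4 : 0 < y 3 * (x 3 * z 4 - x 4 * z 3) := by linarith
    exact (mul_pos_iff_of_pos_left py).mp e4

/-- local-to-global for transitive relations on the line -/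
lemma local_to_global {R : ℝ → ℝ → Prop} (htr : ∀ a b c, R a b → R b c → R a c)
    (hloc : ∀ t₀ : ℝ, ∃ ε > 0, ∀ s t, t₀ - ε < s → s < t → t < t₀ + ε → R s t) :
    ∀ s t, s < t → R s t := by
  intro s t hst
  choose ε hε h using hloc
  obtain ⟨δ, hδ, hcov⟩ := lebesgue_number_lemma_of_metric (s := Set.Icc s t) isCompact_Icc
    (c := fun t₀ => Metric.ball t₀ (ε t₀)) (fun _ => Metric.isOpen_ball)
    (fun x _ => Set.mem_iUnion.mpr ⟨x, Metric.mem_ball_self (hε x)⟩)
  have hstep : ∀ x ∈ Set.Icc s t, ∀ y, x < y → y < x + δ → R x y := by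
    intro x hx y hxy hy
    obtain ⟨t₀, ht₀⟩ := hcov x hx
    have a1 := ht₀ (Metric.mem_ball_self hδ)
    have a2 := ht₀ (show y ∈ Metric.ball x δ by rw [Metric.mem_ball, Real.dist_eq, abs_lt]; constructor <;> linarith)
    rw [Metric.mem_ball, Real.dist_eq, abs_lt] at a1 a2
    exact h t₀ x y (by linarith) hxy (by linarith)
  obtain ⟨N, hN⟩ := exists_nat_gt ((t - s) / δ)
  have hNpos : (0:ℝ) < N := lt_of_le_of_lt (by apply div_nonneg <;> linarith) hN
  set η := (t - s) / N with hη
  have hη0 : 0 < η := by apply div_pos <;> linarith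
  have hηδ : η < δ := by
    rw [hη, div_lt_iff₀ hNpos]
    rwa [div_lt_iff₀ hδ, mul_comm] at hN
  have hNη : N * η = t - s := by rw [hη]; field_simp
  have hind : ∀ k : ℕ, k + 1 ≤ N → R s (s + (k + 1) * η) := by
    intro k
    induction k with
    | zero =>
      intro _
      apply hstep s ⟨le_refl _, hst.le⟩
      · simp; exact hη0
      · simp; exact hηδ
    | succ k ih =>
      intro hk
      have hk' : ((k:ℝ) + 1 + 1) ≤ N := by exact_mod_cast hk
      refine htr _ _ _ (ih (by omega)) (hstep _ ⟨?_, ?_⟩ _ ?_ ?_)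
      · nlinarith
      · nlinarith
      · push_cast; linarith
      · push_cast; linarith
  have hNN : 1 ≤ N := by
    have : (0:ℝ) < N := hNpos
    have : 0 < N := by exact_mod_cast this
    omega
  have := hind (N - 1) (by omega)
  have e : ((N - 1 : ℕ) : ℝ) + 1 = N := by
    rw [Nat.cast_sub hNN]; simp
  rw [e, hNη] at this
  simpa using this

end Pool.Agent.H804
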