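import Pool.Agent.H804.Dom
import Pool.Agent.H804.Base
import Pool.Agent.H804.Num

set_option autoImplicit false

namespace Pool.Agent.H804

open Filter Topology

@[fun_prop]
lemma continuous_rho (w : W) : Continuous (rho w) :=
  LinearMap.continuous_of_finiteDimensional (rho w).toLinearMap

/-- the dual of the Tits cone -/
def Tst (k : V) : Prop := ∀ w : W, Pos (rho w k)

lemma Tst.pos {k : V} (h : Tst k) : Pos k := by
  have := h 1
  rwa [rho_one_apply] at this

lemma Tst.rho {k : V} (h : Tst k) (w : W) : Tst (rho w k) := by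
  intro w'
  rw [← rho_mul_apply]
  exact h _

lemma Tst.add {u v : V} (hu : Tst u) (hv : Tst v) : Tst (u + v) := by
  intro w; rw [map_add]; exact (hu w).add (hv w)

lemma Tst.smul {v : V} (hv : Tst v) {c : ℝ} (hc : 0 ≤ c) : Tst (c • v) := by
  intro w; rw [map_smul]; exact (hv w).smul hc

lemma Tst_zero : Tst 0 := by intro w; rw [map_zero]; exact Pos_zero

lemma isClosed_Tst : IsClosed {k | Tst k} := by
  have : {k | Tst k} = ⋂ w : W, ⋂ m : Fin 5, {k | B (rho w k) (fw m) ≤ 0} := by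
    ext k
    simp [Tst, Pos]
  rw [this]
  apply isClosed_iInter; intro w
  apply isClosed_iInter; intro m
  exact isClosed_le (by fun_prop) continuous_const

lemma Tst_of_Dom {x : V} (hx : Dom x) (hp : Pos x) : Tst x := by
  intro w
  have := hp.add (dominance hx w)
  rwa [add_sub_cancel] at this

lemma Tst_x0 : Tst x0 := Tst_of_Dom Dom_x0 Pos_x0

/-- light-like elements of the dual cone: the limit set -/
def Lam : Set V := {k | k ≠ 0 ∧ Tst k ∧ B k k = 0}

/-- the invisible domain (as a cone) -/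
def OmC : Set V := {z | ∀ k ∈ Lam, B z k < 0}

lemma Lam_rho {k : V} (h : k ∈ Lam) (w : W) : rho w k ∈ Lam := by
  refine ⟨?_, h.2.1.rho w, ?_⟩
  · intro h0
    rw [LinearEquiv.map_eq_zero_iff] at h0
    exact h.1 h0
  · rw [B_rho]; exact h.2.2

lemma OmC_rho {z : V} (h : z ∈ OmC) (w : W) : rho w z ∈ OmC := by
  intro k hk
  rw [B_rho_left]
  exact h _ (Lam_rho hk _)

lemma OmC_smul {z : V} (h : z ∈ OmC) {c : ℝ} (hc : 0 < c) : c • z ∈ OmC := by
  intro k hk
  rw [B_smul_left]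
  exact mul_neg_of_pos_of_neg hc (h k hk)

lemma OmC_add {z z' : V} (h : z ∈ OmC) (h' : z' ∈ OmC) : z + z' ∈ OmC := by
  intro k hk
  rw [B_add_left]
  linarith [h k hk, h' k hk]

/-- uniform estimate -/
lemma uniform {Z : Set V} (hZ : IsCompact Z) (hZO : Z ⊆ OmC) :
    ∃ c > 0, ∃ R > 0, ∀ z ∈ Z, ∀ k, Tst k → |B k k| ≤ 9 → R ≤ ‖k‖ → B z k ≤ -c * ‖k‖ := by
  set T1 : Set V := {k | Tst k} ∩ Metric.sphere 0 1 with hT1
  have hT1c : IsCompact T1 := (isCompact_sphere 0 1).inter_left isClosed_Tst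
  obtain hemp | hne := (Z ×ˢ T1).eq_empty_or_nonempty
  · refine ⟨1, one_pos, 1, one_pos, ?_⟩
    intro z hz k hk _ hR
    exfalso
    have hk0 : ‖k‖ ≠ 0 := by positivity
    have : (z, (‖k‖⁻¹) • k) ∈ Z ×ˢ T1 := by
      refine ⟨hz, hk.smul (by positivity), ?_⟩
      simp [norm_smul, hk0]
    rw [hemp] at this
    exact this
  set f : V × V → ℝ := fun p => max |B p.2 p.2| (- B p.1 p.2) with hf
  have hfc : Continuous f := by
    apply Continuous.max <;> fun_prop
  obtain ⟨p, hp, hmin⟩ := (hZ.prod hT1c).exists_isMinOn hne hfc.continuousOn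
  have hfp : 0 < f p := by
    simp only [hf, lt_max_iff]
    by_cases h : B p.2 p.2 = 0
    · right
      have hk : p.2 ∈ Lam := by
        refine ⟨?_, hp.2.1, h⟩
        have := hp.2.2
        intro h0
        rw [h0] at this
        simp at this
      have := hZO hp.1 _ hk
      linarith
    · left; positivity
  refine ⟨f p, hfp, 9 / f p + 1, by positivity, ?_⟩
  intro z hz k hk hq hR
  have hk1 : 1 ≤ ‖k‖ := by
    have : 0 < 9 / f p := by positivity
    linarith
  have hk0 : ‖k‖ ≠ 0 := by positivity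
  have hm := hmin (show (z, (‖k‖⁻¹) • k) ∈ Z ×ˢ T1 by
      refine ⟨hz, hk.smul (by positivity), ?_⟩
      simp [norm_smul, hk0])
  simp only [Set.mem_ofPred_eq] at hm
  have hm2 : f p ≤ max |B (‖k‖⁻¹ • k) (‖k‖⁻¹ • k)| (- B z (‖k‖⁻¹ • k)) := hm
  rw [B_smul_left, B_smul_right, B_smul_right, le_max_iff] at hm2
  rcases hm2 with h | h
  · exfalso
    rw [abs_mul, abs_mul, abs_inv, abs_norm] at h
    have h1 : ‖k‖⁻¹ * (‖k‖⁻¹ * |B k k|) ≤ ‖k‖⁻¹ * (1 * 9) := by
      have : ‖k‖⁻¹ ≤ 1 := inv_le_one_of_one_le₀ hk1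
      gcongr
    have h2 : ‖k‖⁻¹ * (1 * 9) < f p := by
      rw [inv_mul_lt_iff₀ (by positivity)]
      have : 9 < (9 / f p + 1) * f p := by
        have : (9 / f p + 1) * f p = 9 + f p := by field_simp
        linarith
      nlinarith
    linarith
  · have h3 : f p * ‖k‖ ≤ - B z k := by
      have := mul_le_mul_of_nonneg_right h (norm_nonneg k)
      calc f p * ‖k‖ ≤ -(‖k‖⁻¹ * B z k) * ‖k‖ := this
        _ = - B z k := by field_simp
    linarith

/-- finiteness -/
lemma finite_of_compact {Z : Set V} (hZ : IsCompact Z) (hZO : Z ⊆ OmC) (C : ℝ) :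
    {w : W | ∃ z ∈ Z, -C ≤ B z (rho w x0)}.Finite := by
  obtain ⟨c, hc, R, hR, h⟩ := uniform hZ hZO
  apply (finite_norm (max R (C / c))).subset
  rintro w ⟨z, hz, hw⟩
  simp only [Set.mem_ofPred_eq]
  by_contra hcon
  rw [not_le, max_lt_iff] at hcon
  have h1 := h z hz (rho w x0) (Tst_x0.rho w) (by rw [B_rho, B_x0_x0]; norm_num) hcon.1.le
  have h2 : C < c * ‖rho w x0‖ := by
    have := hcon.2
    rwa [div_lt_iff₀ hc, mul_comm] at this
  linarith

/-- every point of the domain is equivalent to a dominant one -/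
lemma exists_Dom {z : V} (hz : z ∈ OmC) : ∃ w : W, Dom (rho w z) := by
  have hfin : {w : W | B z x0 ≤ B z (rho w x0)}.Finite := by
    have := finite_of_compact (Z := {z}) isCompact_singleton (by simpa using hz) (- B z x0)
    apply this.subset
    intro w hw
    exact ⟨z, rfl, by simpa using hw⟩
  obtain ⟨w, hw, hmax⟩ := Set.exists_max_image _ (fun w => B z (rho w x0)) hfin
    ⟨1, by simp⟩
  have hmax' : ∀ w', B z (rho w' x0) ≤ B z (rho w x0) := by
    intro w'
    by_cases h : B z x0 ≤ B z (rho w' x0)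
    · exact hmax w' h
    · have : B z x0 ≤ B z (rho w x0) := hw
      linarith
  refine ⟨w⁻¹, ?_⟩
  intro i
  have h1 := hmax' (w * cs.simple i)
  rw [rho_mul_simple, B_add_right, B_smul_right] at h1
  have h2 : 0 < -(2 * B x0 (root i) / nrm i) := by
    rw [B_x0_root]
    fin_cases i <;> norm_num [nrm]
  rw [B_rho_left, inv_inv]
  nlinarith

lemma rho_pow_smul {g : W} {u : V} {l : ℝ} (hu : rho g u = l • u) (n : ℕ) :
    rho (g ^ n) u = l ^ n • u := by
  induction n with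
  | zero => simp
  | succ n ih => rw [pow_succ, rho_mul_apply, hu, map_smul, ih, smul_smul, pow_succ, mul_comm]

lemma Tst_limit {g : W} {u v : V} {l : ℝ} (hl : 1 < l) (hu : rho g u = l • u)
    (hv : rho g v = l⁻¹ • v) (h : Tst (u + v)) : Tst u := by
  have h1 : ∀ n : ℕ, Tst (u + ((l⁻¹) ^ n * (l⁻¹) ^ n) • v) := by
    intro n
    have h2 := (h.rho (g ^ n)).smul (c := (l⁻¹) ^ n) (by positivity)
    rw [map_add, rho_pow_smul hu, rho_pow_smul hv, smul_add, smul_smul, smul_smul] at h2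
    have h3 : (l⁻¹) ^ n * l ^ n = 1 := by
      rw [← mul_pow, inv_mul_cancel₀ (by positivity), one_pow]
    rwa [h3, one_smul] at h2
  have hlim : Tendsto (fun n : ℕ => u + ((l⁻¹) ^ n * (l⁻¹) ^ n) • v) atTop (𝓝 (u + ((0:ℝ) * 0) • v)) := by
    have : Tendsto (fun n : ℕ => (l⁻¹) ^ n) atTop (𝓝 0) :=
      tendsto_pow_atTop_nhds_zero_of_lt_one (by positivity) (inv_lt_one_of_one_lt₀ hl)
    exact tendsto_const_nhds.add ((this.mul this).smul_const v)
  have := isClosed_Tst.mem_of_tendsto hlim (Eventually.of_forall h1)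
  simpa using this

/-- endpoints of the axis `L` -/
noncomputable def lp : V := ![0, 0, 1, √3, 0]

noncomputable def lm : V := ![0, 0, -1, √3, 0]

lemma sg4_lp : sg 4 lp = (2 + √3) • lm := by
  rw [sg4]; ext k; fin_cases k <;> simp [lp, lm] <;> linarith [s33]

lemma sg3_lm : sg 3 lm = (2 + √3) • lp := by
  rw [sg3]; ext k; fin_cases k <;> simp [lp, lm] <;> linarith [s33]

lemma sg4_lm : sg 4 lm = (2 - √3) • lp := by
  rw [sg4]; ext k; fin_cases k <;> simp [lp, lm] <;> linarith [s33]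

lemma sg3_lp : sg 3 lp = (2 - √3) • lm := by
  rw [sg3]; ext k; fin_cases k <;> simp [lp, lm] <;> linarith [s33]

/-- translation along `L` -/
noncomputable def tau : W := cs.simple 3 * cs.simple 4

noncomputable def lam : ℝ := (2 + √3) ^ 2

lemma one_lt_lam : 1 < lam := by
  unfold lam
  have : 0 ≤ √3 := Real.sqrt_nonneg 3
  nlinarith

lemma lam_inv : lam⁻¹ = (2 - √3) ^ 2 := by
  unfold lam
  have h1 : (2 + √3) * (2 - √3) = 1 := by linarith [s33]
  apply inv_eq_of_mul_eq_one_right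
  calc (2 + √3)^2 * (2 - √3)^2 = ((2 + √3) * (2 - √3))^2 := by ring
      _ = 1 := by rw [h1]; norm_num

lemma tau_lp : rho tau lp = lam • lp := by
  rw [tau, rho_mul_apply, rho_simple, rho_simple, sg4_lp, map_smul, sg3_lm, smul_smul, lam, pow_two]

lemma tau_lm : rho tau lm = lam⁻¹ • lm := by
  rw [tau, rho_mul_apply, rho_simple, rho_simple, sg4_lm, map_smul, sg3_lp, smul_smul, lam_inv, pow_two]

lemma tau_inv_lp : rho tau⁻¹ lp = lam⁻¹ • lp := by
  have h := congrArg (rho tau⁻¹) tau_lp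
  rw [rho_inv_apply, map_smul] at h
  rw [h, smul_smul, ← h, inv_mul_cancel₀ (by linarith [one_lt_lam]), one_smul]

lemma tau_inv_lm : rho tau⁻¹ lm = lam • lm := by
  have h := congrArg (rho tau⁻¹) tau_lm
  rw [rho_inv_apply, map_smul] at h
  rw [h, smul_smul, ← h, mul_inv_cancel₀ (by linarith [one_lt_lam]), one_smul]

lemma Tst_lp_add_lm : Tst (lp + lm) := by
  apply Tst_of_Dom
  · intro i
    have : 0 ≤ √3 := Real.sqrt_nonneg 3
    fin_cases i <;> simp [B, lp, lm, root]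
  · intro i
    have : 0 ≤ √3 := Real.sqrt_nonneg 3
    fin_cases i <;> simp [B, lp, lm, fw]

lemma Tst_lp : Tst lp := Tst_limit one_lt_lam tau_lp tau_lm Tst_lp_add_lm

lemma Tst_lm : Tst lm := Tst_limit one_lt_lam tau_inv_lm tau_inv_lp (by rw [add_comm]; exact Tst_lp_add_lm)

/-- the other kind of hyperbolic element -/
noncomputable def kp : V := ![0, √2, 0, √3, √3]

noncomputable def km : V := ![0, -√2, 0, √3, √3]

noncomputable def gg : W := cs.simple 0 * cs.simple 2 * cs.simple 0 * cs.simple 2 * cs.simple 1 * cs.simple 0 *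
  cs.simple 1 * cs.simple 2 * cs.simple 1 * cs.simple 2 * cs.simple 0 * cs.simple 1

lemma vec5 {a b c d e a' b' c' d' e' : ℝ} (h0 : a = a') (h1 : b = b') (h2 : c = c') (h3 : d = d') (h4 : e = e') :
    (![a, b, c, d, e] : V) = ![a', b', c', d', e'] := by rw [h0, h1, h2, h3, h4]

lemma sg0v (a b c d e : ℝ) : sg 0 ![a, b, c, d, e] = ![-a, b, c, d, e] := sg0 _
lemma sg1v (a b c d e : ℝ) : sg 1 ![a, b, c, d, e] = ![a/2+3*b/2, a/2 - b/2, c, d, e] := sg1 _
lemma sg2v (a b c d e : ℝ) : sg 2 ![a, b, c, d, e] = ![-3*b-d-e, -a-2*b-d-e, c, a+3*b+2*d+e, a+3*b+d+2*e] := sg2 _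

lemma gg_apply (a b : ℝ) : rho gg ![0, a, 0, b, b] = ![0, 49 * a - 40 * b, 0, -60 * a + 49 * b, -60 * a + 49 * b] := by
  have e0 : sg 1 ![0, a, 0, b, b] = ![(3/2) * a, (-1/2) * a, 0, b, b] :=
    (sg1v _ _ _ _ _).trans (vec5 (by ring) (by ring) (by ring) (by ring) (by ring))
  have e1 : sg 0 ![(3/2) * a, (-1/2) * a, 0, b, b] = ![(-3/2) * a, (-1/2) * a, 0, b, b] :=
    (sg0v _ _ _ _ _).trans (vec5 (by ring) (by ring) (by ring) (by ring) (by ring))
  have e2 : sg 2 ![(-3/2) * a, (-1/2) * a, 0, b, b] = ![(3/2) * a + (-2) * b, (5/2) * a + (-2) * b, 0, (-3) * a + 3 * b, (-3) * a + 3 * b] :=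
    (sg2v _ _ _ _ _).trans (vec5 (by ring) (by ring) (by ring) (by ring) (by ring))
  have e3 : sg 1 ![(3/2) * a + (-2) * b, (5/2) * a + (-2) * b, 0, (-3) * a + 3 * b, (-3) * a + 3 * b] = ![(9/2) * a + (-4) * b, (-1/2) * a, 0, (-3) * a + 3 * b, (-3) * a + 3 * b] :=
    (sg1v _ _ _ _ _).trans (vec5 (by ring) (by ring) (by ring) (by ring) (by ring))
  have e4 : sg 2 ![(9/2) * a + (-4) * b, (-1/2) * a, 0, (-3) * a + 3 * b, (-3) * a + 3 * b] = ![(15/2) * a + (-6) * b, (5/2) * a + (-2) * b, 0, (-6) * a + 5 * b, (-6) * a + 5 * b] :=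
    (sg2v _ _ _ _ _).trans (vec5 (by ring) (by ring) (by ring) (by ring) (by ring))
  have e5 : sg 1 ![(15/2) * a + (-6) * b, (5/2) * a + (-2) * b, 0, (-6) * a + 5 * b, (-6) * a + 5 * b] = ![(15/2) * a + (-6) * b, (5/2) * a + (-2) * b, 0, (-6) * a + 5 * b, (-6) * a + 5 * b] :=
    (sg1v _ _ _ _ _).trans (vec5 (by ring) (by ring) (by ring) (by ring) (by ring))
  have e6 : sg 0 ![(15/2) * a + (-6) * b, (5/2) * a + (-2) * b, 0, (-6) * a + 5 * b, (-6) * a + 5 * b] = ![(-15/2) * a + 6 * b, (5/2) * a + (-2) * b, 0, (-6) * a + 5 * b, (-6) * a + 5 * b] :=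
    (sg0v _ _ _ _ _).trans (vec5 (by ring) (by ring) (by ring) (by ring) (by ring))
  have e7 : sg 1 ![(-15/2) * a + 6 * b, (5/2) * a + (-2) * b, 0, (-6) * a + 5 * b, (-6) * a + 5 * b] = ![0, (-5) * a + 4 * b, 0, (-6) * a + 5 * b, (-6) * a + 5 * b] :=
    (sg1v _ _ _ _ _).trans (vec5 (by ring) (by ring) (by ring) (by ring) (by ring))
  have e8 : sg 2 ![0, (-5) * a + 4 * b, 0, (-6) * a + 5 * b, (-6) * a + 5 * b] = ![27 * a + (-22) * b, 22 * a + (-18) * b, 0, (-33) * a + 27 * b, (-33) * a + 27 * b] :=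
    (sg2v _ _ _ _ _).trans (vec5 (by ring) (by ring) (by ring) (by ring) (by ring))
  have e9 : sg 0 ![27 * a + (-22) * b, 22 * a + (-18) * b, 0, (-33) * a + 27 * b, (-33) * a + 27 * b] = ![(-27) * a + 22 * b, 22 * a + (-18) * b, 0, (-33) * a + 27 * b, (-33) * a + 27 * b] :=
    (sg0v _ _ _ _ _).trans (vec5 (by ring) (by ring) (by ring) (by ring) (by ring))
  have e10 : sg 2 ![(-27) * a + 22 * b, 22 * a + (-18) * b, 0, (-33) * a + 27 * b, (-33) * a + 27 * b] = ![0, 49 * a + (-40) * b, 0, (-60) * a + 49 * b, (-60) * a + 49 * b] :=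
    (sg2v _ _ _ _ _).trans (vec5 (by ring) (by ring) (by ring) (by ring) (by ring))
  have e11 : sg 0 ![0, 49 * a + (-40) * b, 0, (-60) * a + 49 * b, (-60) * a + 49 * b] = ![0, 49 * a - 40 * b, 0, -60 * a + 49 * b, -60 * a + 49 * b] :=
    (sg0v _ _ _ _ _).trans (vec5 (by ring) (by ring) (by ring) (by ring) (by ring))
  simp only [gg, rho_mul_apply, rho_simple]
  rw [e0, e1, e2, e3, e4, e5, e6, e7, e8, e9, e10, e11]

noncomputable def mu6 : ℝ := 49 + 20 * (√2 * √3)

lemma s22 : √2 * √2 = (2:ℝ) := Real.mul_self_sqrt (by norm_num)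

lemma one_lt_mu6 : 1 < mu6 := by
  unfold mu6
  have : 0 ≤ √2 * √3 := by positivity
  linarith

lemma mu6_inv : mu6⁻¹ = 49 - 20 * (√2 * √3) := by
  unfold mu6
  apply inv_eq_of_mul_eq_one_right
  calc (49 + 20 * (√2 * √3)) * (49 - 20 * (√2 * √3)) = 49 * 49 - 20 * 20 * (√2*√2) * (√3*√3) := by ring
    _ = 1 := by rw [s22, s33]; norm_num

lemma gg_km : rho gg km = mu6 • km := by
  rw [km, gg_apply]
  ext k; fin_cases k <;> simp [mu6] <;> ring_nf <;> simp <;> ring

lemma gg_kp : rho gg kp = mu6⁻¹ • kp := by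
  rw [kp, gg_apply, mu6_inv]
  ext k; fin_cases k <;> simp <;> ring_nf <;> simp <;> ring

lemma Tst_kp_add_km : Tst (km + kp) := by
  apply Tst_of_Dom
  · intro i
    have : 0 ≤ √3 := Real.sqrt_nonneg 3
    fin_cases i <;> simp [B, kp, km, root]
    linarith
  · intro i
    have : 0 ≤ √3 := Real.sqrt_nonneg 3
    fin_cases i <;> simp [B, kp, km, fw]

lemma Tst_km : Tst km := Tst_limit one_lt_mu6 gg_km gg_kp Tst_kp_add_km

lemma km_Lam : km ∈ Lam := by
  refine ⟨?_, Tst_km, ?_⟩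
  · intro h
    have := congrFun h 1
    simp [km] at this
  · simp [B, km]; norm_num

lemma lp_Lam : lp ∈ Lam := by
  refine ⟨?_, Tst_lp, ?_⟩
  · intro h
    have := congrFun h 2
    simp [lp] at this
  · simp [B, lp]

lemma lm_Lam : lm ∈ Lam := by
  refine ⟨?_, Tst_lm, ?_⟩
  · intro h
    have := congrFun h 2
    simp [lm] at this
  · simp [B, lm]

/-- in the domain `x₃ > √3 |x₂|` -/
lemma OmC_x3 {z : V} (hz : z ∈ OmC) : √3 * |z 2| < z 3 := by
  have h1 := hz _ lp_Lam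
  have h2 := hz _ lm_Lam
  simp [B, lp, lm] at h1 h2
  have h3 : (0:ℝ) < √3 := by positivity
  have h4 : √3 * z 2 < z 3 := by nlinarith [s33]
  have h5 : -(√3 * z 2) < z 3 := by nlinarith [s33]
  rcases abs_cases (z 2) with h | h <;> rw [h.1] <;> linarith

lemma OmC_x3_pos {z : V} (hz : z ∈ OmC) : 0 < z 3 := by
  have := OmC_x3 hz
  have : 0 ≤ √3 * |z 2| := by positivity
  linarith

/-- good points of the chamber -/
structure Good (x : V) : Prop where
  dom : Dom x
  h3 : 0 < x 3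
  h34 : 0 < x 3 + x 4

lemma Dom.eqs {x : V} (hx : Dom x) : x 0 ≤ 0 ∧ 3 * x 1 ≤ x 0 ∧ 0 ≤ x 0 + 3 * x 1 + x 3 + x 4 ∧
    3 * x 2 ≤ x 3 ∧ -(3 * x 2) ≤ x 3 := by
  have h0 := hx 0
  have h1 := hx 1
  have h2 := hx 2
  have h3 := hx 3
  have h4 := hx 4
  simp [B, root] at h0 h1 h2 h3 h4
  refine ⟨?_, ?_, ?_, ?_, ?_⟩ <;> linarith

lemma Dom_iff {x : V} : Dom x ↔ x 0 ≤ 0 ∧ 3 * x 1 ≤ x 0 ∧ 0 ≤ x 0 + 3 * x 1 + x 3 + x 4 ∧
    3 * x 2 ≤ x 3 ∧ -(3 * x 2) ≤ x 3 := by
  refine ⟨fun h => h.eqs, ?_⟩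
  rintro ⟨h1, h2, h3, h4, h5⟩ i
  fin_cases i <;> simp [B, root] <;> linarith

lemma Good_of_Dom_OmC {x : V} (hx : Dom x) (hO : x ∈ OmC) : Good x := by
  refine ⟨hx, OmC_x3_pos hO, ?_⟩
  obtain ⟨h0, h1, h2, h3, h4⟩ := hx.eqs
  have h5 := hO _ km_Lam
  simp [B, km] at h5
  have h6 : (0:ℝ) < √3 := by positivity
  have h7 : (0:ℝ) < √2 := by positivity
  by_contra hcon
  push Not at hcon
  have e1 : x 0 + 3 * x 1 = 0 := by linarith
  have e2 : x 0 = 0 := by linarith
  have e3 : x 1 = 0 := by linarith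
  have e4 : x 3 + x 4 = 0 := by linarith
  rw [e3] at h5
  have : x 4 = - x 3 := by linarith
  rw [this] at h5
  simp at h5

lemma OmC_of_Good {x : V} (hx : Good x) : x ∈ OmC := by
  obtain ⟨hd, h3, h34⟩ := hx
  intro k hk
  obtain ⟨hk0, hkT, hkq⟩ := hk
  have c0 := cd_nonneg hd 0
  have c1 := cd_nonneg hd 1
  have c2 := cd_nonneg hd 2
  have c3 := cd_nonneg hd 3
  have c4 := cd_nonneg hd 4
  have k0 := co_nonneg hkT.pos 0
  have k1 := co_nonneg hkT.pos 1
  have k2 := co_nonneg hkT.pos 2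
  have k3 := co_nonneg hkT.pos 3
  have k4 := co_nonneg hkT.pos 4
  have e1 : x 3 = 3 * (cd 3 x + cd 4 x) := by simp [cd, B, root]; ring
  have e2 : x 3 + x 4 = 6 * cd 0 x + 3 * cd 1 x + cd 2 x := by simp [cd, B, root]; ring
  have hs := B_eq_sum x k
  rw [Fin.sum_univ_five] at hs
  simp at hs
  rw [B_self_co] at hkq
  have he := eq_sum_co k
  rw [Fin.sum_univ_five] at he
  rw [e1] at h3
  rw [e2] at h34
  by_contra hcon
  push Not at hcon
  apply hk0
  rw [he]
  clear he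
  rw [hs] at hcon
  clear hs e1 e2
  generalize co 0 k = a at *
  generalize co 1 k = b at *
  generalize co 2 k = c at *
  generalize co 3 k = d at *
  generalize co 4 k = e at *
  generalize cd 0 x = a' at *
  generalize cd 1 x = b' at *
  generalize cd 2 x = c' at *
  generalize cd 3 x = d' at *
  generalize cd 4 x = e' at *
  have p0 := mul_nonneg c0 k0
  have p1 := mul_nonneg c1 k1
  have p2 := mul_nonneg c2 k2
  have p3 := mul_nonneg c3 k3
  have p4 := mul_nonneg c4 k4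
  have q0 : a' * a = 0 := by linarith
  have q1 : b' * b = 0 := by linarith
  have q2 : c' * c = 0 := by linarith
  have q3 : d' * d = 0 := by linarith
  have q4 : e' * e = 0 := by linarith
  have hA : a = 0 ∨ b = 0 ∨ c = 0 := by
    by_contra hc
    push Not at hc
    have := (mul_eq_zero.mp q0).resolve_right hc.1
    have := (mul_eq_zero.mp q1).resolve_right hc.2.1
    have := (mul_eq_zero.mp q2).resolve_right hc.2.2
    linarith
  have hB : d = 0 ∨ e = 0 := by
    by_contra hc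
    push Not at hc
    have := (mul_eq_zero.mp q3).resolve_right hc.1
    have := (mul_eq_zero.mp q4).resolve_right hc.2
    linarith
  have key := posdef_aux hkq hA hB
  obtain ⟨rfl, rfl, rfl, rfl, rfl⟩ := key
  simp

end Pool.Agent.H804
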