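import Pool.Agent.H804.Domain

set_option autoImplicit false

namespace Pool.Agent.H804

open Filter Topology

/-- integer coordinates of `rho w (root i)` modulo 3 -/
noncomputable def mod3 (w : W) : Fin 5 → Fin 5 → ZMod 3 := fun m i => ((⌊co m (rho w (root i))⌋ : ℤ) : ZMod 3)

lemma Lat_add {u v : V} (hu : u ∈ Lat) (hv : v ∈ Lat) : u + v ∈ Lat := by
  intro m
  obtain ⟨z, hz⟩ := hu m
  obtain ⟨z', hz'⟩ := hv m
  exact ⟨z + z', by rw [co_add, hz, hz']; push_cast; ring⟩

lemma Lat_zsmul {u : V} (hu : u ∈ Lat) (n : ℤ) : (n : ℝ) • u ∈ Lat := by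
  intro m
  obtain ⟨z, hz⟩ := hu m
  exact ⟨n * z, by rw [co_smul, hz]; push_cast; ring⟩

lemma mod3_eq {w w' : W} (h : mod3 w = mod3 w') : w⁻¹ * w' ∈ N3 := by
  -- on roots
  have h1 : ∀ i, ∃ u ∈ Lat, rho w' (root i) = rho w (root i) + (3:ℝ) • u := by
    intro i
    have h2 : ∀ m, ∃ z : ℤ, co m (rho w' (root i)) - co m (rho w (root i)) = 3 * z := by
      intro m
      obtain ⟨a, ha⟩ := rho_Lat w (root_Lat i) m
      obtain ⟨b, hb⟩ := rho_Lat w' (root_Lat i) m
      have h3 := congrFun (congrFun h m) i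
      simp only [mod3, ha, hb, Int.floor_intCast] at h3
      have h4 : ((b - a : ℤ) : ZMod 3) = 0 := by push_cast; rw [h3]; ring
      rw [ZMod.intCast_zmod_eq_zero_iff_dvd] at h4
      obtain ⟨z, hz⟩ := h4
      refine ⟨z, ?_⟩
      rw [ha, hb]
      have : ((b - a : ℤ) : ℝ) = ((3 * z : ℤ) : ℝ) := by rw [hz]; norm_num
      push_cast at this
      exact this
    choose z hz using h2
    refine ⟨∑ m, (z m : ℝ) • root m, ?_, ?_⟩
    · intro m
      refine ⟨z m, ?_⟩
      simp only [Fin.sum_univ_five, co_add, co_smul, co_root]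
      fin_cases m <;> simp
    · rw [eq_sum_co (rho w' (root i)), ← sub_eq_zero]
      have e : ∀ m, co m (rho w' (root i)) = co m (rho w (root i)) + 3 * z m := by
        intro m; linarith [hz m]
      simp only [e]
      nth_rw 2 [eq_sum_co (rho w (root i))]
      simp only [Fin.sum_univ_five]
      module
  intro v hv
  have h2 : ∃ u ∈ Lat, rho w' v = rho w v + (3:ℝ) • u := by
    choose u hu hu2 using h1
    choose z hz using hv
    refine ⟨∑ i, (z i : ℝ) • u i, ?_, ?_⟩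
    · simp only [Fin.sum_univ_five]
      exact Lat_add (Lat_add (Lat_add (Lat_add (Lat_zsmul (hu 0) _) (Lat_zsmul (hu 1) _)) (Lat_zsmul (hu 2) _))
        (Lat_zsmul (hu 3) _)) (Lat_zsmul (hu 4) _)
    · rw [eq_sum_co v]
      simp only [hz, Fin.sum_univ_five, map_add, map_smul, hu2]
      module
  obtain ⟨u, hu, h3⟩ := h2
  refine ⟨rho w⁻¹ u, rho_Lat _ hu, ?_⟩
  rw [rho_mul_apply, h3, map_add, map_smul, rho_inv_apply]

instance : Finite (W ⧸ N3) := by
  have : Function.Injective (fun q : W ⧸ N3 => mod3 q.out) := by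
    intro q q' h
    have h1 := mod3_eq h
    rw [← QuotientGroup.eq] at h1
    simpa using h1
  exact Finite.of_injective _ this

instance : N3.FiniteIndex := Subgroup.finiteIndex_of_finite_quotient

lemma exists_pow_N3 (w : W) : ∃ k : ℕ, 0 < k ∧ w ^ k ∈ N3 := by
  obtain ⟨n, h1, _, h2⟩ := Subgroup.exists_pow_mem_of_index_ne_zero (H := N3) Subgroup.FiniteIndex.index_ne_zero w
  exact ⟨n, h1, h2⟩

lemma exists_reps : ∃ F : Set W, F.Finite ∧ ∀ w : W, ∃ g ∈ N3, ∃ f ∈ F, w = g * f := by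
  refine ⟨Set.range (fun q : W ⧸ N3 => (q.out)⁻¹), Set.finite_range _, ?_⟩
  intro w
  set q : W ⧸ N3 := QuotientGroup.mk w⁻¹ with hq
  have h1 : w * q.out ∈ N3 := by
    have : (QuotientGroup.mk w⁻¹ : W ⧸ N3) = QuotientGroup.mk q.out := by
      rw [hq]; simp
    rw [QuotientGroup.eq, inv_inv] at this
    exact this
  exact ⟨w * q.out, h1, (q.out)⁻¹, ⟨q, rfl⟩, by group⟩

lemma N3_free {x : V} (hx : x ∈ OmC) {w : W} (hw : w ∈ N3) (h : rho w x = x) : w = 1 := by
  obtain ⟨g, hg⟩ := exists_Good hx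
  have h1 : rho (g * w * g⁻¹) (rho g x) = rho g x := by
    rw [rho_mul_apply, rho_mul_apply, rho_inv_apply, h]
  have h2 := free_Good hg h1 (N3_conj hw g)
  have : w = g⁻¹ * (g * w * g⁻¹) * g := by group
  rw [this, h2]; group

end Pool.Agent.H804
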