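import Mathlib

/-!
# GHMC anti-de Sitter manifolds, convex core, and K-times

A GHMC AdS manifold `M` of dimension `n+1` is presented as a quotient `M = Γ \ Ω` of a convex domain
`Ω` of the anti-de Sitter quadric `AdS_{n+1} = {⟨x,x⟩ = -1} ⊂ ℝ^{n,2}` by a group `Γ` of linear
isometries (by Mess and Andersson-Barbot-Béguin-Zeghib every GHMC AdS manifold is of this kind, `Ω`
being its universal covering).  Objects of `M` are described by their `Γ`-invariant preimages in `Ω`.
-/

set_option autoImplicit false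

namespace Pool.Agent.H804.KTime

open Filter Topology Set

/-- The vector space `ℝ^{n+2}`. -/
abbrev E (n : ℕ) := Fin (n + 2) → ℝ

/-- A diagonal quadratic form of signature `(n,2)` on `ℝ^{n+2}` (every form of signature `(n,2)` is of
this kind in suitable linear coordinates): the first `n` weights are positive, the last two negative. -/
structure Form (n : ℕ) where
  wt : Fin (n + 2) → ℝ
  pos : ∀ i : Fin (n + 2), i.val < n → 0 < wt i
  neg : ∀ i : Fin (n + 2), n ≤ i.val → wt i < 0

variable {n : ℕ}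

/-- The bilinear form `⟨x,y⟩`. -/
def Form.ip (Q : Form n) (x y : E n) : ℝ := ∑ i, Q.wt i * (x i * y i)

/-- The anti-de Sitter quadric `⟨x,x⟩ = -1`, with the Lorentzian metric induced by `⟨·,·⟩` on the
tangent spaces `T_x = x^⊥`. -/
def Form.AdS (Q : Form n) : Set (E n) := {x | Q.ip x x = -1}

/-- The time orientation: a causal tangent vector `v ∈ T_x` is future directed iff `0 < orient x v`. -/
def orient (x y : E n) : ℝ :=
  x (Fin.last n).castSucc * y (Fin.last (n + 1)) - x (Fin.last (n + 1)) * y (Fin.last n).castSucc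

/-- For nearby points `x ≠ y` of the quadric: `y` is reached from `x` by a future directed causal
geodesic iff `-1 ≤ ⟨x,y⟩` (the chord `y - x` is causal) and `0 < orient x y`. -/
def Form.Prec (Q : Form n) (x y : E n) : Prop := -1 ≤ Q.ip x y ∧ 0 < orient x y

/-- Future directed (continuous) causal curves `c : ℝ → Y` in a spacetime `Y` whose Lorentzian
structure and time orientation are pulled back from the quadric by a local homeomorphism `δ`
(e.g. the inclusion of an open subset): locally, later points are in the causal future of earlier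
ones. -/
def Form.IsCausal (Q : Form n) {Y : Type} [TopologicalSpace Y] (δ : Y → E n) (c : ℝ → Y) : Prop :=
  Continuous c ∧ ∀ t₀ : ℝ, ∃ ε > 0, ∀ s t : ℝ, t₀ - ε < s → s < t → t < t₀ + ε →
    Q.Prec (δ (c s)) (δ (c t))

/-- A curve is inextendible if it has no endpoint, in the past or in the future. -/
def IsInextendible {Y : Type} [TopologicalSpace Y] (c : ℝ → Y) : Prop :=
  ∀ y : Y, ¬ Tendsto c atTop (𝓝 y) ∧ ¬ Tendsto c atBot (𝓝 y)

/-- Cauchy hypersurface: met exactly once by every inextendible causal curve. -/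
def Form.IsCauchy (Q : Form n) {Y : Type} [TopologicalSpace Y] (δ : Y → E n) (S : Set Y) : Prop :=
  ∀ c : ℝ → Y, Q.IsCausal δ c → IsInextendible c → ∃! t, c t ∈ S

/-- Geodesic arc of the quadric between `x` and `y` (when `⟨x,y⟩ < 1` this is the unique geodesic
arc, of length less than `π` when timelike). -/
def Form.arc (Q : Form n) (x y : E n) : Set (E n) :=
  {z | Q.ip z z = -1 ∧ ∃ a b : ℝ, 0 ≤ a ∧ 0 ≤ b ∧ z = a • x + b • y}

/-- `γ` is a linear isometry of `ℝ^{n,2}`. -/
def Form.IsIsometry (Q : Form n) (γ : Equiv.Perm (E n)) : Prop :=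
  IsLinearMap ℝ γ ∧ ∀ x y, Q.ip (γ x) (γ y) = Q.ip x y

/-- A time-oriented AdS manifold `M = Γ \ Ω`, where `Ω` is an open convex (hence simply connected)
domain of the quadric and `Γ` is a group of linear isometries preserving `Ω` and its time
orientation, acting freely and properly discontinuously on `Ω`. -/
structure Spacetime (n : ℕ) where
  Q : Form n
  Ω : Set (E n)
  Γ : Subgroup (Equiv.Perm (E n))
  subset_AdS : Ω ⊆ Q.AdS
  isOpen : ∃ U : Set (E n), IsOpen U ∧ Ω = U ∩ Q.AdS
  nonempty : Ω.Nonempty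
  convex : ∀ x ∈ Ω, ∀ y ∈ Ω, Q.ip x y < 1 ∧ Q.arc x y ⊆ Ω
  isometry : ∀ γ ∈ Γ, Q.IsIsometry γ
  preserves : ∀ γ ∈ Γ, ∀ x ∈ Ω, γ x ∈ Ω
  timeOriented : ∀ γ ∈ Γ, ∀ x ∈ Ω, ∀ v, Q.ip x v = 0 → Q.ip v v < 0 → 0 < orient x v →
    0 < orient (γ x) (γ v)
  free : ∀ γ ∈ Γ, ∀ x ∈ Ω, γ x = x → γ = 1
  proper : ∀ K ⊆ Ω, IsCompact K → {γ : Equiv.Perm (E n) | γ ∈ Γ ∧ (γ '' K ∩ K).Nonempty}.Finite

namespace Spacetime

variable (M : Spacetime n)

/-- `S` is (the preimage in `Ω` of) a closed subset of `M`. -/
def IsClosedIn (S : Set (E n)) : Prop := ∃ F : Set (E n), IsClosed F ∧ S = F ∩ M.Ω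

/-- `S ⊆ Ω` is the preimage of a compact Cauchy hypersurface of `M`. -/
structure IsCompactCauchy (S : Set (E n)) : Prop where
  subset : S ⊆ M.Ω
  invariant : ∀ γ ∈ M.Γ, ∀ x ∈ S, γ x ∈ S
  cocompact : ∃ Z ⊆ S, IsCompact Z ∧ ∀ x ∈ S, ∃ γ ∈ M.Γ, γ x ∈ Z
  cauchy : M.Q.IsCauchy (Subtype.val : M.Ω → E n) (Subtype.val ⁻¹' S)

/-- `M` is globally hyperbolic with compact Cauchy hypersurface. -/
def IsGHC : Prop := ∃ S, M.IsCompactCauchy S

/-- `M` is maximal: if `Y` is (the universal covering of) a spacetime locally modelled on AdS, with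
developing map `δ`, in which the universal covering `Ω` of `M` embeds isometrically (`ι`), and some
compact Cauchy hypersurface `S` of `M` is sent to a Cauchy hypersurface, then `ι` is onto. -/
def IsMaximal : Prop :=
  ∀ (Y : Type) [TopologicalSpace Y] [T2Space Y] [PreconnectedSpace Y] (δ : Y → M.Q.AdS)
    (ι : M.Ω → Y), IsLocalHomeomorph δ → IsOpenEmbedding ι → (∀ x, (δ (ι x) : E n) = x) →
    ∀ S, M.IsCompactCauchy S → M.Q.IsCauchy (fun y => (δ y : E n)) (ι '' (Subtype.val ⁻¹' S)) →
    Function.Surjective ι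

/-- GHMC AdS manifolds. -/
def IsGHMC : Prop := M.IsGHC ∧ M.IsMaximal

/-- `C ⊆ Ω` is the preimage of a nonempty closed convex subset of `M`: it contains every geodesic
arc of `Ω` joining two of its points. -/
structure IsConvexClosed (C : Set (E n)) : Prop where
  subset : C ⊆ M.Ω
  nonempty : C.Nonempty
  closed : M.IsClosedIn C
  invariant : ∀ γ ∈ M.Γ, ∀ x ∈ C, γ x ∈ C
  convex : ∀ x ∈ C, ∀ y ∈ C, M.Q.ip x y < 1 → M.Q.arc x y ⊆ M.Ω → M.Q.arc x y ⊆ C

/-- `C` is (the preimage of) the convex core of `M`: the smallest nonempty closed convex subset. -/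
def IsConvexCore (C : Set (E n)) : Prop :=
  M.IsConvexClosed C ∧ ∀ C', M.IsConvexClosed C' → C ⊆ C'

/-- There is a future directed causal curve of `M` from `x` to `y`. -/
def CausalPrec (x y : E n) : Prop :=
  ∃ c : ℝ → M.Ω, M.Q.IsCausal Subtype.val c ∧ ∃ s t : ℝ, s < t ∧ (c s : E n) = x ∧ (c t : E n) = y

/-- The past `P(M)` of the convex core `C` (its preimage in `Ω`). -/
def past (C : Set (E n)) : Set (E n) :=
  {x | x ∈ M.Ω ∧ x ∉ C ∧ ∃ y ∈ C, M.CausalPrec x y}

/-- The level set `t = a` in `P(M)`. -/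
def leaf (C : Set (E n)) (t : E n → ℝ) (a : ℝ) : Set (E n) := {x | x ∈ M.past C ∧ t x = a}

end Spacetime

/-- The first derivative `df(x)(v)`. -/
noncomputable def D1 (f : E n → ℝ) (x v : E n) : ℝ := fderiv ℝ f x v

/-- The second derivative `D²f(x)(u, v)`: the derivative of `y ↦ df(y)(v)` in the direction `u`. -/
noncomputable def D2 (f : E n → ℝ) (x u v : E n) : ℝ := D1 (fun y => D1 f y v) x u

/-- The covariant Hessian of (the restriction of) `f` along the quadric, at the point `x`: for
`u ∈ T_x` the geodesic `c` with `c(0) = x`, `c'(0) = u` has `c''(0) = ⟨u,u⟩ x`. -/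
noncomputable def Form.hess (Q : Form n) (f : E n → ℝ) (x u v : E n) : ℝ :=
  D2 f x u v + Q.ip u v * D1 f x x

/-- Near its point `x` the subset `S` of the quadric is the zero set of the `C²` function `f`, whose
gradient `N ∈ T_x` along the quadric is timelike and future directed.  Thus `S` is a `C²` spacelike
hypersurface near `x`, with future unit normal `N / |N|` at `x`. -/
def Form.IsDefinedBy (Q : Form n) (S : Set (E n)) (f : E n → ℝ) (x N : E n) : Prop :=
  ContDiffAt ℝ 2 f x ∧ (∀ᶠ y in 𝓝 x, Q.ip y y = -1 → (y ∈ S ↔ f y = 0)) ∧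
    Q.ip x N = 0 ∧ Q.ip N N < 0 ∧ 0 < orient x N ∧ ∀ v, Q.ip x v = 0 → D1 f x v = Q.ip N v

/-- `u` is an orthonormal basis of the tangent space `{u ∈ T_x, ⟨u,N⟩ = 0}`. -/
def Form.IsFrame (Q : Form n) (x N : E n) (u : Fin n → E n) : Prop :=
  (∀ i, Q.ip x (u i) = 0 ∧ Q.ip N (u i) = 0) ∧ ∀ i j, Q.ip (u i) (u j) = if i = j then 1 else 0

/-- `S` is, near its point `x`, a `C²` spacelike hypersurface of the quadric, and its `K`-curvature
`-λ₁⋯λₙ` at `x` is `κ`.  Here `Hess f(u,v) / |N|` is the second fundamental form `⟨∇_u ν, v⟩` with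
respect to the future unit normal `ν = N / |N|`; `λ₁, …, λₙ` are its eigenvalues, so that `λ₁⋯λₙ` is
the determinant of its matrix in the orthonormal basis `u`. -/
def Form.HasKCurvatureAt (Q : Form n) (S : Set (E n)) (x : E n) (κ : ℝ) : Prop :=
  ∃ (f : E n → ℝ) (N : E n) (u : Fin n → E n), Q.IsDefinedBy S f x N ∧ Q.IsFrame x N u ∧
    κ = - Matrix.det (Matrix.of fun i j : Fin n => Q.hess f x (u i) (u j) / Real.sqrt (-(Q.ip N N)))

/-- `t` (a function on `Ω`, of which only the restriction to the preimage of `P(M)` matters) is a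
`K`-time on the past `P(M)` of the convex core `C`: it is a continuous function on `P(M)`, strictly
increasing along future directed causal curves, and its level sets are spacelike hypersurfaces of
constant `K`-curvature.

The level sets are required to be Cauchy hypersurfaces of `P(M)`, as in the definitions of CMC-, `K`-
and `F`-times in the literature, or, more generally, to be closed in `M` (a Cauchy hypersurface
of `P(M)` is compact in `M`).  Only `C²` regularity is asked, and the constant is not even required to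
increase with the level, so that every `K`-time is a `K`-time in the sense of this definition. -/
structure Spacetime.IsKTime (M : Spacetime n) (C : Set (E n)) (t : E n → ℝ) : Prop where
  continuousOn : ContinuousOn t (M.past C)
  invariant : ∀ γ ∈ M.Γ, ∀ x ∈ M.past C, t (γ x) = t x
  increasing : ∀ c : ℝ → M.past C, M.Q.IsCausal Subtype.val c → StrictMono fun s => t (c s)
  leaves : ∀ a ∈ t '' M.past C,
    M.Q.IsCauchy (Subtype.val : M.past C → E n) {x | t x = a} ∨ M.IsClosedIn (M.leaf C t a)
  curvature : ∀ a ∈ t '' M.past C, ∃ κ : ℝ, ∀ x ∈ M.leaf C t a,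
    M.Q.HasKCurvatureAt (M.leaf C t a) x κ

end Pool.Agent.H804.KTime
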