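import Pool.Agent.H804.Causal
import Pool.Agent.H804.Index
import Pool.Agent.H804.KDefs

set_option autoImplicit false

namespace Pool.Agent.H804

open Filter Topology KTime

/-- the form of signature (3,2) -/
def Q3 : Form 3 where
  wt := ![1, 3, 3, -1, -1]
  pos := by
    intro i hi
    fin_cases i <;> simp at hi ⊢
  neg := by
    intro i hi
    fin_cases i <;> simp at hi ⊢

lemma ip_eq (x y : V) : Q3.ip x y = B x y := by
  unfold Form.ip B Q3
  rw [Fin.sum_univ_five]
  simp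
  ring

lemma orient_eq (x y : V) : orient (n := 3) x y = om x y := rfl

lemma prec_eq (x y : V) : Q3.Prec x y ↔ prec x y := by
  unfold Form.Prec prec
  rw [ip_eq, orient_eq]

lemma arc_subset {x y : V} (hx : x ∈ Om) (hy : y ∈ Om) : Q3.arc x y ⊆ Om := by
  rintro z ⟨hz, a, b, ha, hb, rfl⟩
  rw [ip_eq] at hz
  refine ⟨?_, hz⟩
  rcases ha.eq_or_lt with h | h
  · rcases hb.eq_or_lt with h' | h'
    · rw [← h, ← h'] at hz
      simp at hz
    · rw [← h, zero_smul, zero_add]; exact OmC_smul hy.1 h'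
  · rcases hb.eq_or_lt with h' | h'
    · rw [← h', zero_smul, add_zero]; exact OmC_smul hx.1 h
    · exact OmC_add (OmC_smul hx.1 h) (OmC_smul hy.1 h')

/-- linear automorphisms as permutations -/
def toP : (V ≃ₗ[ℝ] V) →* Equiv.Perm V where
  toFun := fun e => e.toEquiv
  map_one' := rfl
  map_mul' := fun _ _ => rfl

/-- the representation, with values in the permutations -/
noncomputable def rhoP : W →* Equiv.Perm V := toP.comp rho

lemma rhoP_apply (w : W) (x : V) : rhoP w x = rho w x := rfl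

/-- The manifold. -/
noncomputable def M0 : Spacetime 3 where
  Q := Q3
  Ω := Om
  Γ := N3.map rhoP
  subset_AdS := by
    intro x hx
    show Q3.ip x x = -1
    rw [ip_eq]; exact hx.2
  isOpen := by
    refine ⟨OmC, isOpen_OmC, ?_⟩
    ext x
    simp only [Om, Form.AdS, Set.mem_inter_iff, Set.mem_ofPred_eq, ip_eq]
  nonempty := ⟨pt, pt_Om⟩
  convex := by
    intro x hx y hy
    exact ⟨by rw [ip_eq]; exact B_lt_one hx.1 hy.1 hx.2 hy.2, arc_subset hx hy⟩
  isometry := by
    rintro γ ⟨w, _, rfl⟩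
    refine ⟨⟨fun x y => map_add (rho w) x y, fun c x => map_smul (rho w) c x⟩, fun x y => ?_⟩
    rw [ip_eq, ip_eq, rhoP_apply, rhoP_apply, B_rho]
  preserves := by
    rintro γ ⟨w, _, rfl⟩ x hx
    exact Om_rho hx w
  timeOriented := by
    rintro γ ⟨w, _, rfl⟩ x hx v h1 h2 h3
    rw [ip_eq] at h1 h2
    exact om_rho (by rw [hx.2]; norm_num) h1 h2.le h3 w
  free := by
    rintro γ ⟨w, hw, rfl⟩ x hx h
    rw [N3_free hx.1 hw h, map_one]
  proper := by
    intro K hK hKc
    obtain ⟨R, hR⟩ : ∃ R, ∀ x ∈ K, ‖x‖ ≤ R := hKc.isBounded.exists_norm_le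
    apply ((local_finite hKc (fun x hx => (hK hx).1) R).image rhoP).subset
    rintro γ ⟨⟨w, hw, rfl⟩, ⟨y, ⟨x, hx, hxy⟩, hy⟩⟩
    exact ⟨w, ⟨x, hx, by rw [← rhoP_apply, hxy]; exact hR y hy⟩, rfl⟩

/-- causal curves of the domain are globally causal -/
lemma causal_global {c : ℝ → V} (hO : ∀ t, c t ∈ Om)
    (hloc : ∀ t₀ : ℝ, ∃ ε > 0, ∀ s t : ℝ, t₀ - ε < s → s < t → t < t₀ + ε → Q3.Prec (c s) (c t)) :
    ∀ s t, s < t → prec (c s) (c t) := by
  apply local_to_global (R := fun s t => prec (c s) (c t))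
  · intro a b d h1 h2
    exact prec_trans (hO a) (hO b) (hO d) h1 h2
  · intro t₀
    obtain ⟨ε, hε, h⟩ := hloc t₀
    exact ⟨ε, hε, fun s t h1 h2 h3 => (prec_eq _ _).mp (h s t h1 h2 h3)⟩

end Pool.Agent.H804
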