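import Pool.Agent.H804.CoreA
import Pool.Agent.H804.ModelA

set_option autoImplicit false

namespace Pool.Agent.H804

open Filter Topology KTime

lemma Cn.add {C : Set V} (hC : M0.IsConvexClosed C) {z z' : V} (h : Cn C z) (h' : Cn C z') : Cn C (z + z') := by
  have hO := OmC_add h.1 h'.1
  refine ⟨hO, ?_⟩
  obtain ⟨r, hr, e1⟩ := nz_pos_smul (OmC_neg h.1)
  obtain ⟨r', hr', e2⟩ := nz_pos_smul (OmC_neg h'.1)
  obtain ⟨s, hs, e3⟩ := nz_pos_smul (OmC_neg hO)
  have ho := nz_Om h.1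
  have ho' := nz_Om h'.1
  have hlt : M0.Q.ip (nz z) (nz z') < 1 := by
    show Q3.ip _ _ < 1
    rw [ip_eq]; exact B_lt_one ho.1 ho'.1 ho.2 ho'.2
  apply hC.convex _ h.2 _ h'.2 hlt (arc_subset ho ho')
  refine ⟨?_, s / r, s / r', by positivity, by positivity, ?_⟩
  · show Q3.ip _ _ = -1
    rw [ip_eq]; exact nz_q (OmC_neg hO)
  · rw [e1, e2, e3, smul_smul, smul_smul, smul_add]
    congr 2 <;> field_simp

lemma Cn_closed {C : Set V} (hC : M0.IsConvexClosed C) {α : Type*} {l : Filter α} [l.NeBot] {f : α → V} {z : V}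
    (hf : ∀ᶠ a in l, Cn C (f a)) (hz : z ∈ OmC) (hlim : Tendsto f l (𝓝 z)) : Cn C z := by
  obtain ⟨F, hF, hCF⟩ := hC.closed
  refine ⟨hz, ?_⟩
  rw [hCF]
  refine ⟨?_, nz_Om hz⟩
  have h1 : Tendsto (fun a => nz (f a)) l (𝓝 (nz z)) := (continuousAt_nz (OmC_neg hz)).tendsto.comp hlim
  apply hF.mem_of_tendsto h1
  filter_upwards [hf] with a ha
  have := ha.2
  rw [hCF] at this
  exact this.1

lemma TOm_convexClosed : M0.IsConvexClosed {x : V | x ∈ Om ∧ Tst x} where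
  subset := fun x hx => hx.1
  nonempty := ⟨pt, pt_Om, Tst_of_Dom pt_Good.dom (by intro i; fin_cases i <;> simp [B, fw, pt])⟩
  closed := ⟨{x : V | x ∈ Om ∧ Tst x}, isClosed_TOm, by
    ext x; constructor
    · intro h; exact ⟨h, h.1⟩
    · intro h; exact h.1⟩
  invariant := by
    rintro γ ⟨w, _, rfl⟩ x hx
    exact ⟨Om_rho hx.1 w, hx.2.rho w⟩
  convex := by
    intro x hx y hy _ harc z hz
    refine ⟨harc hz, ?_⟩
    obtain ⟨_, a, b, ha, hb, rfl⟩ := hz
    exact (hx.2.smul ha).add (hy.2.smul hb)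

/-- The convex core. -/
def CC : Set V := {x | ∀ C, M0.IsConvexClosed C → x ∈ C}

lemma CC_Om : CC ⊆ Om := fun _ hx => (hx _ TOm_convexClosed).1

lemma CC_Tst {x : V} (hx : x ∈ CC) : Tst x := (hx _ TOm_convexClosed).2

/-- points of the axis `L` belong to all closed convex invariant sets -/
lemma L_mem {C : Set V} (hC : M0.IsConvexClosed C) {a b : ℝ} (ha : 0 < a) (hb : 0 < b) :
    Cn C (a • lp + b • lm) := by
  obtain ⟨x, hx⟩ := hC.nonempty
  have hxO := hC.subset hx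
  obtain ⟨k, hk, hτ⟩ := exists_pow_N3 tau
  have hlam := one_lt_lam
  set L : ℝ := lam ^ k with hL
  have hL1 : 1 < L := one_lt_pow₀ hlam hk.ne'
  set g : W := tau ^ k with hg
  have g_lp : rho g lp = L • lp := rho_pow_smul tau_lp k
  have g_lm : rho g lm = L⁻¹ • lm := by
    rw [hg, rho_pow_smul tau_lm k, inv_pow]
  have gi_lp : rho g⁻¹ lp = L⁻¹ • lp := by
    rw [hg, ← inv_pow, rho_pow_smul tau_inv_lp k, inv_pow]
  have gi_lm : rho g⁻¹ lm = L • lm := by
    rw [hg, ← inv_pow, rho_pow_smul tau_inv_lm k]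
  -- decomposition
  set α := -(B x lm) / 6 with hα
  set β := -(B x lp) / 6 with hβ
  have hα0 : 0 < α := by have := hxO.1 _ lm_Lam; rw [hα]; linarith
  have hβ0 : 0 < β := by have := hxO.1 _ lp_Lam; rw [hβ]; linarith
  set y : V := ![x 0, x 1, 0, 0, x 4] with hy
  have hdec : x = α • lp + β • lm + y := by
    ext i
    fin_cases i <;> simp [hα, hβ, hy, lp, lm, B]
    · ring
    · linear_combination (-(x 3)/3) * s33
  have hgy : ∀ w : W, (w = tau ∨ w = tau⁻¹) → rho w y = y := by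
    have h3 : sg 3 y = y := by rw [sg3]; ext i; fin_cases i <;> simp [hy]
    have h4 : sg 4 y = y := by rw [sg4]; ext i; fin_cases i <;> simp [hy]
    have ht : rho tau y = y := by rw [tau, rho_mul_apply, rho_simple, rho_simple, h4, h3]
    rintro w (rfl | rfl)
    · exact ht
    · conv_lhs => rw [← ht]
      rw [rho_inv_apply]
  have hpow : ∀ (w : W), rho w y = y → ∀ n : ℕ, rho (w ^ n) y = y := by
    intro w hw n
    induction n with
    | zero => simp
    | succ n ih => rw [pow_succ, rho_mul_apply, hw, ih]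
  have hgy1 : rho g y = y := hpow _ (hgy _ (Or.inl rfl)) k
  have hgy2 : rho g⁻¹ y = y := by
    rw [hg, ← inv_pow]; exact hpow _ (hgy _ (Or.inr rfl)) k
  have hgN : g ∈ N3 := hτ
  have hmem1 : ∀ n : ℕ, rho (g ^ n) x ∈ C := fun n =>
    hC.invariant _ ⟨g ^ n, N3.pow_mem hgN n, rfl⟩ x hx
  have hmem2 : ∀ n : ℕ, rho (g⁻¹ ^ n) x ∈ C := fun n =>
    hC.invariant _ ⟨g⁻¹ ^ n, N3.pow_mem (N3.inv_mem hgN) n, rfl⟩ x hx
  have e1 : ∀ n : ℕ, rho (g ^ n) x = (α * L ^ n) • lp + (β * L⁻¹ ^ n) • lm + y := by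
    intro n
    conv_lhs => rw [hdec]
    rw [map_add, map_add, map_smul, map_smul, rho_pow_smul g_lp, rho_pow_smul g_lm, hpow _ hgy1, smul_smul, smul_smul]
  have e2 : ∀ n : ℕ, rho (g⁻¹ ^ n) x = (α * L⁻¹ ^ n) • lp + (β * L ^ n) • lm + y := by
    intro n
    conv_lhs => rw [hdec]
    rw [map_add, map_add, map_smul, map_smul, rho_pow_smul gi_lp, rho_pow_smul gi_lm, hpow _ hgy2, smul_smul, smul_smul]
  -- the approximating sequence
  set zs : ℕ → V := fun n => (a / α * L⁻¹ ^ n) • rho (g ^ n) x + (b / β * L⁻¹ ^ n) • rho (g⁻¹ ^ n) x with hzs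
  have hLi : Tendsto (fun n : ℕ => L⁻¹ ^ n) atTop (𝓝 0) :=
    tendsto_pow_atTop_nhds_zero_of_lt_one (by positivity) (inv_lt_one_of_one_lt₀ hL1)
  have hLpos : ∀ n : ℕ, L⁻¹ ^ n * L ^ n = 1 := by
    intro n
    rw [← mul_pow, inv_mul_cancel₀ (by positivity), one_pow]
  have hzs2 : ∀ n, zs n = (a + b * α / β * (L⁻¹ ^ n * L⁻¹ ^ n)) • lp + (b + a * β / α * (L⁻¹ ^ n * L⁻¹ ^ n)) • lm
      + ((a / α + b / β) * L⁻¹ ^ n) • y := by
    intro n
    simp only [hzs, e1, e2]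
    have h := hLpos n
    have c1 : a / α * L⁻¹ ^ n * (α * L ^ n) = a := by
      have : a / α * L⁻¹ ^ n * (α * L ^ n) = (a / α * α) * (L⁻¹ ^ n * L ^ n) := by ring
      rw [this, h]; field_simp
    have c2 : b / β * L⁻¹ ^ n * (β * L ^ n) = b := by
      have : b / β * L⁻¹ ^ n * (β * L ^ n) = (b / β * β) * (L⁻¹ ^ n * L ^ n) := by ring
      rw [this, h]; field_simp
    simp only [smul_add, smul_smul, c1, c2]
    module
  have hlim : Tendsto zs atTop (𝓝 (a • lp + b • lm)) := by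
    have h1 : Tendsto (fun n : ℕ => (a + b * α / β * (L⁻¹ ^ n * L⁻¹ ^ n)) • lp + (b + a * β / α * (L⁻¹ ^ n * L⁻¹ ^ n)) • lm
      + ((a / α + b / β) * L⁻¹ ^ n) • y) atTop (𝓝 ((a + b * α / β * (0 * 0)) • lp + (b + a * β / α * (0 * 0)) • lm
      + ((a / α + b / β) * 0) • y)) := by
      apply Tendsto.add
      apply Tendsto.add
      · exact ((hLi.mul hLi).const_mul _).const_add _ |>.smul_const _
      · exact ((hLi.mul hLi).const_mul _).const_add _ |>.smul_const _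
      · exact (hLi.const_mul _).smul_const _
    simp only [mul_zero, add_zero, zero_smul] at h1
    refine h1.congr fun n => (hzs2 n).symm
  have hO : a • lp + b • lm ∈ OmC := axis_OmC ha hb
  apply Cn_closed hC _ hO hlim
  apply Eventually.of_forall
  intro n
  have p1 : 0 < a / α * L⁻¹ ^ n := by positivity
  have p2 : 0 < b / β * L⁻¹ ^ n := by positivity
  exact ((Cn_of_mem hC.subset (hmem1 n)).smul p1).add hC ((Cn_of_mem hC.subset (hmem2 n)).smul p2)

end Pool.Agent.H804
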