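import Pool.Agent.H804.Core

set_option autoImplicit false

namespace Pool.Agent.H804

open Filter Topology KTime

lemma CC_convexClosed : M0.IsConvexClosed CC where
  subset := CC_Om
  nonempty := by
    refine ⟨nz (lp + lm), ?_⟩
    intro C hC
    have := L_mem hC one_pos one_pos
    rw [one_smul, one_smul] at this
    exact this.2
  closed := by
    refine ⟨closure CC, isClosed_closure, ?_⟩
    ext x
    constructor
    · intro hx; exact ⟨subset_closure hx, CC_Om hx⟩
    · rintro ⟨hx, hO⟩ C hC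
      obtain ⟨F, hF, hCF⟩ := hC.closed
      have h1 : CC ⊆ F := by
        intro y hy
        have := hy C hC
        rw [hCF] at this
        exact this.1
      rw [hCF]
      exact ⟨closure_minimal h1 hF hx, hO⟩
  invariant := fun γ hγ x hx C hC => hC.invariant γ hγ x (hx C hC)
  convex := fun x hx y hy hlt harc z hz C hC => hC.convex x (hx C hC) y (hy C hC) hlt harc hz

theorem CC_core : M0.IsConvexCore CC := ⟨CC_convexClosed, fun C' hC' _ hx => hx C' hC'⟩

lemma arc_rho {w : W} {x y z : V} (hz : z ∈ Q3.arc x y) : rho w z ∈ Q3.arc (rho w x) (rho w y) := by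
  obtain ⟨h1, a, b, ha, hb, rfl⟩ := hz
  refine ⟨?_, a, b, ha, hb, ?_⟩
  · rw [ip_eq, B_rho, ← ip_eq]; exact h1
  · rw [map_add, map_smul, map_smul]

lemma preimage_convexClosed {C : Set V} (hC : M0.IsConvexClosed C) (w : W) :
    M0.IsConvexClosed {x | rho w x ∈ C} where
  subset := by
    intro x hx
    have := Om_rho (hC.subset hx) w⁻¹
    rwa [rho_inv_apply] at this
  nonempty := by
    obtain ⟨x, hx⟩ := hC.nonempty
    exact ⟨rho w⁻¹ x, by simp only [Set.mem_ofPred_eq]; rwa [rho_apply_inv]⟩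
  closed := by
    obtain ⟨F, hF, hCF⟩ := hC.closed
    refine ⟨(rho w) ⁻¹' F, hF.preimage (continuous_rho w), ?_⟩
    ext x
    constructor
    · intro hx
      have hx' : rho w x ∈ C := hx
      have h2 := Om_rho (hC.subset hx') w⁻¹
      rw [rho_inv_apply] at h2
      rw [hCF] at hx'
      exact ⟨hx'.1, h2⟩
    · rintro ⟨h1, h2⟩
      show rho w x ∈ C
      rw [hCF]
      exact ⟨h1, Om_rho h2 w⟩
  invariant := by
    rintro γ ⟨g, hg, rfl⟩ x hx
    show rho w (rho g x) ∈ C
    have h1 : rho w (rho g x) = rho (w * g * w⁻¹) (rho w x) := by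
      rw [rho_mul_apply, rho_mul_apply, rho_inv_apply]
    rw [h1]
    exact hC.invariant _ ⟨w * g * w⁻¹, N3_conj hg w, rfl⟩ _ hx
  convex := by
    intro x hx y hy hlt harc z hz
    show rho w z ∈ C
    have hlt' : M0.Q.ip (rho w x) (rho w y) < 1 := by
      show Q3.ip _ _ < 1
      have : Q3.ip x y < 1 := hlt
      rw [ip_eq] at this ⊢
      rwa [B_rho]
    apply hC.convex _ hx _ hy hlt' (arc_subset (hC.subset hx) (hC.subset hy)) (arc_rho hz)

lemma CC_rho {x : V} (hx : x ∈ CC) (w : W) : rho w x ∈ CC := fun C hC => hx _ (preimage_convexClosed hC w)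

lemma Cn_rho {z : V} (h : Cn CC z) (w : W) : Cn CC (rho w z) :=
  ⟨OmC_rho h.1 w, by rw [nz_rho]; exact CC_rho h.2 w⟩

lemma Cn_Tst {z : V} (h : Cn CC z) : Tst z := by
  obtain ⟨r, hr, he⟩ := nz_pos_smul (OmC_neg h.1)
  have h1 := CC_Tst h.2
  rw [he] at h1
  have h2 := h1.smul (inv_pos.mpr hr).le
  rwa [smul_smul, inv_mul_cancel₀ hr.ne', one_smul] at h2

lemma Cn_limit {α : Type*} {l : Filter α} [l.NeBot] {f : α → V} {z : V}
    (hf : ∀ᶠ a in l, Cn CC (f a)) (hz : B z z < 0) (hlim : Tendsto f l (𝓝 z)) : Cn CC z := by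
  have h1 : Tendsto (fun a => nz (f a)) l (𝓝 (nz z)) := (continuousAt_nz hz).tendsto.comp hlim
  have h2 := limit_Om (hf.mono fun a ha => ⟨CC_Om ha.2, CC_Tst ha.2⟩) h1
  obtain ⟨r, hr, he⟩ := nz_pos_smul hz
  have h3 : z ∈ OmC := by
    have := OmC_smul h2.1.1 (inv_pos.mpr hr)
    rw [he] at this
    rwa [smul_smul, inv_mul_cancel₀ hr.ne', one_smul] at this
  exact Cn_closed CC_convexClosed hf h3 hlim

/-- the axis -/
lemma Cn_L {s t : ℝ} (h : √3 * |s| < t) : Cn CC ![0, 0, s, t, 0] := by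
  have h3 : (0:ℝ) < √3 := by positivity
  have ha : 0 < (t / √3 + s) / 2 := by
    have h1 : √3 * (-s) < t := lt_of_le_of_lt (by gcongr; exact neg_le_abs s) h
    have h2 : -s < t / √3 := by rw [lt_div_iff₀ h3]; linarith
    linarith
  have hb : 0 < (t / √3 - s) / 2 := by
    have h1 : √3 * s < t := lt_of_le_of_lt (by gcongr; exact le_abs_self s) h
    have h2 : s < t / √3 := by rw [lt_div_iff₀ h3]; linarith
    linarith
  have h1 : (![0, 0, s, t, 0] : V) = ((t / √3 + s) / 2) • lp + ((t / √3 - s) / 2) • lm := by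
    ext i; fin_cases i <;> simp [lp, lm]
    · ring
    · field_simp; ring
  rw [h1]
  have hO := axis_OmC ha hb
  exact ⟨hO, fun C hC => (L_mem hC ha hb).2⟩

lemma Cn_corner1 {s t : ℝ} (h : √3 * |s| < t) : Cn CC ![-t, -t, s, 2 * t, t] := by
  have h1 := Cn_rho (Cn_L h) (cs.simple 2)
  rw [rho_simple, sg2] at h1
  convert h1 using 1
  ext i; fin_cases i <;> simp

lemma Cn_corner2 {s t : ℝ} (h : √3 * |s| < t) : Cn CC ![t, -t, s, 2 * t, t] := by
  have h1 := Cn_rho (Cn_corner1 h) (cs.simple 0)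
  rw [rho_simple, sg0] at h1
  convert h1 using 1
  ext i; fin_cases i <;> simp

lemma Cn_corner3 {s t : ℝ} (h : √3 * |s| < t) : Cn CC ![-t, t, s, 2 * t, t] := by
  have h1 := Cn_rho (Cn_corner2 h) (cs.simple 1)
  rw [rho_simple, sg1] at h1
  convert h1 using 1
  ext i; fin_cases i <;> simp <;> ring

lemma Cn_corner4 {s t : ℝ} (h : √3 * |s| < t) : Cn CC ![t, t, s, 2 * t, t] := by
  have h1 := Cn_rho (Cn_corner3 h) (cs.simple 0)
  rw [rho_simple, sg0] at h1
  convert h1 using 1
  ext i; fin_cases i <;> simp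

lemma Cn_add {z z' : V} (h : Cn CC z) (h' : Cn CC z') : Cn CC (z + z') := h.add CC_convexClosed h'

lemma Cn_diag1 {z : V} (h : Cn CC z) (α : ℝ) : Cn CC (z + ![α, α, 0, 2 * |α|, |α|]) := by
  rcases lt_trichotomy α 0 with h1 | h1 | h1
  · have := Cn_add h (Cn_corner1 (s := 0) (t := -α) (by simpa using h1))
    rw [abs_of_neg h1]
    convert this using 2
    simp
  · subst h1
    convert h using 1
    ext i; fin_cases i <;> simp
  · have := Cn_add h (Cn_corner4 (s := 0) (t := α) (by simpa using h1))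
    rw [abs_of_pos h1]
    exact this

lemma Cn_diag2 {z : V} (h : Cn CC z) (α : ℝ) : Cn CC (z + ![α, -α, 0, 2 * |α|, |α|]) := by
  rcases lt_trichotomy α 0 with h1 | h1 | h1
  · have := Cn_add h (Cn_corner3 (s := 0) (t := -α) (by simpa using h1))
    rw [abs_of_neg h1]
    convert this using 2
    simp
  · subst h1
    convert h using 1
    ext i; fin_cases i <;> simp
  · have := Cn_add h (Cn_corner2 (s := 0) (t := α) (by simpa using h1))
    rw [abs_of_pos h1]
    exact this

/-- points of the core over a neighbourhood of the axis -/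
lemma Cn_tube {b0 b1 b2 b3 m : ℝ} (hm : m = |(b0 + b1) / 2| + |(b0 - b1) / 2|) (h : √3 * |b2| < b3 - 2 * m) :
    Cn CC ![b0, b1, b2, b3, m] := by
  have h1 := Cn_diag2 (Cn_diag1 (Cn_L h) ((b0 + b1) / 2)) ((b0 - b1) / 2)
  convert h1 using 1
  ext i; fin_cases i <;> simp
  · ring
  · ring
  · rw [hm]; ring
  · rw [hm]

/-- the flat piece of the core -/
lemma Cn_flat {b0 b1 b2 b3 : ℝ} (h1 : b1 < -|b0|) (h2 : 0 < b3 + 2 * b1) (h3 : √3 * |b2| < b3 + b1) :
    Cn CC ![b0, b1, b2, b3, -b1] := by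
  have hb0 := abs_lt.mp (show |b0| < -b1 by linarith)
  have hT : 0 < b3 + b1 := by
    have : 0 ≤ √3 * |b2| := by positivity
    linarith
  have key : ∀ t, 0 < t → √3 * |b2 * t / (b3 + b1)| < t := by
    intro t ht
    rw [abs_div, abs_mul, abs_of_pos ht, abs_of_pos hT]
    have : √3 * (|b2| * t / (b3 + b1)) = (√3 * |b2|) * t / (b3 + b1) := by ring
    rw [this, div_lt_iff₀ hT]
    nlinarith
  have hL := Cn_L (key (b3 + 2 * b1) h2)
  have hc1 := Cn_corner1 (key ((-b1 - b0) / 2) (by linarith))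
  have hc2 := Cn_corner2 (key ((-b1 + b0) / 2) (by linarith))
  have h4 := Cn_add (Cn_add hL hc1) hc2
  convert h4 using 1
  have hT' := hT.ne'
  ext i; fin_cases i <;> simp
  · ring
  · ring
  · field_simp; ring
  · ring
  · ring

end Pool.Agent.H804
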