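import Pool.Agent.H804.CauchyA

set_option autoImplicit false

namespace Pool.Agent.H804

open Filter Topology

lemma nz_Om {z : V} (h : z ∈ OmC) : nz z ∈ Om := by
  have hn := OmC_neg h
  obtain ⟨r, hr, he⟩ := nz_pos_smul hn
  refine ⟨?_, nz_q hn⟩
  rw [he]; exact OmC_smul h hr

/-- cone over a subset of the quadric, inside the domain -/
def Cn (C : Set V) (z : V) : Prop := z ∈ OmC ∧ nz z ∈ C

lemma Cn_of_smul {C : Set V} (hC : C ⊆ Om) {z : V} {r : ℝ} (hr : 0 < r) (h : r • z ∈ C) : Cn C z := by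
  have h1 := hC h
  have h2 : z ∈ OmC := by
    have := OmC_smul h1.1 (inv_pos.mpr hr)
    rwa [smul_smul, inv_mul_cancel₀ hr.ne', one_smul] at this
  refine ⟨h2, ?_⟩
  rw [← nz_smul hr, nz_of_neg_one h1.2]
  exact h

lemma Cn_of_mem {C : Set V} (hC : C ⊆ Om) {z : V} (h : z ∈ C) : Cn C z :=
  Cn_of_smul hC one_pos (by rwa [one_smul])

lemma Cn.smul {C : Set V} {z : V} (h : Cn C z) {r : ℝ} (hr : 0 < r) : Cn C (r • z) :=
  ⟨OmC_smul h.1 hr, by rw [nz_smul hr]; exact h.2⟩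

/-- compact piece of the dual cone -/
lemma isCompact_K1 : IsCompact {x : V | Dom x ∧ B x x = -1 ∧ Tst x} := by
  have : {x : V | Dom x ∧ B x x = -1 ∧ Tst x} = {x : V | Dom x ∧ B x x = -1} ∩ {x | Tst x} := by
    ext x; simp; tauto
  rw [this]
  exact isCompact_DeltaC.inter_right isClosed_Tst

lemma Good_of_Tst {x : V} (hd : Dom x) (hq : B x x = -1) (hT : Tst x) : Good x := by
  obtain ⟨h0, h1, h2, h3, h4⟩ := hd.eqs
  have p3 := hT.pos 3
  have p0 := hT.pos 0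
  simp [B, fw] at p3 p0
  have hx3 : 0 ≤ x 3 := by linarith
  have hne : x 3 ≠ 0 := by
    intro h
    have e2 : x 2 = 0 := by linarith
    have e4 : x 4 = 0 := by
      rw [h, e2] at p3
      have : x 4 ≤ 0 := by linarith
      linarith
    have e0 : x 0 = 0 := by linarith
    have e1 : x 1 = 0 := by linarith
    unfold B at hq
    rw [h, e4, e2, e0, e1] at hq
    norm_num at hq
  have hpos : 0 < x 3 := lt_of_le_of_ne hx3 (Ne.symm hne)
  refine ⟨hd, hpos, ?_⟩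
  by_contra hcon
  push Not at hcon
  have e0 : x 0 = 0 := by linarith
  have e1 : x 1 = 0 := by linarith
  rw [e0, e1] at p0
  linarith

lemma K1_OmC : {x : V | Dom x ∧ B x x = -1 ∧ Tst x} ⊆ OmC := fun _ h => OmC_of_Good (Good_of_Tst h.1 h.2.1 h.2.2)

/-- limits of points of the domain in the dual cone stay in the domain -/
lemma limit_Om {α : Type*} {l : Filter α} [l.NeBot] {f : α → V} {z : V}
    (hf : ∀ᶠ a in l, f a ∈ Om ∧ Tst (f a)) (hlim : Tendsto f l (𝓝 z)) : z ∈ Om ∧ Tst z := by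
  have hfin := local_finite isCompact_K1 K1_OmC (‖z‖ + 1)
  have hcomp := isCompact_orbit hfin isCompact_K1
  have hev : ∀ᶠ a in l, f a ∈ ⋃ w ∈ {w : W | ∃ x ∈ {x : V | Dom x ∧ B x x = -1 ∧ Tst x}, ‖rho w x‖ ≤ ‖z‖ + 1}, (rho w) '' {x : V | Dom x ∧ B x x = -1 ∧ Tst x} := by
    have h1 : ∀ᶠ a in l, ‖f a‖ < ‖z‖ + 1 := hlim.norm.eventually_lt_const (by linarith)
    filter_upwards [hf, h1] with a ha hn
    simp only [Set.mem_iUnion]
    have hK : dl (f a) ∈ {x : V | Dom x ∧ B x x = -1 ∧ Tst x} :=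
      ⟨(dl_good ha.1.1).dom, by rw [B_dl_self]; exact ha.1.2, ha.2.rho _⟩
    refine ⟨(dlw (f a))⁻¹, ⟨dl (f a), hK, ?_⟩, dl (f a), hK, rho_dl _⟩
    rw [rho_dl]; exact hn.le
  have hmem := hcomp.isClosed.mem_of_tendsto hlim hev
  simp only [Set.mem_iUnion] at hmem
  obtain ⟨w, _, x, hx, rfl⟩ := hmem
  exact ⟨Om_rho ⟨K1_OmC hx, hx.2.1⟩ w, hx.2.2.rho w⟩

lemma isClosed_TOm : IsClosed {x : V | x ∈ Om ∧ Tst x} := by
  rw [isClosed_iff_clusterPt]
  intro z hz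
  have : (𝓝 z ⊓ 𝓟 {x : V | x ∈ Om ∧ Tst x}).NeBot := hz
  exact limit_Om (l := 𝓝 z ⊓ 𝓟 {x : V | x ∈ Om ∧ Tst x}) (f := id)
    (eventually_inf_principal.mpr (Eventually.of_forall fun _ h => h)) inf_le_left

lemma lplm_OmC : lp + lm ∈ OmC := by
  have h1 : lp + lm = (2 * √3) • pt := by
    ext i; fin_cases i <;> simp [lp, lm, pt]
    ring
  rw [h1]
  exact OmC_smul pt_Om.1 (by positivity)

lemma B_lp_le {k : V} (hk : k ∈ Lam) : B lp k ≤ 0 := by
  have h1 : ∀ n : ℕ, B lp k + (lam⁻¹ ^ n * lam⁻¹ ^ n) * B lm k < 0 := by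
    intro n
    have h2 := OmC_smul (OmC_rho lplm_OmC (tau ^ n)) (c := lam⁻¹ ^ n) (by
      have := one_lt_lam
      positivity)
    rw [map_add, rho_pow_smul tau_lp, rho_pow_smul tau_lm, smul_add, smul_smul, smul_smul] at h2
    have h3 : lam⁻¹ ^ n * lam ^ n = 1 := by
      rw [← mul_pow, inv_mul_cancel₀ (by linarith [one_lt_lam]), one_pow]
    rw [h3, one_smul] at h2
    have := h2 k hk
    rwa [B_add_left, B_smul_left] at this
  have hlim : Tendsto (fun n : ℕ => B lp k + (lam⁻¹ ^ n * lam⁻¹ ^ n) * B lm k) atTop (𝓝 (B lp k + (0 * 0) * B lm k)) := by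
    have : Tendsto (fun n : ℕ => lam⁻¹ ^ n) atTop (𝓝 0) :=
      tendsto_pow_atTop_nhds_zero_of_lt_one (by have := one_lt_lam; positivity) (inv_lt_one_of_one_lt₀ one_lt_lam)
    exact ((this.mul this).mul_const _).const_add _
  have := le_of_tendsto hlim (Eventually.of_forall fun n => (h1 n).le)
  simpa using this

lemma B_lm_le {k : V} (hk : k ∈ Lam) : B lm k ≤ 0 := by
  have h1 : ∀ n : ℕ, B lm k + (lam⁻¹ ^ n * lam⁻¹ ^ n) * B lp k < 0 := by
    intro n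
    have h2 := OmC_smul (OmC_rho lplm_OmC (tau⁻¹ ^ n)) (c := lam⁻¹ ^ n) (by
      have := one_lt_lam
      positivity)
    rw [map_add, rho_pow_smul tau_inv_lp, rho_pow_smul tau_inv_lm, smul_add, smul_smul, smul_smul] at h2
    have h3 : lam⁻¹ ^ n * lam ^ n = 1 := by
      rw [← mul_pow, inv_mul_cancel₀ (by linarith [one_lt_lam]), one_pow]
    rw [h3, one_smul] at h2
    have := h2 k hk
    rw [B_add_left, B_smul_left] at this
    linarith
  have hlim : Tendsto (fun n : ℕ => B lm k + (lam⁻¹ ^ n * lam⁻¹ ^ n) * B lp k) atTop (𝓝 (B lm k + (0 * 0) * B lp k)) := by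
    have : Tendsto (fun n : ℕ => lam⁻¹ ^ n) atTop (𝓝 0) :=
      tendsto_pow_atTop_nhds_zero_of_lt_one (by have := one_lt_lam; positivity) (inv_lt_one_of_one_lt₀ one_lt_lam)
    exact ((this.mul this).mul_const _).const_add _
  have := le_of_tendsto hlim (Eventually.of_forall fun n => (h1 n).le)
  simpa using this

lemma axis_OmC {a b : ℝ} (ha : 0 < a) (hb : 0 < b) : a • lp + b • lm ∈ OmC := by
  intro k hk
  have h1 := B_lp_le hk
  have h2 := B_lm_le hk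
  have h3 := lplm_OmC k hk
  rw [B_add_left] at h3
  rw [B_add_left, B_smul_left, B_smul_left]
  rcases h1.lt_or_eq with h | h
  · nlinarith
  · rw [h] at h3 ⊢
    nlinarith

lemma nz_rho {z : V} (w : W) : nz (rho w z) = rho w (nz z) := by
  unfold nz; rw [B_rho, map_smul]

/-- lower bounds for the dual cone -/
lemma Tst_bounds {z : V} (h : Tst z) : z 1 ≤ z 4 ∧ -(z 1) ≤ z 4 ∧ (z 0 + z 1) / 2 ≤ z 4 ∧ -(z 0 + z 1) / 2 ≤ z 4
    ∧ (z 0 - z 1) / 2 ≤ z 4 ∧ (z 1 - z 0) / 2 ≤ z 4 := by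
  have a1 := (h 1) 1
  have a2 := (h 1) 0
  have a3 := (h (cs.simple 0)) 0
  have a4 := (h (cs.simple 1)) 1
  have a5 := (h (cs.simple 1 * cs.simple 0)) 1
  have a6 := (h (cs.simple 0 * cs.simple 1)) 0
  simp only [rho_mul_apply, rho_simple, sg0, sg1, rho_one_apply] at a1 a2 a3 a4 a5 a6
  simp [B, fw] at a1 a2 a3 a4 a5 a6
  refine ⟨?_, ?_, ?_, ?_, ?_, ?_⟩ <;> linarith

lemma Tst_cone_bound {z : V} (h : Tst z) : 0 ≤ z 4 ∧ z 0 ^ 2 + 3 * z 1 ^ 2 ≤ 4 * z 4 ^ 2 := by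
  obtain ⟨h1, h2, h3, h4, h5, h6⟩ := Tst_bounds h
  have h0 : 0 ≤ z 4 := by linarith
  refine ⟨h0, ?_⟩
  -- hexagon inside the ellipse
  have a1 : |z 1| ≤ z 4 := abs_le.mpr ⟨by linarith, h1⟩
  have a2 : |z 0| + |z 1| ≤ 2 * z 4 := by
    rcases abs_cases (z 0) with ⟨e, _⟩ | ⟨e, _⟩ <;> rcases abs_cases (z 1) with ⟨e', _⟩ | ⟨e', _⟩ <;> rw [e, e'] <;> linarith
  have b1 : 0 ≤ |z 1| := abs_nonneg _
  have b0 : 0 ≤ |z 0| := abs_nonneg _
  rw [← sq_abs (z 0), ← sq_abs (z 1)]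
  nlinarith [mul_nonneg b1 (sub_nonneg.mpr a1)]

end Pool.Agent.H804
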