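import Pool.Agent.H804.Cauchy2

set_option autoImplicit false

namespace Pool.Agent.H804

open Filter Topology

lemma S0_Om : S0 ⊆ Om := fun _ hx => ⟨S0_OmC hx, hx.2.2⟩

/-- every inextendible causal curve meets the Cauchy surface -/
theorem exists_cross {c : ℝ → V} (hc : Continuous c) (hO : ∀ t, c t ∈ Om)
    (hmono : ∀ s t, s < t → prec (c s) (c t))
    (hT : ¬ ∃ y ∈ Om, Tendsto c atTop (𝓝 y)) (hBt : ¬ ∃ y ∈ Om, Tendsto c atBot (𝓝 y)) :
    ∃ t, gS (c t) = 0 := by
  by_contra hcon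
  push Not at hcon
  have hg : Continuous fun t => gS (c t) := by
    rw [continuous_iff_continuousAt]
    intro t
    have h1 : ContinuousAt gS (c t) := continuousOn_gS.continuousAt (isOpen_OmC.mem_nhds (hO t).1)
    exact h1.comp hc.continuousAt
  set F : Set W := {w | ∃ f ∈ S0, -1 ≤ B (c 0) (rho w f)} with hF
  have hFf : F.Finite := finite_causal (hO 0).1
  set K : Set V := ⋃ w ∈ F, (rho w) '' {x : V | Dom x ∧ B x x = -1} with hK
  have hKc : IsCompact K := isCompact_orbit hFf isCompact_DeltaC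
  set S : Set V := ⋃ w ∈ F, (rho w) '' S0 with hS
  have hSc : IsCompact S := isCompact_orbit hFf isCompact_S0
  have hSO : S ⊆ Om := by
    intro x hx
    simp only [hS, Set.mem_iUnion] at hx
    obtain ⟨w, _, y, hy, rfl⟩ := hx
    exact Om_rho (S0_Om hy) w
  have hdl : ∀ t, dl (c t) ∈ Om := fun t => ⟨OmC_of_Good (dl_good (hO t).1), by rw [B_dl_self]; exact (hO t).2⟩
  -- sign is constant
  rcases lt_or_gt_of_ne (hcon 0) with h0 | h0
  · have hneg : ∀ t, gS (c t) < 0 := by
      intro t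
      by_contra h
      push Not at h
      obtain ⟨s, hs⟩ : (0:ℝ) ∈ Set.range fun t => gS (c t) := by
        apply mem_range_of_exists_le_of_exists_ge hg ⟨0, h0.le⟩ ⟨t, h⟩
      exact hcon s hs
    apply hT
    have hfoot : ∀ t > 0, ∃ w ∈ F, ∃ σ ∈ S0, c t = rho w (dl (c t)) ∧ prec (c t) (rho w σ) := by
      intro t ht
      obtain ⟨f, hf, h1, _, h3⟩ := exists_foot (dl_good (hO t).1) (hdl t).2
      have h4 := h3 (by have := hneg t; rw [gS_eq] at this; exact this)
      have hp : prec (dl (c t)) f := ⟨by rw [B_comm]; exact h1, by rw [om_comm]; linarith⟩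
      have hp2 := prec_rho (hdl t) (S0_Om hf) hp (dlw (c t))⁻¹
      rw [rho_dl] at hp2
      refine ⟨(dlw (c t))⁻¹, ?_, f, hf, (rho_dl _).symm, hp2⟩
      exact ⟨f, hf, (prec_trans (hO 0) (hO t) (Om_rho (S0_Om hf) _) (hmono 0 t ht) hp2).1⟩
    apply end_limit (ε := 1) (Or.inl rfl) hO (fun s t hst => by rw [one_mul]; exact hmono s t hst) hKc (S := S) _ hSc hSO
    · intro t ht
      obtain ⟨w, hw, σ, hσ, _, hp⟩ := hfoot t ht
      refine ⟨rho w σ, ?_, hp.1, by rw [one_mul]; exact hp.2.le⟩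
      simp only [hS, Set.mem_iUnion]
      exact ⟨w, hw, σ, hσ, rfl⟩
    · intro t ht
      obtain ⟨w, hw, σ, hσ, he, hp⟩ := hfoot t ht
      simp only [hK, Set.mem_iUnion]
      exact ⟨w, hw, dl (c t), ⟨(dl_good (hO t).1).dom, (hdl t).2⟩, he.symm⟩
  · have hneg : ∀ t, 0 < gS (c t) := by
      intro t
      by_contra h
      push Not at h
      obtain ⟨s, hs⟩ : (0:ℝ) ∈ Set.range fun t => gS (c t) := by
        apply mem_range_of_exists_le_of_exists_ge hg ⟨t, h⟩ ⟨0, h0.le⟩
      exact hcon s hs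
    apply hBt
    have hfoot : ∀ t > 0, ∃ w ∈ F, ∃ σ ∈ S0, c (-t) = rho w (dl (c (-t))) ∧ prec (rho w σ) (c (-t)) := by
      intro t ht
      obtain ⟨f, hf, h1, h3, _⟩ := exists_foot (dl_good (hO (-t)).1) (hdl (-t)).2
      have h4 := h3 (by have := hneg (-t); rw [gS_eq] at this; exact this)
      have hp : prec f (dl (c (-t))) := ⟨h1, h4⟩
      have hp2 := prec_rho (S0_Om hf) (hdl (-t)) hp (dlw (c (-t)))⁻¹
      rw [rho_dl] at hp2
      refine ⟨(dlw (c (-t)))⁻¹, ?_, f, hf, (rho_dl _).symm, hp2⟩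
      refine ⟨f, hf, ?_⟩
      rw [B_comm]
      exact (prec_trans (Om_rho (S0_Om hf) _) (hO (-t)) (hO 0) hp2 (hmono (-t) 0 (by linarith))).1
    obtain ⟨y, hy, hlim⟩ := end_limit (ε := -1) (Or.inr rfl) (c := fun t => c (-t)) (fun t => hO (-t))
      (fun s t hst => by
        have := hmono (-t) (-s) (by linarith)
        refine ⟨by rw [B_comm]; exact this.1, ?_⟩
        rw [om_comm]
        have := this.2
        linarith) hKc (S := S) (by
      intro t ht
      obtain ⟨w, hw, σ, hσ, he, hp⟩ := hfoot t ht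
      simp only [hK, Set.mem_iUnion]
      exact ⟨w, hw, dl (c (-t)), ⟨(dl_good (hO (-t)).1).dom, (hdl (-t)).2⟩, he.symm⟩) hSc hSO (by
      intro t ht
      obtain ⟨w, hw, σ, hσ, _, hp⟩ := hfoot t ht
      refine ⟨rho w σ, ?_, by rw [B_comm]; exact hp.1, ?_⟩
      · simp only [hS, Set.mem_iUnion]
        exact ⟨w, hw, σ, hσ, rfl⟩
      · rw [om_comm]
        have := hp.2
        linarith)
    refine ⟨y, hy, ?_⟩
    have h2 : c = (fun t => c (-t)) ∘ (fun t => -t) := by ext t; simp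
    rw [h2]
    exact hlim.comp tendsto_neg_atBot_atTop

theorem unique_cross {c : ℝ → V} (hO : ∀ t, c t ∈ Om) (hmono : ∀ s t, s < t → prec (c s) (c t))
    {s t : ℝ} (hs : gS (c s) = 0) (ht : gS (c t) = 0) : s = t := by
  by_contra hne
  rcases lt_or_gt_of_ne hne with h | h
  · have h1 := hmono s t h
    have := SC_achronal ⟨hO s, hs⟩ ⟨hO t, ht⟩ h1.1
    rw [this] at h1
    have := h1.2
    rw [om_self] at this
    exact lt_irrefl _ this
  · have h1 := hmono t s h
    have := SC_achronal ⟨hO t, ht⟩ ⟨hO s, hs⟩ h1.1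
    rw [this] at h1
    have := h1.2
    rw [om_self] at this
    exact lt_irrefl _ this

end Pool.Agent.H804
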