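import Pool.Agent.H804.Tits

set_option autoImplicit false

namespace Pool.Agent.H804

open CoxeterSystem

/-- the chamber -/
def Dom (x : V) : Prop := ∀ i, B x (root i) ≤ 0

lemma Dom.add {u v : V} (hu : Dom u) (hv : Dom v) : Dom (u + v) := by
  intro m; rw [B_add_left]; linarith [hu m, hv m]

lemma Dom.smul {v : V} (hv : Dom v) {c : ℝ} (hc : 0 ≤ c) : Dom (c • v) := by
  intro m; rw [B_smul_left]; exact mul_nonpos_of_nonneg_of_nonpos hc (hv m)

lemma rho_mul_simple (w : W) (j : Fin 5) (x : V) :
    rho (w * cs.simple j) x = rho w x + (-(2 * B x (root j) / nrm j)) • rho w (root j) := by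
  rw [rho_mul_apply, rho_simple, sg_apply, map_sub, map_smul]; module

/-- dominance -/
lemma dominance {x : V} (hx : Dom x) (w : W) : Pos (rho w x - x) := by
  induction hn : cs.length w generalizing w with
  | zero =>
    rw [cs.length_eq_zero_iff] at hn
    subst hn
    rw [rho_one_apply, sub_self]; exact Pos_zero
  | succ n ih =>
    have hw : w ≠ 1 := by
      rintro rfl
      rw [cs.length_one] at hn; omega
    obtain ⟨j, hj⟩ := cs.exists_rightDescent_of_ne_one hw
    have hj' : cs.length (w * cs.simple j) + 1 = cs.length w := cs.isRightDescent_iff.mp hj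
    have h1 := ih (w * cs.simple j) (by omega)
    have h2 : Pos (rho (w * cs.simple j) (root j)) := by
      apply tits
      rw [cs.simple_mul_simple_cancel_right]
      omega
    have h3 : rho w x = rho (w * cs.simple j) x
        + (-(2 * B x (root j) / nrm j)) • rho (w * cs.simple j) (root j) := by
      rw [← rho_mul_simple, cs.simple_mul_simple_cancel_right]
    have hc : 0 ≤ -(2 * B x (root j) / nrm j) := by
      have := hx j
      have := nrm_pos j
      rw [← neg_div]
      apply div_nonneg <;> linarith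
    have h4 := h1.add (h2.smul hc)
    have h5 : rho w x - x = rho (w * cs.simple j) x - x +
        (-(2 * B x (root j) / nrm j)) • rho (w * cs.simple j) (root j) := by
      rw [h3]; module
    rw [h5]; exact h4

/-- root coordinates -/
noncomputable def co (m : Fin 5) (v : V) : ℝ := - B v (fw m) / (![3, 3/2, 1, 6, 6] : Fin 5 → ℝ) m

lemma mu_pos (m : Fin 5) : 0 < (![3, 3/2, 1, 6, 6] : Fin 5 → ℝ) m := by
  fin_cases m <;> norm_num

lemma co_add (m : Fin 5) (u v : V) : co m (u + v) = co m u + co m v := by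
  unfold co; rw [B_add_left]; ring

lemma co_smul (m : Fin 5) (c : ℝ) (v : V) : co m (c • v) = c * co m v := by
  unfold co; rw [B_smul_left]; ring

lemma co_zero (m : Fin 5) : co m 0 = 0 := by unfold co; simp

lemma co_root (i m : Fin 5) : co m (root i) = if i = m then 1 else 0 := by
  unfold co
  rw [B_root_fw]
  fin_cases i <;> fin_cases m <;> simp

lemma co_nonneg {v : V} (hv : Pos v) (m : Fin 5) : 0 ≤ co m v := by
  unfold co
  have := mu_pos m
  have := hv m
  apply div_nonneg <;> linarith

lemma Pos_of_co {v : V} (h : ∀ m, 0 ≤ co m v) : Pos v := by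
  intro m
  have h1 := h m
  unfold co at h1
  have h2 := mu_pos m
  have := (div_nonneg_iff.mp h1)
  rcases this with h | h <;> linarith

lemma eq_sum_co (v : V) : v = ∑ m, co m v • root m := by
  ext k
  rw [Finset.sum_apply]
  simp only [Fin.sum_univ_five, Pi.smul_apply, smul_eq_mul]
  fin_cases k <;> simp [co, root, B, fw] <;> ring

/-- chamber coordinates -/
noncomputable def cd (m : Fin 5) (v : V) : ℝ := - B v (root m) / (![3, 3/2, 1, 6, 6] : Fin 5 → ℝ) m

lemma cd_nonneg {v : V} (hv : Dom v) (m : Fin 5) : 0 ≤ cd m v := by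
  unfold cd
  have := mu_pos m
  have := hv m
  apply div_nonneg <;> linarith

lemma eq_sum_cd (v : V) : v = ∑ m, cd m v • fw m := by
  ext k
  rw [Finset.sum_apply]
  simp only [Fin.sum_univ_five, Pi.smul_apply, smul_eq_mul]
  fin_cases k <;> simp [cd, root, B, fw] <;> ring

lemma B_eq_sum (u v : V) : B u v = - ∑ m, cd m u * co m v * (![3, 3/2, 1, 6, 6] : Fin 5 → ℝ) m := by
  simp only [Fin.sum_univ_five]
  simp [cd, co, root, B, fw]
  ring

lemma B_self_co (v : V) : B v v = (co 0 v)^2 + (co 1 v)^2 + 2*(co 2 v)^2 + 2*(co 3 v)^2 + 2*(co 4 v)^2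
    - co 0 v * co 1 v - 2 * co 0 v * co 2 v - 2 * co 1 v * co 2 v - 2 * co 2 v * co 3 v
    - 2 * co 2 v * co 4 v - 8 * co 3 v * co 4 v := by
  simp [co, B, fw]
  ring

lemma B_self_cd (v : V) : B v v = -(6*cd 0 v+3*cd 1 v+cd 2 v)^2 + 6 * (6*cd 0 v+3*cd 1 v+cd 2 v)*(cd 3 v+cd 4 v)
    - 18*(cd 3 v+cd 4 v)^2 + 12*(cd 0 v)^2+6*cd 0 v*cd 1 v+3*(cd 1 v)^2 + 3*(cd 3 v-cd 4 v)^2 := by
  simp [cd, B, root]
  ring

/-- the chamber is negative -/
lemma Dom.neg {x : V} (hx : Dom x) (h0 : x ≠ 0) : B x x < 0 := by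
  have h := B_self_cd x
  have c0 := cd_nonneg hx 0
  have c1 := cd_nonneg hx 1
  have c2 := cd_nonneg hx 2
  have c3 := cd_nonneg hx 3
  have c4 := cd_nonneg hx 4
  have he := eq_sum_cd x
  rw [Fin.sum_univ_five] at he
  by_contra hcon
  push Not at hcon
  apply h0
  rw [he]
  clear he
  generalize cd 0 x = a at *
  generalize cd 1 x = b at *
  generalize cd 2 x = c at *
  generalize cd 3 x = d at *
  generalize cd 4 x = e at *
  have hk : (2/3) * (6*a+3*b+c)^2 - 6*(6*a+3*b+c)*(d+e) + 15*(d+e)^2 ≤ 0 := by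
    linarith [mul_nonneg c0 c1, mul_nonneg c0 c2, mul_nonneg c1 c2, mul_nonneg c3 c4, mul_nonneg c0 c0, sq_nonneg c]
  have h1 : 6*a+3*b+c = 0 := by nlinarith [sq_nonneg (6*a+3*b+c), sq_nonneg ((6*a+3*b+c) - 5*(d+e)), sq_nonneg ((6*a+3*b+c) - (9/2)*(d+e))]
  have h2 : d + e = 0 := by rw [h1] at hk; nlinarith
  have ha : a = 0 := by linarith
  have hb : b = 0 := by linarith
  have hc : c = 0 := by linarith
  have hd : d = 0 := by linarith
  have hee : e = 0 := by linarith
  rw [ha, hb, hc, hd, hee]
  simp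

/-- height -/
noncomputable def ht (v : V) : ℝ := ∑ m, co m v

lemma ht_add (u v : V) : ht (u + v) = ht u + ht v := by
  simp only [ht, co_add, Finset.sum_add_distrib]

lemma ht_smul (c : ℝ) (v : V) : ht (c • v) = c * ht v := by
  simp only [ht, co_smul, Finset.mul_sum]

/-- the root lattice -/
def Lat : Set V := {v | ∀ m, ∃ z : ℤ, co m v = z}

lemma co_sg (m i : Fin 5) (v : V) : co m (sg i v) = co m v + (if i = m then ∑ j, A i j * co j v else 0) := by
  have h : sg i v = v + (∑ j, A i j * co j v) • root i := by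
    conv_lhs => rw [eq_sum_co v]
    rw [map_sum]
    conv_rhs => rw [eq_sum_co v]
    simp only [map_smul, sg_root, smul_add, Finset.sum_add_distrib, Finset.sum_smul, smul_smul]
    congr 1
    · apply Finset.sum_congr rfl
      intro j _
      rw [← eq_sum_co v]
      ring_nf
  rw [h, co_add, co_smul, co_root]
  split_ifs <;> ring

lemma A_int (i j : Fin 5) : ∃ z : ℤ, A i j = z := by
  rw [A_eq]
  refine ⟨(!![-2,1,2,0,0; 1,-2,2,0,0; 1,1,-2,1,1; 0,0,1,-2,4; 0,0,1,4,-2] : Matrix (Fin 5) (Fin 5) ℤ) i j, ?_⟩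
  fin_cases i <;> fin_cases j <;> simp

lemma sg_Lat (i : Fin 5) {v : V} (hv : v ∈ Lat) : sg i v ∈ Lat := by
  intro m
  rw [co_sg]
  choose z hz using hv
  choose a ha using A_int i
  refine ⟨z m + (if i = m then ∑ j, a j * z j else 0), ?_⟩
  rw [Int.cast_add, hz]
  congr 1
  split_ifs
  · push_cast
    apply Finset.sum_congr rfl
    intro j _
    rw [hz, ha]
  · simp

lemma rho_Lat (w : W) {v : V} (hv : v ∈ Lat) : rho w v ∈ Lat := by
  induction w using cs.simple_induction_left with
  | one => simpa using hv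
  | mul_simple_left w i ih => rw [rho_mul_apply, rho_simple]; exact sg_Lat i ih

lemma root_Lat (i : Fin 5) : root i ∈ Lat := by
  intro m; rw [co_root]; split_ifs
  · exact ⟨1, by simp⟩
  · exact ⟨0, by simp⟩

lemma root_ne_zero (i : Fin 5) : root i ≠ 0 := by
  intro h
  have := B_root_self i
  rw [h] at this
  simp at this
  have := nrm_pos i
  linarith

/-- positive nonzero lattice vectors have height at least one -/
lemma one_le_ht {v : V} (hv : v ∈ Lat) (hp : Pos v) (h0 : v ≠ 0) : 1 ≤ ht v := by
  choose z hz using hv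
  have hz0 : ∀ m, 0 ≤ z m := by
    intro m
    have := co_nonneg hp m
    rw [hz] at this
    exact_mod_cast this
  have hs : ht v = ((∑ m, z m : ℤ) : ℝ) := by
    unfold ht; push_cast; exact Finset.sum_congr rfl fun m _ => hz m
  rw [hs]
  have : 1 ≤ ∑ m, z m := by
    by_contra hcon
    push Not at hcon
    have h1 : ∑ m, z m = 0 := by
      have := Finset.sum_nonneg (s := Finset.univ) fun m _ => hz0 m
      omega
    rw [Finset.sum_eq_zero_iff_of_nonneg (fun m _ => hz0 m)] at h1
    apply h0
    rw [eq_sum_co v]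
    apply Finset.sum_eq_zero
    intro m hm
    rw [hz, h1 m hm]
    simp
  exact_mod_cast this

/-- base point in the interior of the chamber -/
def x0 : V := ![-1, -1, 0, 3, 2]

lemma B_x0_root (i : Fin 5) : B x0 (root i) = (![-1, -1, -1, -3, -3] : Fin 5 → ℝ) i := by
  fin_cases i <;> simp [B, root, x0] <;> norm_num

lemma B_x0_fw (i : Fin 5) : B x0 (fw i) = (![-6, -3, -2, -3, -3] : Fin 5 → ℝ) i := by
  fin_cases i <;> simp [B, fw, x0] <;> norm_num

lemma B_x0_x0 : B x0 x0 = -9 := by simp [B, x0]; norm_num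

lemma Dom_x0 : Dom x0 := by intro i; rw [B_x0_root]; fin_cases i <;> simp

lemma Pos_x0 : Pos x0 := by intro i; rw [B_x0_fw]; fin_cases i <;> simp

lemma x0_ne_zero : x0 ≠ 0 := by
  intro h
  have := B_x0_x0
  rw [h] at this
  simp at this

/-- growth of the height -/
lemma growth (w : W) : ht x0 + cs.length w ≤ ht (rho w x0) := by
  induction hn : cs.length w generalizing w with
  | zero =>
    rw [cs.length_eq_zero_iff] at hn
    subst hn
    rw [rho_one_apply]; simp
  | succ n ih =>
    have hw : w ≠ 1 := by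
      rintro rfl
      rw [cs.length_one] at hn; omega
    obtain ⟨j, hj⟩ := cs.exists_rightDescent_of_ne_one hw
    have hj' : cs.length (w * cs.simple j) + 1 = cs.length w := cs.isRightDescent_iff.mp hj
    have h1 := ih (w * cs.simple j) (by omega)
    have h2 : Pos (rho (w * cs.simple j) (root j)) := by
      apply tits
      rw [cs.simple_mul_simple_cancel_right]
      omega
    have h3 : rho w x0 = rho (w * cs.simple j) x0
        + (-(2 * B x0 (root j) / nrm j)) • rho (w * cs.simple j) (root j) := by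
      rw [← rho_mul_simple, cs.simple_mul_simple_cancel_right]
    have h4 := one_le_ht (rho_Lat (w * cs.simple j) (root_Lat j)) h2 (by
      intro h
      rw [LinearEquiv.map_eq_zero_iff] at h
      exact root_ne_zero j h)
    rw [h3, ht_add, ht_smul]
    have hc : 1 ≤ -(2 * B x0 (root j) / nrm j) := by
      rw [B_x0_root]
      fin_cases j <;> simp [nrm] <;> norm_num
    push_cast
    nlinarith

lemma finite_length (N : ℕ) : {w : W | cs.length w ≤ N}.Finite := by
  have h1 : {l : List (Fin 5) | l.length ≤ N}.Finite := List.finite_length_le (Fin 5) N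
  apply (h1.image cs.wordProd).subset
  intro w hw
  obtain ⟨l, hl, hl2⟩ := cs.exists_isReduced w
  refine ⟨l, ?_, hl2.symm⟩
  have : cs.length w = l.length := by rw [hl2]; exact hl
  simpa [this] using hw

lemma finite_ht (C : ℝ) : {w : W | ht (rho w x0) ≤ C}.Finite := by
  apply (finite_length ⌈C - ht x0⌉₊).subset
  intro w hw
  have h1 := growth w
  simp only [Set.mem_ofPred_eq] at hw ⊢
  have : (cs.length w : ℝ) ≤ C - ht x0 := by linarith
  exact_mod_cast this.trans (Nat.le_ceil _)

lemma abs_ht_le (v : V) : |ht v| ≤ 20 * ‖v‖ := by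
  have h := fun i => norm_le_pi_norm v i
  simp only [Real.norm_eq_abs, abs_le] at h
  have h0 := h 0
  have h1 := h 1
  have h2 := h 2
  have h3 := h 3
  have h4 := h 4
  rw [abs_le]
  simp only [ht, Fin.sum_univ_five, co, B, fw]
  simp
  constructor <;> linarith

lemma finite_norm (R : ℝ) : {w : W | ‖rho w x0‖ ≤ R}.Finite := by
  apply (finite_ht (20 * R)).subset
  intro w hw
  simp only [Set.mem_ofPred_eq] at hw ⊢
  have := abs_ht_le (rho w x0)
  have := le_abs_self (ht (rho w x0))
  linarith

/-- the stabiliser of `x0` is trivial -/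
lemma rho_x0_eq {w : W} (h : rho w x0 = x0) : w = 1 := by
  have := growth w
  rw [h] at this
  have h2 : (cs.length w : ℝ) ≤ 0 := by linarith
  have h3 : cs.length w = 0 := by
    have : cs.length w ≤ 0 := by exact_mod_cast h2
    omega
  exact cs.length_eq_zero_iff.mp h3

end Pool.Agent.H804
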