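import Pool.Agent.H804.Cone

set_option autoImplicit false

namespace Pool.Agent.H804

open Filter Topology

lemma exists_Good {z : V} (hz : z ∈ OmC) : ∃ w : W, Good (rho w z) := by
  obtain ⟨w, hw⟩ := exists_Dom hz
  exact ⟨w, Good_of_Dom_OmC hw (OmC_rho hz w)⟩

lemma Good.ne_zero {x : V} (h : Good x) : x ≠ 0 := by
  rintro rfl
  have := h.h3
  simp at this

lemma OmC_neg {z : V} (hz : z ∈ OmC) : B z z < 0 := by
  obtain ⟨w, hw⟩ := exists_Good hz
  rw [← B_rho w]
  exact hw.dom.neg hw.ne_zero

lemma OmC_ne_zero {z : V} (hz : z ∈ OmC) : z ≠ 0 := by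
  intro h
  have := OmC_neg hz
  rw [h] at this
  simp at this

lemma B_lt_one {x y : V} (hx : x ∈ OmC) (hy : y ∈ OmC) (hxx : B x x = -1) (hyy : B y y = -1) :
    B x y < 1 := by
  have := OmC_neg (OmC_add hx hy)
  rw [B_add_left, B_add_right, B_add_right, B_comm y x] at this
  linarith

lemma isOpen_OmC : IsOpen OmC := by
  set L1 : Set V := {k | Tst k} ∩ {k | B k k = 0} ∩ Metric.sphere 0 1 with hL1
  have hc : IsCompact L1 := (isCompact_sphere 0 1).inter_left
    (isClosed_Tst.inter (isClosed_eq (by fun_prop) continuous_const))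
  have he : OmC = {z | ∀ k ∈ L1, B z k < 0} := by
    ext z
    constructor
    · intro h k hk
      apply h
      refine ⟨?_, hk.1.1, hk.1.2⟩
      rintro rfl
      have := hk.2
      simp at this
    · intro h k hk
      have hk0 : 0 < ‖k‖ := norm_pos_iff.mpr hk.1
      have := h (‖k‖⁻¹ • k) ⟨⟨hk.2.1.smul (by positivity), by
        simp only [Set.mem_ofPred_eq]
        rw [B_smul_left, B_smul_right, hk.2.2]; simp⟩, by simp [norm_smul, hk0.ne']⟩
      rw [B_smul_right] at this
      by_contra hcon
      push Not at hcon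
      have : 0 ≤ ‖k‖⁻¹ * B z k := by positivity
      linarith
  rw [he, isOpen_iff_mem_nhds]
  intro z hz
  have := hc.eventually_forall_of_forall_eventually (x₀ := z) (P := fun z k => B z k < 0) (by
    intro k hk
    have hcont : Continuous fun p : V × V => B p.1 p.2 := by fun_prop
    exact hcont.continuousAt.eventually_lt continuousAt_const (hz k hk))
  exact this

/-- local finiteness -/
lemma local_finite {K : Set V} (hK : IsCompact K) (hKO : K ⊆ OmC) (R : ℝ) :
    {w : W | ∃ x ∈ K, ‖rho w x‖ ≤ R}.Finite := by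
  have hcont : Continuous fun v : V => B v x0 := by fun_prop
  obtain ⟨C, hC⟩ : ∃ C, ∀ v ∈ Metric.closedBall (0 : V) R, -C ≤ B v x0 := by
    have := (isCompact_closedBall (0:V) R).bddBelow_image hcont.continuousOn
    obtain ⟨C, hC⟩ := this
    exact ⟨-C, fun v hv => by simpa using hC ⟨v, hv, rfl⟩⟩
  have := (finite_of_compact hK hKO C).preimage (f := fun w : W => w⁻¹) (inv_injective.injOn)
  apply this.subset
  rintro w ⟨x, hx, hw⟩
  refine ⟨x, hx, ?_⟩
  rw [← B_rho_left]
  exact hC _ (by simpa using hw)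

/-- positive elements pair nonpositively with dominant ones -/
lemma B_Dom_Pos {x u : V} (hx : Dom x) (hu : Pos u) : B x u ≤ 0 := by
  rw [B_eq_sum, Fin.sum_univ_five]
  have c := fun i => mul_nonneg (mul_nonneg (cd_nonneg hx i) (co_nonneg hu i)) (mu_pos i).le
  have c0 := c 0
  have c1 := c 1
  have c2 := c 2
  have c3 := c 3
  have c4 := c 4
  linarith

/-- the chamber is a strict fundamental domain -/
lemma Dom_unique {x : V} {w : W} (hx : Dom x) (hw : Dom (rho w x)) : rho w x = x := by
  have h1 := dominance hx w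
  have h2 := dominance hw w⁻¹
  rw [rho_inv_apply] at h2
  have h3 : ∀ m, co m (rho w x - x) = 0 := by
    intro m
    have a := co_nonneg h1 m
    have b := co_nonneg h2 m
    have e : rho w x - x = rho w x + (-1:ℝ) • x := by module
    have e' : x - rho w x = x + (-1:ℝ) • rho w x := by module
    rw [e', co_add, co_smul] at b
    rw [e, co_add, co_smul] at a ⊢
    linarith
  have h4 : rho w x - x = 0 := by
    rw [eq_sum_co (rho w x - x)]
    apply Finset.sum_eq_zero
    intro m _
    rw [h3, zero_smul]
  exact sub_eq_zero.mp h4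

/-- `v` lies in the span of the roots orthogonal to `x` -/
def Spn (x v : V) : Prop := ∀ i, B x (root i) ≠ 0 → co i v = 0

lemma Spn.add {x u v : V} (hu : Spn x u) (hv : Spn x v) : Spn x (u + v) := by
  intro i hi; rw [co_add, hu i hi, hv i hi, add_zero]

lemma Spn.smul {x v : V} (hv : Spn x v) (c : ℝ) : Spn x (c • v) := by
  intro i hi; rw [co_smul, hv i hi, mul_zero]

lemma Good_aux {x : V} (hx : Good x) {v : V} (hv : Spn x v) :
    (co 0 v = 0 ∨ co 1 v = 0 ∨ co 2 v = 0) ∧ (co 3 v = 0 ∨ co 4 v = 0) := by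
  have c := fun i => cd_nonneg hx.dom i
  have h3 := hx.h3
  have h34 := hx.h34
  have e1 : x 3 = 3 * (cd 3 x + cd 4 x) := by simp [cd, B, root]; ring
  have e2 : x 3 + x 4 = 6 * cd 0 x + 3 * cd 1 x + cd 2 x := by simp [cd, B, root]; ring
  rw [e1] at h3
  rw [e2] at h34
  have key : ∀ i, co i v ≠ 0 → cd i x = 0 := by
    intro i hi
    have : B x (root i) = 0 := by
      by_contra h
      exact hi (hv i h)
    unfold cd
    rw [this]; simp
  constructor
  · by_contra hcon
    push Not at hcon
    have := key 0 hcon.1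
    have := key 1 hcon.2.1
    have := key 2 hcon.2.2
    linarith
  · by_contra hcon
    push Not at hcon
    have := key 3 hcon.1
    have := key 4 hcon.2
    linarith

lemma Spn.nonneg {x : V} (hx : Good x) {v : V} (hv : Spn x v) : 0 ≤ B v v := by
  obtain ⟨hA, hB⟩ := Good_aux hx hv
  rw [B_self_co]
  generalize co 0 v = a at *
  generalize co 1 v = b at *
  generalize co 2 v = c at *
  generalize co 3 v = d at *
  generalize co 4 v = e at *
  rcases hA with h | h | h <;> rcases hB with h' | h' <;> rw [h, h'] <;>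
  linarith [sq_nonneg (a - c), sq_nonneg (b - c), sq_nonneg (c - d), sq_nonneg (c - e), sq_nonneg (a-b), sq_nonneg a, sq_nonneg b, sq_nonneg d, sq_nonneg e]

lemma Spn.eq_zero {x : V} (hx : Good x) {v : V} (hv : Spn x v) (h : B v v = 0) : v = 0 := by
  obtain ⟨hA, hB⟩ := Good_aux hx hv
  rw [B_self_co] at h
  obtain ⟨h0, h1, h2, h3, h4⟩ := posdef_aux h hA hB
  rw [eq_sum_co v, Fin.sum_univ_five, h0, h1, h2, h3, h4]
  simp

lemma B_expand (u v : V) : B u v = ∑ i, co i v * B u (root i) := by
  rw [Fin.sum_univ_five]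
  simp [co, B, root, fw]
  ring

/-- elements fixing a dominant point move everything inside the span -/
lemma stab_Spn {d : V} (hd : Dom d) {w : W} (hw : rho w d = d) (v : V) : Spn d (rho w v - v) := by
  induction hn : cs.length w generalizing w v with
  | zero =>
    rw [cs.length_eq_zero_iff] at hn
    subst hn
    intro i _
    rw [rho_one_apply, sub_self, co_zero]
  | succ n ih =>
    have hw1 : w ≠ 1 := by
      rintro rfl
      rw [cs.length_one] at hn; omega
    obtain ⟨j, hj⟩ := cs.exists_rightDescent_of_ne_one hw1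
    have hj' : cs.length (w * cs.simple j) + 1 = cs.length w := cs.isRightDescent_iff.mp hj
    have h2 : Pos (-(rho w (root j))) := tits_neg w j (by omega)
    have h3 := B_Dom_Pos hd h2
    rw [B_neg_right] at h3
    have h4 : B d (root j) = B d (rho w (root j)) := by
      conv_rhs => rw [← hw]
      rw [B_rho]
    have h5 : B d (root j) = 0 := le_antisymm (hd j) (by linarith)
    have h6 : rho (w * cs.simple j) d = d := by
      rw [rho_mul_simple, h5, hw]; simp
    have ih1 := ih h6 v (by omega)
    have ih2 := ih h6 (root j) (by omega)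
    have h7 : Spn d (root j) := by
      intro i hi
      rw [co_root]
      split_ifs with h
      · subst h; exact absurd h5 hi
      · rfl
    have h8 : rho w v = rho (w * cs.simple j) v + (-(2 * B v (root j) / nrm j)) • rho (w * cs.simple j) (root j) := by
      rw [← rho_mul_simple, cs.simple_mul_simple_cancel_right]
    have h9 : rho w v - v = (rho (w * cs.simple j) v - v) + (-(2 * B v (root j) / nrm j)) • ((rho (w * cs.simple j) (root j) - root j) + root j) := by
      rw [h8]; module
    rw [h9]
    exact ih1.add ((ih2.add h7).smul _)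

/-- principal congruence subgroup of level 3 -/
def N3 : Subgroup W where
  carrier := {w | ∀ v ∈ Lat, ∃ u ∈ Lat, rho w v = v + (3:ℝ) • u}
  one_mem' := by
    intro v _
    refine ⟨0, ?_, by simp⟩
    intro m; exact ⟨0, by simp [co_zero]⟩
  mul_mem' := by
    intro a b ha hb v hv
    obtain ⟨u, hu, h1⟩ := hb v hv
    obtain ⟨u', hu', h2⟩ := ha v hv
    refine ⟨u' + rho a u, ?_, ?_⟩
    · intro m
      obtain ⟨z, hz⟩ := hu' m
      obtain ⟨z', hz'⟩ := rho_Lat a hu m
      exact ⟨z + z', by rw [co_add, hz, hz']; push_cast; ring⟩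
    · rw [rho_mul_apply, h1, map_add, map_smul, h2]; module
  inv_mem' := by
    intro a ha v hv
    obtain ⟨u, hu, h1⟩ := ha v hv
    refine ⟨-(rho a⁻¹ u), ?_, ?_⟩
    · intro m
      obtain ⟨z, hz⟩ := rho_Lat a⁻¹ hu m
      refine ⟨-z, ?_⟩
      have : -(rho a⁻¹ u) = (-1:ℝ) • rho a⁻¹ u := by module
      rw [this, co_smul, hz]; push_cast; ring
    · have := congrArg (rho a⁻¹) h1
      rw [rho_inv_apply, map_add, map_smul] at this
      nth_rw 2 [this]
      module

lemma mem_N3 {w : W} : w ∈ N3 ↔ ∀ v ∈ Lat, ∃ u ∈ Lat, rho w v = v + (3:ℝ) • u := Iff.rfl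

lemma N3_conj {w : W} (hw : w ∈ N3) (g : W) : g * w * g⁻¹ ∈ N3 := by
  intro v hv
  obtain ⟨u, hu, h1⟩ := hw _ (rho_Lat g⁻¹ hv)
  refine ⟨rho g u, rho_Lat g hu, ?_⟩
  rw [rho_mul_apply, rho_mul_apply, h1, map_add, map_smul, rho_apply_inv]

lemma nrm_le (i : Fin 5) : nrm i ≤ 2 := by fin_cases i <;> norm_num [nrm]

/-- the congruence subgroup acts freely on the domain (as seen from a good point) -/
lemma free_Good {d : V} (hd : Good d) {w : W} (hw : rho w d = d) (h3 : w ∈ N3) : w = 1 := by
  have hroot : ∀ i, B d (root i) = 0 → rho w (root i) = root i := by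
    intro i hi
    obtain ⟨u, hu, h1⟩ := h3 _ (root_Lat i)
    have hs := stab_Spn hd.dom hw (root i)
    have hri : Spn d (root i) := by
      intro j hj
      rw [co_root]
      split_ifs with h
      · subst h; exact absurd hi hj
      · rfl
    have hsu : Spn d u := by
      have : u = (1/3:ℝ) • (rho w (root i) - root i) := by rw [h1]; module
      rw [this]; exact hs.smul _
    have h5 : 0 ≤ B (rho w (root i) + root i) (rho w (root i) + root i) := by
      apply Spn.nonneg hd
      have : rho w (root i) + root i = (rho w (root i) - root i) + (2:ℝ) • root i := by module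
      rw [this]; exact hs.add (hri.smul 2)
    rw [B_add_left, B_add_right, B_add_right, B_rho, B_root_self, B_comm (root i)] at h5
    have h6 : B (rho w (root i) - root i) (rho w (root i) - root i) = 9 * B u u := by
      rw [h1]
      have : root i + (3:ℝ) • u - root i = (3:ℝ) • u := by module
      rw [this, B_smul_left, B_smul_right]; ring
    rw [B_sub_left, B_sub_right, B_sub_right, B_rho, B_root_self, B_comm (root i)] at h6
    have h7 := nrm_le i
    have h8 : B u u < 1 := by linarith
    have h9 := Spn.nonneg hd hsu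
    have h10 : ∃ z : ℤ, B u u = z := by
      obtain ⟨z0, e0⟩ := hu 0
      obtain ⟨z1, e1⟩ := hu 1
      obtain ⟨z2, e2⟩ := hu 2
      obtain ⟨z3, e3⟩ := hu 3
      obtain ⟨z4, e4⟩ := hu 4
      refine ⟨z0^2 + z1^2 + 2*z2^2 + 2*z3^2+2*z4^2 - z0*z1 - 2*z0*z2 - 2*z1*z2 - 2*z2*z3 - 2*z2*z4 - 8*z3*z4, ?_⟩
      rw [B_self_co, e0, e1, e2, e3, e4]; push_cast; ring
    obtain ⟨z, hz⟩ := h10
    have h11 : B u u = 0 := by
      rw [hz] at h8 h9 ⊢
      have a : z < 1 := by exact_mod_cast h8
      have b : 0 ≤ z := by exact_mod_cast h9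
      have : z = 0 := by omega
      rw [this]; simp
    have h12 := Spn.eq_zero hd hsu h11
    rw [h1, h12]; simp
  have hall : ∀ v, rho w v = v := by
    intro v
    have hs := stab_Spn hd.dom hw v
    have h1 : B (rho w v - v) (rho w v - v) = 0 := by
      rw [B_expand]
      apply Finset.sum_eq_zero
      intro i _
      by_cases hi : B d (root i) = 0
      · have : B (rho w v - v) (root i) = 0 := by
          rw [B_sub_left]
          nth_rw 1 [← hroot i hi]
          rw [B_rho, sub_self]
        rw [this, mul_zero]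
      · rw [hs i hi, zero_mul]
    have := Spn.eq_zero hd hs h1
    exact sub_eq_zero.mp this
  exact rho_x0_eq (hall x0)

/-- the domain in the quadric -/
def Om : Set V := {x | x ∈ OmC ∧ B x x = -1}

lemma Om_rho {x : V} (h : x ∈ Om) (w : W) : rho w x ∈ Om := ⟨OmC_rho h.1 w, by rw [B_rho]; exact h.2⟩

/-- a point of the domain -/
def pt : V := ![0, 0, 0, 1, 0]

lemma pt_Good : Good pt := by
  refine ⟨?_, ?_, ?_⟩
  · rw [Dom_iff]; simp [pt]
  · simp [pt]
  · simp [pt]

lemma pt_Om : pt ∈ Om := ⟨OmC_of_Good pt_Good, by simp [B, pt]⟩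

end Pool.Agent.H804
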