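import Mathlib

set_option autoImplicit false

namespace Pool.Agent.H804

open Filter Topology

section

variable {X : Type*} [NormedAddCommGroup X] [NormedSpace ℝ X] {U : Set X} {h : X → ℝ}

/-- degree one homogeneity near `r • b` -/
lemma hom_ev (hU : IsOpen U) (hh : ∀ b ∈ U, ∀ r : ℝ, 0 < r → h (r • b) = r * h b)
    {b : X} (hb : b ∈ U) {r : ℝ} (hr : 0 < r) :
    h =ᶠ[𝓝 (r • b)] fun y => r * h (r⁻¹ • y) := by
  have hc : Continuous fun y : X => r⁻¹ • y := by fun_prop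
  have h1 : ∀ᶠ y in 𝓝 (r • b), r⁻¹ • y ∈ U := by
    apply hc.continuousAt.eventually_mem
    rw [smul_smul, inv_mul_cancel₀ hr.ne', one_smul]
    exact hU.mem_nhds hb
  filter_upwards [h1] with y hy
  have := hh _ hy r hr
  rw [smul_smul, mul_inv_cancel₀ hr.ne', one_smul] at this
  exact this

lemma hom_contDiffAt (hU : IsOpen U) (hh : ∀ b ∈ U, ∀ r : ℝ, 0 < r → h (r • b) = r * h b)
    {b : X} (hb : b ∈ U) {r : ℝ} (hr : 0 < r) (hd : ContDiffAt ℝ 2 h b) : ContDiffAt ℝ 2 h (r • b) := by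
  have e : r⁻¹ • (r • b) = b := by rw [smul_smul, inv_mul_cancel₀ hr.ne', one_smul]
  refine ContDiffAt.congr_of_eventuallyEq ?_ (hom_ev hU hh hb hr)
  apply contDiffAt_const.mul
  apply ContDiffAt.comp (r • b)
  · rw [e]; exact hd
  · fun_prop

lemma hom_hasFDerivAt (hU : IsOpen U) (hh : ∀ b ∈ U, ∀ r : ℝ, 0 < r → h (r • b) = r * h b)
    {b : X} (hb : b ∈ U) {r : ℝ} (hr : 0 < r) {L : X →L[ℝ] ℝ} (hd : HasFDerivAt h L b) :
    HasFDerivAt h L (r • b) := by
  have e : r⁻¹ • (r • b) = b := by rw [smul_smul, inv_mul_cancel₀ hr.ne', one_smul]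
  refine HasFDerivAt.congr_of_eventuallyEq ?_ (hom_ev hU hh hb hr)
  have h1 : HasFDerivAt (fun y : X => r⁻¹ • y) (r⁻¹ • ContinuousLinearMap.id ℝ X) (r • b) :=
    (hasFDerivAt_id _).const_smul r⁻¹
  have h2 : HasFDerivAt h L (r⁻¹ • (r • b)) := by rw [e]; exact hd
  have h3 := (h2.comp (r • b) h1).const_mul r
  refine h3.congr_fderiv ?_
  ext v
  simp [hr.ne']

lemma hom_fderiv (hU : IsOpen U) (hh : ∀ b ∈ U, ∀ r : ℝ, 0 < r → h (r • b) = r * h b)
    (hD : ∀ b ∈ U, DifferentiableAt ℝ h b)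
    {b : X} (hb : b ∈ U) {r : ℝ} (hr : 0 < r) : fderiv ℝ h (r • b) = fderiv ℝ h b :=
  (hom_hasFDerivAt hU hh hb hr (hD b hb).hasFDerivAt).fderiv

lemma hom_fderiv2 (hU : IsOpen U) (hh : ∀ b ∈ U, ∀ r : ℝ, 0 < r → h (r • b) = r * h b)
    (hC : ∀ b ∈ U, ContDiffAt ℝ 2 h b)
    {b : X} (hb : b ∈ U) {r : ℝ} (hr : 0 < r) :
    fderiv ℝ (fderiv ℝ h) (r • b) = r⁻¹ • fderiv ℝ (fderiv ℝ h) b := by
  have e : r⁻¹ • (r • b) = b := by rw [smul_smul, inv_mul_cancel₀ hr.ne', one_smul]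
  have hD : ∀ b ∈ U, DifferentiableAt ℝ h b := fun b hb => (hC b hb).differentiableAt (by simp)
  have h1 : fderiv ℝ h =ᶠ[𝓝 (r • b)] fun y => fderiv ℝ h (r⁻¹ • y) := by
    have hc : Continuous fun y : X => r⁻¹ • y := by fun_prop
    have h1 : ∀ᶠ y in 𝓝 (r • b), r⁻¹ • y ∈ U := by
      apply hc.continuousAt.eventually_mem
      rw [e]
      exact hU.mem_nhds hb
    filter_upwards [h1] with y hy
    have := hom_fderiv hU hh hD hy hr
    rw [smul_smul, mul_inv_cancel₀ hr.ne', one_smul] at this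
    exact this
  have h2 : HasFDerivAt (fderiv ℝ h) (fderiv ℝ (fderiv ℝ h) b) (r⁻¹ • (r • b)) := by
    rw [e]
    have h3 : ContDiffAt ℝ 1 (fderiv ℝ h) b := (hC b hb).fderiv_right (by norm_num)
    exact (h3.differentiableAt (by simp)).hasFDerivAt
  have h3 : HasFDerivAt (fun y : X => r⁻¹ • y) (r⁻¹ • ContinuousLinearMap.id ℝ X) (r • b) :=
    (hasFDerivAt_id _).const_smul r⁻¹
  have h4 := (h2.comp (r • b) h3).congr_of_eventuallyEq h1
  rw [h4.fderiv]
  ext v w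
  simp

/-- Euler relations -/
lemma hom_euler (hU : IsOpen U) (hh : ∀ b ∈ U, ∀ r : ℝ, 0 < r → h (r • b) = r * h b)
    (hC : ∀ b ∈ U, ContDiffAt ℝ 2 h b)
    {b : X} (hb : b ∈ U) : fderiv ℝ h b b = h b ∧ fderiv ℝ (fderiv ℝ h) b b = 0 := by
  have hD : ∀ b ∈ U, DifferentiableAt ℝ h b := fun b hb => (hC b hb).differentiableAt (by simp)
  have hpos : ∀ᶠ s in 𝓝 (0:ℝ), 0 < 1 + s := by
    have : Continuous fun s : ℝ => 1 + s := by fun_prop
    exact (this.tendsto 0).eventually_const_lt (by norm_num)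
  have hl : HasDerivAt (fun s : ℝ => (1 + s) • b) b 0 := by
    have := ((hasDerivAt_id (0:ℝ)).const_add 1).smul_const b
    simpa using this
  have e1 : (1 + (0:ℝ)) • b = b := by simp
  constructor
  · have h1 : HasFDerivAt h (fderiv ℝ h b) ((1 + (0:ℝ)) • b) := by rw [e1]; exact (hD b hb).hasFDerivAt
    have h2 := h1.comp_hasDerivAt 0 hl
    have h3 : HasDerivAt (fun s : ℝ => (1 + s) * h b) (h b) 0 := by
      have := ((hasDerivAt_id (0:ℝ)).const_add 1).mul_const (h b)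
      simpa using this
    have h4 : (fun s : ℝ => h ((1 + s) • b)) =ᶠ[𝓝 0] fun s => (1 + s) * h b := by
      filter_upwards [hpos] with s hs
      exact hh b hb _ hs
    exact (h2.congr_of_eventuallyEq h4.symm).unique h3
  · have h0 : ContDiffAt ℝ 1 (fderiv ℝ h) b := (hC b hb).fderiv_right (by norm_num)
    have h1 : HasFDerivAt (fderiv ℝ h) (fderiv ℝ (fderiv ℝ h) b) ((1 + (0:ℝ)) • b) := by
      rw [e1]; exact (h0.differentiableAt (by simp)).hasFDerivAt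
    have h2 := h1.comp_hasDerivAt 0 hl
    have h4 : (fun s : ℝ => fderiv ℝ h ((1 + s) • b)) =ᶠ[𝓝 0] fun _ => fderiv ℝ h b := by
      filter_upwards [hpos] with s hs
      exact hom_fderiv hU hh hD hb hs
    exact (h2.congr_of_eventuallyEq h4.symm).unique (hasDerivAt_const 0 _)

end

end Pool.Agent.H804
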