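import Mathlib

set_option autoImplicit false

namespace Pool.Agent.H804

open Filter Topology

/-- A positive semidefinite symmetric form vanishing on a vector has it in its kernel -/
lemma psd_ker {X : Type*} [NormedAddCommGroup X] [NormedSpace ℝ X] {A : X →L[ℝ] X →L[ℝ] ℝ}
    (hs : ∀ v w, A v w = A w v) (h0 : ∀ v, 0 ≤ A v v) {v : X} (hv : A v v = 0) : A v = 0 := by
  ext w
  show A v w = 0
  by_contra hne
  have key : ∀ ε : ℝ, 0 ≤ 2 * ε * A v w + ε ^ 2 * A w w := by
    intro ε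
    have := h0 (v + ε • w)
    simp only [map_add, map_smul, add_apply, smul_apply, smul_eq_mul, hv] at this
    rw [hs w v] at this
    linarith
  have hw : 0 ≤ A w w := h0 w
  have h1 := key (-(A v w) / (A w w + 1))
  have hpos : 0 < A w w + 1 := by linarith
  have h2 : 2 * (-(A v w) / (A w w + 1)) * A v w + (-(A v w) / (A w w + 1)) ^ 2 * A w w =
      -((A v w) ^ 2 * (A w w + 2)) / (A w w + 1) ^ 2 := by
    field_simp
    ring
  rw [h2] at h1
  have h3 : 0 < (A v w) ^ 2 := by positivity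
  have h4 : 0 < (A v w) ^ 2 * (A w w + 2) / (A w w + 1) ^ 2 := by positivity
  rw [neg_div] at h1
  linarith

lemma min_path {X : Type*} [NormedAddCommGroup X] [NormedSpace ℝ X] [FiniteDimensional ℝ X]
    {G : ℝ → X → ℝ} (hcont : ContinuousOn (fun q : ℝ × X => G q.1 q.2) (Set.Icc (0:ℝ) 1 ×ˢ Set.univ))
    (hhom : ∀ s (r : ℝ) v, G s (r • v) = r ^ 2 * G s v) (h0 : ∀ v, 0 ≤ G 0 v)
    (hnd : ∀ s ∈ Set.Icc (0:ℝ) 1, (∀ v, 0 ≤ G s v) → ∀ v, G s v = 0 → v = 0) :
    ∀ s ∈ Set.Icc (0:ℝ) 1, ∀ v, 0 ≤ G s v := by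
  intro s' hs' v'
  by_contra hcon
  push Not at hcon
  have hz : v' ≠ 0 := by
    rintro rfl
    have := hhom s' 0 0
    simp at this
    linarith
  have hcomp0 : IsCompact (Set.Icc (0:ℝ) 1 ×ˢ Metric.sphere (0 : X) 1) :=
    isCompact_Icc.prod (isCompact_sphere 0 1)
  have hcont' := hcont.mono (Set.prod_mono (le_refl (Set.Icc (0:ℝ) 1)) (Set.subset_univ (Metric.sphere (0 : X) 1)))
  have hclosed := hcont'.preimage_isClosed_of_isClosed hcomp0.isClosed (isClosed_Iic (a := (0:ℝ)))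
  have hcomp := hcomp0.of_isClosed_subset hclosed Set.inter_subset_left
  have hunit : ∀ v : X, v ≠ 0 → ‖‖v‖⁻¹ • v‖ = 1 := by
    intro v hv
    rw [norm_smul, norm_inv, norm_norm]; exact inv_mul_cancel₀ (norm_ne_zero_iff.mpr hv)
  have hneg : ∀ s, ∀ v : X, v ≠ 0 → G s v < 0 → G s (‖v‖⁻¹ • v) ≤ 0 := by
    intro s v hv h
    rw [hhom]
    have : 0 < ‖v‖⁻¹ := by have := norm_pos_iff.mpr hv; positivity
    nlinarith [sq_nonneg ‖v‖⁻¹]
  obtain ⟨⟨s0, v0⟩, hmem, hmin⟩ := hcomp.exists_isMinOn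
    ⟨(s', ‖v'‖⁻¹ • v'), ⟨⟨hs', by simpa using hunit v' hz⟩, hneg s' v' hz hcon⟩⟩
    (f := fun q => q.1) continuous_fst.continuousOn
  obtain ⟨⟨hs0, hv0⟩, hle0⟩ := hmem
  simp only at hs0 hv0
  change G s0 v0 ≤ 0 at hle0
  have hv0n : ‖v0‖ = 1 := by simpa using hv0
  have hpos : ∀ v : X, 0 ≤ G s0 v := by
    intro v
    rcases eq_or_lt_of_le hs0.1 with h | h
    · rw [← h]; exact h0 v
    · have hc1 : ContinuousWithinAt (fun s : ℝ => G s v) (Set.Icc 0 1) s0 := by
        have h1 := hcont (s0, v) ⟨hs0, Set.mem_univ _⟩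
        have h2 : ContinuousWithinAt (fun s : ℝ => ((s, v) : ℝ × X)) (Set.Icc 0 1) s0 := by
          have : Continuous (fun s : ℝ => ((s, v) : ℝ × X)) := by fun_prop
          exact this.continuousWithinAt
        exact ContinuousWithinAt.comp (x := s0) (s := Set.Icc (0:ℝ) 1) (t := Set.Icc (0:ℝ) 1 ×ˢ (Set.univ : Set X))
          (g := fun q : ℝ × X => G q.1 q.2) (f := fun s : ℝ => ((s, v) : ℝ × X)) h1 h2
          (fun s hs => ⟨hs, Set.mem_univ _⟩)
      have hc2 : Tendsto (fun s : ℝ => G s v) (𝓝[<] s0) (𝓝 (G s0 v)) := by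
        apply hc1.tendsto.mono_left
        apply nhdsWithin_le_iff.mpr
        filter_upwards [Ioo_mem_nhdsLT h] with s hs
        exact ⟨hs.1.le, hs.2.le.trans hs0.2⟩
      apply ge_of_tendsto hc2
      filter_upwards [Ioo_mem_nhdsLT h] with s hs
      by_contra hcon
      push Not at hcon
      have hz : v ≠ 0 := by
        rintro rfl
        have := hhom s 0 0
        simp at this
        linarith
      have hs1 : s ∈ Set.Icc (0:ℝ) 1 := ⟨hs.1.le, hs.2.le.trans hs0.2⟩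
      have h5 := hmin (a := (s, ‖v‖⁻¹ • v)) ⟨⟨hs1, by simpa using hunit v hz⟩, hneg s v hz hcon⟩
      simp only [Set.mem_ofPred_eq] at h5
      linarith [hs.2]
  have h00 : G s0 v0 = 0 := le_antisymm hle0 (hpos v0)
  have h02 := hnd s0 hs0 hpos v0 h00
  rw [h02] at hv0n
  simp at hv0n

lemma path_psd {X : Type*} [NormedAddCommGroup X] [NormedSpace ℝ X] [FiniteDimensional ℝ X]
    {U : Set X} {b0 b1 : X} (hpath : ∀ s ∈ Set.Icc (0:ℝ) 1, b0 + s • (b1 - b0) ∈ U)
    (e3 : X →L[ℝ] ℝ)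
    {H : X → (X →L[ℝ] X →L[ℝ] ℝ)} (hc : ∀ b ∈ U, ContinuousAt H b)
    (hsym : ∀ b ∈ U, ∀ v w, H b v w = H b w v)
    (hker : ∀ b ∈ U, H b b = 0) (h3 : ∀ b ∈ U, 0 < e3 b)
    (hnd : ∀ b ∈ U, ∀ γ, H b γ = 0 → ∃ r : ℝ, γ = r • b)
    (h0 : ∀ γ, 0 ≤ H b0 γ γ) : ∀ γ, 0 ≤ H b1 γ γ := by
  obtain ⟨p, hp⟩ : ∃ p : ℝ → X, p = fun s => b0 + s • (b1 - b0) := ⟨_, rfl⟩
  have hpU : ∀ s ∈ Set.Icc (0:ℝ) 1, p s ∈ U := by rw [hp]; exact hpath
  have hpc : Continuous p := by rw [hp]; fun_prop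
  have hp0 : p 0 = b0 := by simp [hp]
  have hp1 : p 1 = b1 := by simp [hp]
  have hnd' : ∀ b ∈ U, (∀ v, 0 ≤ H b v v + e3 v ^ 2) → ∀ v, H b v v + e3 v ^ 2 = 0 → v = 0 := by
    intro b hb hpos v hv
    have hAv : ∀ v w, (H b + e3.smulRight e3) v w = H b v w + e3 v * e3 w := by
      intro v w; simp
    have k1 : (H b + e3.smulRight e3) v = 0 := by
      apply psd_ker
      · intro v w; rw [hAv, hAv, hsym b hb]; ring
      · intro v; rw [hAv]; have := hpos v; linarith
      · rw [hAv]; linarith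
    have k2 : ∀ w, H b v w + e3 v * e3 w = 0 := by
      intro w; rw [← hAv, k1]; rfl
    have h1 := k2 b
    rw [hsym b hb, hker b hb] at h1
    have h2 : e3 v = 0 := by
      have : e3 v * e3 b = 0 := by simpa using h1
      rcases mul_eq_zero.mp this with h | h
      · exact h
      · exact absurd h (h3 b hb).ne'
    have h4 : H b v = 0 := by
      ext w
      have h5 := k2 w
      rw [h2] at h5
      simpa using h5
    obtain ⟨r, hr⟩ := hnd b hb v h4
    have h6 : r = 0 := by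
      have h7 : e3 v = r * e3 b := by rw [hr]; simp
      rw [h2] at h7
      rcases mul_eq_zero.mp h7.symm with h | h
      · exact h
      · exact absurd h (h3 b hb).ne'
    rw [hr, h6, zero_smul]
  have hcont : ContinuousOn (fun q : ℝ × X => H (p q.1) q.2 q.2 + e3 q.2 ^ 2) (Set.Icc (0:ℝ) 1 ×ˢ Set.univ) := by
    intro q hq
    have h1 : ContinuousAt (fun q : ℝ × X => H (p q.1)) q := by
      have := hc (p q.1) (hpU q.1 hq.1)
      exact ContinuousAt.comp (f := fun q : ℝ × X => p q.1) (g := H) this (hpc.comp continuous_fst).continuousAt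
    have h2 := (h1.clm_apply (continuousAt_snd (p := q))).clm_apply (continuousAt_snd (p := q))
    have h3 : Continuous (fun q : ℝ × X => e3 q.2 ^ 2) := by fun_prop
    exact (h2.add h3.continuousAt).continuousWithinAt
  have key := min_path (G := fun s v => H (p s) v v + e3 v ^ 2) hcont
    (by
      intro s r v
      simp only [map_smul, smul_apply, smul_eq_mul]
      ring)
    (by
      intro v
      simp only [hp0]
      have := h0 v
      positivity)
    (fun s hs => hnd' (p s) (hpU s hs)) 1 (by constructor <;> norm_num)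
  simp only [hp1] at key
  intro γ
  have hb1 : b1 ∈ U := by rw [← hp1]; exact hpU 1 (by constructor <;> norm_num)
  have hb13 := h3 b1 hb1
  have hv3 : e3 (γ - (e3 γ / e3 b1) • b1) = 0 := by
    simp only [map_sub, map_smul, smul_eq_mul]; field_simp; ring
  have e : H b1 γ γ = H b1 (γ - (e3 γ / e3 b1) • b1) (γ - (e3 γ / e3 b1) • b1) := by
    simp only [map_sub, map_smul, sub_apply, smul_apply, hker b1 hb1]
    rw [hsym b1 hb1 γ b1, hker b1 hb1]
    simp
  rw [e]
  have := key (γ - (e3 γ / e3 b1) • b1)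
  rw [hv3] at this
  linarith

end Pool.Agent.H804
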