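import Pool.Agent.H804.Upper

set_option autoImplicit false

namespace Pool.Agent.H804

open Filter Topology Matrix

lemma Flat_smul {b : Bs} (hb : b ∈ Flat) {r : ℝ} (hr : 0 < r) : r • b ∈ Flat := by
  obtain ⟨h1, h2, h3, h4⟩ := hb
  refine ⟨?_, ?_, ?_, ?_⟩
  · simp only [Pi.smul_apply, smul_eq_mul, abs_mul, abs_of_pos hr]
    nlinarith
  · simp only [Pi.smul_apply, smul_eq_mul]
    have : r * b 3 + 2 * (r * b 1) = r * (b 3 + 2 * b 1) := by ring
    rw [this]; positivity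
  · simp only [Pi.smul_apply, smul_eq_mul, abs_mul, abs_of_pos hr]
    have e1 : √3 * (r * |b 2|) = r * (√3 * |b 2|) := by ring
    have e2 : r * b 3 + r * b 1 = r * (b 3 + b 1) := by ring
    rw [e1, e2]
    exact mul_lt_mul_of_pos_left h3 hr
  · rw [Bb_smul_left, Bb_smul_right]
    exact mul_neg_of_pos_of_neg hr (mul_neg_of_pos_of_neg hr h4)

lemma Qf_smul {b : Bs} {r : ℝ} (hr : 0 < r) : Qf (r • b) = r * Qf b := by
  unfold Qf
  simp only [Pi.smul_apply, smul_eq_mul]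
  rcases eq_or_ne (b 3) 0 with h | h
  · rw [h]; simp
  · field_simp

/-- the closed ball around the centre of the flat region -/
def Kc : Set Bs := {b | b 3 = 5 ∧ b 0 ^ 2 + (b 1 + 2) ^ 2 + b 2 ^ 2 ≤ 1 / 16}

lemma Kc_Flat : Kc ⊆ Flat := by
  rintro b ⟨h3, h⟩
  have b0 : |b 0| ≤ 1 / 4 := by
    apply abs_le_of_sq_le_sq _ (by norm_num)
    linarith [sq_nonneg (b 1 + 2), sq_nonneg (b 2)]
  have b1 : |b 1 + 2| ≤ 1 / 4 := by
    apply abs_le_of_sq_le_sq _ (by norm_num)
    linarith [sq_nonneg (b 0), sq_nonneg (b 2)]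
  have b2 : |b 2| ≤ 1 / 4 := by
    apply abs_le_of_sq_le_sq _ (by norm_num)
    linarith [sq_nonneg (b 1 + 2), sq_nonneg (b 0)]
  have b1' := abs_le.mp b1
  have hs3 := sqrt3_lt
  have hs0 := s3pos
  refine ⟨?_, ?_, ?_, ?_⟩
  · linarith [b1'.2]
  · rw [h3]; linarith [b1'.1]
  · rw [h3]
    have : √3 * |b 2| ≤ 1.7321 * (1 / 4) := by
      apply mul_le_mul hs3.le b2 (abs_nonneg _) (by norm_num)
    linarith [b1'.1]
  · unfold Bb
    rw [h3]
    linarith [b1'.1, b1'.2, sq_nonneg (b 0), sq_nonneg (b 2)]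

lemma isCompact_Kc : IsCompact Kc := by
  have hc : ∀ i : Fin 4, Continuous fun b : Bs => b i := fun i => continuous_apply i
  have hcl : IsClosed Kc := by
    apply IsClosed.inter
    · exact isClosed_eq (hc 3) continuous_const
    · exact isClosed_le ((((hc 0).pow 2).add (((hc 1).add continuous_const).pow 2)).add ((hc 2).pow 2)) continuous_const
  apply (isCompact_univ_pi (fun _ : Fin 4 => isCompact_Icc (a := (-5:ℝ)) (b := 5))).of_isClosed_subset hcl
  rintro b ⟨h3, h⟩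
  intro i _
  have b0 : |b 0| ≤ 1 / 4 := by
    apply abs_le_of_sq_le_sq _ (by norm_num)
    linarith [sq_nonneg (b 1 + 2), sq_nonneg (b 2)]
  have b1 : |b 1 + 2| ≤ 1 / 4 := by
    apply abs_le_of_sq_le_sq _ (by norm_num)
    linarith [sq_nonneg (b 0), sq_nonneg (b 2)]
  have b2 : |b 2| ≤ 1 / 4 := by
    apply abs_le_of_sq_le_sq _ (by norm_num)
    linarith [sq_nonneg (b 1 + 2), sq_nonneg (b 0)]
  rw [abs_le] at b0 b1 b2
  fin_cases i <;> simp only [Fin.zero_eta, Fin.mk_one, Fin.reduceFinMk, Set.mem_Icc] <;> constructor <;> linarith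

theorem exists_touch_flat {h : Bs → ℝ} (hhom : ∀ b ∈ Flat, ∀ r : ℝ, 0 < r → h (r • b) = r * h b)
    (hcont : ∀ b ∈ Kc, ContinuousAt h b) (hlt : ∀ b ∈ Kc, h b < -(b 1)) (hyc : 2 - 1 / 10000 ≤ h yc) :
    ∃ b ∈ Kc, ∃ ν : ℝ, b 0 ^ 2 + (b 1 + 2 / 5 * b 3) ^ 2 + b 2 ^ 2 ≤ b 3 ^ 2 / 400 ∧ 0 ≤ h b ∧
      ∀ r : ℝ, 0 < r → h (r • b) = -((r • b) 1) + 1 / 100 * Qf (r • b) - ν * (r • b) 3 ∧
        ∀ᶠ b' in 𝓝 (r • b), h b' ≤ -(b' 1) + 1 / 100 * Qf b' - ν * b' 3 := by
  have hc : ∀ i : Fin 4, Continuous fun b : Bs => b i := fun i => continuous_apply i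
  set Θ : Bs → ℝ := fun b => -(b 1) - h b + 1 / 100 * Qf b with hΘ
  have hycK : yc ∈ Kc := by
    refine ⟨by simp [yc], by simp [yc]⟩
  have hΘc : ContinuousOn Θ Kc := by
    intro b hb
    apply ContinuousAt.continuousWithinAt
    have hQ : ContinuousAt Qf b := by
      unfold Qf
      apply ContinuousAt.div
      · have : Continuous fun b : Bs => b 0 ^ 2 + (b 1 + 2 / 5 * b 3) ^ 2 + b 2 ^ 2 := by fun_prop
        exact this.continuousAt
      · exact (hc 3).continuousAt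
      · rw [hb.1]; norm_num
    exact (((hc 1).continuousAt.neg).sub (hcont b hb)).add (continuousAt_const.mul hQ)
  obtain ⟨b, hbK, hmin⟩ := isCompact_Kc.exists_isMinOn ⟨yc, hycK⟩ hΘc
  have hbF := Kc_Flat hbK
  obtain ⟨hb3, hbr⟩ := id hbK
  have hmin' : ∀ c ∈ Kc, Θ b ≤ Θ c := fun c hc => hmin hc
  have h1 : Θ yc ≤ 1 / 10000 := by
    have : Qf yc = 0 := by simp [Qf, yc]
    simp only [hΘ, this]
    have : yc 1 = -2 := by simp [yc]
    rw [this]; linarith
  have h2 : Θ b ≤ 1 / 10000 := (hmin' yc hycK).trans h1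
  have hQ0 : 0 ≤ Qf b := by unfold Qf; rw [hb3]; positivity
  have hint : b 0 ^ 2 + (b 1 + 2) ^ 2 + b 2 ^ 2 < 1 / 16 := by
    by_contra hcon
    push Not at hcon
    have h5 : 1 / 80 ≤ Qf b := by
      unfold Qf
      rw [hb3, le_div_iff₀ (by norm_num)]
      have : b 1 + 2 / 5 * 5 = b 1 + 2 := by ring
      rw [this]
      linarith
    have h6 := hlt b hbK
    simp only [hΘ] at h2
    linarith
  have hb1 : b 1 ≤ -(7 / 4) := by
    have : |b 1 + 2| ≤ 1 / 4 := by
      apply abs_le_of_sq_le_sq _ (by norm_num)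
      linarith [sq_nonneg (b 0), sq_nonneg (b 2)]
    linarith [(abs_le.mp this).2]
  refine ⟨b, hbK, Θ b / 5, ?_, ?_, ?_⟩
  · rw [hb3]
    have : b 1 + 2 / 5 * 5 = b 1 + 2 := by ring
    rw [this]
    linarith
  · simp only [hΘ] at h2
    linarith
  · intro r hr
    have e1 : (r • b) 3 = r * 5 := by simp [hb3]
    constructor
    · rw [hhom b hbF r hr, Qf_smul hr, e1]
      simp only [Pi.smul_apply, smul_eq_mul, hΘ]
      ring
    · -- nearby points rescale into the ball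
      have hne : (r • b) 3 ≠ 0 := by rw [e1]; positivity
      have hcS : ContinuousAt (fun b' : Bs => (5 / b' 3) • b') (r • b) := by
        have q1 : ContinuousAt (fun b' : Bs => 5 / b' 3) (r • b) := continuousAt_const.div (hc 3).continuousAt hne
        exact q1.smul (continuousAt_id (x := r • b))
      have e2 : (5 / (r • b) 3) • (r • b) = b := by
        rw [e1, smul_smul]
        have : 5 / (r * 5) * r = 1 := by field_simp
        rw [this, one_smul]
      have hop : IsOpen {c : Bs | c 0 ^ 2 + (c 1 + 2) ^ 2 + c 2 ^ 2 < 1 / 16} :=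
        isOpen_lt ((((hc 0).pow 2).add (((hc 1).add continuous_const).pow 2)).add ((hc 2).pow 2)) continuous_const
      have e3 : ∀ᶠ b' in 𝓝 (r • b), (5 / b' 3) • b' ∈ {c : Bs | c 0 ^ 2 + (c 1 + 2) ^ 2 + c 2 ^ 2 < 1 / 16} := by
        apply hcS.eventually_mem
        rw [e2]
        exact hop.mem_nhds hint
      have e4 : ∀ᶠ b' in 𝓝 (r • b), 0 < b' 3 := by
        apply ((hc 3).tendsto (r • b)).eventually_const_lt
        rw [e1]; positivity
      filter_upwards [e3, e4] with b' k1 k2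
      have k3 : (5 / b' 3) • b' ∈ Kc := by
        refine ⟨?_, k1.le⟩
        simp only [Pi.smul_apply, smul_eq_mul]
        field_simp
      have k4 := hmin' _ k3
      have k5 : 0 < 5 / b' 3 := by positivity
      have k6 : b' = (5 / b' 3)⁻¹ • ((5 / b' 3) • b') := by
        rw [smul_smul, inv_mul_cancel₀ k5.ne', one_smul]
      have k7 := hhom _ (Kc_Flat k3) (5 / b' 3)⁻¹ (by positivity)
      rw [← k6] at k7
      have k8 : Qf ((5 / b' 3) • b') = 5 / b' 3 * Qf b' := Qf_smul k5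
      have k9 : h ((5 / b' 3) • b') = (5 / b' 3) * h b' := by
        rw [k7, ← mul_assoc, mul_inv_cancel₀ k5.ne', one_mul]
      have k10 : Θ ((5 / b' 3) • b') = (5 / b' 3) * (-(b' 1) - h b' + 1 / 100 * Qf b') := by
        simp only [hΘ, k8, k9, Pi.smul_apply, smul_eq_mul]
        ring
      rw [k10] at k4
      have k11 : Θ b * b' 3 ≤ 5 * (-(b' 1) - h b' + 1 / 100 * Qf b') := by
        have := mul_le_mul_of_nonneg_right k4 k2.le
        calc Θ b * b' 3 ≤ 5 / b' 3 * (-(b' 1) - h b' + 1 / 100 * Qf b') * b' 3 := this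
          _ = 5 * (-(b' 1) - h b' + 1 / 100 * Qf b') := by field_simp
      linarith

end Pool.Agent.H804
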