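import Pool.Agent.H804.Barrier

set_option autoImplicit false

namespace Pool.Agent.H804

open Filter Topology

/-- closed tube -/
def CT : Set Bs := {b | 0 < b 3 ∧ 0 < Tf b ∧ 729 * Pf b ≤ Tf b}

lemma CT_Tube : CT ⊆ Tube := by
  rintro b ⟨h1, h2, h3⟩
  refine ⟨h1, h2, ?_⟩
  rcases (Pf_nonneg b).eq_or_lt with h | h
  · rw [← h]; linarith
  · linarith

lemma p4_smul (r b0 b1 x y : ℝ) : r • p4 b0 b1 x y = p4 (r * b0) (r * b1) (r * x) (r * y) := by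
  ext i; fin_cases i <;> simp [p4] <;> ring

lemma continuousAt_Wf {b : Bs} (hT : 0 < Tf b) : ContinuousAt Wf b := by
  unfold Wf
  have h1 : ContinuousAt (fun b => Pf b ^ (2 / 3 : ℝ)) b :=
    ContinuousAt.comp (f := Pf) (g := fun x : ℝ => x ^ (2 / 3 : ℝ)) (Real.continuousAt_rpow_const _ _ (Or.inr (by norm_num))) continuous_Pf.continuousAt
  have h2 : ContinuousAt (fun b => Tf b ^ (-(1 / 6) : ℝ)) b :=
    ContinuousAt.comp (f := Tf) (g := fun x : ℝ => x ^ (-(1 / 6) : ℝ)) (Real.continuousAt_rpow_const _ _ (Or.inl hT.ne')) continuous_Tf.continuousAt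
  exact (continuousAt_const.mul h1).mul h2

lemma Wf_congr {b c : Bs} (h1 : Pf b = Pf c) (h2 : Tf b = Tf c) : Wf b = Wf c := by
  unfold Wf; rw [h1, h2]

/-- compact fundamental domain for the cyclic group on the tube of level one -/
noncomputable def F0 (Λ : ℝ) : Set Bs :=
  (fun q : ℝ × ℝ × ℝ => p4 q.1 q.2.1 q.2.2 (q.2.2)⁻¹) '' {q | 729 * (q.1 ^ 2 + 3 * q.2.1 ^ 2) ≤ 1 ∧ 1 ≤ q.2.2 ∧ q.2.2 ≤ Λ}

lemma isCompact_F0 (Λ : ℝ) : IsCompact (F0 Λ) := by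
  apply IsCompact.image_of_continuousOn
  · have hcl : IsClosed {q : ℝ × ℝ × ℝ | 729 * (q.1 ^ 2 + 3 * q.2.1 ^ 2) ≤ 1 ∧ 1 ≤ q.2.2 ∧ q.2.2 ≤ Λ} := by
      have c1 : Continuous fun q : ℝ × ℝ × ℝ => 729 * (q.1 ^ 2 + 3 * q.2.1 ^ 2) := by fun_prop
      have c2 : Continuous fun q : ℝ × ℝ × ℝ => q.2.2 := by fun_prop
      exact (isClosed_le c1 continuous_const).inter ((isClosed_le continuous_const c2).inter (isClosed_le c2 continuous_const))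
    apply (isCompact_Icc (a := (-1:ℝ)) (b := 1)).prod ((isCompact_Icc (a := (-1:ℝ)) (b := 1)).prod (isCompact_Icc (a := (1:ℝ)) (b := Λ))) |>.of_isClosed_subset hcl
    rintro ⟨q0, q1, ξ⟩ ⟨h1, h2, h3⟩
    simp only at h1 h2 h3
    have a0 : |q0| ≤ 1 := by
      apply abs_le_of_sq_le_sq _ (by norm_num)
      linarith [sq_nonneg q1, sq_nonneg q0]
    have a1 : |q1| ≤ 1 := by
      apply abs_le_of_sq_le_sq _ (by norm_num)
      linarith [sq_nonneg q1, sq_nonneg q0]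
    exact ⟨abs_le.mp a0, abs_le.mp a1, h2, h3⟩
  · intro q hq
    have hne : q.2.2 ≠ 0 := by have := hq.2.1; positivity
    apply ContinuousAt.continuousWithinAt
    have c1 : ContinuousAt (fun q : ℝ × ℝ × ℝ => q.1) q := continuousAt_fst
    have c2 : ContinuousAt (fun q : ℝ × ℝ × ℝ => q.2.1) q := by
      have : Continuous fun q : ℝ × ℝ × ℝ => q.2.1 := by fun_prop
      exact this.continuousAt
    have c3 : ContinuousAt (fun q : ℝ × ℝ × ℝ => q.2.2) q := by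
      have : Continuous fun q : ℝ × ℝ × ℝ => q.2.2 := by fun_prop
      exact this.continuousAt
    have c4 : ContinuousAt (fun q : ℝ × ℝ × ℝ => (q.2.2)⁻¹) q := c3.inv₀ hne
    apply continuousAt_pi.mpr
    intro i
    fin_cases i
    · exact c1
    · exact c2
    · exact (c3.sub c4).div_const _
    · exact (c3.add c4).div_const _

lemma F0_spec {Λ : ℝ} {b : Bs} (hb : b ∈ F0 Λ) : b ∈ CT ∧ Tf b = 1 := by
  obtain ⟨⟨q0, q1, ξ⟩, ⟨h1, h2, h3⟩, rfl⟩ := hb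
  simp only at h1 h2 h3 ⊢
  have hξ : 0 < ξ := by linarith
  have hT : Tf (p4 q0 q1 ξ ξ⁻¹) = 1 := by rw [p4_T]; field_simp
  refine ⟨⟨?_, by rw [hT]; norm_num, by rw [hT, p4_P]; exact h1⟩, hT⟩
  have : (p4 q0 q1 ξ ξ⁻¹) 3 = (ξ + ξ⁻¹) / 2 := by simp [p4]
  rw [this]; positivity

theorem tube_global {h : Bs → ℝ} {Λ μ : ℝ} (hΛ : 1 < Λ)
    (hhom : ∀ b ∈ CT, ∀ r : ℝ, 0 < r → h (r • b) = r * h b)
    (hinv : ∀ b0 b1 x y : ℝ, p4 b0 b1 x y ∈ CT → ∀ n : ℤ, h (p4 b0 b1 (Λ ^ n * x) (Λ ^ (-n) * y)) = h (p4 b0 b1 x y))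
    (hμ : ∀ b ∈ F0 Λ, Wf b + μ ≤ h b) {b : Bs} (hb : b ∈ CT) :
    Wf b + μ * Real.sqrt (Tf b) ≤ h b := by
  obtain ⟨h3, hT, hP⟩ := id hb
  have hs3 := s3pos
  have hxy : (b 3 + √3 * b 2) * (b 3 - √3 * b 2) = Tf b := by
    unfold Tf; linear_combination (-(b 2)^2) * s33
  have hx : 0 < b 3 + √3 * b 2 := by
    by_contra hcon
    push Not at hcon
    have : 0 < b 3 - √3 * b 2 := by linarith
    nlinarith
  have hy : 0 < b 3 - √3 * b 2 := by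
    by_contra hcon
    push Not at hcon
    nlinarith
  set x := b 3 + √3 * b 2 with hxd
  set y := b 3 - √3 * b 2 with hyd
  have hbe : b = p4 (b 0) (b 1) x y := eq_p4 b
  set τ := Real.sqrt (Tf b) with hτ
  have hτ0 : 0 < τ := Real.sqrt_pos.mpr hT
  have hτ2 : τ * τ = Tf b := Real.mul_self_sqrt hT.le
  set r := τ⁻¹ with hr
  have hr0 : 0 < r := by positivity
  set ξ := r * x with hξ
  have hξ0 : 0 < ξ := by positivity
  have hξy : r * y = ξ⁻¹ := by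
    apply eq_inv_of_mul_eq_one_left
    rw [hξ]
    calc r * y * (r * x) = r * r * (x * y) := by ring
      _ = (τ * τ)⁻¹ * (τ * τ) := by rw [hxy, ← hτ2, hr, mul_inv]
      _ = 1 := inv_mul_cancel₀ (by positivity)
  have hrb : r • b = p4 (r * b 0) (r * b 1) ξ ξ⁻¹ := by
    conv_lhs => rw [hbe]
    rw [p4_smul, ← hξy]
  have hPr : Pf (r • b) = r ^ 2 * Pf b := Pf_smul r b
  have hTr : Tf (r • b) = 1 := by
    rw [hrb, p4_T]; field_simp
  have hTr2 : r ^ 2 * Tf b = 1 := by rw [← Tf_smul, hTr]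
  have hrT : r • b ∈ CT := by
    refine ⟨by simp only [Pi.smul_apply, smul_eq_mul]; positivity, by rw [hTr]; norm_num, ?_⟩
    rw [hPr, hTr, ← hTr2]
    have h4 : 0 < r ^ 2 := by positivity
    nlinarith
  obtain ⟨m, hm1, hm2⟩ := exists_mem_Ico_zpow (x := ξ) (y := Λ) hξ0 hΛ
  have hΛ0 : 0 < Λ := by linarith
  have hΛm : 0 < Λ ^ m := by positivity
  have hk := hinv (r * b 0) (r * b 1) ξ ξ⁻¹ (by rw [← hrb]; exact hrT) (-m)
  have e1 : Λ ^ (-(-m)) * ξ⁻¹ = (Λ ^ (-m) * ξ)⁻¹ := by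
    have h9 := hξ0.ne'
    rw [zpow_neg, zpow_neg]
    field_simp
  rw [e1, ← hrb] at hk
  have hmem : p4 (r * b 0) (r * b 1) (Λ ^ (-m) * ξ) (Λ ^ (-m) * ξ)⁻¹ ∈ F0 Λ := by
    refine ⟨(r * b 0, r * b 1, Λ ^ (-m) * ξ), ⟨?_, ?_, ?_⟩, rfl⟩
    · show 729 * ((r * b 0) ^ 2 + 3 * (r * b 1) ^ 2) ≤ 1
      have : 729 * ((r * b 0) ^ 2 + 3 * (r * b 1) ^ 2) = r ^ 2 * (729 * Pf b) := by unfold Pf; ring
      rw [this, ← hTr2]
      exact mul_le_mul_of_nonneg_left hP (by positivity)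
    · show 1 ≤ Λ ^ (-m) * ξ
      rw [zpow_neg, inv_mul_eq_div, le_div_iff₀ hΛm, one_mul]
      exact hm1
    · show Λ ^ (-m) * ξ ≤ Λ
      rw [zpow_neg, inv_mul_eq_div, div_le_iff₀ hΛm]
      rw [zpow_add_one₀ hΛ0.ne'] at hm2
      linarith
  have h5 := hμ _ hmem
  rw [hk, hhom b hb r hr0] at h5
  have h6 : Wf (p4 (r * b 0) (r * b 1) (Λ ^ (-m) * ξ) (Λ ^ (-m) * ξ)⁻¹) = r * Wf b := by
    rw [← Wf_smul hr0 hT]
    apply Wf_congr
    · rw [hrb, p4_P, p4_P]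
    · rw [hTr, p4_T]
      apply mul_inv_cancel₀
      positivity
  rw [h6] at h5
  have h7 := mul_le_mul_of_nonneg_left h5 hτ0.le
  have e2 : τ * (r * Wf b + μ) = Wf b + μ * τ := by
    rw [hr]; field_simp
  have e3 : τ * (r * h b) = h b := by
    rw [hr]; field_simp
  rw [e2, e3] at h7
  exact h7

theorem exists_touch_tube {h : Bs → ℝ} {Λ : ℝ} (hΛ : 1 < Λ)
    (hhom : ∀ b ∈ CT, ∀ r : ℝ, 0 < r → h (r • b) = r * h b)
    (hcont : ∀ b ∈ F0 Λ, ContinuousAt h b)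
    (hinv : ∀ b0 b1 x y : ℝ, p4 b0 b1 x y ∈ CT → ∀ n : ℤ, h (p4 b0 b1 (Λ ^ n * x) (Λ ^ (-n) * y)) = h (p4 b0 b1 x y))
    (haxis : ∀ b ∈ F0 Λ, Pf b = 0 → h b < 0)
    (hlat : ∀ b ∈ F0 Λ, 729 * Pf b = 1 → Wf b ≤ h b) :
    ∃ b ∈ F0 Λ, ∃ μ : ℝ, μ ≤ 0 ∧ 729 * Pf b ≤ Tf b ∧
      ∀ r : ℝ, 0 < r → h (r • b) = Wf (r • b) + μ * Real.sqrt (Tf (r • b)) ∧
        ∀ᶠ b' in 𝓝 (r • b), Wf b' + μ * Real.sqrt (Tf b') ≤ h b' := by
  have hb1 : p4 0 0 1 1⁻¹ ∈ F0 Λ := ⟨(0, 0, 1), ⟨by norm_num, le_refl _, hΛ.le⟩, rfl⟩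
  have hcF : ContinuousOn (fun b => h b - Wf b) (F0 Λ) := by
    intro b hb
    obtain ⟨h1, h2⟩ := F0_spec hb
    exact ((hcont b hb).sub (continuousAt_Wf (by rw [h2]; norm_num))).continuousWithinAt
  obtain ⟨b, hb, hmin⟩ := (isCompact_F0 Λ).exists_isMinOn ⟨_, hb1⟩ hcF
  obtain ⟨hbC, hbT⟩ := F0_spec hb
  have hmin' : ∀ c ∈ F0 Λ, h b - Wf b ≤ h c - Wf c := fun c hc => hmin hc
  set μ := h b - Wf b with hμ
  have hμ0 : μ < 0 := by
    have h1 := hmin' _ hb1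
    have h2 : Pf (p4 0 0 1 1⁻¹) = 0 := by rw [p4_P]; ring
    have h3 := haxis _ hb1 h2
    rw [Wf_zero h2] at h1
    linarith
  have hP : 729 * Pf b < Tf b := by
    rcases hbC.2.2.lt_or_eq with h1 | h1
    · exact h1
    · exfalso
      rw [hbT] at h1
      have := hlat b hb h1
      linarith
  refine ⟨b, hb, μ, hμ0.le, hP.le, ?_⟩
  intro r hr
  have hrC : (r • b) 3 = r * b 3 := by simp
  constructor
  · rw [hhom b hbC r hr, Wf_smul hr (by rw [hbT]; norm_num), Tf_smul, hbT, mul_one, Real.sqrt_sq hr.le, hμ]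
    ring
  · have hop : IsOpen {c : Bs | 0 < c 3 ∧ 0 < Tf c ∧ 729 * Pf c < Tf c} :=
      (isOpen_lt continuous_const (continuous_apply 3)).inter ((isOpen_lt continuous_const continuous_Tf).inter
        (isOpen_lt (continuous_Pf.const_mul 729) continuous_Tf))
    have hmem : r • b ∈ {c : Bs | 0 < c 3 ∧ 0 < Tf c ∧ 729 * Pf c < Tf c} := by
      have hb3 := hbC.1
      have hr2 : 0 < r ^ 2 := by positivity
      refine ⟨by rw [hrC]; positivity, by rw [Tf_smul, hbT]; positivity, ?_⟩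
      rw [Tf_smul, Pf_smul]
      nlinarith
    filter_upwards [hop.mem_nhds hmem] with b' hb'
    exact tube_global hΛ hhom hinv (fun c hc => by have := hmin' c hc; linarith) ⟨hb'.1, hb'.2.1, hb'.2.2.le⟩

end Pool.Agent.H804
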