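import Pool.Agent.H804.CauchyA

set_option autoImplicit false

namespace Pool.Agent.H804

open Filter Topology

lemma vt_p4 (b0 b1 x y s : ℝ) : vt (p4 b0 b1 x y) s =
    (x / (2 * √3)) • lp + (y / (2 * √3)) • lm + ![b0, b1, 0, 0, s] := by
  have h3 := s3pos
  ext i; fin_cases i <;> simp [vt, p4, lp, lm]
  · field_simp
    ring
  · field_simp

lemma rho_tau_rest (b0 b1 s : ℝ) : rho tau ![b0, b1, 0, 0, s] = ![b0, b1, 0, 0, s] := by
  rw [tau, rho_mul_apply, rho_simple, rho_simple, sg4, sg3]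
  ext i; fin_cases i <;> simp

lemma rho_tau_p4 (b0 b1 x y s : ℝ) : rho tau (vt (p4 b0 b1 x y) s) = vt (p4 b0 b1 (lam * x) (lam⁻¹ * y)) s := by
  rw [vt_p4, vt_p4, map_add, map_add, map_smul, map_smul, tau_lp, tau_lm, rho_tau_rest, smul_smul, smul_smul]
  congr 3 <;> ring

lemma rho_tau_inv_p4 (b0 b1 x y s : ℝ) : rho tau⁻¹ (vt (p4 b0 b1 x y) s) = vt (p4 b0 b1 (lam⁻¹ * x) (lam * y)) s := by
  have h0 : lam ≠ 0 := by linarith [one_lt_lam]
  have h := rho_tau_p4 b0 b1 (lam⁻¹ * x) (lam * y) s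
  have e : vt (p4 b0 b1 x y) s = rho tau (vt (p4 b0 b1 (lam⁻¹ * x) (lam * y)) s) := by
    rw [h]; congr 2 <;> field_simp
  rw [e, rho_inv_apply]

lemma rho_tau_zpow (n : ℤ) (b0 b1 x y s : ℝ) :
    rho (tau ^ n) (vt (p4 b0 b1 x y) s) = vt (p4 b0 b1 (lam ^ n * x) (lam ^ (-n) * y)) s := by
  have h0 : lam ≠ 0 := by linarith [one_lt_lam]
  induction n with
  | zero => simp
  | succ n ih =>
    have e : tau ^ ((n:ℤ) + 1) = tau * tau ^ (n:ℤ) := by rw [add_comm, zpow_one_add]
    rw [e, rho_mul_apply, ih, rho_tau_p4]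
    congr 2
    · rw [zpow_add_one₀ h0]; ring
    · rw [neg_add, zpow_add₀ h0, zpow_neg_one]; ring
  | pred n ih =>
    have e : tau ^ (-(n:ℤ) - 1) = tau⁻¹ * tau ^ (-(n:ℤ)) := by
      rw [sub_eq_add_neg, add_comm, zpow_add, zpow_neg_one]
    rw [e, rho_mul_apply, ih, rho_tau_inv_p4]
    congr 2
    · rw [zpow_sub_one₀ h0]; ring
    · rw [neg_sub, sub_neg_eq_add, add_comm, zpow_add_one₀ h0]; ring_nf

lemma OmC_rho_iff {z : V} (w : W) : rho w z ∈ OmC ↔ z ∈ OmC := by
  constructor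
  · intro h
    have := OmC_rho h w⁻¹
    rwa [rho_inv_apply] at this
  · intro h; exact OmC_rho h w

/-- points of the domain below the axis -/
lemma low_axis {s t u : ℝ} (ht : 0 < t) (hs : 20 * |s| ≤ 11 * t) (hut : 3 * u < t) :
    ![0, 0, s, t, -u] ∈ OmC := by
  have h1 := le_abs_self s
  have h2 := neg_abs_le s
  rcases lt_or_ge t (3 * s) with h3 | h3
  · rw [← OmC_rho_iff (cs.simple 3), rho_simple, sg3]
    apply OmC_of_Good
    refine ⟨?_, ?_, ?_⟩
    · rw [Dom_iff]
      simp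
      refine ⟨?_, ?_, ?_⟩ <;> linarith
    · simp; linarith
    · simp; linarith
  rcases lt_or_ge t (-(3 * s)) with h4 | h4
  · rw [← OmC_rho_iff (cs.simple 4), rho_simple, sg4]
    apply OmC_of_Good
    refine ⟨?_, ?_, ?_⟩
    · rw [Dom_iff]
      simp
      refine ⟨?_, ?_, ?_⟩ <;> linarith
    · simp; linarith
    · simp; linarith
  · apply OmC_of_Good
    refine ⟨?_, ?_, ?_⟩
    · rw [Dom_iff]
      simp
      refine ⟨?_, ?_, ?_⟩ <;> linarith
    · simp; linarith
    · simp; linarith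

/-- translations bring the tube into the base domain -/
lemma exists_translate {x y : ℝ} (hx : 0 < x) (hy : 0 < y) :
    ∃ n : ℤ, lam ^ n * x ≤ lam * (lam ^ (-n) * y) ∧ lam ^ (-n) * y ≤ lam * (lam ^ n * x) := by
  have hl := one_lt_lam
  have hl0 : lam ≠ 0 := by linarith
  have hlp : 0 < lam := by linarith
  obtain ⟨k, hk1, hk2⟩ := exists_mem_Ico_zpow (x := x / y) (y := lam ^ 2) (by positivity) (by nlinarith)
  rw [← zpow_natCast, ← zpow_mul, le_div_iff₀ hy] at hk1
  rw [← zpow_natCast, ← zpow_mul, div_lt_iff₀ hy] at hk2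
  push_cast at hk1 hk2
  have e1 : lam ^ (2 * k) = lam ^ k * lam ^ k := by rw [← zpow_add₀ hl0]; ring_nf
  have e2 : lam ^ (2 * (k + 1)) = lam ^ k * lam ^ k * lam * lam := by
    rw [← zpow_add₀ hl0, mul_assoc, ← pow_two, ← zpow_natCast, ← zpow_add₀ hl0]; push_cast; ring_nf
  rw [e1] at hk1
  rw [e2] at hk2
  have hkp : 0 < lam ^ k := by positivity
  have hinv : lam ^ (-k) * lam ^ k = 1 := by rw [← zpow_add₀ hl0]; simp
  have hip : 0 < lam ^ (-k) := by positivity
  by_cases hc : lam ^ (-k) * x ≤ lam * (lam ^ k * y)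
  · refine ⟨-k, by rwa [neg_neg], ?_⟩
    rw [neg_neg]
    have h1 : lam ^ k * y ≤ lam ^ (-k) * x := by
      have : lam ^ k * y = lam ^ (-k) * (lam ^ k * lam ^ k * y) := by
        calc lam ^ k * y = 1 * (lam ^ k * y) := by ring
          _ = (lam ^ (-k) * lam ^ k) * (lam ^ k * y) := by rw [hinv]
          _ = _ := by ring
      rw [this]
      exact mul_le_mul_of_nonneg_left hk1 hip.le
    have h2 : 0 < lam ^ (-k) * x := by positivity
    nlinarith
  · push Not at hc
    refine ⟨-k - 1, ?_, ?_⟩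
    · have e3 : lam ^ (-k - 1) = lam ^ (-k) * lam⁻¹ := by rw [zpow_sub_one₀ hl0]
      have e4 : lam ^ (-(-k - 1)) = lam ^ k * lam := by
        have : -(-k - 1) = k + 1 := by ring
        rw [this, zpow_add_one₀ hl0]
      rw [e3, e4]
      have h1 : lam ^ (-k) * x < lam ^ k * lam * lam * y := by
        have : lam ^ k * lam * lam * y = lam ^ (-k) * (lam ^ k * lam ^ k * lam * lam * y) := by
          calc lam ^ k * lam * lam * y = 1 * (lam ^ k * lam * lam * y) := by ring
            _ = (lam ^ (-k) * lam ^ k) * (lam ^ k * lam * lam * y) := by rw [hinv]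
            _ = _ := by ring
        rw [this]
        exact mul_lt_mul_of_pos_left hk2 hip
      have h2 : lam ^ (-k) * lam⁻¹ * x = (lam ^ (-k) * x) * lam⁻¹ := by ring
      rw [h2, mul_inv_le_iff₀ hlp]
      have h5 : 0 < lam ^ k * y := by positivity
      nlinarith
    · have e3 : lam ^ (-k - 1) = lam ^ (-k) * lam⁻¹ := by rw [zpow_sub_one₀ hl0]
      have e4 : lam ^ (-(-k - 1)) = lam ^ k * lam := by
        have : -(-k - 1) = k + 1 := by ring
        rw [this, zpow_add_one₀ hl0]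
      rw [e3, e4]
      have h2 : lam * (lam ^ (-k) * lam⁻¹ * x) = lam ^ (-k) * x := by field_simp
      rw [h2]
      linarith

/-- every tube point has a translate in the base domain -/
lemma exists_base {b : Bs} (hb : b ∈ Tube) : ∃ (w : W) (b' : Bs), b' ∈ Tube ∧ 2 * |b' 2| ≤ b' 3 ∧
    Pf b' = Pf b ∧ Tf b' = Tf b ∧ mf b' = mf b ∧ (∀ s, rho w (vt b s) = vt b' s) := by
  obtain ⟨h3, hT, hP⟩ := hb
  have hs3 := s3pos
  have hxy : (b 3 + √3 * b 2) * (b 3 - √3 * b 2) = Tf b := by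
    unfold Tf; linear_combination (-(b 2)^2) * s33
  have hx : 0 < b 3 + √3 * b 2 := by
    by_contra hcon
    push Not at hcon
    have : 0 < b 3 - √3 * b 2 := by linarith
    nlinarith
  have hy : 0 < b 3 - √3 * b 2 := by
    by_contra hcon
    push Not at hcon
    nlinarith
  obtain ⟨n, h1, h2⟩ := exists_translate hx hy
  have hl := one_lt_lam
  have hl0 : lam ≠ 0 := by linarith
  have hn : 0 < lam ^ n := by have : 0 < lam := by linarith
                              positivity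
  have hn' : 0 < lam ^ (-n) := by have : 0 < lam := by linarith
                                  positivity
  have hinv : lam ^ n * lam ^ (-n) = 1 := by rw [← zpow_add₀ hl0]; simp
  set x' := lam ^ n * (b 3 + √3 * b 2) with hx'
  set y' := lam ^ (-n) * (b 3 - √3 * b 2) with hy'
  have hx'0 : 0 < x' := by positivity
  have hy'0 : 0 < y' := by positivity
  have hT' : Tf (p4 (b 0) (b 1) x' y') = Tf b := by
    rw [p4_T, ← hxy, hx', hy']
    calc lam ^ n * (b 3 + √3 * b 2) * (lam ^ (-n) * (b 3 - √3 * b 2)) = (lam ^ n * lam ^ (-n)) * ((b 3 + √3 * b 2) * (b 3 - √3 * b 2)) := by ring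
      _ = _ := by rw [hinv, one_mul]
  have hP' : Pf (p4 (b 0) (b 1) x' y') = Pf b := by rw [p4_P]; rfl
  refine ⟨tau ^ n, p4 (b 0) (b 1) x' y', ⟨?_, by rw [hT']; exact hT, by rw [hT', hP']; exact hP⟩, ?_, hP', hT', ?_, ?_⟩
  · simp [p4]; linarith
  · have e2 : (p4 (b 0) (b 1) x' y') 2 = (x' - y') / (2 * √3) := by simp [p4]
    have e3 : (p4 (b 0) (b 1) x' y') 3 = (x' + y') / 2 := by simp [p4]
    rw [e2, e3, abs_div, abs_of_pos (by positivity : (0:ℝ) < 2 * √3)]
    have key : 2 * |x' - y'| ≤ √3 * (x' + y') := by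
      have hlam : lam = 7 + 4 * √3 := by unfold lam; linear_combination s33
      rw [hlam] at h1 h2
      rcases abs_cases (x' - y') with ⟨e, _⟩ | ⟨e, _⟩
      · rw [e]
        -- (2-√3) x' ≤ (2+√3) y'
        have h4 : 0 < 2 - √3 := by have := sqrt3_lt; linarith
        have h5 : (2 - √3) * x' ≤ (2 - √3) * ((7 + 4 * √3) * y') := mul_le_mul_of_nonneg_left h1 h4.le
        have h6 : (2 - √3) * ((7 + 4 * √3) * y') = (2 + √3) * y' := by linear_combination (-4 * y') * s33
        linarith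
      · rw [e]
        have h4 : 0 < 2 - √3 := by have := sqrt3_lt; linarith
        have h5 : (2 - √3) * y' ≤ (2 - √3) * ((7 + 4 * √3) * x') := mul_le_mul_of_nonneg_left h2 h4.le
        have h6 : (2 - √3) * ((7 + 4 * √3) * x') = (2 + √3) * x' := by linear_combination (-4 * x') * s33
        linarith
    have : 2 * (|x' - y'| / (2 * √3)) = |x' - y'| / √3 := by field_simp
    rw [this, div_le_iff₀ hs3]
    linarith
  · unfold mf; simp [p4]
  · intro s
    conv_lhs => rw [eq_p4 b]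
    rw [rho_tau_zpow]

end Pool.Agent.H804
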