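import Pool.Agent.H804.Vert
import Pool.Agent.H804.TubeA

set_option autoImplicit false

namespace Pool.Agent.H804

open Filter Topology KTime

lemma Cn_rho_iff {z : V} (w : W) : Cn CC (rho w z) ↔ Cn CC z := by
  constructor
  · intro h
    have := Cn_rho h w⁻¹
    rwa [rho_inv_apply] at this
  · intro h; exact Cn_rho h w

lemma OmC_diag1 {z : V} (h : z ∈ OmC) (α : ℝ) : z + ![α, α, 0, 2 * |α|, |α|] ∈ OmC := by
  rcases lt_trichotomy α 0 with h1 | h1 | h1
  · have := OmC_add h (Cn_corner1 (s := 0) (t := -α) (by simpa using h1)).1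
    rw [abs_of_neg h1]
    convert this using 2
    simp
  · subst h1
    convert h using 1
    ext i; fin_cases i <;> simp
  · have := OmC_add h (Cn_corner4 (s := 0) (t := α) (by simpa using h1)).1
    rw [abs_of_pos h1]
    exact this

lemma OmC_diag2 {z : V} (h : z ∈ OmC) (α : ℝ) : z + ![α, -α, 0, 2 * |α|, |α|] ∈ OmC := by
  rcases lt_trichotomy α 0 with h1 | h1 | h1
  · have := OmC_add h (Cn_corner3 (s := 0) (t := -α) (by simpa using h1)).1
    rw [abs_of_neg h1]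
    convert this using 2
    simp
  · subst h1
    convert h using 1
    ext i; fin_cases i <;> simp
  · have := OmC_add h (Cn_corner2 (s := 0) (t := α) (by simpa using h1)).1
    rw [abs_of_pos h1]
    exact this

lemma Cn_base {b : Bs} (h3 : 0 < b 3) (h : 700 * Pf b < Tf b) (h2 : 2 * |b 2| ≤ b 3) : Cn CC (vt b (mf b)) := by
  have hm := mf_small h3 h
  have hs := sqrt3_lt
  apply Cn_tube rfl
  show √3 * |b 2| < b 3 - 2 * mf b
  have h5 : √3 * |b 2| ≤ 1.7321 * |b 2| := mul_le_mul_of_nonneg_right hs.le (abs_nonneg _)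
  linarith

lemma OmC_base {b : Bs} (h3 : 0 < b 3) (h : 700 * Pf b < Tf b) (h2 : 2 * |b 2| ≤ b 3) {σ : ℝ}
    (h4 : -(b 3 / 5) ≤ σ) (h5 : σ ≤ mf b) : vt b σ ∈ OmC := by
  have hm := mf_small h3 h
  have hm0 := mf_nonneg b
  have h6 : ![0, 0, b 2, b 3 - 2 * mf b, -(mf b - σ)] ∈ OmC := by
    apply low_axis
    · linarith
    · linarith
    · linarith
  have h7 := OmC_diag2 (OmC_diag1 h6 ((b 0 + b 1) / 2)) ((b 0 - b 1) / 2)
  convert h7 using 1
  ext i; fin_cases i <;> simp [vt, mf] <;> ring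

lemma Tube_Cn {b : Bs} (hb : b ∈ Tube) : Cn CC (vt b (mf b)) := by
  obtain ⟨w, b', hb', h2, hP, hT, hm, hw⟩ := exists_base hb
  rw [← Cn_rho_iff w, hw, ← hm]
  exact Cn_base hb'.1 hb'.2.2 h2

lemma Tube_Rg : Tube ⊆ Rg := fun b hb => ⟨Tube_neg hb, hb.1, mf b, Tube_Cn hb⟩

lemma Tube_int : Tube ⊆ interior Rg := interior_maximal Tube_Rg isOpen_Tube

/-- heights below the cone over the axis are strictly below the core -/
lemma Tube_Bel {b : Bs} (hb : b ∈ Tube) {σ : ℝ} (h0 : 0 ≤ σ) (h1 : 4 * σ ^ 2 < Pf b) : Bel b σ := by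
  constructor
  · obtain ⟨w, b', hb', h2, hP, hT, hm, hw⟩ := exists_base hb
    rw [← OmC_rho_iff w, hw]
    apply OmC_base hb'.1 hb'.2.2 h2
    · have := hb'.1
      linarith
    · rw [hm]
      have h3 := le_mf_sq b
      have h4 : σ ^ 2 < mf b ^ 2 := by linarith
      exact (lt_of_pow_lt_pow_left₀ 2 (mf_nonneg b) h4).le
  · intro s' hs' hC
    obtain ⟨h3, h4⟩ := Cn_nonneg hC
    have h5 : s' ^ 2 ≤ σ ^ 2 := pow_le_pow_left₀ h3 hs' 2
    have h6 : Pf b ≤ 4 * s' ^ 2 := h4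
    linarith

/-- over the axis the core starts at height zero -/
lemma axis_s1 {b : Bs} (hb : b ∈ Tube) (hP : Pf b = 0) : s1 b ≤ 0 := by
  have h1 := Tube_Cn hb
  have h2 : mf b = 0 := by
    have := mf_sq_le b
    rw [hP] at this
    nlinarith [mf_nonneg b]
  rw [h2] at h1
  exact s1_le h1

lemma Flat_Cn {b : Bs} (hb : b ∈ Flat) : Cn CC (vt b (-(b 1))) := Cn_flat hb.1 hb.2.1 hb.2.2.1

lemma Flat_Rg : Flat ⊆ Rg := fun _ hb => ⟨hb.2.2.2, Flat_b3 hb, _, Flat_Cn hb⟩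

lemma Flat_int : Flat ⊆ interior Rg := interior_maximal Flat_Rg isOpen_Flat

lemma yc_Bel : ∃ δ₀ > 0, ∀ δ, 0 < δ → δ < δ₀ → Bel yc (2 - δ) := by
  have h1 : Cn CC (vt yc 2) := by
    have := Flat_Cn yc_Flat
    simpa [yc] using this
  obtain ⟨δ₀, hδ₀, hball⟩ := Metric.isOpen_iff.mp (isOpen_O yc) 2 h1.1
  refine ⟨δ₀, hδ₀, fun δ hδ hlt => ⟨?_, ?_⟩⟩
  · apply hball
    rw [Metric.mem_ball, Real.dist_eq, abs_lt]; constructor <;> linarith
  · intro s' hs' hC
    obtain ⟨_, h3, _⟩ := Tst_bounds (Cn_Tst hC)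
    simp [vt, yc] at h3
    linarith

end Pool.Agent.H804
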