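import Pool.Agent.H804.Kform2
import Pool.Agent.H804.Tube
import Pool.Agent.H804.Touch
import Pool.Agent.H804.Touch2
import Pool.Agent.H804.Path
import Pool.Agent.H804.Hom

set_option autoImplicit false

namespace Pool.Agent.H804

open Filter Topology KTime

section

variable {t : V → ℝ} (ht : M0.IsKTime CC t) {a : ℝ}

include ht in
lemma hh_lt_s1 (hA : Above t a) {b : Bs} (hb : b ∈ Ra t a) : hh t a b < s1 b :=
  ((Bel_iff (Ra_Rg hb)).mp (hh_spec ht hA hb).1).2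

include ht in
lemma hh_hom : ∀ b ∈ Ra t a, ∀ r : ℝ, 0 < r → hh t a (r • b) = r * hh t a b :=
  fun _ hb _ hr => hh_smul ht (Ra_Rg hb) hr

lemma exists_nrm (k : ℝ) {b : Bs} (hb : Bb b b < 0) : ∃ r : ℝ, 0 < r ∧ Bb (r • b) (r • b) - (r * k) * (r * k) = -1 := by
  have hq : 0 < k * k - Bb b b := by linarith [mul_self_nonneg k]
  refine ⟨(Real.sqrt (k * k - Bb b b))⁻¹, by positivity, ?_⟩
  have hs := Real.sqrt_pos.mpr hq
  have hs2 := Real.mul_self_sqrt hq.le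
  rw [Bb_smul_left, Bb_smul_right]
  set σ := Real.sqrt (k * k - Bb b b)
  have : σ⁻¹ * (σ⁻¹ * Bb b b) - σ⁻¹ * k * (σ⁻¹ * k) = -((σ * σ)⁻¹ * (k * k - Bb b b)) := by
    rw [mul_inv]; ring
  rw [this, hs2, inv_mul_cancel₀ hq.ne']

include ht in
/-- the geometry of a leaf -/

theorem leafK (hA : Above t a) (ha : a ∈ t '' M0.past CC) : ∃ κ : ℝ, (∀ b ∈ Ra t a, ContDiffAt ℝ 2 (hh t a) b) ∧
    ∀ b ∈ Ra t a, Bb b b - hh t a b * hh t a b = -1 →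
      ∃ (β : Fin 3 → Bs) (g : ℝ), 0 < g ∧ Frame b (hh t a b) (fderiv ℝ (hh t a) b) β ∧
        g ^ 2 = g2 (fderiv ℝ (hh t a) b) ∧ κ * g ^ 3 = - Matrix.det (Hm (fderiv ℝ (fderiv ℝ (hh t a)) b) β) := by
  obtain ⟨κ, hκ⟩ := ht.curvature a ha
  have key : ∀ b ∈ Ra t a, Bb b b - hh t a b * hh t a b = -1 →
      M0.Q.HasKCurvatureAt (M0.leaf CC t a) (vt b (hh t a b)) κ := by
    intro b hb hn
    have hbR := Ra_Rg hb
    obtain ⟨h1, h2⟩ := hh_spec ht hA hb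
    have h3 : nz (vt b (hh t a b)) = vt b (hh t a b) := nz_of_neg_one (by rw [B_vt]; exact hn)
    have h4 := Bel_past hbR h1
    rw [h3] at h2 h4
    exact hκ _ ⟨h4, h2⟩
  have hC : ∀ b ∈ Ra t a, ContDiffAt ℝ 2 (hh t a) b := by
    intro b hb
    have hbR := Ra_Rg hb
    obtain ⟨r, hr, hn⟩ := exists_nrm (hh t a b) hbR.1
    have hrb := Ra_smul hb hr
    have e1 : hh t a (r • b) = r * hh t a b := hh_hom ht b hb r hr
    have hn' : Bb (r • b) (r • b) - hh t a (r • b) * hh t a (r • b) = -1 := by rw [e1]; exact hn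
    have h1 := (Kform ht hA hrb hn' (key _ hrb hn')).1
    have h2 := hom_contDiffAt (isOpen_Ra ht) (hh_hom ht) hrb (r := r⁻¹) (by positivity) h1
    rwa [smul_smul, inv_mul_cancel₀ hr.ne', one_smul] at h2
  refine ⟨κ, hC, ?_⟩
  intro b hb hn
  obtain ⟨_, β, g, hg, h1, h2, h3, h4⟩ := Kform ht hA hb hn (key b hb hn)
  refine ⟨β, g, hg, ⟨hn, ?_, h1, h2⟩, h3, h4⟩
  exact (hom_euler (isOpen_Ra ht) (hh_hom ht) hC hb).1

/-- translates of the tube points -/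
lemma CT_tau {b0 b1 x y : ℝ} (hb : p4 b0 b1 x y ∈ CT) (m : ℤ) : p4 b0 b1 (lam ^ m * x) (lam ^ (-m) * y) ∈ CT := by
  have hlp : 0 < lam := by linarith [one_lt_lam]
  obtain ⟨h3, h4, h5⟩ := hb
  have hxy : 0 < x * y := by rw [← p4_T b0 b1]; exact h4
  have hsum : 0 < x + y := by
    have : (p4 b0 b1 x y) 3 = (x + y) / 2 := by simp [p4]
    rw [this] at h3; linarith
  have hx : 0 < x := by
    by_contra hcon
    push Not at hcon
    have : 0 < y := by linarith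
    nlinarith
  have hy : 0 < y := by
    by_contra hcon
    push Not at hcon
    nlinarith
  have hT' : Tf (p4 b0 b1 (lam ^ m * x) (lam ^ (-m) * y)) = x * y := by
    rw [p4_T]
    have : lam ^ m * lam ^ (-m) = 1 := by rw [← zpow_add₀ hlp.ne']; simp
    calc lam ^ m * x * (lam ^ (-m) * y) = (lam ^ m * lam ^ (-m)) * (x * y) := by ring
      _ = _ := by rw [this, one_mul]
  refine ⟨?_, by rw [hT']; exact hxy, ?_⟩
  · have : (p4 b0 b1 (lam ^ m * x) (lam ^ (-m) * y)) 3 = (lam ^ m * x + lam ^ (-m) * y) / 2 := by simp [p4]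
    rw [this]; positivity
  · rw [hT', p4_P]
    rw [p4_T, p4_P] at h5
    exact h5

include ht in
/-- invariance of the height function under the group -/

lemma hh_rho {b b' : Bs} (hb : b ∈ Rg) (hb' : b' ∈ Rg) {w : W} (hw : w ∈ N3) (hv : ∀ s, rho w (vt b s) = vt b' s) :
    hh t a b' = hh t a b := by
  have hB : ∀ s, Bel b' s ↔ Bel b s := by
    intro s
    unfold Bel
    rw [← hv, OmC_rho_iff]
    constructor
    · rintro ⟨h1, h2⟩
      refine ⟨h1, fun s' hs' hC => h2 s' hs' ?_⟩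
      rw [← hv, Cn_rho_iff]; exact hC
    · rintro ⟨h1, h2⟩
      refine ⟨h1, fun s' hs' hC => h2 s' hs' ?_⟩
      rw [← hv, Cn_rho_iff] at hC; exact hC
  have hT : ∀ s, Bel b s → t (nz (vt b' s)) = t (nz (vt b s)) := by
    intro s hs
    rw [← hv, nz_rho]
    exact ht.invariant (rhoP w) ⟨_, hw, rfl⟩ _ (Bel_past hb hs)
  by_cases h : ∃ s, Bel b s ∧ t (nz (vt b s)) = a
  · obtain ⟨h1, h2⟩ := hh_spec' h
    symm
    apply hh_unique ht hb' ((hB _).mpr h1)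
    rw [hT _ h1, h2]
  · have h' : ¬ ∃ s, Bel b' s ∧ t (nz (vt b' s)) = a := by
      rintro ⟨s, h1, h2⟩
      have h3 := (hB s).mp h1
      exact h ⟨s, h3, by rw [← hT s h3]; exact h2⟩
    unfold hh
    rw [dif_neg h, dif_neg h']

include ht in
lemma hh_tau {k : ℕ} (hk : tau ^ k ∈ N3) {b0 b1 x y : ℝ} (hb : p4 b0 b1 x y ∈ CT) (n : ℤ) :
    hh t a (p4 b0 b1 ((lam ^ k) ^ n * x) ((lam ^ k) ^ (-n) * y)) = hh t a (p4 b0 b1 x y) := by
  have e1 : (lam ^ k) ^ n = lam ^ ((k:ℤ) * n) := by rw [zpow_mul, zpow_natCast]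
  have e2 : (lam ^ k) ^ (-n) = lam ^ (-((k:ℤ) * n)) := by
    rw [← zpow_natCast, ← zpow_mul]; ring_nf
  rw [e1, e2]
  have hw : tau ^ ((k:ℤ) * n) ∈ N3 := by
    rw [zpow_mul, zpow_natCast]; exact N3.zpow_mem hk n
  exact hh_rho ht (Tube_Rg (CT_Tube hb)) (Tube_Rg (CT_Tube (CT_tau hb _))) hw (rho_tau_zpow ((k:ℤ) * n) b0 b1 x y)

end

/-- the segments joining the two regions -/
def Seg (Λ : ℝ) : Set Bs :=
  (fun q : Bs × Bs × ℝ => q.1 + q.2.2 • (q.2.1 - q.1)) '' (F0 Λ ×ˢ Kc ×ˢ Set.Icc (0:ℝ) 1)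

lemma isCompact_Seg (Λ : ℝ) : IsCompact (Seg Λ) := by
  apply IsCompact.image ((isCompact_F0 Λ).prod (isCompact_Kc.prod isCompact_Icc))
  fun_prop

lemma Seg_int (Λ : ℝ) : Seg Λ ⊆ interior Rg := by
  rintro b ⟨⟨x, y, s⟩, ⟨hx, hy, hs⟩, rfl⟩
  exact convex_Rg.interior.add_smul_sub_mem (Tube_int (CT_Tube (F0_spec hx).1)) (Flat_int (Kc_Flat hy)) hs

lemma yc_Kc : yc ∈ Kc := ⟨by simp [yc], by simp [yc]⟩

lemma F0_ne {Λ : ℝ} (hΛ : 1 < Λ) : p4 0 0 1 1⁻¹ ∈ F0 Λ := ⟨(0, 0, 1), ⟨by norm_num, le_refl _, hΛ.le⟩, rfl⟩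

lemma F0_Seg (Λ : ℝ) : F0 Λ ⊆ Seg Λ := fun b hb =>
  ⟨(b, yc, 0), ⟨hb, yc_Kc, by constructor <;> norm_num⟩, by simp⟩

lemma Kc_Seg {Λ : ℝ} (hΛ : 1 < Λ) : Kc ⊆ Seg Λ := fun b hb =>
  ⟨(p4 0 0 1 1⁻¹, b, 1), ⟨F0_ne hΛ, hb, by constructor <;> norm_num⟩, by simp⟩

lemma Seg_path {t : V → ℝ} {a Λ : ℝ} (hG : Seg Λ ⊆ Ra t a) {b c : Bs} (hb : b ∈ F0 Λ) (hc : c ∈ Kc) {r1 r2 : ℝ} (hr1 : 0 < r1)
    (hr2 : 0 < r2) {s : ℝ} (hs : s ∈ Set.Icc (0:ℝ) 1) : r1 • b + s • (r2 • c - r1 • b) ∈ Ra t a := by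
  set l := (1 - s) * r1 + s * r2 with hl
  have hlp : 0 < l := by
    rcases hs.1.eq_or_lt with h | h
    · rw [hl, ← h]; linarith
    · have h1 : 0 ≤ (1 - s) * r1 := mul_nonneg (by linarith [hs.2]) hr1.le
      have h2 : 0 < s * r2 := mul_pos h hr2
      linarith
  have h1 : b + (s * r2 / l) • (c - b) ∈ Ra t a := by
    apply hG
    refine ⟨(b, c, s * r2 / l), ⟨hb, hc, ?_, ?_⟩, rfl⟩
    · have := mul_nonneg hs.1 hr2.le
      positivity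
    · rw [div_le_one hlp, hl]
      have := mul_nonneg (show 0 ≤ 1 - s by linarith [hs.2]) hr1.le
      linarith
  have h2 := Ra_smul h1 hlp
  have e : l • (b + (s * r2 / l) • (c - b)) = r1 • b + s • (r2 • c - r1 • b) := by
    ext i
    simp only [Pi.smul_apply, Pi.add_apply, Pi.sub_apply, smul_eq_mul]
    have : l * (b i + s * r2 / l * (c i - b i)) = l * b i + s * r2 * (c i - b i) := by
      field_simp
    rw [this, hl]
    ring
  rwa [e] at h2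

/-- the lateral test points are below the core -/
lemma lat_Bel {Λ : ℝ} : ∀ b ∈ F0 Λ, 729 * Pf b = 1 → Bel b (Wf b) := by
  intro b hb hP
  obtain ⟨h1, h2⟩ := F0_spec hb
  have hT : 0 < Tf b := by rw [h2]; norm_num
  apply Tube_Bel (CT_Tube h1) (Wf_nonneg hT)
  have := Wf_sq_le hT h1.2.2
  linarith

/-- the lateral test points -/
noncomputable def Zl (Λ : ℝ) : Set V := (fun b => nz (vt b (Wf b))) '' (F0 Λ ∩ {b | 729 * Pf b = 1})

lemma isCompact_Zl (Λ : ℝ) : IsCompact (Zl Λ) := by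
  have hcomp : IsCompact (F0 Λ ∩ {b | 729 * Pf b = 1}) :=
    (isCompact_F0 _).inter_right (isClosed_eq (continuous_Pf.const_mul 729) continuous_const)
  apply hcomp.image_of_continuousOn
  intro b hb
  obtain ⟨h1, h2⟩ := F0_spec hb.1
  have hT : 0 < Tf b := by rw [h2]; norm_num
  have hc1 : ContinuousAt (fun b' => vt b' (Wf b')) b := by
    have := (vtL.continuous.continuousAt (x := (b, Wf b))).comp (f := fun b' => (b', Wf b')) (continuousAt_id.prodMk (continuousAt_Wf hT))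
    exact this
  exact (ContinuousAt.comp (f := fun b' => vt b' (Wf b')) (g := nz) (continuousAt_nz (vt_neg (Tube_neg (CT_Tube h1)) _)) hc1).continuousWithinAt

/-- two touching points of a leaf give incompatible curvatures -/
theorem contra {t : V → ℝ} (ht : M0.IsKTime CC t) {a : ℝ} (hA : Above t a) (ha : a ∈ t '' M0.past CC) {Λ : ℝ}
    (hG : Seg Λ ⊆ Ra t a) {b1 : Bs} (hb1 : b1 ∈ F0 Λ) {μ : ℝ} (hμ : μ ≤ 0) (h729 : 729 * Pf b1 ≤ Tf b1)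
    (ht1 : ∀ r : ℝ, 0 < r → hh t a (r • b1) = Wf (r • b1) + μ * Real.sqrt (Tf (r • b1)) ∧
        ∀ᶠ b' in 𝓝 (r • b1), Wf b' + μ * Real.sqrt (Tf b') ≤ hh t a b')
    {b2 : Bs} (hb2 : b2 ∈ Kc) {ν : ℝ} (hS2 : b2 0 ^ 2 + (b2 1 + 2 / 5 * b2 3) ^ 2 + b2 2 ^ 2 ≤ b2 3 ^ 2 / 400)
    (h02 : 0 ≤ hh t a b2)
    (ht2 : ∀ r : ℝ, 0 < r → hh t a (r • b2) = -((r • b2) 1) + 1 / 100 * Qf (r • b2) - ν * (r • b2) 3 ∧
        ∀ᶠ b' in 𝓝 (r • b2), hh t a b' ≤ -(b' 1) + 1 / 100 * Qf b' - ν * b' 3)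
    (hb1a : b1 ∈ Ra t a) (hb2a : b2 ∈ Ra t a) : False := by
  obtain ⟨κ, hC, hK⟩ := leafK ht hA ha
  have hhom := hh_hom (a := a) ht
  have hop := isOpen_Ra (a := a) ht
  obtain ⟨r1, hr1, hn1⟩ := exists_nrm (hh t a b1) (Ra_Rg hb1a).1
  obtain ⟨r2, hr2, hn2⟩ := exists_nrm (hh t a b2) (Ra_Rg hb2a).1
  rw [← hhom b1 hb1a r1 hr1] at hn1
  rw [← hhom b2 hb2a r2 hr2] at hn2
  have hB1 := Ra_smul hb1a hr1
  have hB2 := Ra_smul hb2a hr2
  obtain ⟨heq1, hle1⟩ := ht1 r1 hr1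
  obtain ⟨heq2, hle2⟩ := ht2 r2 hr2
  have hT1 : 0 < Tf (r1 • b1) := by rw [Tf_smul, (F0_spec hb1).2]; positivity
  have h729' : 729 * Pf (r1 • b1) ≤ Tf (r1 • b1) := by
    rw [Tf_smul, Pf_smul]
    have : 0 < r1 ^ 2 := by positivity
    nlinarith
  have hP1 : 0 < Pf (r1 • b1) := by
    rcases (Pf_nonneg (r1 • b1)).eq_or_lt with h | h
    · exfalso
      apply barrier_zero (hC _ hB1) h.symm hT1 hle1
      rw [heq1, Wf_zero h.symm, zero_add]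
    · exact h
  obtain ⟨β1, g1, hg1, F1, hg12, hκ1⟩ := hK _ hB1 hn1
  obtain ⟨β2, g2', hg2, F2, hg22, hκ2⟩ := hK _ hB2 hn2
  obtain ⟨hlow, hpsd1⟩ := kappa_lower (hC _ hB1) hP1 hT1 h729' hμ hle1 heq1 F1 hg12 hκ1
  have hκ0 : κ ≠ 0 := by
    rintro h
    rw [h] at hlow
    norm_num at hlow
  have hsym : ∀ b ∈ Ra t a, ∀ v w, fderiv ℝ (fderiv ℝ (hh t a)) b v w = fderiv ℝ (fderiv ℝ (hh t a)) b w v :=
    fun b hb v w => ((hC b hb).isSymmSndFDerivAt (by simp)).eq v w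
  have hker : ∀ b ∈ Ra t a, fderiv ℝ (fderiv ℝ (hh t a)) b b = 0 :=
    fun b hb => (hom_euler hop hhom hC hb).2
  have hpsd2 : ∀ γ, 0 ≤ fderiv ℝ (fderiv ℝ (hh t a)) (r2 • b2) γ γ := by
    apply path_psd (U := Ra t a) (b0 := r1 • b1) (b1 := r2 • b2)
      (fun s hs => Seg_path hG hb1 hb2 hr1 hr2 hs)
      (ContinuousLinearMap.proj (R := ℝ) (φ := fun _ : Fin 4 => ℝ) 3)
    · intro b hb
      have h1 : ContDiffAt ℝ 1 (fderiv ℝ (hh t a)) b := (hC b hb).fderiv_right (by norm_num)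
      have h2 : ContDiffAt ℝ 0 (fderiv ℝ (fderiv ℝ (hh t a))) b := h1.fderiv_right (by norm_num)
      exact h2.continuousAt
    · exact hsym
    · exact hker
    · intro b hb
      exact (Ra_Rg hb).2.1
    · intro b hb γ hγ
      obtain ⟨r, hr, hn⟩ := exists_nrm (hh t a b) (Ra_Rg hb).1
      rw [← hhom b hb r hr] at hn
      have hrb := Ra_smul hb hr
      obtain ⟨β, g, hg, F, _, hκg⟩ := hK _ hrb hn
      have e : fderiv ℝ (fderiv ℝ (hh t a)) (r • b) = r⁻¹ • fderiv ℝ (fderiv ℝ (hh t a)) b :=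
        hom_fderiv2 hop hhom hC hb hr
      obtain ⟨s, hs⟩ := F.nondeg (hsym _ hrb) (hker _ hrb) (by
        intro hdet
        rw [hdet] at hκg
        have : κ * g ^ 3 = 0 := by linarith
        rcases mul_eq_zero.mp this with h | h
        · exact hκ0 h
        · have : 0 < g ^ 3 := by positivity
          linarith) γ (by rw [e]; simp [hγ])
      exact ⟨s * r, by rw [hs, smul_smul]⟩
    · exact hpsd1
  have hb23 : b2 3 = 5 := hb2.1
  have hup := kappa_upper (hC _ hB2) (by simp only [Pi.smul_apply, smul_eq_mul]; rw [hb23]; positivity)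
    (by
      simp only [Pi.smul_apply, smul_eq_mul]
      have h1 : 0 < r2 ^ 2 := by positivity
      have := mul_le_mul_of_nonneg_left hS2 h1.le
      linarith)
    hle2 heq2
    (by rw [hhom b2 hb2a r2 hr2]; positivity)
    (by
      rw [hhom b2 hb2a r2 hr2]
      have h1 := (hh_lt_s1 ht hA hb2a).trans_le (s1_le (Flat_Cn (Kc_Flat hb2)))
      simp only [Pi.smul_apply, smul_eq_mul]
      nlinarith)
    F2 hg22 (hker _ hB2) hpsd2 hκ2
  norm_num at hlow hup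
  linarith

theorem no_KTime : ¬ ∃ t, M0.IsKTime CC t := by
  rintro ⟨t, ht⟩
  obtain ⟨k, hk, hkN⟩ := exists_pow_N3 tau
  have hΛ : 1 < lam ^ k := one_lt_pow₀ one_lt_lam hk.ne'
  obtain ⟨δ₀, hδ₀, hδ⟩ := yc_Bel
  obtain ⟨δ, hδ1, hδ2, hδ3⟩ : ∃ δ : ℝ, 0 < δ ∧ δ < δ₀ ∧ δ ≤ 1 / 10000 :=
    ⟨min (δ₀ / 2) (1 / 10000), lt_min (by linarith) (by norm_num), (min_le_left _ _).trans_lt (by linarith), min_le_right _ _⟩
  have hBy := hδ δ hδ1 hδ2
  obtain ⟨a, ⟨b₀, hb₀, s₀, hs₀, ha₀⟩, hmax, hG⟩ := exists_level ht (isCompact_Seg (lam ^ k)) (Seg_int _)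
    (Z := Zl (lam ^ k) ∪ {nz (vt yc (2 - δ))}) ((isCompact_Zl _).union isCompact_singleton)
    (by
      rintro z (⟨b, hb, rfl⟩ | hz)
      · exact ⟨b, Tube_int (CT_Tube (F0_spec hb.1).1), Wf b, lat_Bel b hb.1 hb.2, rfl⟩
      · exact ⟨yc, Flat_int yc_Flat, 2 - δ, hBy, hz⟩)
    ⟨_, Or.inr rfl⟩
  have hA : Above t a := above_of_leaf ht hb₀ hs₀ ha₀
  have ha : a ∈ t '' M0.past CC := ⟨_, Bel_past (interior_subset hb₀) hs₀, ha₀⟩
  have hF0 : F0 (lam ^ k) ⊆ Ra t a := (F0_Seg _).trans hG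
  have hKc : Kc ⊆ Ra t a := (Kc_Seg hΛ).trans hG
  obtain ⟨b1, hb1, μ, hμ, h729, ht1⟩ := exists_touch_tube (h := hh t a) hΛ
    (fun b hb r hr => hh_smul ht (Tube_Rg (CT_Tube hb)) hr) (fun b hb => hh_contAt ht hA (hF0 hb))
    (fun b0 b1 x y hb n => hh_tau ht hkN hb n)
    (fun b hb hP => (hh_lt_s1 ht hA (hF0 hb)).trans_le (axis_s1 (CT_Tube (F0_spec hb).1) hP))
    (fun b hb hP => le_hh ht hA (hF0 hb) (lat_Bel b hb hP) (hmax _ (Or.inl ⟨b, ⟨hb, hP⟩, rfl⟩)))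
  obtain ⟨b2, hb2, ν, hS2, h02, ht2⟩ := exists_touch_flat (h := hh t a)
    (fun b hb r hr => hh_smul ht (Flat_Rg hb) hr) (fun b hb => hh_contAt ht hA (hKc hb))
    (fun b hb => (hh_lt_s1 ht hA (hKc hb)).trans_le (s1_le (Flat_Cn (Kc_Flat hb))))
    (by
      have := le_hh ht hA (hKc yc_Kc) hBy (hmax _ (Or.inr rfl))
      linarith)
  exact contra ht hA ha hG hb1 hμ h729 ht1 hb2 hS2 h02 ht2 (hF0 hb1) (hKc hb2)

end Pool.Agent.H804
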