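import Mathlib

set_option autoImplicit false

namespace Pool.Agent.H804

open Matrix

lemma exists_unit_eig {A : Matrix (Fin 3) (Fin 3) ℝ} (hA : A.IsHermitian) (i : Fin 3) :
    ∃ v : Fin 3 → ℝ, v ⬝ᵥ v = 1 ∧ v ⬝ᵥ (A *ᵥ v) = hA.eigenvalues i := by
  refine ⟨⇑(hA.eigenvectorBasis i), ?_, ?_⟩
  · have h1 := hA.eigenvectorBasis.orthonormal.1 i
    have h2 : ‖hA.eigenvectorBasis i‖ ^ 2 = 1 := by rw [h1]; norm_num
    rw [EuclideanSpace.norm_sq_eq] at h2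
    rw [← h2]
    simp [dotProduct, pow_two]
  · rw [hA.eigenvalues_eq i]
    simp

lemma one_le_det {A : Matrix (Fin 3) (Fin 3) ℝ} (hA : A.IsHermitian)
    (h : ∀ v : Fin 3 → ℝ, v ⬝ᵥ v ≤ v ⬝ᵥ (A *ᵥ v)) : 1 ≤ det A := by
  rw [hA.det_eq_prod_eigenvalues, Fin.prod_univ_three]
  have key : ∀ i, 1 ≤ hA.eigenvalues i := by
    intro i
    obtain ⟨v, hv, he⟩ := exists_unit_eig hA i
    rw [← he, ← hv]; exact h v
  have h0 := key 0
  have h1 := key 1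
  have h2 := key 2
  simp only [RCLike.ofReal_real_eq_id, id]
  have h3 : 1 ≤ hA.eigenvalues 0 * hA.eigenvalues 1 := by nlinarith
  nlinarith

lemma det_bounds {A : Matrix (Fin 3) (Fin 3) ℝ} (hA : A.IsHermitian) {c : ℝ}
    (h0 : ∀ v : Fin 3 → ℝ, 0 ≤ v ⬝ᵥ (A *ᵥ v))
    (h : ∀ v : Fin 3 → ℝ, v ⬝ᵥ (A *ᵥ v) ≤ c * (v ⬝ᵥ v)) : 0 ≤ det A ∧ det A ≤ c ^ 3 := by
  rw [hA.det_eq_prod_eigenvalues, Fin.prod_univ_three]
  have key : ∀ i, 0 ≤ hA.eigenvalues i ∧ hA.eigenvalues i ≤ c := by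
    intro i
    obtain ⟨v, hv, he⟩ := exists_unit_eig hA i
    have h1 := h v
    rw [hv, mul_one] at h1
    rw [← he]
    exact ⟨h0 v, h1⟩
  obtain ⟨a0, b0⟩ := key 0
  obtain ⟨a1, b1⟩ := key 1
  obtain ⟨a2, b2⟩ := key 2
  simp only [RCLike.ofReal_real_eq_id, id]
  refine ⟨by positivity, ?_⟩
  have hc : 0 ≤ c := a0.trans b0
  calc hA.eigenvalues 0 * hA.eigenvalues 1 * hA.eigenvalues 2 ≤ c * c * c := by
        gcongr
    _ = c ^ 3 := by ring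

lemma det_ge {M Ψ : Matrix (Fin 3) (Fin 3) ℝ} (hM : M.IsHermitian) {A D : Fin 3 → ℝ}
    (hA : ∀ k, 0 < A k) (hΨ : Ψᵀ * diagonal D * Ψ = 1)
    (h : ∀ v : Fin 3 → ℝ, (∑ k, A k * ((Ψ *ᵥ v) k) ^ 2) ≤ v ⬝ᵥ (M *ᵥ v)) :
    A 0 * A 1 * A 2 ≤ det M * (D 0 * D 1 * D 2) := by
  set G := Ψᵀ * diagonal D with hG
  have hGΨ : Ψ * G = 1 := _root_.mul_eq_one_comm.mp hΨ
  set S : Matrix (Fin 3) (Fin 3) ℝ := diagonal (fun k => (Real.sqrt (A k))⁻¹) with hS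
  set R := G * S with hR
  have hΨR : Ψ * R = S := by rw [hR, ← Matrix.mul_assoc, hGΨ, Matrix.one_mul]
  have hM' : (Rᵀ * M * R).IsHermitian := by
    have := isHermitian_conjTranspose_mul_mul R hM
    rwa [conjTranspose_eq_transpose_of_trivial] at this
  have h1 : 1 ≤ det (Rᵀ * M * R) := by
    apply one_le_det hM'
    intro v
    have e1 : v ⬝ᵥ ((Rᵀ * M * R) *ᵥ v) = (R *ᵥ v) ⬝ᵥ (M *ᵥ (R *ᵥ v)) := by
      rw [← mulVec_mulVec, ← mulVec_mulVec, dotProduct_mulVec, vecMul_transpose]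
    rw [e1]
    refine le_trans ?_ (h (R *ᵥ v))
    rw [mulVec_mulVec, hΨR]
    apply le_of_eq
    unfold dotProduct
    apply Finset.sum_congr rfl
    intro k _
    rw [hS, mulVec_diagonal, mul_pow, inv_pow, Real.sq_sqrt (hA k).le]
    have := (hA k).ne'
    field_simp
  rw [det_mul, det_mul, det_transpose, hR, det_mul, hS, det_diagonal] at h1
  have hd : det G * det Ψ = 1 := by rw [← det_mul, hΨ, det_one]
  have hd2 : det G = det Ψ * (D 0 * D 1 * D 2) := by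
    rw [hG, det_mul, det_transpose, det_diagonal, Fin.prod_univ_three]
  have hprod : (∏ k, (Real.sqrt (A k))⁻¹) ^ 2 * (A 0 * A 1 * A 2) = 1 := by
    rw [Fin.prod_univ_three]
    have s0 := Real.sq_sqrt (hA 0).le
    have s1 := Real.sq_sqrt (hA 1).le
    have s2 := Real.sq_sqrt (hA 2).le
    have p0 := Real.sqrt_pos.mpr (hA 0)
    have p1 := Real.sqrt_pos.mpr (hA 1)
    have p2 := Real.sqrt_pos.mpr (hA 2)
    rw [mul_pow, mul_pow, inv_pow, inv_pow, inv_pow, s0, s1, s2]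
    have := (hA 0).ne'
    have := (hA 1).ne'
    have := (hA 2).ne'
    field_simp
  set π := ∏ k, (Real.sqrt (A k))⁻¹ with hπ
  have hAp : 0 < A 0 * A 1 * A 2 := by
    have := hA 0
    have := hA 1
    have := hA 2
    positivity
  have h2 : A 0 * A 1 * A 2 * 1 ≤ A 0 * A 1 * A 2 * (det G * π * det M * (det G * π)) :=
    mul_le_mul_of_nonneg_left h1 hAp.le
  have h3 : det G ^ 2 = D 0 * D 1 * D 2 := by
    calc det G ^ 2 = det G * (det Ψ * (D 0 * D 1 * D 2)) := by rw [← hd2]; ring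
      _ = (det G * det Ψ) * (D 0 * D 1 * D 2) := by ring
      _ = _ := by rw [hd, one_mul]
  have h4 : A 0 * A 1 * A 2 * (det G * π * det M * (det G * π)) = det M * det G ^ 2 := by
    calc A 0 * A 1 * A 2 * (det G * π * det M * (det G * π)) = (π ^ 2 * (A 0 * A 1 * A 2)) * (det M * det G ^ 2) := by ring
      _ = _ := by rw [hprod, one_mul]
  rw [h4, h3] at h2
  linarith

end Pool.Agent.H804
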