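import Pool.Agent.H804.Base
import Pool.Agent.H804.Mat

set_option autoImplicit false

namespace Pool.Agent.H804

open Filter Topology Matrix

/-- first fundamental form of the graph -/
noncomputable def Gf (L : Bs →L[ℝ] ℝ) (γ δ : Bs) : ℝ := Bb γ δ - L γ * L δ

lemma Gf_add_left (L : Bs →L[ℝ] ℝ) (a b c : Bs) : Gf L (a + b) c = Gf L a c + Gf L b c := by
  simp only [Gf, Bb_add_left, map_add]; ring

lemma Gf_add_right (L : Bs →L[ℝ] ℝ) (a b c : Bs) : Gf L a (b + c) = Gf L a b + Gf L a c := by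
  simp only [Gf, Bb_add_right, map_add]; ring

lemma Gf_smul_left (L : Bs →L[ℝ] ℝ) (r : ℝ) (a b : Bs) : Gf L (r • a) b = r * Gf L a b := by
  simp only [Gf, Bb_smul_left, map_smul, smul_eq_mul]; ring

lemma Gf_smul_right (L : Bs →L[ℝ] ℝ) (r : ℝ) (a b : Bs) : Gf L a (r • b) = r * Gf L a b := by
  simp only [Gf, Bb_smul_right, map_smul, smul_eq_mul]; ring

lemma Gf_comm (L : Bs →L[ℝ] ℝ) (a b : Bs) : Gf L a b = Gf L b a := by
  simp only [Gf, Bb_comm a b]; ring

structure Frame (b : Bs) (k : ℝ) (L : Bs →L[ℝ] ℝ) (β : Fin 3 → Bs) : Prop where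
  norm : Bb b b - k * k = -1
  euler : L b = k
  tang : ∀ i, Bb b (β i) = k * L (β i)
  orth : ∀ i j, Gf L (β i) (β j) = if i = j then 1 else 0

variable {b : Bs} {k : ℝ} {L : Bs →L[ℝ] ℝ} {β : Fin 3 → Bs}

/-- linear combinations -/
noncomputable def comb (β : Fin 3 → Bs) (c : Fin 3 → ℝ) : Bs := c 0 • β 0 + c 1 • β 1 + c 2 • β 2

lemma Frame.Gf_b (F : Frame b k L β) (i : Fin 3) : Gf L b (β i) = 0 := by
  rw [Gf, F.tang, F.euler]; ring

lemma Frame.Gf_bb (F : Frame b k L β) : Gf L b b = -1 := by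
  rw [Gf, F.euler]; exact F.norm

lemma Frame.comb_tang (F : Frame b k L β) (c : Fin 3 → ℝ) : Bb b (comb β c) = k * L (comb β c) := by
  simp only [comb, Bb_add_right, Bb_smul_right, map_add, map_smul, smul_eq_mul, F.tang]
  ring

lemma Frame.comb_Gf (F : Frame b k L β) (c : Fin 3 → ℝ) : Gf L (comb β c) (comb β c) = c ⬝ᵥ c := by
  have h01 := F.orth 0 1
  have h02 := F.orth 0 2
  have h12 := F.orth 1 2
  have h10 := F.orth 1 0
  have h20 := F.orth 2 0
  have h21 := F.orth 2 1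
  have h00 := F.orth 0 0
  have h11 := F.orth 1 1
  have h22 := F.orth 2 2
  simp at h01 h02 h12 h10 h20 h21 h00 h11 h22
  simp only [comb, Gf_add_left, Gf_add_right, Gf_smul_left, Gf_smul_right, h01, h02, h12, h10, h20, h21, h00, h11, h22,
    dotProduct, Fin.sum_univ_three]
  ring

lemma Frame.span (F : Frame b k L β) (γ : Bs) : ∃ (c : Fin 3 → ℝ) (r : ℝ), γ = comb β c + r • b := by
  set T : ((Fin 3 → ℝ) × ℝ) →ₗ[ℝ] Bs :=
    { toFun := fun p => comb β p.1 + p.2 • b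
      map_add' := by
        intro p q
        simp only [comb, Prod.fst_add, Prod.snd_add, Pi.add_apply, add_smul]
        abel
      map_smul' := by
        intro r p
        simp only [comb, Prod.smul_fst, Prod.smul_snd, Pi.smul_apply, smul_eq_mul, smul_add, smul_smul, RingHom.id_apply] } with hT
  have hTa : ∀ c r, T (c, r) = comb β c + r • b := fun _ _ => rfl
  have hinj : Function.Injective T := by
    rw [← LinearMap.ker_eq_bot, LinearMap.ker_eq_bot']
    rintro ⟨c, r⟩ h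
    rw [hTa] at h
    have h01 := F.orth 0 1
    have h02 := F.orth 0 2
    have h12 := F.orth 1 2
    have h10 := F.orth 1 0
    have h20 := F.orth 2 0
    have h21 := F.orth 2 1
    have h00 := F.orth 0 0
    have h11 := F.orth 1 1
    have h22 := F.orth 2 2
    simp at h01 h02 h12 h10 h20 h21 h00 h11 h22
    have e : ∀ δ, Gf L (comb β c + r • b) δ = 0 := by
      intro δ; rw [h]; simp [Gf, Bb]
    have e0 := e (β 0)
    have e1 := e (β 1)
    have e2 := e (β 2)
    have e3 := e b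
    simp only [comb, Gf_add_left, Gf_smul_left, h01, h02, h12, h10, h20, h21, h00, h11, h22, F.Gf_b] at e0 e1 e2
    rw [Gf_comm] at e3
    simp only [comb, Gf_add_right, Gf_smul_right, F.Gf_b, F.Gf_bb] at e3
    ext i
    · fin_cases i
      · simpa using e0
      · simpa using e1
      · simpa using e2
    · simpa using e3
  have hsurj : Function.Surjective T := by
    rw [← LinearMap.injective_iff_surjective_of_finrank_eq_finrank]
    · exact hinj
    · simp
  obtain ⟨⟨c, r⟩, hcr⟩ := hsurj γ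
  exact ⟨c, r, by rw [← hcr, hTa]⟩

/-- Hessian matrix in a frame -/
noncomputable def Hm (H : Bs →L[ℝ] Bs →L[ℝ] ℝ) (β : Fin 3 → Bs) : Matrix (Fin 3) (Fin 3) ℝ :=
  Matrix.of fun i j : Fin 3 => H (β i) (β j)

variable {H : Bs →L[ℝ] Bs →L[ℝ] ℝ}

lemma Hm_hermitian (hs : ∀ v w, H v w = H w v) : (Hm H β).IsHermitian := by
  ext i j
  simp only [Hm, conjTranspose_apply, Matrix.of_apply, star_trivial]
  exact hs _ _

lemma Hm_quad (hs : ∀ v w, H v w = H w v) (c : Fin 3 → ℝ) : c ⬝ᵥ (Hm H β *ᵥ c) = H (comb β c) (comb β c) := by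
  simp only [Hm, comb, dotProduct, mulVec, Fin.sum_univ_three, Matrix.of_apply, map_add, map_smul, _root_.add_apply, _root_.smul_apply,
    smul_eq_mul]
  ring

lemma Hm_quad_b (hs : ∀ v w, H v w = H w v) (hb : H b = 0) (γ : Bs) (r : ℝ) : H (γ + r • b) (γ + r • b) = H γ γ := by
  simp only [map_add, map_smul, _root_.add_apply, _root_.smul_apply, hb]
  rw [hs γ b, hb]
  simp

/-- nondegeneracy modulo the radial direction -/
lemma Frame.nondeg (F : Frame b k L β) (hs : ∀ v w, H v w = H w v) (hb : H b = 0) (hdet : det (Hm H β) ≠ 0) (γ : Bs)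
    (hγ : H γ = 0) : ∃ r : ℝ, γ = r • b := by
  obtain ⟨c, r, rfl⟩ := F.span γ
  refine ⟨r, ?_⟩
  have h1 : Hm H β *ᵥ c = 0 := by
    ext i
    have h2 : H (comb β c + r • b) (β i) = 0 := by rw [hγ]; rfl
    simp only [map_add, map_smul, hb, smul_zero, add_zero] at h2
    simp only [Hm, mulVec, dotProduct, Fin.sum_univ_three, Matrix.of_apply, Pi.zero_apply]
    simp only [comb, map_add, map_smul, _root_.add_apply, _root_.smul_apply, smul_eq_mul] at h2
    rw [hs (β i) (β 0), hs (β i) (β 1), hs (β i) (β 2)]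
    linarith
  have h3 : c = 0 := by
    by_contra hne
    exact hdet (Matrix.exists_mulVec_eq_zero_iff.mp ⟨c, hne, h1⟩)
  rw [h3]
  simp [comb]

/-- lower bound for the determinant -/
lemma Frame.lower (F : Frame b k L β) (hs : ∀ v w, H v w = H w v) {A D : Fin 3 → ℝ} {ψ : Fin 3 → (Bs →L[ℝ] ℝ)}
    (hA : ∀ i, 0 < A i)
    (hq : ∀ γ, Bb b γ = k * L γ → Gf L γ γ = D 0 * ψ 0 γ ^ 2 + D 1 * ψ 1 γ ^ 2 + D 2 * ψ 2 γ ^ 2)
    (hH : ∀ γ, A 0 * ψ 0 γ ^ 2 + A 1 * ψ 1 γ ^ 2 + A 2 * ψ 2 γ ^ 2 ≤ H γ γ) :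
    A 0 * A 1 * A 2 ≤ det (Hm H β) * (D 0 * D 1 * D 2) := by
  set Ψ : Matrix (Fin 3) (Fin 3) ℝ := Matrix.of fun m i => ψ m (β i) with hΨ
  have hΨc : ∀ c m, (Ψ *ᵥ c) m = ψ m (comb β c) := by
    intro c m
    simp only [hΨ, mulVec, dotProduct, Fin.sum_univ_three, Matrix.of_apply, comb, map_add, map_smul, smul_eq_mul]
    ring
  apply det_ge (Hm_hermitian hs) (Ψ := Ψ) hA
  · ext i j
    have e : (Ψᵀ * diagonal D * Ψ) i j = D 0 * (ψ 0 (β i) * ψ 0 (β j)) + D 1 * (ψ 1 (β i) * ψ 1 (β j)) + D 2 * (ψ 2 (β i) * ψ 2 (β j)) := by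
      rw [Matrix.mul_apply]
      simp only [Matrix.mul_diagonal, Fin.sum_univ_three, transpose_apply, hΨ, Matrix.of_apply]
      ring
    rw [e, Matrix.one_apply, ← F.orth i j]
    have q1 := hq (β i) (F.tang i)
    have q2 := hq (β j) (F.tang j)
    have q3 := hq (β i + β j) (by rw [Bb_add_right, F.tang, F.tang, map_add]; ring)
    simp only [Gf_add_left, Gf_add_right, map_add] at q3
    rw [Gf_comm L (β j) (β i), q1, q2] at q3
    linarith
  · intro c
    rw [Hm_quad hs, Fin.sum_univ_three, hΨc, hΨc, hΨc]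
    exact hH _

/-- upper bound for the determinant -/
lemma Frame.upper (F : Frame b k L β) (hs : ∀ v w, H v w = H w v) (hb : H b = 0) (h3 : 0 < b 3)
    (hpos : ∀ γ, 0 ≤ H γ γ) {C : ℝ} (hC : 0 ≤ C)
    (hle : ∀ γ : Bs, γ 3 = 0 → H γ γ ≤ C * Gf L γ γ) : 0 ≤ det (Hm H β) ∧ det (Hm H β) ≤ C ^ 3 := by
  apply det_bounds (Hm_hermitian hs)
  · intro c; rw [Hm_quad hs]; exact hpos _
  · intro c
    rw [Hm_quad hs, ← F.comb_Gf]
    set γ := comb β c with hγ
    set r := -(γ 3 / b 3) with hr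
    have e1 : (γ + r • b) 3 = 0 := by
      simp [hr]; field_simp; ring
    rw [← Hm_quad_b hs hb γ r]
    refine (hle _ e1).trans ?_
    apply mul_le_mul_of_nonneg_left _ hC
    have e2 : Gf L b γ = 0 := by rw [Gf, F.comb_tang, F.euler]; ring
    have e3 : Gf L (γ + r • b) (γ + r • b) = Gf L γ γ - r ^ 2 := by
      simp only [Gf_add_left, Gf_add_right, Gf_smul_left, Gf_smul_right, F.Gf_bb, Gf_comm L γ b, e2]
      ring
    rw [e3]
    linarith [sq_nonneg r]

end Pool.Agent.H804
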