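import Pool.Agent.H804.Vert

set_option autoImplicit false

namespace Pool.Agent.H804

open Filter Topology KTime

lemma Rg_convex_comb {b b' : Bs} (h : b ∈ Rg) (h' : b' ∈ Rg) {u v : ℝ} (hu : 0 < u) (hv : 0 < v) :
    u • b + v • b' ∈ Rg := by
  obtain ⟨h1, h2, s, hs⟩ := h
  obtain ⟨h1', h2', s', hs'⟩ := h'
  refine ⟨?_, ?_, u * s + v * s', ?_⟩
  · have e : Bb (u • b + v • b') (u • b + v • b') = u ^ 2 * Bb b b + v ^ 2 * Bb b' b' + 2 * (u * v) * Bb b b' := by
      simp [Bb]; ring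
    rw [e]
    have key : Bb b b' < 0 := by
      unfold Bb at *
      have cs : (b 0 * b' 0 + 3 * (b 1 * b' 1) + 3 * (b 2 * b' 2)) ^ 2 ≤
          (b 0 * b 0 + 3 * (b 1 * b 1) + 3 * (b 2 * b 2)) * (b' 0 * b' 0 + 3 * (b' 1 * b' 1) + 3 * (b' 2 * b' 2)) := by
        linarith [sq_nonneg (b 0 * b' 1 - b 1 * b' 0), sq_nonneg (b 0 * b' 2 - b 2 * b' 0), sq_nonneg (b 1 * b' 2 - b 2 * b' 1)]
      have l1 : (b 0 * b 0 + 3 * (b 1 * b 1) + 3 * (b 2 * b 2)) * (b' 0 * b' 0 + 3 * (b' 1 * b' 1) + 3 * (b' 2 * b' 2)) < (b 3 * b 3) * (b' 3 * b' 3) := by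
        apply mul_lt_mul'' (by linarith) (by linarith)
        · linarith [mul_self_nonneg (b 0), mul_self_nonneg (b 1), mul_self_nonneg (b 2)]
        · linarith [mul_self_nonneg (b' 0), mul_self_nonneg (b' 1), mul_self_nonneg (b' 2)]
      have l2 : (b 0 * b' 0 + 3 * (b 1 * b' 1) + 3 * (b 2 * b' 2)) ^ 2 < (b 3 * b' 3) ^ 2 := by
        calc _ ≤ _ := cs
          _ < _ := l1
          _ = _ := by ring
      have l3 := abs_lt_of_sq_lt_sq l2 (by positivity)
      have := (abs_lt.mp l3).2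
      linarith
    have a1 : u ^ 2 * Bb b b < 0 := mul_neg_of_pos_of_neg (by positivity) h1
    have a2 : v ^ 2 * Bb b' b' < 0 := mul_neg_of_pos_of_neg (by positivity) h1'
    have a3 : 2 * (u * v) * Bb b b' < 0 := mul_neg_of_pos_of_neg (by positivity) key
    linarith
  · simp only [Pi.add_apply, Pi.smul_apply, smul_eq_mul]; positivity
  · rw [vt_add, vt_smul, vt_smul]
    exact Cn_add (hs.smul hu) (hs'.smul hv)

/-- the lowest height of the core is a convex function -/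
lemma convex_s1 : ConvexOn ℝ Rg s1 := by
  refine ⟨?_, ?_⟩
  · intro x hx y hy a b ha hb hab
    rcases ha.eq_or_lt with h | h
    · have : b = 1 := by linarith
      rw [← h, this]; simpa using hy
    · rcases hb.eq_or_lt with h' | h'
      · have : a = 1 := by linarith
        rw [← h', this]; simpa using hx
      · exact Rg_convex_comb hx hy h h'
  · intro x hx y hy a b ha hb hab
    rcases ha.eq_or_lt with h | h
    · have : b = 1 := by linarith
      rw [← h, this]; simp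
    · rcases hb.eq_or_lt with h' | h'
      · have : a = 1 := by linarith
        rw [← h', this]; simp
      · apply s1_le
        rw [vt_add]
        have e1 : vt (a • x) (a • s1 x) = a • vt x (s1 x) := vt_smul a x (s1 x)
        have e2 : vt (b • y) (b • s1 y) = b • vt y (s1 y) := vt_smul b y (s1 y)
        rw [e1, e2]
        exact Cn_add ((s1_mem hx).smul h) ((s1_mem hy).smul h')

lemma convex_Rg : Convex ℝ Rg := convex_s1.1

section

variable {t : V → ℝ} (ht : M0.IsKTime CC t) {a : ℝ}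

include ht in
lemma t_lt {b : Bs} (hb : b ∈ Rg) {s s' : ℝ} (h : Bel b s) (h' : Bel b s') (hlt : s < s') :
    t (nz (vt b s)) < t (nz (vt b s')) := by
  obtain ⟨u, hu⟩ := par_surj (s0_lt_s1 hb) ((Bel_iff hb).mp h)
  obtain ⟨v, hv⟩ := par_surj (s0_lt_s1 hb) ((Bel_iff hb).mp h')
  have h1 := ht.increasing (cvt hb) (cvt_causal hb)
  have h2 : u < v := by
    rw [← (par_strictMono (s0_lt_s1 hb)).lt_iff_lt, hu, hv]; exact hlt
  have h3 := h1 h2
  simp only [cvt] at h3
  rwa [hu, hv] at h3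

include ht in
/-- joint continuity of `t` in the vertical coordinates -/

lemma tvt_contAt {b : Bs} (hb : b ∈ interior Rg) {s : ℝ} (h : Bel b s) :
    ContinuousAt (fun p : Bs × ℝ => t (nz (vt p.1 p.2))) (b, s) := by
  have hbR := interior_subset hb
  have hP := Bel_past hbR h
  have hc := ht.continuousOn _ hP
  have h1 : Tendsto (fun p : Bs × ℝ => nz (vt p.1 p.2)) (𝓝 (b, s)) (𝓝[M0.past CC] (nz (vt b s))) := by
    rw [tendsto_nhdsWithin_iff]
    constructor
    · have e1 : ContinuousAt (fun p : Bs × ℝ => vt p.1 p.2) (b, s) := by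
        have : Continuous (fun p : Bs × ℝ => vt p.1 p.2) := by fun_prop
        exact this.continuousAt
      have e2 : ContinuousAt (fun p : Bs × ℝ => nz (vt p.1 p.2)) (b, s) :=
        ContinuousAt.comp (f := fun p : Bs × ℝ => vt p.1 p.2) (g := nz) (continuousAt_nz (vt_neg hbR.1 _)) e1
      exact e2.tendsto
    · have e3 : ∀ᶠ p : Bs × ℝ in 𝓝 (b, s), p.1 ∈ Rg :=
        (continuous_fst.tendsto (b, s)).eventually (mem_interior_iff_mem_nhds.mp hb)
      filter_upwards [Bel_open hbR h, e3] with p h1 h2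
      exact Bel_past h2 h1
  exact hc.tendsto.comp h1

include ht in
lemma tvt_tendsto {b : Bs} (hb : b ∈ interior Rg) {s : ℝ} (h : Bel b s) :
    Tendsto (fun b' => t (nz (vt b' s))) (𝓝 b) (𝓝 (t (nz (vt b s)))) := by
  have h1 : Tendsto (fun b' : Bs => (b', s)) (𝓝 b) (𝓝 (b, s)) := by
    have : Continuous fun b' : Bs => (b', s) := by fun_prop
    exact this.tendsto b
  exact Tendsto.comp (g := fun p : Bs × ℝ => t (nz (vt p.1 p.2))) (f := fun b' : Bs => (b', s))
    (tvt_contAt ht hb h) h1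

lemma Bel_ev {b : Bs} (hb : b ∈ Rg) {s : ℝ} (h : Bel b s) : ∀ᶠ b' in 𝓝 b, Bel b' s := by
  have hc : Continuous fun b' : Bs => (b', s) := by fun_prop
  exact (hc.tendsto b).eventually (Bel_open hb h)

lemma int_ev {b : Bs} (hb : b ∈ interior Rg) : ∀ᶠ b' in 𝓝 b, b' ∈ interior Rg :=
  isOpen_interior.mem_nhds hb

include ht in
/-- intermediate values along vertical lines -/

lemma vert_ivt {b : Bs} (hb : b ∈ interior Rg) {s s' : ℝ} (h : Bel b s) (h' : Bel b s')
    (h1 : t (nz (vt b s)) < a) (h2 : a < t (nz (vt b s'))) :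
    ∃ σ, s < σ ∧ σ < s' ∧ Bel b σ ∧ t (nz (vt b σ)) = a := by
  have hbR := interior_subset hb
  have hlt : s < s' := by
    by_contra hcon
    rcases (not_lt.mp hcon).eq_or_lt with e | e
    · rw [e] at h2; linarith
    · have := t_lt ht hbR h' h e
      linarith
  have hB : ∀ σ ∈ Set.Icc s s', Bel b σ := by
    intro σ hσ
    rw [Bel_iff hbR] at h h' ⊢
    exact ⟨h.1.trans_le hσ.1, hσ.2.trans_lt h'.2⟩
  have hc : ContinuousOn (fun σ => t (nz (vt b σ))) (Set.Icc s s') := by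
    intro σ hσ
    have h3 : ContinuousAt (fun σ' : ℝ => ((b, σ') : Bs × ℝ)) σ := by
      have : Continuous fun σ' : ℝ => ((b, σ') : Bs × ℝ) := by fun_prop
      exact this.continuousAt
    exact (ContinuousAt.comp (f := fun σ' : ℝ => ((b, σ') : Bs × ℝ)) (g := fun p : Bs × ℝ => t (nz (vt p.1 p.2)))
      (tvt_contAt ht hb (hB σ hσ)) h3).continuousWithinAt
  obtain ⟨σ, hσ, hσa⟩ := intermediate_value_Icc hlt.le hc ⟨h1.le, h2.le⟩
  refine ⟨σ, lt_of_le_of_ne hσ.1 ?_, lt_of_le_of_ne hσ.2 ?_, hB σ hσ, hσa⟩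
  · rintro rfl
    simp only at hσa; linarith
  · rintro rfl
    simp only at hσa; linarith

/-- all vertical lines go above the level `a` -/
def Above (t : V → ℝ) (a : ℝ) : Prop := ∀ b ∈ interior Rg, ∃ s, Bel b s ∧ a < t (nz (vt b s))

lemma Bel_up {b : Bs} (hb : b ∈ Rg) {s : ℝ} (h : Bel b s) : ∃ s', s < s' ∧ Bel b s' := by
  rw [Bel_iff hb] at h
  exact ⟨(s + s1 b) / 2, by linarith, (Bel_iff hb).mpr ⟨by linarith, by linarith⟩⟩

lemma Bel_down {b : Bs} (hb : b ∈ Rg) {s : ℝ} (h : Bel b s) : ∃ s', s' < s ∧ Bel b s' := by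
  rw [Bel_iff hb] at h
  exact ⟨(s0 b + s) / 2, by linarith, (Bel_iff hb).mpr ⟨by linarith, by linarith⟩⟩

include ht in
lemma above_closed (hcl : M0.IsClosedIn (M0.leaf CC t a)) {b₀ : Bs} (hb₀ : b₀ ∈ interior Rg) {σ₀ : ℝ} (h₀ : Bel b₀ σ₀)
    (ha₀ : t (nz (vt b₀ σ₀)) = a) : Above t a := by
  obtain ⟨F, hF, hleaf⟩ := hcl
  intro b hb
  by_contra hcon
  push Not at hcon
  set A1 : Set Bs := {b | b ∈ interior Rg ∧ ∃ s, Bel b s ∧ a < t (nz (vt b s))} with hA1
  set A2 : Set Bs := {b | b ∈ interior Rg ∧ ∀ s, Bel b s → t (nz (vt b s)) < a} with hA2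
  have h1 : IsOpen A1 := by
    rw [isOpen_iff_mem_nhds]
    rintro b ⟨hb, s, hs, hlt⟩
    filter_upwards [int_ev hb, Bel_ev (interior_subset hb) hs, (tvt_tendsto ht hb hs).eventually_const_lt hlt] with b' k1 k2 k3
    exact ⟨k1, s, k2, k3⟩
  have h2 : IsOpen A2 := by
    rw [isOpen_iff_mem_nhds]
    rintro b ⟨hb, hall⟩
    have hbR := interior_subset hb
    obtain ⟨s', hs'⟩ : ∃ s', Bel b s' := by
      have := s0_lt_s1 hbR
      exact ⟨(s0 b + s1 b) / 2, (Bel_iff hbR).mpr ⟨by linarith, by linarith⟩⟩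
    have hs'lt := ((Bel_iff hbR).mp hs').2
    -- points of the closed segment are not in `F`
    have hcont : Continuous fun p : Bs × ℝ => vt p.1 p.2 := by fun_prop
    have hnz : ∀ σ, ContinuousAt (fun p : Bs × ℝ => nz (vt p.1 p.2)) (b, σ) := fun σ =>
      ContinuousAt.comp (f := fun p : Bs × ℝ => vt p.1 p.2) (g := nz) (continuousAt_nz (vt_neg hbR.1 _)) hcont.continuousAt
    have hnF : ∀ σ ∈ Set.Icc s' (s1 b), nz (vt b σ) ∉ F := by
      intro σ hσ hmem
      have hO : vt b σ ∈ OmC := vt_convex hs'.1 (s1_mem hbR).1 hσ.1 hσ.2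
      have hl : nz (vt b σ) ∈ M0.leaf CC t a := by
        rw [hleaf]; exact ⟨hmem, nz_Om hO⟩
      rcases hσ.2.eq_or_lt with e | e
      · apply hl.1.2.1
        rw [e]; exact (s1_mem hbR).2
      · have hB : Bel b σ := (Bel_iff hbR).mpr ⟨((Bel_iff hbR).mp hs').1.trans_le hσ.1, e⟩
        have := hall σ hB
        rw [hl.2] at this
        exact lt_irrefl _ this
    -- a little more room above
    obtain ⟨ε, hε, hroom⟩ : ∃ ε > 0, ∀ σ ∈ Set.Icc s' (s1 b + ε), nz (vt b σ) ∉ F := by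
      have hev : ∀ᶠ σ in 𝓝 (s1 b), nz (vt b σ) ∉ F := by
        have hc : ContinuousAt (fun σ : ℝ => nz (vt b σ)) (s1 b) := by
          have h3 : ContinuousAt (fun σ' : ℝ => ((b, σ') : Bs × ℝ)) (s1 b) := by
            have : Continuous fun σ' : ℝ => ((b, σ') : Bs × ℝ) := by fun_prop
            exact this.continuousAt
          exact ContinuousAt.comp (f := fun σ' : ℝ => ((b, σ') : Bs × ℝ)) (g := fun p : Bs × ℝ => nz (vt p.1 p.2)) (hnz _) h3
        exact hc.eventually_mem (hF.isOpen_compl.mem_nhds (hnF _ ⟨hs'lt.le, le_rfl⟩))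
      obtain ⟨ε, hε, hball⟩ := Metric.eventually_nhds_iff.mp hev
      refine ⟨ε / 2, by linarith, ?_⟩
      intro σ hσ
      rcases le_or_gt σ (s1 b) with h | h
      · exact hnF σ ⟨hσ.1, h⟩
      · apply hball
        rw [Real.dist_eq, abs_lt]
        constructor <;> linarith [hσ.2]
    have htube : ∀ᶠ b' in 𝓝 b, ∀ σ ∈ Set.Icc s' (s1 b + ε), nz (vt b' σ) ∉ F := by
      apply isCompact_Icc.eventually_forall_of_forall_eventually
      intro σ hσ
      exact (hnz σ).eventually_mem (hF.isOpen_compl.mem_nhds (hroom σ hσ))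
    have husc : ∀ᶠ b' in 𝓝 b, s1 b' < s1 b + ε := by
      have h3 : ContinuousAt s1 b := (convex_s1.continuousOn_interior).continuousAt (isOpen_interior.mem_nhds hb)
      exact h3.tendsto.eventually_lt_const (by linarith)
    filter_upwards [int_ev hb, Bel_ev hbR hs', (tvt_tendsto ht hb hs').eventually_lt_const (hall s' hs'), htube, husc] with b' k1 k2 k3 k4 k5
    refine ⟨k1, ?_⟩
    intro s hs
    by_contra hge
    push Not at hge
    have k1R := interior_subset k1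
    obtain ⟨s'', hs''1, hs''2⟩ := Bel_up k1R hs
    have k6 := t_lt ht k1R hs hs''2 hs''1
    obtain ⟨σ, hσ1, hσ2, hσ3, hσ4⟩ := vert_ivt ht k1 (a := a) k2 hs''2 k3 (by linarith)
    have k7 := ((Bel_iff k1R).mp hs''2).2
    apply k4 σ ⟨hσ1.le, by linarith⟩
    have : nz (vt b' σ) ∈ M0.leaf CC t a := ⟨Bel_past k1R hσ3, hσ4⟩
    rw [hleaf] at this
    exact this.1
  have h3 : interior Rg ⊆ A1 ∪ A2 := by
    intro b hb
    by_cases h : ∃ s, Bel b s ∧ a < t (nz (vt b s))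
    · exact Or.inl ⟨hb, h⟩
    · right
      push Not at h
      refine ⟨hb, ?_⟩
      intro s hs
      obtain ⟨s', hs', hB'⟩ := Bel_up (interior_subset hb) hs
      exact (t_lt ht (interior_subset hb) hs hB' hs').trans_le (h s' hB')
  have hpre : IsPreconnected (interior Rg) := convex_Rg.interior.isPreconnected
  obtain ⟨b', _, hb'1, hb'2⟩ := hpre A1 A2 h1 h2 h3
    (by
      obtain ⟨s', hs', hB'⟩ := Bel_up (interior_subset hb₀) h₀
      refine ⟨b₀, hb₀, hb₀, s', hB', ?_⟩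
      rw [← ha₀]
      exact t_lt ht (interior_subset hb₀) h₀ hB' hs')
    (by
      refine ⟨b, hb, hb, ?_⟩
      intro s hs
      obtain ⟨s', hs', hB'⟩ := Bel_up (interior_subset hb) hs
      exact (t_lt ht (interior_subset hb) hs hB' hs').trans_le (hcon s' hB'))
  obtain ⟨_, s, hs, hlt⟩ := hb'1
  have := hb'2.2 s hs
  linarith

include ht in
/-- the leaves do not run into the core -/

lemma above_of_leaf {b₀ : Bs} (hb₀ : b₀ ∈ interior Rg) {σ₀ : ℝ} (h₀ : Bel b₀ σ₀)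
    (ha₀ : t (nz (vt b₀ σ₀)) = a) : Above t a := by
  have ha : a ∈ t '' M0.past CC := ⟨_, Bel_past (interior_subset hb₀) h₀, ha₀⟩
  rcases ht.leaves a ha with hC | hcl
  · intro b hb
    have hbR := interior_subset hb
    obtain ⟨u, hu, _⟩ := hC (cvt hbR) (cvt_causal hbR) (cvt_inext hbR)
    have h1 : t (cvt hbR u) = a := hu
    refine ⟨par (s0 b) (s1 b) (u + 1), (Bel_iff hbR).mpr (par_mem (s0_lt_s1 hbR) _), ?_⟩
    have h2 := ht.increasing (cvt hbR) (cvt_causal hbR) (show u < u + 1 by linarith)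
    simp only at h2
    rw [h1] at h2
    exact h2
  · exact above_closed ht hcl hb₀ h₀ ha₀

/-- base points whose vertical line goes below the level `a` -/
def Ra (t : V → ℝ) (a : ℝ) : Set Bs := {b | b ∈ interior Rg ∧ ∃ s, Bel b s ∧ t (nz (vt b s)) < a}

lemma Ra_int : Ra t a ⊆ interior Rg := fun _ h => h.1

lemma Ra_Rg : Ra t a ⊆ Rg := fun _ h => interior_subset h.1

include ht in
lemma isOpen_Ra : IsOpen (Ra t a) := by
  rw [isOpen_iff_mem_nhds]
  rintro b ⟨hb, s, hs, hlt⟩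
  filter_upwards [int_ev hb, Bel_ev (interior_subset hb) hs, (tvt_tendsto ht hb hs).eventually_lt_const hlt] with b' k1 k2 k3
  exact ⟨k1, s, k2, k3⟩

include ht in
lemma exists_hh (hA : Above t a) {b : Bs} (hb : b ∈ Ra t a) :
    ∃ s, Bel b s ∧ t (nz (vt b s)) = a := by
  obtain ⟨hbi, s, hs, hlt⟩ := hb
  obtain ⟨s', hs', hlt'⟩ := hA b hbi
  obtain ⟨σ, _, _, h3, h4⟩ := vert_ivt ht hbi hs hs' hlt hlt'
  exact ⟨σ, h3, h4⟩

open Classical in

/-- the height of the leaf `t = a` over `b` -/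
noncomputable def hh (t : V → ℝ) (a : ℝ) (b : Bs) : ℝ :=
  if h : ∃ s, Bel b s ∧ t (nz (vt b s)) = a then h.choose else 0

lemma hh_spec' {b : Bs} (h : ∃ s, Bel b s ∧ t (nz (vt b s)) = a) :
    Bel b (hh t a b) ∧ t (nz (vt b (hh t a b))) = a := by
  unfold hh
  rw [dif_pos h]
  exact h.choose_spec

include ht in
lemma hh_spec (hA : Above t a) {b : Bs} (hb : b ∈ Ra t a) :
    Bel b (hh t a b) ∧ t (nz (vt b (hh t a b))) = a := hh_spec' (exists_hh ht hA hb)

include ht in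
lemma hh_unique {b : Bs} (hb : b ∈ Rg) {s : ℝ} (h : Bel b s)
    (hs : t (nz (vt b s)) = a) : s = hh t a b := by
  obtain ⟨h1, h2⟩ := hh_spec' ⟨s, h, hs⟩
  by_contra hne
  rcases lt_or_gt_of_ne hne with h3 | h3
  · have := t_lt ht hb h h1 h3
    rw [hs, h2] at this
    exact lt_irrefl _ this
  · have := t_lt ht hb h1 h h3
    rw [hs, h2] at this
    exact lt_irrefl _ this

include ht in
/-- points of level at most `a` are below the leaf -/

lemma le_hh (hA : Above t a) {b : Bs} (hb : b ∈ Ra t a) {s : ℝ} (h : Bel b s)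
    (hs : t (nz (vt b s)) ≤ a) : s ≤ hh t a b := by
  obtain ⟨h1, h2⟩ := hh_spec ht hA hb
  by_contra hcon
  have := t_lt ht (Ra_Rg hb) h1 h (not_le.mp hcon)
  linarith

lemma Rg_smul {b : Bs} (hb : b ∈ Rg) {r : ℝ} (hr : 0 < r) : r • b ∈ Rg := by
  obtain ⟨h1, h2, s, hs⟩ := hb
  refine ⟨?_, ?_, r * s, ?_⟩
  · have : Bb (r • b) (r • b) = r ^ 2 * Bb b b := by simp [Bb]; ring
    rw [this]
    exact mul_neg_of_pos_of_neg (by positivity) h1
  · simp only [Pi.smul_apply, smul_eq_mul]; positivity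
  · rw [vt_smul]; exact hs.smul hr

lemma int_smul {b : Bs} (hb : b ∈ interior Rg) {r : ℝ} (hr : 0 < r) : r • b ∈ interior Rg := by
  have hc : Continuous fun y : Bs => r⁻¹ • y := by fun_prop
  rw [mem_interior_iff_mem_nhds] at hb ⊢
  have e : r⁻¹ • (r • b) = b := by rw [smul_smul, inv_mul_cancel₀ hr.ne', one_smul]
  have h1 : ∀ᶠ y in 𝓝 (r • b), r⁻¹ • y ∈ Rg := by
    have h2 : Tendsto (fun y : Bs => r⁻¹ • y) (𝓝 (r • b)) (𝓝 b) := by
      have := hc.tendsto (r • b)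
      rwa [e] at this
    exact h2 hb
  filter_upwards [h1] with y hy
  have := Rg_smul hy hr
  rwa [smul_smul, mul_inv_cancel₀ hr.ne', one_smul] at this

lemma Bel_smul {b : Bs} {s r : ℝ} (hr : 0 < r) (h : Bel b s) : Bel (r • b) (r * s) := by
  refine ⟨by rw [vt_smul]; exact OmC_smul h.1 hr, ?_⟩
  intro s' hs' hC
  apply h.2 (r⁻¹ * s')
  · rw [inv_mul_le_iff₀ hr]; exact hs'
  · have h1 := hC.smul (inv_pos.mpr hr)
    rw [← vt_smul, smul_smul, inv_mul_cancel₀ hr.ne', one_smul] at h1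
    exact h1

lemma t_smul {b : Bs} {s r : ℝ} (hr : 0 < r) : t (nz (vt (r • b) (r * s))) = t (nz (vt b s)) := by
  rw [vt_smul, nz_smul hr]

lemma Ra_smul {b : Bs} (hb : b ∈ Ra t a) {r : ℝ} (hr : 0 < r) : r • b ∈ Ra t a := by
  obtain ⟨h1, s, h2, h3⟩ := hb
  exact ⟨int_smul h1 hr, r * s, Bel_smul hr h2, by rw [t_smul (t := t) hr]; exact h3⟩

include ht in
lemma hh_smul {b : Bs} (hb : b ∈ Rg) {r : ℝ} (hr : 0 < r) :
    hh t a (r • b) = r * hh t a b := by
  by_cases h : ∃ s, Bel b s ∧ t (nz (vt b s)) = a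
  · obtain ⟨h1, h2⟩ := hh_spec' h
    symm
    apply hh_unique ht (Rg_smul hb hr) (Bel_smul hr h1)
    rw [t_smul (t := t) hr, h2]
  · have h' : ¬ ∃ s, Bel (r • b) s ∧ t (nz (vt (r • b) s)) = a := by
      rintro ⟨s, h1, h2⟩
      apply h
      refine ⟨r⁻¹ * s, ?_, ?_⟩
      · have := Bel_smul (inv_pos.mpr hr) h1
        rwa [smul_smul, inv_mul_cancel₀ hr.ne', one_smul] at this
      · have := t_smul (t := t) (b := r • b) (s := s) (inv_pos.mpr hr)
        rw [smul_smul, inv_mul_cancel₀ hr.ne', one_smul] at this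
        rw [this, h2]
    unfold hh
    rw [dif_neg h, dif_neg h', mul_zero]

include ht in
lemma hh_contAt (hA : Above t a) {b : Bs} (hb : b ∈ Ra t a) : ContinuousAt (hh t a) b := by
  have hbi := hb.1
  have hbR := interior_subset hbi
  obtain ⟨h1, h2⟩ := hh_spec ht hA hb
  obtain ⟨hs0, hs1⟩ := (Bel_iff hbR).mp h1
  rw [Metric.continuousAt_iff']
  intro ε hε
  set η := min (ε / 2) (min ((hh t a b - s0 b) / 2) ((s1 b - hh t a b) / 2)) with hη
  have hη0 : 0 < η := by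
    refine lt_min (by linarith) (lt_min (by linarith) (by linarith))
  have hη1 : η ≤ ε / 2 := min_le_left _ _
  have hη2 : η ≤ (hh t a b - s0 b) / 2 := (min_le_right _ _).trans (min_le_left _ _)
  have hη3 : η ≤ (s1 b - hh t a b) / 2 := (min_le_right _ _).trans (min_le_right _ _)
  have hB1 : Bel b (hh t a b - η) := (Bel_iff hbR).mpr ⟨by linarith, by linarith⟩
  have hB2 : Bel b (hh t a b + η) := (Bel_iff hbR).mpr ⟨by linarith, by linarith⟩
  have l1 : t (nz (vt b (hh t a b - η))) < a := by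
    have := t_lt ht hbR hB1 h1 (by linarith)
    rwa [h2] at this
  have l2 : a < t (nz (vt b (hh t a b + η))) := by
    have := t_lt ht hbR h1 hB2 (by linarith)
    rwa [h2] at this
  have e1 := (tvt_tendsto ht hbi hB1).eventually_lt_const l1
  have e2 := (tvt_tendsto ht hbi hB2).eventually_const_lt l2
  filter_upwards [e1, e2, int_ev hbi, Bel_ev hbR hB1, Bel_ev hbR hB2] with b' g1 g2 g3 g4 g5
  obtain ⟨σ, k1, k2, k3, k4⟩ := vert_ivt ht g3 g4 g5 g1 g2
  have k5 := hh_unique ht (interior_subset g3) k3 k4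
  rw [← k5, Real.dist_eq, abs_lt]
  constructor <;> linarith

include ht in
/-- a level which is high enough with respect to compact sets -/

lemma exists_level {G : Set Bs} (hG : IsCompact G) (hGi : G ⊆ interior Rg) {Z : Set V} (hZ : IsCompact Z)
    (hZp : ∀ z ∈ Z, ∃ b ∈ interior Rg, ∃ s, Bel b s ∧ z = nz (vt b s)) (hne : Z.Nonempty) :
    ∃ a, (∃ b₀ ∈ interior Rg, ∃ s₀, Bel b₀ s₀ ∧ t (nz (vt b₀ s₀)) = a) ∧ (∀ z ∈ Z, t z ≤ a) ∧ G ⊆ Ra t a := by
  have hP : ∃ b₀ ∈ interior Rg, ∃ s₀, Bel b₀ s₀ ∧ ∀ g ∈ G, g ∈ interior Rg →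
      ∃ s, Bel g s ∧ t (nz (vt g s)) < t (nz (vt b₀ s₀)) := by
    apply hG.induction_on (p := fun S => ∃ b₀ ∈ interior Rg, ∃ s₀, Bel b₀ s₀ ∧ ∀ g ∈ S, g ∈ interior Rg →
      ∃ s, Bel g s ∧ t (nz (vt g s)) < t (nz (vt b₀ s₀)))
    · obtain ⟨z, hz⟩ := hne
      obtain ⟨b, hb, s, hs, _⟩ := hZp z hz
      exact ⟨b, hb, s, hs, fun g hg => absurd hg (Set.notMem_empty g)⟩
    · rintro S T hST ⟨b, hb, s, hs, h⟩
      exact ⟨b, hb, s, hs, fun g hg => h g (hST hg)⟩
    · rintro S T ⟨b, hb, s, hs, h⟩ ⟨b', hb', s', hs', h'⟩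
      rcases le_total (t (nz (vt b s))) (t (nz (vt b' s'))) with hle | hle
      · refine ⟨b', hb', s', hs', ?_⟩
        rintro g (hg | hg) hgi
        · obtain ⟨σ, h1, h2⟩ := h g hg hgi
          exact ⟨σ, h1, h2.trans_le hle⟩
        · exact h' g hg hgi
      · refine ⟨b, hb, s, hs, ?_⟩
        rintro g (hg | hg) hgi
        · exact h g hg hgi
        · obtain ⟨σ, h1, h2⟩ := h' g hg hgi
          exact ⟨σ, h1, h2.trans_le hle⟩
    · intro x hx
      have hxi := hGi hx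
      have hxR := interior_subset hxi
      obtain ⟨s, hs⟩ : ∃ s, Bel x s := by
        have := s0_lt_s1 hxR
        exact ⟨(s0 x + s1 x) / 2, (Bel_iff hxR).mpr ⟨by linarith, by linarith⟩⟩
      obtain ⟨s', hlt, hs'⟩ := Bel_up hxR hs
      refine ⟨{g | Bel g s ∧ t (nz (vt g s)) < t (nz (vt x s'))}, ?_, x, hxi, s', hs', ?_⟩
      · apply mem_nhdsWithin_of_mem_nhds
        filter_upwards [Bel_ev hxR hs, (tvt_tendsto ht hxi hs).eventually_lt_const (t_lt ht hxR hs hs' hlt)] with g h1 h2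
        exact ⟨h1, h2⟩
      · rintro g ⟨h1, h2⟩ _
        exact ⟨s, h1, h2⟩
  obtain ⟨b, hb, s, hs, h⟩ := hP
  have hZpast : Z ⊆ M0.past CC := by
    intro z hz
    obtain ⟨b, hb, s, hs, rfl⟩ := hZp z hz
    exact Bel_past (interior_subset hb) hs
  obtain ⟨z, hz, hmax⟩ := hZ.exists_isMaxOn hne (ht.continuousOn.mono hZpast)
  have hmax' : ∀ w ∈ Z, t w ≤ t z := fun w hw => hmax hw
  obtain ⟨b', hb', s', hs', rfl⟩ := hZp z hz
  rcases le_total (t (nz (vt b s))) (t (nz (vt b' s'))) with hle | hle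
  · refine ⟨_, ⟨b', hb', s', hs', rfl⟩, hmax', ?_⟩
    intro g hg
    obtain ⟨σ, h1, h2⟩ := h g hg (hGi hg)
    exact ⟨hGi hg, σ, h1, h2.trans_le hle⟩
  · refine ⟨_, ⟨b, hb, s, hs, rfl⟩, fun w hw => (hmax' w hw).trans hle, ?_⟩
    intro g hg
    obtain ⟨σ, h1, h2⟩ := h g hg (hGi hg)
    exact ⟨hGi hg, σ, h1, h2⟩

end

end Pool.Agent.H804
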