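import Pool.Agent.H804.GraphC
import Pool.Agent.H804.Leaf

set_option autoImplicit false

namespace Pool.Agent.H804

open Filter Topology KTime

lemma D2_eq {f : V → ℝ} {x : V} (hf : ContDiffAt ℝ 2 f x) (u v : V) :
    KTime.D2 (n := 3) f x u v = fderiv ℝ (fderiv ℝ f) x u v := by
  have h1 : ContDiffAt ℝ 1 (fderiv ℝ f) x := hf.fderiv_right (by norm_num)
  have h2 : HasFDerivAt (fderiv ℝ f) (fderiv ℝ (fderiv ℝ f) x) x := (h1.differentiableAt (by simp)).hasFDerivAt
  have h3 := h2.clm_apply (hasFDerivAt_const v x)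
  have h4 : fderiv ℝ (fun y => fderiv ℝ f y v) x = _ := h3.fderiv
  show fderiv ℝ (fun y => fderiv ℝ f y v) x u = _
  rw [h4]
  simp

lemma HasK_elim {S : Set V} {x : V} {κ : ℝ} (hκ : M0.Q.HasKCurvatureAt S x κ) :
    ∃ (f : V → ℝ) (N : V) (u : Fin 3 → V), ContDiffAt ℝ 2 f x ∧
      (∀ᶠ y in 𝓝 x, B y y = -1 → (y ∈ S ↔ f y = 0)) ∧
      B x N = 0 ∧ B N N < 0 ∧ 0 < om x N ∧ (∀ v, B x v = 0 → fderiv ℝ f x v = B N v) ∧
      (∀ i, B x (u i) = 0 ∧ B N (u i) = 0) ∧ (∀ i j, B (u i) (u j) = if i = j then 1 else 0) ∧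
      κ = - Matrix.det (Matrix.of fun i j : Fin 3 =>
        (fderiv ℝ (fderiv ℝ f) x (u i) (u j) + B (u i) (u j) * fderiv ℝ f x x) / Real.sqrt (-(B N N))) := by
  obtain ⟨f, N, u, ⟨hf, hS, h1, h2, h3, h4⟩, ⟨h5, h6⟩, h7⟩ := hκ
  change ∀ᶠ y in 𝓝 _, Q3.ip y y = -1 → _ at hS
  change Q3.ip _ N = 0 at h1
  change Q3.ip N N < 0 at h2
  change ∀ v, Q3.ip _ v = 0 → _ = Q3.ip N v at h4
  change ∀ i, Q3.ip _ (u i) = 0 ∧ Q3.ip N (u i) = 0 at h5
  change ∀ i j, Q3.ip (u i) (u j) = _ at h6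
  change κ = - Matrix.det (Matrix.of fun i j : Fin 3 =>
      (KTime.D2 (n := 3) f x (u i) (u j) + Q3.ip (u i) (u j) * fderiv ℝ f _ _) /
        Real.sqrt (-(Q3.ip N N))) at h7
  simp only [ip_eq, D2_eq hf] at hS h1 h2 h4 h5 h6 h7
  rw [orient_eq] at h3
  exact ⟨f, N, u, hf, hS, h1, h2, h3, h4, h5, h6, h7⟩

section

variable {t : V → ℝ} (ht : M0.IsKTime CC t) {a : ℝ}

include ht in
theorem Kform (hA : Above t a) {b : Bs} (hb : b ∈ Ra t a)
    (hx : Bb b b - hh t a b * hh t a b = -1) {κ : ℝ}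
    (hκ : M0.Q.HasKCurvatureAt (M0.leaf CC t a) (vt b (hh t a b)) κ) :
    ContDiffAt ℝ 2 (hh t a) b ∧ ∃ (β : Fin 3 → Bs) (g : ℝ), 0 < g ∧
      (∀ i, Bb b (β i) = hh t a b * fderiv ℝ (hh t a) b (β i)) ∧
      (∀ i j, Bb (β i) (β j) - fderiv ℝ (hh t a) b (β i) * fderiv ℝ (hh t a) b (β j) = if i = j then 1 else 0) ∧
      g ^ 2 = g2 (fderiv ℝ (hh t a) b) ∧
      κ * g ^ 3 = - Matrix.det (Matrix.of fun i j : Fin 3 => fderiv ℝ (fderiv ℝ (hh t a)) b (β i) (β j)) := by
  obtain ⟨f, N, u, hf, hS, h1, h2, h3, h4, h5, h6, h7⟩ := HasK_elim hκ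
  set h := hh t a with hh_def
  set x := vt b (h b) with hxdef
  have hbR : b ∈ Rg := Ra_Rg hb
  have hxx : B x x = -1 := by rw [hxdef, B_vt]; exact hx
  have hxn : B x x < 0 := by rw [hxx]; norm_num
  have hx4 : x 4 = h b := vt_4 _ _
  have hx3 : x 3 = b 3 := by simp [hxdef, vt]
  have hN4 : 0 < N 4 := by
    apply N4_pos hxx _ _ h1 h2 h3
    · rw [hx4]; linarith [hbR.1]
    · rw [hx3]; exact hbR.2.1
  obtain ⟨hF, hdF, hD2⟩ := F_rel hf hxx
  have hd : ∀ v, fderiv ℝ (fun z => f (nz z)) x v = B N v := by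
    intro v
    rw [hdF v, h4 _ (by rw [B_add_right, B_smul_right, hxx]; ring), B_add_right, B_smul_right, B_comm N x, h1]
    ring
  have hcont : ContinuousAt h b := hh_contAt ht hA hb
  have h0 : ∀ᶠ b' in 𝓝 b, (fun z => f (nz z)) (vt b' (h b')) = 0 := by
    have hc1 : ContinuousAt (fun b' => vt b' (h b')) b := by
      have := (vtL.continuous.continuousAt (x := (b, h b))).comp (f := fun b' => (b', h b')) (continuousAt_id.prodMk hcont)
      exact this
    have hc2 : ContinuousAt (fun b' => nz (vt b' (h b'))) b :=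
      ContinuousAt.comp (f := fun b' => vt b' (h b')) (g := nz) (continuousAt_nz hxn) hc1
    have hc3 : Tendsto (fun b' => nz (vt b' (h b'))) (𝓝 b) (𝓝 x) := by
      have h9 : Tendsto (fun b' => nz (vt b' (h b'))) (𝓝 b) (𝓝 (nz x)) := hc2
      rwa [nz_of_neg_one hxx] at h9
    filter_upwards [hc3.eventually hS, (isOpen_Ra ht).mem_nhds hb] with b' k1 k2
    obtain ⟨m1, m2⟩ := hh_spec ht hA k2
    exact (k1 (nz_q (vt_neg (Ra_Rg k2).1 _))).mp ⟨Bel_past (Ra_Rg k2) m1, m2⟩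
  have hC2 : ContDiffAt ℝ 2 h b := graph_C2 hF hd hN4.ne' hcont h0
  refine ⟨hC2, ?_⟩
  have hform := graph_forms hF hd hC2 h0
  set L := fderiv ℝ h b with hL
  set H := fderiv ℝ (fderiv ℝ h) b with hH
  have hN : ∀ β, Bb (bs N) β = N 4 * L β := by
    intro β
    have := (hform β).1
    rw [B_vt_right] at this
    linarith
  have hu4 : ∀ v, B N v = 0 → v = vt (bs v) (L (bs v)) := by
    intro v hv
    have e : B N v = Bb (bs N) (bs v) - N 4 * v 4 := by
      conv_lhs => rw [← vt_bs v]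
      exact B_vt_right _ _ _
    rw [e, hN] at hv
    have : v 4 = L (bs v) := by
      have : N 4 * (L (bs v) - v 4) = 0 := by linarith
      rcases mul_eq_zero.mp this with h | h
      · exact absurd h hN4.ne'
      · linarith
    rw [← this, vt_bs]
  -- the second fundamental form as a quadratic form
  have hq : ∀ v, B x v = 0 → B N v = 0 →
      fderiv ℝ (fderiv ℝ f) x v v + B v v * fderiv ℝ f x x = N 4 * H (bs v) (bs v) := by
    intro v hv1 hv2
    rw [← hD2 v hv1]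
    have := (hform (bs v)).2
    rw [← hu4 v hv2] at this
    exact this
  have hsf : IsSymmSndFDerivAt ℝ f x := hf.isSymmSndFDerivAt (by simp)
  have hsh : IsSymmSndFDerivAt ℝ h b := hC2.isSymmSndFDerivAt (by simp)
  have bs_add : ∀ v w, bs (v + w) = bs v + bs w := by
    intro v w; ext i; fin_cases i <;> simp [bs]
  have hm : ∀ i j, fderiv ℝ (fderiv ℝ f) x (u i) (u j) + B (u i) (u j) * fderiv ℝ f x x =
      N 4 * H (bs (u i)) (bs (u j)) := by
    intro i j
    have q1 := hq (u i) (h5 i).1 (h5 i).2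
    have q2 := hq (u j) (h5 j).1 (h5 j).2
    have q3 := hq (u i + u j) (by rw [B_add_right, (h5 i).1, (h5 j).1, add_zero])
      (by rw [B_add_right, (h5 i).2, (h5 j).2, add_zero])
    have s1 := hsf.eq (u i) (u j)
    have s2 := hsh.eq (bs (u i)) (bs (u j))
    rw [bs_add] at q3
    simp only [map_add, add_apply, B_add_left, B_add_right] at q3
    rw [B_comm (u j) (u i)] at q3
    rw [← s1] at q3
    change H (bs (u i)) (bs (u j)) = H (bs (u j)) (bs (u i)) at s2
    rw [← s2] at q3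
    linarith
  have hsq : 0 < Real.sqrt (-(B N N)) := Real.sqrt_pos.mpr (by linarith)
  have hsq2 : Real.sqrt (-(B N N)) ^ 2 = -(B N N) := Real.sq_sqrt (by linarith)
  refine ⟨fun i => bs (u i), Real.sqrt (-(B N N)) / N 4, by positivity, ?_, ?_, ?_, ?_⟩
  · intro i
    have k1 := (h5 i).1
    rw [hu4 (u i) (h5 i).2, hxdef, B_vt] at k1
    linarith
  · intro i j
    have k1 := h6 i j
    rw [hu4 (u i) (h5 i).2, hu4 (u j) (h5 j).2, B_vt] at k1
    exact k1
  · rw [div_pow, hsq2]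
    have e0 := hN (Pi.single 0 1)
    have e1 := hN (Pi.single 1 1)
    have e2 := hN (Pi.single 2 1)
    have e3 := hN (Pi.single 3 1)
    simp [Bb, bs] at e0 e1 e2 e3
    have hN4' := hN4.ne'
    have g0 : L (Pi.single 0 1) = N 0 / N 4 := by rw [e0]; field_simp
    have g1 : L (Pi.single 1 1) = 3 * N 1 / N 4 := by rw [e1]; field_simp
    have g3 : L (Pi.single 2 1) = 3 * N 2 / N 4 := by rw [e2]; field_simp
    have g4 : L (Pi.single 3 1) = - N 3 / N 4 := by rw [e3]; field_simp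
    unfold g2
    rw [g0, g1, g3, g4]
    unfold B
    field_simp
    ring
  · rw [h7]
    have e : (Matrix.of fun i j : Fin 3 => (fderiv ℝ (fderiv ℝ f) x (u i) (u j) + B (u i) (u j) * fderiv ℝ f x x) /
        Real.sqrt (-(B N N))) = (N 4 / Real.sqrt (-(B N N))) • (Matrix.of fun i j : Fin 3 => H (bs (u i)) (bs (u j))) := by
      ext i j
      simp only [Matrix.of_apply, Matrix.smul_apply, smul_eq_mul]
      rw [hm]
      ring
    rw [e, Matrix.det_smul]
    simp only [Fintype.card_fin]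
    have := hN4.ne'
    have := hsq.ne'
    field_simp

end

end Pool.Agent.H804
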