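import Mathlib

set_option autoImplicit false

namespace Pool.Agent.H804

open Filter Topology Set

variable {X Y : Type*} [TopologicalSpace X] [TopologicalSpace Y] [T2Space X] [T2Space Y]

/-- a lift of `ν` through `δ` on the open interval `(p,q)` with initial value `y` at `0` -/
structure IsLift (δ : Y → X) (ν : ℝ → X) (y : Y) (p q : ℝ) (c : ℝ → Y) : Prop where
  hp : p < 0
  hq : 0 < q
  cont : ContinuousOn c (Ioo p q)
  eq : ∀ t ∈ Ioo p q, δ (c t) = ν t
  init : c 0 = y

variable {δ : Y → X} {ν : ℝ → X} {y1 : Y}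

omit [T2Space X] in

lemma IsLift.unique (hδ : IsLocalHomeomorph δ) {p q p' q' : ℝ} {c c' : ℝ → Y}
    (h : IsLift δ ν y1 p q c) (h' : IsLift δ ν y1 p' q' c') :
    EqOn c c' (Ioo p q ∩ Ioo p' q') := by
  have hpre : IsPreconnected (Ioo p q ∩ Ioo p' q') := by
    rw [Ioo_inter_Ioo]; exact isPreconnected_Ioo
  have hsep : IsSeparatedMap δ := T2Space.isSeparatedMap δ
  apply hsep.eqOn_of_comp_eqOn hδ.isLocallyInjective hpre (h.cont.mono inter_subset_left)
    (h'.cont.mono inter_subset_right) (a := 0) _ ⟨⟨h.hp, h.hq⟩, ⟨h'.hp, h'.hq⟩⟩ (by rw [h.init, h'.init])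
  intro t ht
  simp only [Function.comp_apply]
  rw [h.eq t ht.1, h'.eq t ht.2]

/-- extension of a lift beyond an endpoint where it converges -/
lemma IsLift.extend_right (hδ : IsLocalHomeomorph δ) {p q b0 : ℝ} {c : ℝ → Y}
    (h : IsLift δ ν y1 p q c) (hqb : q < b0) (hν : ContinuousOn ν (Ioo p b0)) {y : Y}
    (hy : Tendsto c (𝓝[<] q) (𝓝 y)) : ∃ q' > q, q' ≤ b0 ∧ ∃ c', IsLift δ ν y1 p q' c' := by
  have hpq : p < q := h.hp.trans h.hq
  have hνq : ContinuousAt ν q := hν.continuousAt (Ioo_mem_nhds hpq hqb)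
  have hδy : δ y = ν q := by
    have h1 : Tendsto (fun t => δ (c t)) (𝓝[<] q) (𝓝 (δ y)) := (hδ.continuous.tendsto y).comp hy
    have h2 : Tendsto (fun t => δ (c t)) (𝓝[<] q) (𝓝 (ν q)) := by
      apply (hνq.tendsto.mono_left nhdsWithin_le_nhds).congr'
      filter_upwards [Ioo_mem_nhdsLT hpq] with t ht
      exact (h.eq t ht).symm
    exact tendsto_nhds_unique h1 h2
  obtain ⟨e, hye, rfl⟩ := hδ y
  have hνt : ∀ᶠ t in 𝓝 q, ν t ∈ e.target := by
    apply hνq.eventually_mem
    rw [← hδy]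
    exact e.open_target.mem_nhds (e.map_source hye)
  have hct : ∀ᶠ t in 𝓝[<] q, c t ∈ e.source := hy (e.open_source.mem_nhds hye)
  obtain ⟨ε, hε, hball⟩ := Metric.eventually_nhds_iff.mp hνt
  rw [eventually_nhdsWithin_iff] at hct
  obtain ⟨ε', hε', hball'⟩ := Metric.eventually_nhds_iff.mp hct
  set η := min (min ε ε') (min (b0 - q) (q - p)) / 2 with hη
  have hη0 : 0 < η := by
    have : 0 < min (min ε ε') (min (b0 - q) (q - p)) := by
      refine lt_min (lt_min hε hε') (lt_min ?_ ?_) <;> linarith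
    positivity
  have hη1 : η < ε := by
    have : min (min ε ε') (min (b0 - q) (q - p)) ≤ ε := (min_le_left _ _).trans (min_le_left _ _)
    linarith
  have hη2 : η < ε' := by
    have : min (min ε ε') (min (b0 - q) (q - p)) ≤ ε' := (min_le_left _ _).trans (min_le_right _ _)
    linarith
  have hη3 : η < b0 - q := by
    have : min (min ε ε') (min (b0 - q) (q - p)) ≤ b0 - q := (min_le_right _ _).trans (min_le_left _ _)
    linarith
  have hη4 : η < q - p := by
    have : min (min ε ε') (min (b0 - q) (q - p)) ≤ q - p := (min_le_right _ _).trans (min_le_right _ _)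
    linarith
  have hsym : ∀ t, q - η < t → t < q → c t = e.symm (ν t) := by
    intro t h1 h2
    have h3 : c t ∈ e.source := hball' (by rw [Real.dist_eq, abs_lt]; constructor <;> linarith) h2
    have h4 : e (c t) = ν t := h.eq t ⟨by linarith, h2⟩
    rw [← h4, e.left_inv h3]
  refine ⟨q + η, by linarith, by linarith, fun t => if t < q then c t else e.symm (ν t), h.hp, by linarith [h.hq], ?_, ?_, ?_⟩
  · intro t ht
    by_cases htq : t < q
    · apply ContinuousAt.continuousWithinAt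
      have : (fun t => if t < q then c t else e.symm (ν t)) =ᶠ[𝓝 t] c := by
        filter_upwards [Iio_mem_nhds htq] with s hs
        simp only [mem_Iio] at hs
        simp [hs]
      exact (h.cont.continuousAt (Ioo_mem_nhds ht.1 htq)).congr this.symm
    · apply ContinuousAt.continuousWithinAt
      have htq' : q ≤ t := not_lt.mp htq
      have : (fun t => if t < q then c t else e.symm (ν t)) =ᶠ[𝓝 t] fun s => e.symm (ν s) := by
        filter_upwards [Ioi_mem_nhds (show q - η < t by linarith)] with s hs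
        split_ifs with hsq
        · exact hsym s hs hsq
        · rfl
      refine ContinuousAt.congr ?_ this.symm
      have h5 : ν t ∈ e.target := hball (by rw [Real.dist_eq, abs_lt]; constructor <;> linarith [ht.2])
      have h6 : ContinuousAt ν t := hν.continuousAt (Ioo_mem_nhds (by linarith) (by linarith [ht.2]))
      exact ContinuousAt.comp (g := e.symm) (e.symm.continuousAt h5) h6
  · intro t ht
    split_ifs with htq
    · exact h.eq t ⟨ht.1, htq⟩
    · have h5 : ν t ∈ e.target := hball (by rw [Real.dist_eq, abs_lt]; constructor <;> linarith [ht.2, not_lt.mp htq])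
      exact e.right_inv h5
  · simp only [h.hq, if_true]; exact h.init

omit [T2Space X] [T2Space Y] in

lemma IsLift.reverse {p q : ℝ} {c : ℝ → Y} (h : IsLift δ ν y1 p q c) :
    IsLift δ (fun t => ν (-t)) y1 (-q) (-p) (fun t => c (-t)) := by
  refine ⟨by linarith [h.hq], by linarith [h.hp], ?_, ?_, ?_⟩
  · apply h.cont.comp continuous_neg.continuousOn
    intro t ht
    exact ⟨by linarith [ht.2], by linarith [ht.1]⟩
  · intro t ht
    exact h.eq (-t) ⟨by linarith [ht.2], by linarith [ht.1]⟩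
  · simpa using h.init

lemma IsLift.extend_left (hδ : IsLocalHomeomorph δ) {p q a0 : ℝ} {c : ℝ → Y}
    (h : IsLift δ ν y1 p q c) (hqb : a0 < p) (hν : ContinuousOn ν (Ioo a0 q)) {y : Y}
    (hy : Tendsto c (𝓝[>] p) (𝓝 y)) : ∃ p' < p, a0 ≤ p' ∧ ∃ c', IsLift δ ν y1 p' q c' := by
  obtain ⟨q', h1, h2, c', h3⟩ := h.reverse.extend_right hδ (b0 := -a0) (by linarith) (by
    apply hν.comp continuous_neg.continuousOn
    intro t ht
    exact ⟨by linarith [ht.2], by linarith [ht.1]⟩) (y := y) (by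
    apply hy.comp
    rw [tendsto_nhdsWithin_iff]
    constructor
    · have : Tendsto (fun t : ℝ => -t) (𝓝 (-p)) (𝓝 (-(-p))) := continuous_neg.tendsto _
      rw [neg_neg] at this
      exact this.mono_left nhdsWithin_le_nhds
    · filter_upwards [self_mem_nhdsWithin] with t ht
      simp only [mem_Iio, mem_Ioi] at ht ⊢
      linarith)
  have h4 := h3.reverse
  simp only [neg_neg] at h4
  exact ⟨-q', by linarith, by linarith, _, h4⟩

/-- local existence -/
lemma exists_lift (hδ : IsLocalHomeomorph δ) {a0 b0 : ℝ} (h0 : a0 < 0) (h0' : 0 < b0)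
    (hν : ContinuousOn ν (Ioo a0 b0)) (hy : δ y1 = ν 0) :
    ∃ p q c, a0 ≤ p ∧ q ≤ b0 ∧ IsLift δ ν y1 p q c := by
  have hν0 : ContinuousAt ν 0 := hν.continuousAt (Ioo_mem_nhds h0 h0')
  obtain ⟨e, hye, rfl⟩ := hδ y1
  have hνt : ∀ᶠ t in 𝓝 (0:ℝ), ν t ∈ e.target := by
    apply hν0.eventually_mem
    rw [← hy]
    exact e.open_target.mem_nhds (e.map_source hye)
  obtain ⟨ε, hε, hball⟩ := Metric.eventually_nhds_iff.mp hνt
  set η := min ε (min b0 (-a0)) with hη
  have hη0 : 0 < η := lt_min hε (lt_min h0' (by linarith))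
  have hη1 : η ≤ ε := min_le_left _ _
  have hη2 : η ≤ b0 := (min_le_right _ _).trans (min_le_left _ _)
  have hη3 : η ≤ -a0 := (min_le_right _ _).trans (min_le_right _ _)
  refine ⟨-η, η, fun t => e.symm (ν t), by linarith, hη2, by linarith, hη0, ?_, ?_, ?_⟩
  · intro t ht
    apply ContinuousAt.continuousWithinAt
    have h5 : ν t ∈ e.target := hball (by rw [Real.dist_eq, abs_lt]; constructor <;> linarith [ht.1, ht.2])
    have h6 : ContinuousAt ν t := hν.continuousAt (Ioo_mem_nhds (by linarith [ht.1]) (by linarith [ht.2]))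
    exact ContinuousAt.comp (g := e.symm) (e.symm.continuousAt h5) h6
  · intro t ht
    have h5 : ν t ∈ e.target := hball (by rw [Real.dist_eq, abs_lt]; constructor <;> linarith [ht.1, ht.2])
    exact e.right_inv h5
  · show e.symm (ν 0) = y1
    rw [← hy]; exact e.left_inv hye

/-- maximal lift -/
theorem exists_max_lift (hδ : IsLocalHomeomorph δ) {a0 b0 : ℝ} (h0 : a0 < 0) (h0' : 0 < b0)
    (hν : ContinuousOn ν (Ioo a0 b0)) (hy : δ y1 = ν 0) :
    ∃ p q c, a0 ≤ p ∧ q ≤ b0 ∧ IsLift δ ν y1 p q c ∧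
      (q < b0 → ∀ y, ¬ Tendsto c (𝓝[<] q) (𝓝 y)) ∧ (a0 < p → ∀ y, ¬ Tendsto c (𝓝[>] p) (𝓝 y)) := by
  classical
  set Q : Set ℝ := {q | q ≤ b0 ∧ ∃ p c, a0 ≤ p ∧ IsLift δ ν y1 p q c} with hQ
  set P : Set ℝ := {p | a0 ≤ p ∧ ∃ q c, q ≤ b0 ∧ IsLift δ ν y1 p q c} with hP
  obtain ⟨p1, q1, c1, hp1, hq1, hl1⟩ := exists_lift hδ h0 h0' hν hy
  have hQne : Q.Nonempty := ⟨q1, hq1, p1, c1, hp1, hl1⟩
  have hPne : P.Nonempty := ⟨p1, hp1, q1, c1, hq1, hl1⟩
  have hQb : BddAbove Q := ⟨b0, fun q hq => hq.1⟩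
  have hPb : BddBelow P := ⟨a0, fun p hp => hp.1⟩
  set β := sSup Q with hβ
  set α := sInf P with hα
  have hβb : β ≤ b0 := csSup_le hQne fun q hq => hq.1
  have hαa : a0 ≤ α := le_csInf hPne fun p hp => hp.1
  have hβ0 : 0 < β := lt_of_lt_of_le hl1.hq (le_csSup hQb ⟨hq1, p1, c1, hp1, hl1⟩)
  have hα0 : α < 0 := lt_of_le_of_lt (csInf_le hPb ⟨hp1, q1, c1, hq1, hl1⟩) hl1.hp
  have hex : ∀ t ∈ Ioo α β, ∃ p q c, a0 ≤ p ∧ q ≤ b0 ∧ IsLift δ ν y1 p q c ∧ t ∈ Ioo p q := by
    intro t ht
    rcases le_or_gt 0 t with h | h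
    · obtain ⟨q, hq, htq⟩ := exists_lt_of_lt_csSup hQne ht.2
      obtain ⟨hq1, p, c, hp, hl⟩ := hq
      exact ⟨p, q, c, hp, hq1, hl, lt_of_lt_of_le hl.hp h, htq⟩
    · obtain ⟨p, hp, htp⟩ := exists_lt_of_csInf_lt hPne ht.1
      obtain ⟨hp1, q, c, hq, hl⟩ := hp
      exact ⟨p, q, c, hp1, hq, hl, htp, h.trans hl.hq⟩
  haveI : Nonempty (ℝ → Y) := ⟨fun _ => y1⟩
  choose! p q c hpa hqb hl hmem using hex
  set cm : ℝ → Y := fun t => c t t with hcm
  have hagree : ∀ t ∈ Ioo α β, ∀ s ∈ Ioo α β, s ∈ Ioo (p t) (q t) → cm s = c t s := by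
    intro t ht s hs hst
    exact (hl s hs).unique hδ (hl t ht) ⟨hmem s hs, hst⟩
  have hlift : IsLift δ ν y1 α β cm := by
    refine ⟨hα0, hβ0, ?_, ?_, ?_⟩
    · intro t ht
      apply ContinuousAt.continuousWithinAt
      have h1 : ContinuousAt (c t) t := (hl t ht).cont.continuousAt (Ioo_mem_nhds (hmem t ht).1 (hmem t ht).2)
      apply h1.congr
      filter_upwards [Ioo_mem_nhds (hmem t ht).1 (hmem t ht).2, Ioo_mem_nhds ht.1 ht.2] with s hs hs'
      exact (hagree t ht s hs' hs).symm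
    · intro t ht
      exact (hl t ht).eq t (hmem t ht)
    · exact (hl 0 ⟨hα0, hβ0⟩).init
  refine ⟨α, β, cm, hαa, hβb, hlift, ?_, ?_⟩
  · intro hb y hy
    obtain ⟨q', hq', hq'b, c', hl'⟩ := hlift.extend_right hδ hb (hν.mono (Ioo_subset_Ioo_left hαa)) hy
    have := le_csSup hQb (show q' ∈ Q from ⟨hq'b, α, c', hαa, hl'⟩)
    linarith
  · intro hb y hy
    obtain ⟨p', hp', hp'a, c', hl'⟩ := hlift.extend_left hδ hb (hν.mono (Ioo_subset_Ioo_right hβb)) hy
    have := csInf_le hPb (show p' ∈ P from ⟨hp'a, β, c', hβb, hl'⟩)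
    linarith

/-- increasing parametrisation of a bounded interval by the line -/
noncomputable def par (p q : ℝ) (u : ℝ) : ℝ := p + (q - p) * (1 / 2 + Real.arctan u / Real.pi)

lemma par_mem {p q : ℝ} (h : p < q) (u : ℝ) : par p q u ∈ Ioo p q := by
  have h1 := Real.neg_pi_div_two_lt_arctan u
  have h2 := Real.arctan_lt_pi_div_two u
  have hpi := Real.pi_pos
  have h3 : -(1/2) < Real.arctan u / Real.pi := by rw [lt_div_iff₀ hpi]; linarith
  have h4 : Real.arctan u / Real.pi < 1/2 := by rw [div_lt_iff₀ hpi]; linarith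
  constructor
  · unfold par; nlinarith
  · unfold par; nlinarith

lemma par_strictMono {p q : ℝ} (h : p < q) : StrictMono (par p q) := by
  intro u v huv
  have h1 := Real.arctan_strictMono huv
  have hpi := Real.pi_pos
  have h2 : Real.arctan u / Real.pi < Real.arctan v / Real.pi := by gcongr
  unfold par
  nlinarith

lemma par_continuous (p q : ℝ) : Continuous (par p q) := by
  unfold par
  fun_prop

lemma par_tendsto_atTop {p q : ℝ} (h : p < q) : Tendsto (par p q) atTop (𝓝[<] q) := by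
  rw [tendsto_nhdsWithin_iff]
  constructor
  · have h1 : Tendsto Real.arctan atTop (𝓝 (Real.pi / 2)) := Real.tendsto_arctan_atTop.mono_right nhdsWithin_le_nhds
    have h2 : Tendsto (par p q) atTop (𝓝 (p + (q - p) * (1 / 2 + (Real.pi / 2) / Real.pi))) := by
      unfold par
      exact ((h1.div_const _).const_add _).const_mul _ |>.const_add _
    have : p + (q - p) * (1 / 2 + (Real.pi / 2) / Real.pi) = q := by
      have := Real.pi_ne_zero
      field_simp; ring
    rwa [this] at h2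
  · exact Eventually.of_forall fun u => (par_mem h u).2

lemma par_tendsto_atBot {p q : ℝ} (h : p < q) : Tendsto (par p q) atBot (𝓝[>] p) := by
  rw [tendsto_nhdsWithin_iff]
  constructor
  · have h1 : Tendsto Real.arctan atBot (𝓝 (-(Real.pi / 2))) := Real.tendsto_arctan_atBot.mono_right nhdsWithin_le_nhds
    have h2 : Tendsto (par p q) atBot (𝓝 (p + (q - p) * (1 / 2 + (-(Real.pi / 2)) / Real.pi))) := by
      unfold par
      exact ((h1.div_const _).const_add _).const_mul _ |>.const_add _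
    have : p + (q - p) * (1 / 2 + (-(Real.pi / 2)) / Real.pi) = p := by
      have := Real.pi_ne_zero
      field_simp; ring
    rwa [this] at h2
  · exact Eventually.of_forall fun u => (par_mem h u).1

/-- `par` is onto the interval -/
lemma par_surj {p q : ℝ} (h : p < q) {t : ℝ} (ht : t ∈ Ioo p q) : ∃ u, par p q u = t := by
  have hpi := Real.pi_pos
  have hqp : 0 < q - p := by linarith
  refine ⟨Real.tan (((t - p) / (q - p) - 1 / 2) * Real.pi), ?_⟩
  have h1 : 0 < (t - p) / (q - p) := div_pos (by linarith [ht.1]) hqp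
  have h2 : (t - p) / (q - p) < 1 := by rw [div_lt_one hqp]; linarith [ht.2]
  unfold par
  rw [Real.arctan_tan (by nlinarith) (by nlinarith)]
  field_simp
  ring

end Pool.Agent.H804
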