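import Pool.Agent.H804.Model
import Pool.Agent.H804.Lift

set_option autoImplicit false

namespace Pool.Agent.H804

open Filter Topology KTime

lemma tendsto_of_par_atTop {Y : Type*} {p q : ℝ} (h : p < q) {c : ℝ → Y} {l : Filter Y}
    (hc : Tendsto (fun u => c (par p q u)) atTop l) : Tendsto c (𝓝[<] q) l := by
  intro U hU
  obtain ⟨u0, hu0⟩ := (hc.eventually hU).exists_forall_of_atTop
  rw [mem_map]
  filter_upwards [Ico_mem_nhdsLT (par_mem h u0).2] with t ht
  obtain ⟨u, rfl⟩ := par_surj h ⟨lt_of_lt_of_le (par_mem h u0).1 ht.1, ht.2⟩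
  exact hu0 u ((par_strictMono h).le_iff_le.mp ht.1)

lemma tendsto_of_par_atBot {Y : Type*} {p q : ℝ} (h : p < q) {c : ℝ → Y} {l : Filter Y}
    (hc : Tendsto (fun u => c (par p q u)) atBot l) : Tendsto c (𝓝[>] p) l := by
  intro U hU
  obtain ⟨u0, hu0⟩ := (hc.eventually hU).exists_forall_of_atBot
  rw [mem_map]
  filter_upwards [Ioc_mem_nhdsGT (par_mem h u0).1] with t ht
  obtain ⟨u, rfl⟩ := par_surj h ⟨ht.1, lt_of_le_of_lt ht.2 (par_mem h u0).2⟩
  exact hu0 u ((par_strictMono h).le_iff_le.mp ht.2)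

/-- support null vector at a boundary point -/
lemma exists_null {z : V} (hz : B z z = -1) (hcl : ∀ k ∈ Lam, B z k ≤ 0) (hn : z ∉ Om) :
    ∃ k, B z k = 0 ∧ B k k = 0 ∧ 0 < om z k ∧ ∀ x ∈ Om, B x k ≠ 0 := by
  have h1 : ∃ k ∈ Lam, B z k = 0 := by
    by_contra hcon
    push Not at hcon
    exact hn ⟨fun k hk => lt_of_le_of_ne (hcl k hk) (hcon k hk), hz⟩
  obtain ⟨k, hk, hzk⟩ := h1
  have hne := om_ne_zero (y := z) (w := k) (by rw [hz]; norm_num) hzk hk.2.2.le hk.1
  rcases lt_or_gt_of_ne hne with h | h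
  · refine ⟨-k, by rw [B_neg_right, hzk]; simp, by rw [B_neg_right, B_neg_left, hk.2.2]; simp, ?_, ?_⟩
    · have : om z (-k) = - om z k := by simp [om]; ring
      rw [this]; linarith
    · intro x hx
      rw [B_neg_right]
      have := hx.1 k hk
      intro h0
      linarith
  · refine ⟨k, hzk, hk.2.2, h, ?_⟩
    intro x hx
    exact (hx.1 k hk).ne

theorem M0_maximal : M0.IsMaximal := by
  intro Y _ _ _ δ ι hδ hι hδι S hS hC
  by_contra hns
  have hδc : Continuous fun y => (δ y : V) := continuous_subtype_val.comp hδ.continuous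
  -- a boundary point
  obtain ⟨y1, hy1c, hy1⟩ : ∃ y1 ∈ closure (Set.range ι), y1 ∉ Set.range ι := by
    by_contra hcon
    push Not at hcon
    have hclosed : IsClosed (Set.range ι) := by
      rw [← closure_subset_iff_isClosed]; exact hcon
    have hclopen : IsClopen (Set.range ι) := ⟨hclosed, hι.isOpen_range⟩
    have hne : (Set.range ι).Nonempty := ⟨ι ⟨pt, pt_Om⟩, ⟨_, rfl⟩⟩
    have := hclopen.eq_univ hne
    exact hns (Set.range_eq_univ.mp this)
  obtain ⟨z, hzdef⟩ : ∃ z : V, z = (δ y1 : V) := ⟨_, rfl⟩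
  have hzz : B z z = -1 := by
    rw [hzdef, ← ip_eq]; exact (δ y1).2
  have hcl : ∀ k ∈ Lam, B z k ≤ 0 := by
    intro k hk
    have h1 : IsClosed {y : Y | B (δ y : V) k ≤ 0} := isClosed_le (by fun_prop) continuous_const
    have h2 : Set.range ι ⊆ {y : Y | B (δ y : V) k ≤ 0} := by
      rintro y ⟨x, rfl⟩
      have h3 : (δ (ι x) : V) = x := hδι x
      simp only [Set.mem_ofPred_eq]
      rw [h3]
      exact (x.2.1 k hk).le
    have h4 := closure_minimal h2 h1 hy1c
    rw [hzdef]; exact h4
  have hzn : z ∉ Om := by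
    intro hzO
    have hF : (comap ι (𝓝 y1)).NeBot := by
      rw [comap_neBot_iff_frequently]
      rw [mem_closure_iff_frequently] at hy1c
      exact hy1c
    have h1 : Tendsto ι (comap ι (𝓝 y1)) (𝓝 y1) := tendsto_comap
    have h2 : Tendsto (fun x : M0.Ω => (δ (ι x) : V)) (comap ι (𝓝 y1)) (𝓝 z) := by
      rw [hzdef]; exact (hδc.tendsto y1).comp h1
    have h3 : Tendsto (fun x : M0.Ω => (x : V)) (comap ι (𝓝 y1)) (𝓝 z) := by
      refine h2.congr fun x => ?_
      exact hδι x
    have h4 : Tendsto (fun x : M0.Ω => x) (comap ι (𝓝 y1)) (𝓝 (⟨z, hzO⟩ : M0.Ω)) :=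
      tendsto_subtype_rng.mpr h3
    have h5 : Tendsto ι (comap ι (𝓝 y1)) (𝓝 (ι ⟨z, hzO⟩)) := (hι.continuous.tendsto _).comp h4
    have h6 := tendsto_nhds_unique h1 h5
    exact hy1 ⟨_, h6.symm⟩
  obtain ⟨k, hzk, hkk, hok, hkO⟩ := exists_null hzz hcl hzn
  -- the null geodesic
  have hq : ∀ s : ℝ, Q3.ip (z + s • k) (z + s • k) = -1 := by
    intro s
    rw [ip_eq]
    simp only [B_add_left, B_add_right, B_smul_left, B_smul_right, hzz, hkk, hzk, B_comm k z]
    ring
  set ν : ℝ → Q3.AdS := fun u => ⟨z + Real.tan u • k, hq _⟩ with hν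
  have hpi := Real.pi_pos
  have hνc : ContinuousOn ν (Set.Ioo (-(Real.pi / 2)) (Real.pi / 2)) := by
    rw [continuousOn_iff_continuous_domRestrict]
    apply Continuous.subtype_mk
    have h1 : ContinuousOn (fun u => z + Real.tan u • k) (Set.Ioo (-(Real.pi / 2)) (Real.pi / 2)) :=
      continuousOn_const.add (Real.continuousOn_tan_Ioo.smul continuousOn_const)
    exact continuousOn_iff_continuous_domRestrict.mp h1
  have hy0 : δ y1 = ν 0 := by
    apply Subtype.ext
    show (δ y1 : V) = z + Real.tan 0 • k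
    rw [Real.tan_zero, zero_smul, add_zero, hzdef]
  obtain ⟨p, q, c, hp, hq', hl, hmax, hmin⟩ := exists_max_lift hδ (by linarith) (by linarith) hνc hy0
  have hpq : p < q := hl.hp.trans hl.hq
  have hcv : ∀ t ∈ Set.Ioo p q, (δ (c t) : V) = z + Real.tan t • k := by
    intro t ht
    rw [hl.eq t ht]
  have htan : ∀ s t, p < s → s < t → t < q → Real.tan s < Real.tan t := by
    intro s t h1 h2 h3
    exact Real.strictMonoOn_tan ⟨by linarith, by linarith⟩ ⟨by linarith, by linarith⟩ h2
  set C : ℝ → Y := fun u => c (par p q u) with hCdef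
  have hCc : Continuous C := by
    rw [continuous_iff_continuousAt]
    intro u
    have h1 : ContinuousAt c (par p q u) := hl.cont.continuousAt (Ioo_mem_nhds (par_mem hpq u).1 (par_mem hpq u).2)
    exact h1.comp (par_continuous p q).continuousAt
  have hcausal : Q3.IsCausal (fun y => (δ y : V)) C := by
    refine ⟨hCc, fun t₀ => ⟨1, one_pos, fun s t _ hst _ => ?_⟩⟩
    rw [prec_eq, hCdef]
    simp only
    rw [hcv _ (par_mem hpq s), hcv _ (par_mem hpq t)]
    have h1 := htan _ _ (par_mem hpq s).1 (par_strictMono hpq hst) (par_mem hpq t).2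
    constructor
    · simp only [B_add_left, B_add_right, B_smul_left, B_smul_right, hzz, hkk, hzk, B_comm k z]
      simp
    · have : om (z + Real.tan (par p q s) • k) (z + Real.tan (par p q t) • k)
          = (Real.tan (par p q t) - Real.tan (par p q s)) * om z k := by
        simp only [om_add_left, om_add_right, om_smul_left, om_smul_right, om_self, om_comm k z]
        ring
      rw [this]
      exact mul_pos (by linarith) hok
  have hinext : IsInextendible C := by
    intro y
    constructor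
    · intro hy
      have h1 := tendsto_of_par_atTop hpq hy
      rcases hq'.lt_or_eq with h | h
      · exact hmax h y h1
      · have h2 : Tendsto (fun t => om z (δ (c t) : V)) (𝓝[<] q) (𝓝 (om z (δ y : V))) :=
          tendsto_om tendsto_const_nhds ((hδc.tendsto y).comp h1)
        have h3 : Tendsto (fun t => Real.tan t * om z k) (𝓝[<] q) atTop := by
          apply Tendsto.atTop_mul_const hok
          rw [h]; exact Real.tendsto_tan_pi_div_two
        have h4 : Tendsto (fun t => om z (δ (c t) : V)) (𝓝[<] q) atTop := by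
          apply h3.congr'
          filter_upwards [Ioo_mem_nhdsLT hpq] with t ht
          rw [hcv t ht, om_add_right, om_smul_right, om_self, zero_add]
        exact not_tendsto_atTop_of_tendsto_nhds h2 h4
    · intro hy
      have h1 := tendsto_of_par_atBot hpq hy
      rcases hp.lt_or_eq with h | h
      · exact hmin h y h1
      · have h2 : Tendsto (fun t => om z (δ (c t) : V)) (𝓝[>] p) (𝓝 (om z (δ y : V))) :=
          tendsto_om tendsto_const_nhds ((hδc.tendsto y).comp h1)
        have h3 : Tendsto (fun t => Real.tan t * om z k) (𝓝[>] p) atBot := by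
          apply Tendsto.atBot_mul_const hok
          rw [← h]; exact Real.tendsto_tan_neg_pi_div_two
        have h4 : Tendsto (fun t => om z (δ (c t) : V)) (𝓝[>] p) atBot := by
          apply h3.congr'
          filter_upwards [Ioo_mem_nhdsGT hpq] with t ht
          rw [hcv t ht, om_add_right, om_smul_right, om_self, zero_add]
        exact not_tendsto_atBot_of_tendsto_nhds h2 h4
  obtain ⟨t, ⟨x, _, hx⟩, _⟩ := hC C hcausal hinext
  have h1 : (x : V) = z + Real.tan (par p q t) • k := by
    rw [← hcv _ (par_mem hpq t), ← hδι x, hx]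
  apply hkO x x.2
  rw [h1, B_add_left, B_smul_left, hzk, hkk]
  ring

theorem M0_GHMC : M0.IsGHMC := ⟨M0_GHC, M0_maximal⟩

end Pool.Agent.H804
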