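import Pool.Agent.H804.Cross
import Pool.Agent.H804.ModelA

set_option autoImplicit false

namespace Pool.Agent.H804

open Filter Topology KTime

theorem SC_compactCauchy : M0.IsCompactCauchy SC where
  subset := fun x hx => hx.1
  invariant := by
    rintro γ ⟨w, _, rfl⟩ x hx
    exact ⟨Om_rho hx.1 w, by rw [rhoP_apply, gS_rho hx.1.1]; exact hx.2⟩
  cocompact := by
    obtain ⟨F, hF, hrep⟩ := exists_reps
    refine ⟨⋃ w ∈ F, (rho w) '' S0, ?_, isCompact_orbit hF isCompact_S0, ?_⟩
    · intro x hx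
      simp only [Set.mem_iUnion] at hx
      obtain ⟨w, _, y, hy, rfl⟩ := hx
      rw [SC_iff]
      exact ⟨Om_rho (S0_Om hy) w, w⁻¹, by rw [rho_inv_apply]; exact hy⟩
    · intro x hx
      obtain ⟨_, w, hw⟩ := SC_iff.mp hx
      obtain ⟨g, hg, f, hf, hgf⟩ := hrep w⁻¹
      refine ⟨rhoP g⁻¹, ⟨g⁻¹, N3.inv_mem hg, rfl⟩, ?_⟩
      rw [rhoP_apply]
      simp only [Set.mem_iUnion]
      refine ⟨f, hf, rho w x, hw, ?_⟩
      have : f * w = g⁻¹ := by
        have : g * f * w = 1 := by rw [← hgf]; group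
        calc f * w = g⁻¹ * (g * f * w) := by group
          _ = g⁻¹ := by rw [this, mul_one]
      rw [← rho_mul_apply, this]
  cauchy := by
    intro c hc hinext
    have hcont : Continuous fun t => (c t : V) := continuous_subtype_val.comp hc.1
    have hO : ∀ t, (c t : V) ∈ Om := fun t => (c t).2
    have hmono := causal_global (c := fun t => (c t : V)) hO hc.2
    obtain ⟨t, ht⟩ := exists_cross hcont hO hmono
      (by
        rintro ⟨y, hy, h⟩
        exact (hinext ⟨y, hy⟩).1 (tendsto_subtype_rng.mpr h))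
      (by
        rintro ⟨y, hy, h⟩
        exact (hinext ⟨y, hy⟩).2 (tendsto_subtype_rng.mpr h))
    refine ⟨t, ⟨hO t, ht⟩, ?_⟩
    intro s hs
    exact unique_cross hO hmono hs.2 ht

theorem M0_GHC : M0.IsGHC := ⟨SC, SC_compactCauchy⟩

end Pool.Agent.H804
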