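import Pool.Agent.H804.Cox

set_option autoImplicit false

namespace Pool.Agent.H804

open CoxeterSystem

/-- the abstract Coxeter group -/
abbrev W := cox.Group

/-- its Coxeter system -/
noncomputable def cs : CoxeterSystem cox W := cox.toCoxeterSystem

/-- the reflection representation -/
noncomputable def rho : W →* (V ≃ₗ[ℝ] V) := cs.lift ⟨sg, liftable⟩

@[simp] lemma rho_simple (i : Fin 5) : rho (cs.simple i) = sg i := by
  simp [rho]

lemma rho_mul_apply (w w' : W) (x : V) : rho (w * w') x = rho w (rho w' x) := by
  rw [map_mul, LinearEquiv.mul_apply]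

lemma rho_inv_apply (w : W) (x : V) : rho w⁻¹ (rho w x) = x := by
  rw [← rho_mul_apply, inv_mul_cancel, map_one, LinearEquiv.coe_one, id]

lemma rho_apply_inv (w : W) (x : V) : rho w (rho w⁻¹ x) = x := by
  rw [← rho_mul_apply, mul_inv_cancel, map_one, LinearEquiv.coe_one, id]

lemma rho_one_apply (x : V) : rho 1 x = x := by
  rw [map_one, LinearEquiv.coe_one, id]

lemma B_sg (i : Fin 5) (x y : V) : B (sg i x) (sg i y) = B x y := B_sgL i x y

/-- `W` acts by isometries -/
lemma B_rho (w : W) (x y : V) : B (rho w x) (rho w y) = B x y := by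
  induction w using cs.simple_induction_left with
  | one => simp
  | mul_simple_left w i ih => rw [rho_mul_apply, rho_mul_apply, rho_simple, B_sg, ih]

lemma B_rho_left (w : W) (x y : V) : B (rho w x) y = B x (rho w⁻¹ y) := by
  rw [← B_rho w x, rho_apply_inv]

/-- matrix entries: `sg j (root i) = root i + A j i • root j` -/
noncomputable def A (j i : Fin 5) : ℝ := -(2 * B (root i) (root j) / nrm j)

lemma sg_root (i j : Fin 5) : sg j (root i) = root i + A j i • root j := by
  rw [sg_apply, A]; module

lemma A_self (i : Fin 5) : A i i = -2 := by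
  rw [A, B_root_self]
  have := (nrm_pos i).ne'
  field_simp

lemma sg_root_self (i : Fin 5) : sg i (root i) = - root i := by
  rw [sg_root, A_self]; module

/-- Gram matrix of the roots -/
lemma B_root_root (i j : Fin 5) : B (root i) (root j) =
    (!![1,-(1/2),-1,0,0; -(1/2),1,-1,0,0; -1,-1,2,-1,-1; 0,0,-1,2,-4; 0,0,-1,-4,2] : Matrix (Fin 5) (Fin 5) ℝ) i j := by
  fin_cases i <;> fin_cases j <;> simp [B, root] <;> norm_num

lemma A_eq (j i : Fin 5) : A j i =
    (!![-2,1,2,0,0; 1,-2,2,0,0; 1,1,-2,1,1; 0,0,1,-2,4; 0,0,1,4,-2] : Matrix (Fin 5) (Fin 5) ℝ) j i := by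
  rw [A, B_root_root]
  fin_cases i <;> fin_cases j <;> simp [nrm] <;> norm_num

lemma A_nonneg {i j : Fin 5} (h : i ≠ j) : 0 ≤ A i j := by
  rw [A_eq]
  fin_cases i <;> fin_cases j <;> first | (exact absurd rfl h) | (simp) 

lemma A_inf {i j : Fin 5} (h : i ≠ j) (h0 : cox i j = 0) : A i j = 4 ∧ A j i = 4 := by
  rw [A_eq, A_eq]
  revert h0
  change cox.M i j = 0 → _
  fin_cases i <;> fin_cases j <;> first | (exact absurd rfl h) | (simp [cox]) 

lemma A_three {i j : Fin 5} (h : i ≠ j) (h0 : 2 < cox i j) : 1 ≤ A i j * A j i := by
  rw [A_eq, A_eq]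
  revert h0
  change 2 < cox.M i j → _
  fin_cases i <;> fin_cases j <;> first | (exact absurd rfl h) | (simp [cox]) 

lemma A_four {i j : Fin 5} (h : i ≠ j) (h0 : 3 < cox i j) : 2 ≤ A i j * A j i := by
  rw [A_eq, A_eq]
  revert h0
  change 3 < cox.M i j → _
  fin_cases i <;> fin_cases j <;> first | (exact absurd rfl h) | (simp [cox])

lemma cox_le {i j : Fin 5} : cox i j ≤ 4 := by
  fin_cases i <;> fin_cases j <;> simp [cox]

/-- dihedral computation, infinite case -/
lemma dihedral_inf {i j : Fin 5} (h : i ≠ j) (h0 : cox i j = 0) (k : ℕ) :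
    ∃ α β : ℝ, 0 ≤ α ∧ 0 ≤ β ∧ ((alternatingWord i j k).map sg).prod (root i) = α • root i + β • root j
      ∧ (if Even k then β ≤ α else α ≤ β) := by
  obtain ⟨hA, hA'⟩ := A_inf h h0
  induction k with
  | zero => exact ⟨1, 0, by norm_num, le_refl _, by simp [alternatingWord], by simp⟩
  | succ k ih =>
    obtain ⟨α, β, ha, hb, he, hc⟩ := ih
    rw [alternatingWord_succ', List.map_cons, List.prod_cons, LinearEquiv.mul_apply, he]
    by_cases hk : Even k
    · have hk1 : ¬ Even (k + 1) := by simpa [Nat.even_add_one] using hk
      simp only [hk, hk1, if_true, if_false] at hc ⊢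
      refine ⟨α, 4 * α - β, ha, by linarith, ?_, by linarith⟩
      rw [map_add, map_smul, map_smul, sg_root, sg_root_self, hA']
      module
    · have hk1 : Even (k + 1) := by simpa [Nat.even_add_one] using hk
      simp only [hk, hk1, if_true, if_false] at hc ⊢
      refine ⟨4 * β - α, β, by linarith, hb, ?_, by linarith⟩
      rw [map_add, map_smul, map_smul, sg_root_self, sg_root, hA]
      module

/-- dihedral computation -/
lemma dihedral {i j : Fin 5} (h : i ≠ j) (k : ℕ) (hk : cox i j = 0 ∨ k < cox i j) :
    ∃ α β : ℝ, 0 ≤ α ∧ 0 ≤ β ∧ ((alternatingWord i j k).map sg).prod (root i) = α • root i + β • root j := by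
  rcases hk with h0 | hk
  · obtain ⟨α, β, h1, h2, h3, _⟩ := dihedral_inf h h0 k
    exact ⟨α, β, h1, h2, h3⟩
  · have h4 := cox_le (i := i) (j := j)
    have hk4 : k < 4 := by omega
    have a1 := A_nonneg h
    have a2 := A_nonneg h.symm
    interval_cases k
    · exact ⟨1, 0, by norm_num, le_refl _, by simp [alternatingWord]⟩
    · refine ⟨1, A j i, by norm_num, a2, ?_⟩
      simp only [alternatingWord, List.concat_eq_append, List.nil_append, List.map_cons, List.map_nil, List.prod_cons, List.prod_nil, mul_one]
      rw [sg_root]; module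
    · have h3 := A_three h hk
      refine ⟨A i j * A j i - 1, A j i, by linarith, a2, ?_⟩
      simp only [alternatingWord, List.concat_eq_append, List.nil_append, List.cons_append, List.map_cons, List.map_nil, List.prod_cons, List.prod_nil, mul_one, LinearEquiv.mul_apply]
      rw [sg_root, map_add, map_smul, sg_root_self, sg_root]; module
    · have h3 := A_three h (by omega)
      have h5 := A_four h hk
      refine ⟨A i j * A j i - 1, A j i * (A i j * A j i - 2), by linarith, mul_nonneg a2 (by linarith), ?_⟩
      simp only [alternatingWord, List.concat_eq_append, List.nil_append, List.cons_append, List.map_cons, List.map_nil, List.prod_cons, List.prod_nil, mul_one, LinearEquiv.mul_apply]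
      simp only [sg_root, map_add, map_smul, A_self, smul_add]; module

/-- the positive cone -/
def Pos (v : V) : Prop := ∀ m, B v (fw m) ≤ 0

lemma Pos.add {u v : V} (hu : Pos u) (hv : Pos v) : Pos (u + v) := by
  intro m; rw [B_add_left]; linarith [hu m, hv m]

lemma Pos.smul {v : V} (hv : Pos v) {c : ℝ} (hc : 0 ≤ c) : Pos (c • v) := by
  intro m; rw [B_smul_left]; exact mul_nonpos_of_nonneg_of_nonpos hc (hv m)

lemma Pos_zero : Pos 0 := by intro m; simp

lemma B_root_fw (i m : Fin 5) : B (root i) (fw m) =
    if i = m then (![-3, -(3/2), -1, -6, -6] : Fin 5 → ℝ) i else 0 := by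
  fin_cases i <;> fin_cases m <;> simp [B, root, fw] <;> norm_num

lemma Pos_root (i : Fin 5) : Pos (root i) := by
  intro m
  rw [B_root_fw]
  fin_cases i <;> fin_cases m <;> simp <;> norm_num

lemma rho_wordProd (ω : List (Fin 5)) : rho (cs.wordProd ω) = (ω.map sg).prod := by
  induction ω with
  | nil => simp
  | cons i ω ih => rw [cs.wordProd_cons, map_mul, ih, rho_simple, List.map_cons, List.prod_cons]

/-- **Tits' lemma** -/
theorem tits (w : W) (i : Fin 5) (h : cs.length w < cs.length (w * cs.simple i)) :
    Pos (rho w (root i)) := by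
  classical
  induction hn : cs.length w using Nat.strong_induction_on generalizing w i with
  | _ n ih =>
  by_cases hw : w = 1
  · subst hw
    rw [rho_one_apply]
    exact Pos_root i
  obtain ⟨j, hj⟩ := cs.exists_rightDescent_of_ne_one hw
  have hj' : cs.length (w * cs.simple j) + 1 = cs.length w := cs.isRightDescent_iff.mp hj
  have hij : i ≠ j := by
    rintro rfl
    omega
  set P : ℕ → Prop := fun k =>
    ∃ v : W, w = v * cs.wordProd (alternatingWord i j k) ∧ cs.length w = cs.length v + k with hP
  have hP1 : P 1 := by
    refine ⟨w * cs.simple j, ?_, by omega⟩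
    simp [alternatingWord]
  have hw1 : 1 ≤ cs.length w := by omega
  obtain ⟨k, hk1, hkP, hkmax⟩ : ∃ k, 1 ≤ k ∧ P k ∧ ¬ P (k + 1) := by
    refine ⟨Nat.findGreatest P (cs.length w), ?_, ?_, ?_⟩
    · exact Nat.le_findGreatest hw1 hP1
    · exact Nat.findGreatest_spec hw1 hP1
    · intro hcon
      have : Nat.findGreatest P (cs.length w) + 1 ≤ cs.length w := by
        obtain ⟨v, _, hv⟩ := hcon
        omega
      have := Nat.le_findGreatest this hcon
      omega
  obtain ⟨v, hv, hvl⟩ := hkP
  obtain ⟨k', rfl⟩ : ∃ k', k = k' + 1 := ⟨k - 1, by omega⟩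
  -- both `i` and `j` are right ascents of `v`
  have hg : cs.length v < cs.length (v * cs.simple (if Even (k' + 1) then j else i)) := by
    by_contra hcon
    have hlt : cs.length (v * cs.simple (if Even (k' + 1) then j else i)) + 1 = cs.length v := by
      rcases cs.length_mul_simple v (if Even (k' + 1) then j else i) with h1 | h1 <;> omega
    apply hkmax
    refine ⟨v * cs.simple (if Even (k' + 1) then j else i), ?_, by omega⟩
    rw [alternatingWord_succ', cs.wordProd_cons, ← mul_assoc, cs.simple_mul_simple_cancel_right]
    exact hv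
  have hf : cs.length v < cs.length (v * cs.simple (if Even k' then j else i)) := by
    by_contra hcon
    have hlt : cs.length (v * cs.simple (if Even k' then j else i)) + 1 = cs.length v := by
      rcases cs.length_mul_simple v (if Even k' then j else i) with h1 | h1 <;> omega
    rw [alternatingWord_succ', cs.wordProd_cons, ← mul_assoc] at hv
    have h2 := cs.length_mul_le (v * cs.simple (if Even k' then j else i))
      (cs.wordProd (alternatingWord i j k'))
    rw [← hv] at h2
    have h3 := cs.length_wordProd_le (alternatingWord i j k')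
    rw [length_alternatingWord] at h3
    omega
  have hvi : cs.length v < cs.length (v * cs.simple i) := by
    by_cases he : Even k'
    · have : ¬ Even (k' + 1) := by simpa [Nat.even_add_one] using he
      simpa [this] using hg
    · simpa [he] using hf
  have hvj : cs.length v < cs.length (v * cs.simple j) := by
    by_cases he : Even k'
    · simpa [he] using hf
    · have : Even (k' + 1) := by simpa [Nat.even_add_one] using he
      simpa [this] using hg
  have hi0 := ih (cs.length v) (by omega) v i hvi rfl
  have hj0 := ih (cs.length v) (by omega) v j hvj rfl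
  -- bound on k
  have hkm : cox i j = 0 ∨ k' + 1 < cox i j := by
    by_contra hcon
    push Not at hcon
    obtain ⟨h0, hm⟩ := hcon
    have hred : cs.IsReduced (alternatingWord i j (k' + 1)) := by
      have h2 := cs.length_mul_le v (cs.wordProd (alternatingWord i j (k' + 1)))
      rw [← hv] at h2
      have h3 := cs.length_wordProd_le (alternatingWord i j (k' + 1))
      unfold CoxeterSystem.IsReduced
      rw [length_alternatingWord] at h3 ⊢
      omega
    have hle : ¬ (k' + 1 > cox i j) := fun hgt => cs.not_isReduced_alternatingWord i j h0 hgt hred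
    have heq : k' + 1 = cox i j := by omega
    have hb := cs.wordProd_braidWord_eq i j
    unfold braidWord at hb
    rw [cox.symmetric j i, ← heq, alternatingWord_succ j i, cs.wordProd_concat] at hb
    rw [hb, ← mul_assoc] at hv
    rw [hv, cs.simple_mul_simple_cancel_right] at h
    have h2 := cs.length_mul_le v (cs.wordProd (alternatingWord i j k'))
    have h3 := cs.length_wordProd_le (alternatingWord i j k')
    rw [length_alternatingWord] at h3
    rw [← hv] at h
    omega
  obtain ⟨α, β, hα, hβ, he⟩ := dihedral hij (k' + 1) hkm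
  rw [hv, rho_mul_apply, rho_wordProd, he, map_add, map_smul, map_smul]
  exact (hi0.smul hα).add (hj0.smul hβ)

theorem tits_neg (w : W) (i : Fin 5) (h : cs.length (w * cs.simple i) < cs.length w) :
    Pos (-(rho w (root i))) := by
  have h1 : Pos (rho (w * cs.simple i) (root i)) := by
    apply tits
    rwa [cs.simple_mul_simple_cancel_right]
  rwa [rho_mul_apply, rho_simple, sg_root_self, map_neg] at h1

end Pool.Agent.H804
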