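import Pool.Agent.H804.Frame
import Pool.Agent.H804.GraphC

set_option autoImplicit false

namespace Pool.Agent.H804

open Filter Topology Matrix

/-- quadratic correction in the flat region -/
noncomputable def Qf (b : Bs) : ℝ := (b 0 ^ 2 + (b 1 + 2 / 5 * b 3) ^ 2 + b 2 ^ 2) / b 3

lemma Qf_line {b β : Bs} (hβ : β 3 = 0) (ν : ℝ) (s : ℝ) :
    HasDerivAt (fun s : ℝ => -((b + s • β) 1) + 1 / 100 * Qf (b + s • β) - ν * (b + s • β) 3)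
      (-(β 1) + 1 / 50 * (((b + s • β) 0 * β 0 + ((b + s • β) 1 + 2 / 5 * b 3) * β 1 + (b + s • β) 2 * β 2) / b 3)) s := by
  have h0 : ∀ i : Fin 4, HasDerivAt (fun s : ℝ => (b + s • β) i) (β i) s := fun i => (hasDerivAt_pi.mp (line_deriv b β s)) i
  have e3 : ∀ s : ℝ, (b + s • β) 3 = b 3 := by intro s; simp [hβ]
  have h1 : HasDerivAt (fun s : ℝ => Qf (b + s • β))
      (2 * (((b + s • β) 0 * β 0 + ((b + s • β) 1 + 2 / 5 * b 3) * β 1 + (b + s • β) 2 * β 2) / b 3)) s := by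
    have h2 := ((((h0 0).fun_pow 2).fun_add (((h0 1).add_const (2 / 5 * b 3)).fun_pow 2)).fun_add ((h0 2).fun_pow 2)).div_const (b 3)
    have h3 : (fun s : ℝ => Qf (b + s • β)) = fun s => ((b + s • β) 0 ^ 2 + ((b + s • β) 1 + 2 / 5 * b 3) ^ 2 + (b + s • β) 2 ^ 2) / b 3 := by
      funext s
      rw [Qf, e3]
    rw [h3]
    refine h2.congr_deriv ?_
    simp
    ring
  have h4 : (fun s : ℝ => -((b + s • β) 1) + 1 / 100 * Qf (b + s • β) - ν * (b + s • β) 3) =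
      fun s => -((b + s • β) 1) + 1 / 100 * Qf (b + s • β) - ν * b 3 := by
    funext s; rw [e3]
  rw [h4]
  refine (((h0 1).fun_neg.fun_add (h1.const_mul (1 / 100))).sub_const (ν * b 3)).congr_deriv ?_
  ring

lemma Qf_line2 {b β : Bs} :
    HasDerivAt (fun s : ℝ => -(β 1) + 1 / 50 * (((b + s • β) 0 * β 0 + ((b + s • β) 1 + 2 / 5 * b 3) * β 1 + (b + s • β) 2 * β 2) / b 3))
      (1 / 50 * ((β 0 ^ 2 + β 1 ^ 2 + β 2 ^ 2) / b 3)) 0 := by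
  have h0 : ∀ i : Fin 4, HasDerivAt (fun s : ℝ => (b + s • β) i) (β i) 0 := fun i => (hasDerivAt_pi.mp (line_deriv b β 0)) i
  have h1 := (((((h0 0).mul_const (β 0)).fun_add (((h0 1).add_const (2 / 5 * b 3)).mul_const (β 1))).fun_add ((h0 2).mul_const (β 2))).div_const (b 3)).const_mul (1 / 50)
  refine (h1.const_add (-(β 1))).congr_deriv ?_
  ring

/-- consequences of touching the flat barrier from below -/
theorem touch_flat {h : Bs → ℝ} {b : Bs} {ν : ℝ} (hC : ContDiffAt ℝ 2 h b)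
    (hle : ∀ᶠ b' in 𝓝 b, h b' ≤ -(b' 1) + 1 / 100 * Qf b' - ν * b' 3)
    (heq : h b = -(b 1) + 1 / 100 * Qf b - ν * b 3) {β : Bs} (hβ : β 3 = 0) :
    fderiv ℝ h b β = -(β 1) + 1 / 50 * ((b 0 * β 0 + (b 1 + 2 / 5 * b 3) * β 1 + b 2 * β 2) / b 3) ∧
    fderiv ℝ (fderiv ℝ h) b β β ≤ 1 / 50 * ((β 0 ^ 2 + β 1 ^ 2 + β 2 ^ 2) / b 3) := by
  obtain ⟨a1, a2⟩ := chain_line hC β
  have d1 : ∀ᶠ s in 𝓝 (0:ℝ), HasDerivAt (fun s : ℝ => (-((b + s • β) 1) + 1 / 100 * Qf (b + s • β) - ν * (b + s • β) 3) - h (b + s • β))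
      ((fun s : ℝ => (-(β 1) + 1 / 50 * (((b + s • β) 0 * β 0 + ((b + s • β) 1 + 2 / 5 * b 3) * β 1 + (b + s • β) 2 * β 2) / b 3)) - fderiv ℝ h (b + s • β) β) s) s := by
    filter_upwards [a1] with s hs
    exact (Qf_line hβ ν s).fun_sub hs
  have d2 := (Qf_line2 (b := b) (β := β)).fun_sub a2
  obtain ⟨k1, k2⟩ := test2 d1 d2 (by
    filter_upwards [(tendsto_line b β).eventually hle] with s hs
    simp only [zero_smul, add_zero]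
    rw [heq]
    linarith)
  simp only [zero_smul, add_zero] at k1
  exact ⟨by linarith, by linarith⟩

theorem kappa_upper {h : Bs → ℝ} {b : Bs} {ν κ g : ℝ} {β : Fin 3 → Bs} (hC : ContDiffAt ℝ 2 h b)
    (h3 : 0 < b 3) (hS : b 0 ^ 2 + (b 1 + 2 / 5 * b 3) ^ 2 + b 2 ^ 2 ≤ b 3 ^ 2 / 400)
    (hle : ∀ᶠ b' in 𝓝 b, h b' ≤ -(b' 1) + 1 / 100 * Qf b' - ν * b' 3)
    (heq : h b = -(b 1) + 1 / 100 * Qf b - ν * b 3) (h0 : 0 ≤ h b) (h1 : h b ≤ -(b 1))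
    (F : Frame b (h b) (fderiv ℝ h b) β) (hg2 : g ^ 2 = g2 (fderiv ℝ h b))
    (hb : fderiv ℝ (fderiv ℝ h) b b = 0)
    (hpos : ∀ γ, 0 ≤ fderiv ℝ (fderiv ℝ h) b γ γ)
    (hκ : κ * g ^ 3 = - det (Hm (fderiv ℝ (fderiv ℝ h) b) β)) : κ ^ 2 ≤ 1 / 10 ^ 7 := by
  have hT := fun (γ : Bs) (hγ : γ 3 = 0) => touch_flat hC hle heq hγ
  have hs : ∀ v w, fderiv ℝ (fderiv ℝ h) b v w = fderiv ℝ (fderiv ℝ h) b w v :=
    fun v w => (hC.isSymmSndFDerivAt (by simp)).eq v w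
  -- size of the derivative
  have hL : ∀ γ : Bs, γ 3 = 0 → (fderiv ℝ h b γ + γ 1) ^ 2 ≤ (γ 0 ^ 2 + γ 1 ^ 2 + γ 2 ^ 2) / 10000 := by
    intro γ hγ
    rw [(hT γ hγ).1]
    set x := b 0 * γ 0 + (b 1 + 2 / 5 * b 3) * γ 1 + b 2 * γ 2 with hx
    have cs : x ^ 2 ≤ (b 0 ^ 2 + (b 1 + 2 / 5 * b 3) ^ 2 + b 2 ^ 2) * (γ 0 ^ 2 + γ 1 ^ 2 + γ 2 ^ 2) := by
      rw [hx]
      linarith [sq_nonneg (b 0 * γ 1 - (b 1 + 2 / 5 * b 3) * γ 0), sq_nonneg (b 0 * γ 2 - b 2 * γ 0),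
        sq_nonneg ((b 1 + 2 / 5 * b 3) * γ 2 - b 2 * γ 1)]
    have cs2 : x ^ 2 ≤ b 3 ^ 2 / 400 * (γ 0 ^ 2 + γ 1 ^ 2 + γ 2 ^ 2) := by
      refine cs.trans ?_
      apply mul_le_mul_of_nonneg_right hS (by positivity)
    have e : (-(γ 1) + 1 / 50 * (x / b 3) + γ 1) ^ 2 = x ^ 2 / (2500 * b 3 ^ 2) := by
      have := h3.ne'
      field_simp
      ring
    rw [e, div_le_iff₀ (by positivity)]
    refine cs2.trans ?_
    have h5 : 0 ≤ b 3 ^ 2 * (γ 0 ^ 2 + γ 1 ^ 2 + γ 2 ^ 2) := by positivity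
    linarith
  have hGf : ∀ γ : Bs, γ 3 = 0 → γ 0 ^ 2 + γ 1 ^ 2 + γ 2 ^ 2 ≤ 2 * Gf (fderiv ℝ h b) γ γ := by
    intro γ hγ
    have h4 := hL γ hγ
    have e : Gf (fderiv ℝ h b) γ γ = γ 0 ^ 2 + 3 * γ 1 ^ 2 + 3 * γ 2 ^ 2 - (fderiv ℝ h b γ) ^ 2 := by
      rw [Gf, Bb, hγ]; ring
    rw [e]
    linarith [sq_nonneg (fderiv ℝ h b γ + 2 * γ 1), sq_nonneg (γ 0), sq_nonneg (γ 1), sq_nonneg (γ 2)]
  have hb3 : 1 ≤ b 3 := by
    have hn := F.norm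
    have hh : h b * h b ≤ b 1 ^ 2 := by nlinarith
    unfold Bb at hn
    have : 1 ≤ b 3 ^ 2 := by linarith [sq_nonneg (b 0), sq_nonneg (b 1), sq_nonneg (b 2)]
    nlinarith
  have hup := F.upper hs hb h3 hpos (C := 1 / 25) (by norm_num) (by
    intro γ hγ
    have h4 := (hT γ hγ).2
    have h5 := hGf γ hγ
    have h6 : (γ 0 ^ 2 + γ 1 ^ 2 + γ 2 ^ 2) / b 3 ≤ γ 0 ^ 2 + γ 1 ^ 2 + γ 2 ^ 2 := by
      apply div_le_self (by positivity) hb3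
    linarith)
  have hg : 1 / 2 ≤ g ^ 2 := by
    rw [hg2]
    have l0 := hL (Pi.single 0 1) (by simp)
    have l1 := hL (Pi.single 1 1) (by simp)
    have l2 := hL (Pi.single 2 1) (by simp)
    simp at l0 l1 l2
    unfold g2
    set x0 := fderiv ℝ h b (Pi.single 0 1)
    set x1 := fderiv ℝ h b (Pi.single 1 1)
    set x2 := fderiv ℝ h b (Pi.single 2 1)
    have m1 : x1 ^ 2 ≤ 1.21 := by linarith [sq_nonneg (x1 + 1.01)]
    linarith [sq_nonneg (fderiv ℝ h b (Pi.single 3 1))]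
  set d := det (Hm (fderiv ℝ (fderiv ℝ h) b) β)
  have h2 : d ^ 2 = κ ^ 2 * (g ^ 2) ^ 3 := by
    have : d = -(κ * g ^ 3) := by linarith
    rw [this]; ring
  have h5 : d ^ 2 ≤ ((1 / 25) ^ 3) ^ 2 := pow_le_pow_left₀ hup.1 hup.2 2
  have h6 : (1 / 2 : ℝ) ^ 3 ≤ (g ^ 2) ^ 3 := pow_le_pow_left₀ (by norm_num) hg 3
  have h7 : κ ^ 2 * (1 / 2) ^ 3 ≤ κ ^ 2 * (g ^ 2) ^ 3 := mul_le_mul_of_nonneg_left h6 (sq_nonneg κ)
  rw [← h2] at h7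
  have h8 : κ ^ 2 * (1 / 2) ^ 3 ≤ ((1 / 25) ^ 3) ^ 2 := h7.trans h5
  norm_num at h8 ⊢
  linarith

end Pool.Agent.H804
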