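import Mathlib

set_option autoImplicit false

namespace Pool.Agent.H804

/-- the ambient space `ℝ^{3,2}` -/
abbrev V := Fin 5 → ℝ

/-- the form `x₀y₀+3x₁y₁+3x₂y₂-x₃y₃-x₄y₄` -/
def B (x y : V) : ℝ := x 0 * y 0 + 3 * (x 1 * y 1) + 3 * (x 2 * y 2) - x 3 * y 3 - x 4 * y 4

lemma B_comm (x y : V) : B x y = B y x := by unfold B; ring

lemma B_add_left (x y z : V) : B (x + y) z = B x z + B y z := by simp [B]; ring

lemma B_add_right (x y z : V) : B x (y + z) = B x y + B x z := by simp [B]; ring

lemma B_sub_left (x y z : V) : B (x - y) z = B x z - B y z := by simp [B]; ring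

lemma B_sub_right (x y z : V) : B x (y - z) = B x y - B x z := by simp [B]; ring

lemma B_smul_left (c : ℝ) (x y : V) : B (c • x) y = c * B x y := by simp [B]; ring

lemma B_smul_right (c : ℝ) (x y : V) : B x (c • y) = c * B x y := by simp [B]; ring

lemma B_neg_left (x y : V) : B (-x) y = - B x y := by simp [B]; ring

lemma B_neg_right (x y : V) : B x (-y) = - B x y := by simp [B]; ring

@[simp] lemma B_zero_left (y : V) : B 0 y = 0 := by simp [B]

@[simp] lemma B_zero_right (y : V) : B y 0 = 0 := by simp [B]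

end Pool.Agent.H804
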