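import Pool.Agent.H804.Causal
import Pool.Agent.H804.CauchyA

set_option autoImplicit false

namespace Pool.Agent.H804

open Filter Topology

/-- vertical lines are timelike -/
lemma prec_vt {b : Bs} (hb : Bb b b < 0) (hb3 : 0 < b 3) {s s' : ℝ} (h : s < s') :
    prec (nz (vt b s)) (nz (vt b s')) := by
  have hs := vt_neg hb s
  have hs' := vt_neg hb s'
  obtain ⟨r, hr, e⟩ := nz_pos_smul hs
  obtain ⟨r', hr', e'⟩ := nz_pos_smul hs'
  have q := nz_q hs
  have q' := nz_q hs'
  rw [e, B_smul_left, B_smul_right, B_vt] at q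
  rw [e', B_smul_left, B_smul_right, B_vt] at q'
  rw [e, e']
  constructor
  · rw [B_smul_left, B_smul_right, B_vt]
    have key : (r * (r' * (Bb b b - s * s'))) ^ 2 ≤ 1 ^ 2 := by
      have h1 : (Bb b b - s * s') ^ 2 ≤ (s * s - Bb b b) * (s' * s' - Bb b b) := by linarith [mul_nonneg (neg_nonneg.mpr hb.le) (sq_nonneg (s - s'))]
      calc (r * (r' * (Bb b b - s * s'))) ^ 2 = (r * r') ^ 2 * (Bb b b - s * s') ^ 2 := by ring
        _ ≤ (r * r') ^ 2 * ((s * s - Bb b b) * (s' * s' - Bb b b)) := by gcongr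
        _ = (r * (r * (Bb b b - s * s))) * (r' * (r' * (Bb b b - s' * s'))) := by ring
        _ = 1 ^ 2 := by rw [q, q']; norm_num
    have := abs_le_of_sq_le_sq key (by norm_num)
    exact (abs_le.mp this).1
  · rw [om_smul_left, om_smul_right, om_vt]
    have : b 3 * s' - s * b 3 = b 3 * (s' - s) := by ring
    rw [this]
    have : 0 < s' - s := by linarith
    positivity

/-- lower end of the vertical line over `b` -/
noncomputable def s0 (b : Bs) : ℝ := sInf {s | vt b s ∈ OmC}

lemma O_lower {b : Bs} {s : ℝ} (h : vt b s ∈ OmC) : -(b 3) - √2 * √3 * b 1 < s := by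
  have h1 := h _ km_Lam
  simp [B, vt, km] at h1
  have h3 : (0:ℝ) < √3 := by positivity
  have : 0 < √3 * (s + b 3 + √2 * √3 * b 1) := by
    have e : √3 * (s + b 3 + √2 * √3 * b 1) = √3 * s + √3 * b 3 + √2 * (√3 * √3) * b 1 := by ring
    rw [e, s33]; linarith
  have := (mul_pos_iff_of_pos_left h3).mp this
  linarith

lemma O_bdd (b : Bs) : BddBelow {s | vt b s ∈ OmC} := ⟨_, fun _ h => (O_lower h).le⟩

lemma isOpen_O (b : Bs) : IsOpen {s | vt b s ∈ OmC} := isOpen_OmC.preimage (by fun_prop)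

lemma s0_lt {b : Bs} {s : ℝ} (h : vt b s ∈ OmC) : s0 b < s := by
  obtain ⟨ε, hε, hball⟩ := Metric.isOpen_iff.mp (isOpen_O b) s h
  have h1 : s - ε / 2 ∈ {s | vt b s ∈ OmC} := hball (by
    rw [Metric.mem_ball, Real.dist_eq, abs_lt]; constructor <;> linarith)
  have := csInf_le (O_bdd b) h1
  unfold s0
  linarith

lemma s0_not_mem (b : Bs) : vt b (s0 b) ∉ OmC := fun h => lt_irrefl _ (s0_lt h)

lemma vt_convex {b : Bs} {s s' σ : ℝ} (h : vt b s ∈ OmC) (h' : vt b s' ∈ OmC) (h1 : s ≤ σ) (h2 : σ ≤ s') :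
    vt b σ ∈ OmC := by
  rcases eq_or_lt_of_le (h1.trans h2) with e | e
  · have : σ = s := by linarith
    rw [this]; exact h
  · have hd : 0 < s' - s := by linarith
    have e1 : vt b σ = ((s' - σ) / (s' - s)) • vt b s + ((σ - s) / (s' - s)) • vt b s' := by
      rw [← vt_smul, ← vt_smul, ← vt_add]
      congr 1
      · rw [← add_smul]
        have : (s' - σ) / (s' - s) + (σ - s) / (s' - s) = 1 := by field_simp; ring
        rw [this, one_smul]
      · field_simp; ring
    rw [e1]
    apply convex_OmC h h'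
    · apply div_nonneg <;> linarith
    · apply div_nonneg <;> linarith
    · field_simp; ring

end Pool.Agent.H804
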