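import Pool.Agent.H804.Core2
import Pool.Agent.H804.VertA
import Pool.Agent.H804.Lift

set_option autoImplicit false

namespace Pool.Agent.H804

open Filter Topology KTime

/-- the region of the base below the core -/
def Rg : Set Bs := {b | Bb b b < 0 ∧ 0 < b 3 ∧ ∃ s, Cn CC (vt b s)}

lemma Cn_nonneg {b : Bs} {s : ℝ} (h : Cn CC (vt b s)) : 0 ≤ s ∧ b 0 ^ 2 + 3 * b 1 ^ 2 ≤ 4 * s ^ 2 := by
  have := Tst_cone_bound (Cn_Tst h)
  simpa [vt] using this

lemma isClosed_A {b : Bs} (hb : Bb b b < 0) : IsClosed {s | Cn CC (vt b s)} := by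
  rw [isClosed_iff_clusterPt]
  intro s hs
  have : (𝓝 s ⊓ 𝓟 {s | Cn CC (vt b s)}).NeBot := hs
  apply Cn_limit (l := 𝓝 s ⊓ 𝓟 {s | Cn CC (vt b s)}) (f := fun s => vt b s)
    (eventually_inf_principal.mpr (Eventually.of_forall fun _ h => h)) (vt_neg hb s)
  have hc : Continuous fun s => vt b s := by fun_prop
  exact (hc.tendsto s).mono_left inf_le_left

/-- lowest core point over `b` -/
noncomputable def s1 (b : Bs) : ℝ := sInf {s | Cn CC (vt b s)}

lemma s1_mem {b : Bs} (hb : b ∈ Rg) : Cn CC (vt b (s1 b)) :=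
  (isClosed_A hb.1).csInf_mem hb.2.2 ⟨0, fun _ h => (Cn_nonneg h).1⟩

lemma s1_le {b : Bs} {s : ℝ} (h : Cn CC (vt b s)) : s1 b ≤ s :=
  csInf_le ⟨0, fun _ h => (Cn_nonneg h).1⟩ h

/-- points on the vertical line strictly between the past boundary and the core -/
def Bel (b : Bs) (s : ℝ) : Prop := vt b s ∈ OmC ∧ ∀ s' ≤ s, ¬ Cn CC (vt b s')

lemma Bel_iff {b : Bs} (hb : b ∈ Rg) {s : ℝ} : Bel b s ↔ s0 b < s ∧ s < s1 b := by
  constructor
  · rintro ⟨h1, h2⟩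
    refine ⟨s0_lt h1, ?_⟩
    by_contra hcon
    exact h2 _ (not_lt.mp hcon) (s1_mem hb)
  · rintro ⟨h1, h2⟩
    have hmem := s1_mem hb
    obtain ⟨s', hs', hlt⟩ := exists_lt_of_csInf_lt (s := {s | vt b s ∈ OmC}) ⟨_, hmem.1⟩ h1
    refine ⟨vt_convex hs' hmem.1 hlt.le h2.le, ?_⟩
    intro s' hs' hC
    have := s1_le hC
    linarith

lemma s0_lt_s1 {b : Bs} (hb : b ∈ Rg) : s0 b < s1 b := s0_lt (s1_mem hb).1

/-- the vertical causal curve through the interval `(p,q)` -/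
lemma vert_causal {b : Bs} (hb : Bb b b < 0) (hb3 : 0 < b 3) {p q : ℝ} (hpq : p < q) {s t : ℝ} (h : s < t) :
    Q3.Prec (nz (vt b (par p q s))) (nz (vt b (par p q t))) := by
  rw [prec_eq]
  exact prec_vt hb hb3 (par_strictMono hpq h)

lemma continuous_nzvt {b : Bs} (hb : Bb b b < 0) (p q : ℝ) : Continuous fun u => nz (vt b (par p q u)) := by
  rw [continuous_iff_continuousAt]
  intro u
  have h1 : ContinuousAt (fun u => vt b (par p q u)) u := by
    have : Continuous fun u => vt b (par p q u) := continuous_vt continuous_const (par_continuous p q)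
    exact this.continuousAt
  exact ContinuousAt.comp (f := fun u => vt b (par p q u)) (g := nz) (continuousAt_nz (vt_neg hb _)) h1

lemma Bel_past {b : Bs} (hb : b ∈ Rg) {s : ℝ} (h : Bel b s) : nz (vt b s) ∈ M0.past CC := by
  refine ⟨nz_Om h.1, fun hc => h.2 s le_rfl ⟨h.1, hc⟩, nz (vt b (s1 b)), (s1_mem hb).2, ?_⟩
  obtain ⟨hs0, hs1⟩ := (Bel_iff hb).mp h
  -- extend a little beyond
  obtain ⟨ε, hε, hball⟩ := Metric.isOpen_iff.mp (isOpen_O b) (s1 b) (s1_mem hb).1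
  set q := s1 b + ε with hq
  have hO : ∀ σ ∈ Set.Ioo (s0 b) q, vt b σ ∈ OmC := by
    intro σ hσ
    rcases lt_or_ge σ (s1 b) with h1 | h1
    · exact ((Bel_iff hb).mpr ⟨hσ.1, h1⟩).1
    · apply hball
      rw [Metric.mem_ball, Real.dist_eq, abs_lt]; constructor <;> linarith [hσ.2]
  have hpq : s0 b < q := by linarith [s0_lt_s1 hb]
  obtain ⟨u, hu⟩ := par_surj hpq (t := s) ⟨hs0, by linarith⟩
  obtain ⟨v, hv⟩ := par_surj hpq (t := s1 b) ⟨s0_lt_s1 hb, by linarith⟩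
  refine ⟨fun u => ⟨nz (vt b (par (s0 b) q u)), nz_Om (hO _ (par_mem hpq u))⟩, ⟨?_, ?_⟩, u, v, ?_, ?_, ?_⟩
  · exact (continuous_nzvt hb.1 _ _).subtype_mk _
  · intro t₀
    exact ⟨1, one_pos, fun s t _ hst _ => vert_causal hb.1 hb.2.1 hpq hst⟩
  · rw [← (par_strictMono hpq).lt_iff_lt, hu, hv]; exact hs1
  · show nz (vt b (par (s0 b) q u)) = _
    rw [hu]
  · show nz (vt b (par (s0 b) q v)) = _
    rw [hv]

/-- the vertical curve in the past of the core -/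
noncomputable def cvt {b : Bs} (hb : b ∈ Rg) (u : ℝ) : M0.past CC :=
  ⟨nz (vt b (par (s0 b) (s1 b) u)), Bel_past hb ((Bel_iff hb).mpr (par_mem (s0_lt_s1 hb) u))⟩

lemma cvt_causal {b : Bs} (hb : b ∈ Rg) : Q3.IsCausal Subtype.val (cvt hb) := by
  refine ⟨(continuous_nzvt hb.1 _ _).subtype_mk _, ?_⟩
  intro t₀
  exact ⟨1, one_pos, fun s t _ hst _ => vert_causal hb.1 hb.2.1 (s0_lt_s1 hb) hst⟩

lemma cvt_inext {b : Bs} (hb : b ∈ Rg) : IsInextendible (cvt hb) := by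
  have hcn : ∀ s : ℝ, ContinuousAt (fun s => nz (vt b s)) s := by
    intro s
    have h1 : Continuous fun s => vt b s := by fun_prop
    exact ContinuousAt.comp (f := fun s => vt b s) (g := nz) (continuousAt_nz (vt_neg hb.1 _)) h1.continuousAt
  intro y
  constructor
  · intro hy
    have h1 : Tendsto (fun u => (cvt hb u : V)) atTop (𝓝 (y : V)) := (continuous_subtype_val.tendsto y).comp hy
    have h2 : Tendsto (fun u => nz (vt b (par (s0 b) (s1 b) u))) atTop (𝓝 (nz (vt b (s1 b)))) :=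
      (hcn (s1 b)).tendsto.comp ((par_tendsto_atTop (s0_lt_s1 hb)).mono_right nhdsWithin_le_nhds)
    have h3 := tendsto_nhds_unique h1 h2
    exact y.2.2.1 (by rw [h3]; exact (s1_mem hb).2)
  · intro hy
    have h1 : Tendsto (fun u => (cvt hb u : V)) atBot (𝓝 (y : V)) := (continuous_subtype_val.tendsto y).comp hy
    have h2 : Tendsto (fun u => nz (vt b (par (s0 b) (s1 b) u))) atBot (𝓝 (nz (vt b (s0 b)))) :=
      (hcn (s0 b)).tendsto.comp ((par_tendsto_atBot (s0_lt_s1 hb)).mono_right nhdsWithin_le_nhds)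
    have h3 := tendsto_nhds_unique h1 h2
    have h4 : (y : V) ∈ Om := y.2.1
    rw [h3] at h4
    obtain ⟨r, hr, he⟩ := nz_pos_smul (vt_neg hb.1 (s0 b))
    rw [he] at h4
    have h5 := OmC_smul h4.1 (inv_pos.mpr hr)
    rw [smul_smul, inv_mul_cancel₀ hr.ne', one_smul] at h5
    exact s0_not_mem b h5

lemma ev_not_Cn {z : V} (hz : B z z < 0) (h : ¬ Cn CC z) : ∀ᶠ z' in 𝓝 z, ¬ Cn CC z' := by
  by_contra hcon
  rw [not_eventually] at hcon
  simp only [not_not] at hcon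
  have : (𝓝 z ⊓ 𝓟 {z' | Cn CC z'}).NeBot := by
    rw [← frequently_mem_iff_neBot]; exact hcon
  exact h (Cn_limit (l := 𝓝 z ⊓ 𝓟 {z' | Cn CC z'}) (f := id)
    (eventually_inf_principal.mpr (Eventually.of_forall fun _ h => h)) hz inf_le_left)

lemma Bel_open {b : Bs} (hb : b ∈ Rg) {s : ℝ} (h : Bel b s) : ∀ᶠ p : Bs × ℝ in 𝓝 (b, s), Bel p.1 p.2 := by
  obtain ⟨hs0, hs1⟩ := (Bel_iff hb).mp h
  set s' := (s + s1 b) / 2 with hs'
  have e1 : ∀ᶠ p : Bs × ℝ in 𝓝 (b, s), vt p.1 p.2 ∈ OmC := by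
    have hc : Continuous fun p : Bs × ℝ => vt p.1 p.2 := by fun_prop
    exact hc.continuousAt.eventually_mem (isOpen_OmC.mem_nhds h.1)
  have e2 : ∀ᶠ b' in 𝓝 b, ∀ σ ∈ Set.Icc (0:ℝ) s', ¬ Cn CC (vt b' σ) := by
    apply isCompact_Icc.eventually_forall_of_forall_eventually
    intro σ hσ
    have h1 : ¬ Cn CC (vt b σ) := by
      intro hC
      have := s1_le hC
      linarith [hσ.2]
    have hc : Continuous fun p : Bs × ℝ => vt p.1 p.2 := by fun_prop
    exact (hc.tendsto (b, σ)).eventually (ev_not_Cn (vt_neg hb.1 σ) h1)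
  have e3 : ∀ᶠ p : Bs × ℝ in 𝓝 (b, s), p.2 < s' := by
    apply (continuous_snd.tendsto (b, s)).eventually_lt_const
    show s < s'
    linarith
  have e2' : ∀ᶠ p : Bs × ℝ in 𝓝 (b, s), ∀ σ ∈ Set.Icc (0:ℝ) s', ¬ Cn CC (vt p.1 σ) :=
    (continuous_fst.tendsto (b, s)).eventually e2
  filter_upwards [e1, e2', e3] with p h1 h2 h3
  refine ⟨h1, ?_⟩
  intro σ hσ hC
  exact h2 σ ⟨(Cn_nonneg hC).1, by linarith⟩ hC

end Pool.Agent.H804
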